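import Pool.Agent.H97.LAY.Stmts

set_option autoImplicit false

namespace Pool.LAY

open Finset

theorem EX1_pow_sub_pow_le_aux (x f : ℝ) (a : ℕ) (hf : 0 ≤ f) (hfx : f ≤ x) :
    x ^ a - f ^ a ≤ (a : ℝ) * x ^ (a - 1) * (x - f) := by
  rw [← geom_sum₂_mul]
  apply mul_le_mul_of_nonneg_right _ (by linarith)
  calc ∑ i ∈ range a, x ^ i * f ^ (a - 1 - i)
      ≤ ∑ i ∈ range a, x ^ (a - 1) := by
        apply Finset.sum_le_sum
        intro i hi
        have hi' : i < a := Finset.mem_range.mp hi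
        calc x ^ i * f ^ (a - 1 - i) ≤ x ^ i * x ^ (a - 1 - i) := by
              apply mul_le_mul_of_nonneg_left _ (pow_nonneg (by linarith) _)
              exact pow_le_pow_left₀ hf hfx _
          _ = x ^ (a - 1) := by
              rw [← pow_add]; congr 1; omega
    _ = (a : ℝ) * x ^ (a - 1) := by simp

theorem EX1_le_pow_sub_pow_aux (x f : ℝ) (a : ℕ) (hf : 0 ≤ f) (hfx : f ≤ x) :
    (a : ℝ) * f ^ (a - 1) * (x - f) ≤ x ^ a - f ^ a := by
  rw [← geom_sum₂_mul]
  apply mul_le_mul_of_nonneg_right _ (by linarith)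
  calc (a : ℝ) * f ^ (a - 1) = ∑ i ∈ range a, f ^ (a - 1) := by simp
    _ ≤ ∑ i ∈ range a, x ^ i * f ^ (a - 1 - i) := by
        apply Finset.sum_le_sum
        intro i hi
        have hi' : i < a := Finset.mem_range.mp hi
        calc f ^ (a - 1) = f ^ i * f ^ (a - 1 - i) := by
              rw [← pow_add]; congr 1; omega
          _ ≤ x ^ i * f ^ (a - 1 - i) := by
              apply mul_le_mul_of_nonneg_right _ (pow_nonneg hf _)
              exact pow_le_pow_left₀ hf hfx _

theorem EX1 (h1 : QNNStmt) : EX1Stmt := by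
  intro a b bs x0 x1 tl ha hb hbs hmax hx1
  obtain ⟨hnn, hsum, hbest⟩ := hmax
  have hx0 : 0 ≤ x0 := hnn x0 (by simp)
  have htl : NN tl := fun y hy => hnn y (by simp [hy])
  set U := Q bs tl with hU
  set T1 := Q (b :: bs) tl with hT1
  set V := Q (1 :: b :: bs) tl with hV
  set R := Q (a :: 1 :: b :: bs) tl with hR
  have hVnn : 0 ≤ V := (h1 _ _ htl).1
  have key : ∀ e : ℝ, 0 < e → e < x1 →
      x0 ^ a * (x1 - e) ^ b * U ≤ (a : ℝ) * x1 ^ (a - 1) * V := by
    intro e he hex
    have hnn' : NN (x0 :: e :: (x1 - e) :: tl) := by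
      intro y hy
      simp only [List.mem_cons] at hy
      rcases hy with rfl | rfl | rfl | hy
      · exact hx0
      · exact he.le
      · linarith
      · exact htl y hy
    have hsum' : (x0 :: e :: (x1 - e) :: tl).sum = 1 := by
      simp only [List.sum_cons] at hsum ⊢
      linarith
    have hle := hbest _ hnn' hsum'
    have hQ1 : Q (a :: 1 :: b :: bs) (x0 :: x1 :: tl) =
        x0 ^ a * (x1 * T1 + V) + (x1 ^ a * V + R) := by
      simp only [Q, pow_one, hT1, hV, hR]
    have hftl : NN ((x1 - e) :: tl) := by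
      intro y hy
      simp only [List.mem_cons] at hy
      rcases hy with rfl | hy
      · linarith
      · exact htl y hy
    have hstep := (h1 (a :: 1 :: b :: bs) ((x1 - e) :: tl) hftl).2 e he.le
    have hQ2 : Q (a :: 1 :: b :: bs) ((x1 - e) :: tl) = (x1 - e) ^ a * V + R := by
      simp only [Q, hV, hR]
    have hQ3 : Q (1 :: b :: bs) (e :: (x1 - e) :: tl) =
        e * ((x1 - e) ^ b * U + T1) + ((x1 - e) * T1 + V) := by
      simp only [Q, pow_one, hT1, hV, hU]
    have hQ4 : Q (a :: 1 :: b :: bs) (x0 :: e :: (x1 - e) :: tl) =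
        x0 ^ a * Q (1 :: b :: bs) (e :: (x1 - e) :: tl) +
          Q (a :: 1 :: b :: bs) (e :: (x1 - e) :: tl) := by
      rw [Q]
    rw [hQ1, hQ4, hQ3] at hle
    rw [hQ2] at hstep
    have hp := EX1_pow_sub_pow_le_aux x1 (x1 - e) a (by linarith) (by linarith)
    have hmulV := mul_le_mul_of_nonneg_right hp hVnn
    have h2 : (x0 ^ a * (x1 - e) ^ b * U) * e ≤ ((a : ℝ) * x1 ^ (a - 1) * V) * e := by
      have e1 : (a : ℝ) * x1 ^ (a - 1) * (x1 - (x1 - e)) * V =
          ((a : ℝ) * x1 ^ (a - 1) * V) * e := by ring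
      rw [e1] at hmulV
      refine le_trans ?_ hmulV
      nlinarith [hle, hstep]
    exact le_of_mul_le_mul_right h2 he
  have hcont : Filter.Tendsto (fun e : ℝ => x0 ^ a * (x1 - e) ^ b * U)
      (nhdsWithin 0 (Set.Ioi 0)) (nhds (x0 ^ a * x1 ^ b * U)) := by
    have hc : Continuous (fun e : ℝ => x0 ^ a * (x1 - e) ^ b * U) := by fun_prop
    have := hc.tendsto 0
    simp only [sub_zero] at this
    exact this.mono_left nhdsWithin_le_nhds
  refine le_of_tendsto hcont ?_
  have : Set.Ioo (0 : ℝ) x1 ∈ nhdsWithin (0 : ℝ) (Set.Ioi 0) := Ioo_mem_nhdsGT hx1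
  filter_upwards [this] with e he
  exact key e he.1 he.2

end Pool.LAY
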