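import Pool.Agent.H97.LAY.Stmts

set_option autoImplicit false

namespace Pool.LAY

open Finset

theorem qnn_nonneg (xs : List ℝ) : ∀ ls : List ℕ, NN xs → 0 ≤ Q ls xs := by
  induction xs with
  | nil =>
      intro ls _
      cases ls with
      | nil => simp [Q]
      | cons l ls => simp [Q]
  | cons x xs ih =>
      intro ls h
      have hx : 0 ≤ x := h x (by simp)
      have hxs : NN xs := fun y hy => h y (by simp [hy])
      cases ls with
      | nil => simp [Q]
      | cons l ls =>
          rw [Q]
          exact add_nonneg (mul_nonneg (pow_nonneg hx l) (ih ls hxs)) (ih (l :: ls) hxs)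

theorem QNN : QNNStmt := by
  intro ls xs h
  refine ⟨qnn_nonneg xs ls h, ?_⟩
  intro x hx
  cases ls with
  | nil => simp [Q]
  | cons l ls =>
      rw [Q.eq_3]
      exact le_add_of_nonneg_left (mul_nonneg (pow_nonneg hx l) (qnn_nonneg xs ls h))

end Pool.LAY
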