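import Pool.Agent.H97.LAY.Stmts

/-!
# Row ALG of the board `lay`
-/

set_option autoImplicit false

namespace Pool.LAY

open Finset

/-- one term of the binomial formula -/
theorem ALG_term (w : ℕ) (X Y : ℝ) (hX : 0 ≤ X) (hY : 0 ≤ Y) :
    ((w : ℝ) + 2) * ((w : ℝ) + 1) * (X ^ w * Y ^ 2) ≤ 2 * (X + Y) ^ (w + 2) := by
  have h1 : X ^ w * Y ^ 2 * ((w + 2).choose w : ℝ) ≤ (X + Y) ^ (w + 2) := by
    rw [add_pow]
    have h2 := Finset.single_le_sum (f := fun m => X ^ m * Y ^ (w + 2 - m) * ((w + 2).choose m : ℝ))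
      (s := Finset.range (w + 2 + 1))
      (fun i _ => by positivity) (Finset.mem_range.2 (by omega : w < w + 2 + 1))
    have h3 : w + 2 - w = 2 := by omega
    simp only [h3] at h2
    exact h2
  have h4 : ((w + 2).choose w : ℝ) * 2 = ((w : ℝ) + 2) * ((w : ℝ) + 1) := by
    have h5 : (w + 2).choose w = (w + 2).choose 2 := by
      rw [← Nat.choose_symm (by omega : w ≤ w + 2)]
      rw [show w + 2 - w = 2 by omega]
    rw [h5, Nat.cast_choose_two]
    push_cast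
    ring
  calc ((w : ℝ) + 2) * ((w : ℝ) + 1) * (X ^ w * Y ^ 2)
      = 2 * (X ^ w * Y ^ 2 * ((w + 2).choose w : ℝ)) := by rw [← h4]; ring
    _ ≤ 2 * (X + Y) ^ (w + 2) := by linarith

/-- row ALG -/
theorem ALG (h1 : W12Stmt) (h2 : W11Stmt) (h3 : BINStmt) (h4 : QNNStmt) : ALGStmt := by
  intro a b X ys ha hb hba hX hys
  have hS : 0 ≤ ys.sum := List.sum_nonneg hys
  have hQ : 0 ≤ Q [1, b] ys := (h4 [1, b] ys hys).1
  obtain ⟨w, hw⟩ : ∃ w, a = w + (b + 1) := ⟨a - (b + 1), by omega⟩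
  have hw2 : a - 1 - b = w := by omega
  rw [hw2]
  have hXw : 0 ≤ X ^ w := pow_nonneg hX w
  rcases Nat.lt_or_ge b 2 with hb2 | hb2
  · have hb1 : b = 1 := by omega
    subst hb1
    have h5 := h2 ys hys
    have h6 := ALG_term w X ys.sum hX hS
    have hw1 : 1 ≤ w := by omega
    have hw1' : (1 : ℝ) ≤ (w : ℝ) := by exact_mod_cast hw1
    rw [hw]
    push_cast
    have h7 : X ^ w * (2 * Q [1, 1] ys) ≤ X ^ w * ys.sum ^ 2 :=
      mul_le_mul_of_nonneg_left h5 hXw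
    have h8 : 0 ≤ X ^ w * ys.sum ^ 2 := by positivity
    have h9 : ((w : ℝ) + 2) * (2 * (X ^ w * ys.sum ^ 2)) ≤ 2 * (X + ys.sum) ^ (w + 2) := by
      refine le_trans ?_ h6
      have : ((w : ℝ) + 2) * (2 * (X ^ w * ys.sum ^ 2)) ≤
          ((w : ℝ) + 2) * (((w : ℝ) + 1) * (X ^ w * ys.sum ^ 2)) := by
        apply mul_le_mul_of_nonneg_left _ (by positivity)
        apply mul_le_mul_of_nonneg_right _ h8
        linarith
      linarith
    have h10 : 0 ≤ (X + ys.sum) ^ (w + 2) := by positivity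
    have h11 : ((w : ℝ) + 2) * (X ^ w * (2 * Q [1, 1] ys)) ≤
        ((w : ℝ) + 2) * (X ^ w * ys.sum ^ 2) :=
      mul_le_mul_of_nonneg_left h7 (by positivity)
    have h12 : ((w : ℝ) + 2) * X ^ w * Q [1, 1] ys =
        (1 / 2) * (((w : ℝ) + 2) * (X ^ w * (2 * Q [1, 1] ys))) := by ring
    rw [h12]
    linarith
  · have h5 := h1 b ys hb2 hys
    have h6 := h3 w (b + 1) X ys.sum (by omega) hX hS
    rw [← hw] at h6
    have hac : (a : ℝ) = (w : ℝ) + ((b + 1 : ℕ) : ℝ) := by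
      rw [hw]; push_cast; ring
    rw [← hac] at h6
    have hb0 : (0 : ℝ) < (b : ℝ) + 1 := by positivity
    have h7 : ((a : ℝ) * X ^ w) * (4 * ((b : ℝ) + 1) * Q [1, b] ys) ≤
        ((a : ℝ) * X ^ w) * (3 * ys.sum ^ (b + 1)) :=
      mul_le_mul_of_nonneg_left h5 (by positivity)
    push_cast at h6
    have h8 : 4 * ((b : ℝ) + 1) * ((a : ℝ) * X ^ w * Q [1, b] ys) ≤
        4 * ((b : ℝ) + 1) * ((3 / 4) * (X + ys.sum) ^ a) := by
      have e1 : 4 * ((b : ℝ) + 1) * ((a : ℝ) * X ^ w * Q [1, b] ys) =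
          ((a : ℝ) * X ^ w) * (4 * ((b : ℝ) + 1) * Q [1, b] ys) := by ring
      have e2 : ((a : ℝ) * X ^ w) * (3 * ys.sum ^ (b + 1)) =
          3 * ((a : ℝ) * (X ^ w * ys.sum ^ (b + 1))) := by ring
      rw [e1]
      refine le_trans h7 ?_
      rw [e2]
      linarith
    exact le_of_mul_le_mul_left h8 (by positivity)

end Pool.LAY
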