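import Pool.Agent.H97.LAY.Stmts

set_option autoImplicit false

namespace Pool.LAY

open Finset

/-- `2 b y^(b-1) z ≤ (y+z)^b` for `b = n + 2`. -/
theorem amg_aux (n : ℕ) (y z : ℝ) (hy : 0 ≤ y) (hz : 0 ≤ z) :
    2 * ((n : ℝ) + 2) * (y ^ (n + 1) * z) ≤ (y + z) ^ (n + 2) := by
  rcases eq_or_lt_of_le hy with h0 | hpos
  · rw [← h0]
    have : (0 : ℝ) ^ (n + 1) = 0 := zero_pow (Nat.succ_ne_zero n)
    rw [this]
    have : 0 ≤ (0 + z) ^ (n + 2) := by positivity
    simpa using this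
  · have hn1 : (0 : ℝ) < (n : ℝ) + 1 := by positivity
    set r : ℝ := 1 + 1 / ((n : ℝ) + 1) with hr
    have hrpos : 0 < r := by positivity
    have hr1 : ((n : ℝ) + 1) * r = (n : ℝ) + 2 := by
      rw [hr]; field_simp; ring
    -- Bernoulli for `r`
    have hB : (2 : ℝ) ≤ r ^ (n + 1) := by
      have hb := one_add_mul_le_pow (a := 1 / ((n : ℝ) + 1))
        (by have : (0 : ℝ) ≤ 1 / ((n : ℝ) + 1) := by positivity
            linarith) (n + 1)
      have e : (1 : ℝ) + ((n + 1 : ℕ) : ℝ) * (1 / ((n : ℝ) + 1)) = 2 := by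
        push_cast; field_simp; norm_num
      rw [e] at hb
      exact hb
    set u : ℝ := y * r with hu
    have hupos : 0 < u := mul_pos hpos hrpos
    have hA := one_add_mul_le_pow (a := (y + z) / u - 1)
        (by have : (0 : ℝ) ≤ (y + z) / u := by positivity
            linarith) (n + 2)
    have e1 : (1 : ℝ) + ((y + z) / u - 1) = (y + z) / u := by ring
    rw [e1, div_pow] at hA
    have hup : 0 < u ^ (n + 2) := pow_pos hupos _
    rw [le_div_iff₀ hup] at hA
    have e2 : (1 + ((n + 2 : ℕ) : ℝ) * ((y + z) / u - 1)) * u ^ (n + 2)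
        = u ^ (n + 1) * (((n : ℝ) + 2) * z) := by
      have hune : u ≠ 0 := ne_of_gt hupos
      have e3 : (1 + ((n + 2 : ℕ) : ℝ) * ((y + z) / u - 1)) * u
          = ((n : ℝ) + 2) * z := by
        have e4 : ((y + z) / u - 1) * u = y + z - u := by
          field_simp
        have e5 : (1 + ((n + 2 : ℕ) : ℝ) * ((y + z) / u - 1)) * u
            = u + ((n : ℝ) + 2) * (((y + z) / u - 1) * u) := by
          push_cast; ring
        rw [e5, e4, hu]
        have : ((n : ℝ) + 1) * (y * r) = y * ((n : ℝ) + 2) := by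
          rw [← hr1]; ring
        linarith
      calc (1 + ((n + 2 : ℕ) : ℝ) * ((y + z) / u - 1)) * u ^ (n + 2)
          = u ^ (n + 1) * ((1 + ((n + 2 : ℕ) : ℝ) * ((y + z) / u - 1)) * u) := by ring
        _ = _ := by rw [e3]
    rw [e2] at hA
    have h6 : u ^ (n + 1) = y ^ (n + 1) * r ^ (n + 1) := by rw [hu, mul_pow]
    rw [h6] at hA
    have h7 : 0 ≤ y ^ (n + 1) * (((n : ℝ) + 2) * z) := by positivity
    have h8 : y ^ (n + 1) * (((n : ℝ) + 2) * z) * 2
        ≤ y ^ (n + 1) * (((n : ℝ) + 2) * z) * r ^ (n + 1) := mul_le_mul_of_nonneg_left hB h7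
    have h9 : y ^ (n + 1) * r ^ (n + 1) * (((n : ℝ) + 2) * z)
        = y ^ (n + 1) * (((n : ℝ) + 2) * z) * r ^ (n + 1) := by ring
    rw [h9] at hA
    linarith

theorem AMG : AMGStmt := by
  intro b y z hb hy hz
  obtain ⟨n, rfl⟩ : ∃ n, b = n + 2 := ⟨b - 2, by omega⟩
  have h := amg_aux n y z hy hz
  have e : n + 2 - 1 = n + 1 := by omega
  rw [e]
  push_cast
  have hp : 0 ≤ y ^ (n + 1) * z := by positivity
  have hn : (0 : ℝ) ≤ (n : ℝ) := Nat.cast_nonneg _
  nlinarith [mul_nonneg hn hp]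

end Pool.LAY
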