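import Pool.Agent.H97.LAY.Stmts

set_option autoImplicit false

namespace Pool.LAY

open Finset

theorem D_nil_left (xs : List ℕ) : D [] xs = 1 := by cases xs <;> rfl

theorem APP : APPStmt := by
  intro ls xs
  induction xs generalizing ls with
  | nil =>
    intro ys
    cases ls with
    | nil => simp [D_nil_left]
    | cons l ls =>
      rw [Finset.sum_range_succ']
      have h : ∀ i ∈ range (l :: ls).length,
          D ((l :: ls).take (i + 1)) [] * D ((l :: ls).drop (i + 1)) ys = 0 := by
        intro i _
        simp [D]
      rw [Finset.sum_eq_zero h]
      simp [D_nil_left]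
  | cons x xs ih =>
    intro ys
    cases ls with
    | nil => simp [D_nil_left]
    | cons l ls =>
      rw [Finset.sum_range_succ']
      have h : ∀ i ∈ range (l :: ls).length,
          D ((l :: ls).take (i + 1)) (x :: xs) * D ((l :: ls).drop (i + 1)) ys =
            x.choose l * (D (ls.take i) xs * D (ls.drop i) ys) +
              D ((l :: ls).take (i + 1)) xs * D ((l :: ls).drop (i + 1)) ys := by
        intro i _
        simp only [List.take_succ_cons, List.drop_succ_cons, D]
        ring
      rw [Finset.sum_congr rfl h, Finset.sum_add_distrib, ← Finset.mul_sum]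
      have e1 : D (l :: ls) (x :: xs ++ ys) =
          x.choose l * D ls (xs ++ ys) + D (l :: ls) (xs ++ ys) := rfl
      rw [e1, ih ls ys, ih (l :: ls) ys, Finset.sum_range_succ' _ ((l :: ls).length)]
      simp only [List.take_zero, List.drop_zero, D_nil_left, List.length_cons]
      ring

end Pool.LAY
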