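import Pool.Agent.H97.LAY.Stmts

/-!
# Row BIN of the board `lay`
-/

set_option autoImplicit false

namespace Pool.LAY

theorem BIN : BINStmt := by
  intro w u X Y hu hX hY
  have h1 : ((w + u).choose w : ℝ) * (X ^ w * Y ^ u) ≤ (X + Y) ^ (w + u) := by
    rw [add_pow]
    have h2 := Finset.single_le_sum
      (f := fun m => X ^ m * Y ^ (w + u - m) * ((w + u).choose m : ℝ))
      (s := Finset.range (w + u + 1)) (fun i _ => by positivity)
      (Finset.mem_range.2 (by omega) : w ∈ Finset.range (w + u + 1))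
    have h3 : w + u - w = u := by omega
    simp only [h3] at h2
    linarith [h2, mul_comm (X ^ w * Y ^ u) (((w + u).choose w : ℝ))]
  have h2 : ((w + u : ℕ) : ℝ) ≤ (u : ℝ) * ((w + u).choose w : ℝ) := by
    obtain ⟨v, rfl⟩ : ∃ v, u = v + 1 := ⟨u - 1, by omega⟩
    have h3 : (w + (v + 1)) * (w + v).choose v = (w + (v + 1)).choose (v + 1) * (v + 1) := by
      have := Nat.add_one_mul_choose_eq (w + v) v
      simpa [Nat.add_assoc] using this
    have h4 : (w + (v + 1)).choose (v + 1) = (w + (v + 1)).choose w := by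
      rw [← Nat.choose_symm_of_eq_add]
      omega
    have h5 : 1 ≤ (w + v).choose v := Nat.choose_pos (by omega)
    have h6 : w + (v + 1) ≤ (v + 1) * (w + (v + 1)).choose w := by
      rw [← h4, mul_comm (v + 1), ← h3]
      nlinarith
    exact_mod_cast h6
  have h3 : (0 : ℝ) ≤ X ^ w * Y ^ u := by positivity
  have hu0 : (0 : ℝ) ≤ (u : ℝ) := Nat.cast_nonneg _
  have h4 := mul_le_mul_of_nonneg_right h2 h3
  have h5 := mul_le_mul_of_nonneg_left h1 hu0
  push_cast at h4
  linarith [mul_assoc (u : ℝ) (((w + u).choose w : ℝ)) (X ^ w * Y ^ u)]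

end Pool.LAY
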