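import Pool.Agent.H97.LAY.Stmts5

/-!
# Board `lay`, row CHF (typed by helper44)
-/

set_option autoImplicit false

namespace Pool.LAY

open Finset

theorem CHF (hI : IMHStmt) (hA : QAPStmt) (hN : QNNStmt) : CHFStmt := by
  intro L1 L2 a pre tl v ha hl hM hv
  set ls := L1 ++ a :: L2 with hls
  set N := ls.sum with hNdef
  have hN1 : 1 ≤ N := by
    rw [hNdef, hls, List.sum_append, List.sum_cons]
    omega
  have hNr : (0 : ℝ) < (N : ℝ) := by exact_mod_cast hN1
  have har : (0 : ℝ) < (a : ℝ) := by exact_mod_cast ha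
  set ξ : ℝ := (N : ℝ) * v with hξ
  have hξ0 : 0 < ξ := mul_pos hNr hv
  set t : ℝ := (a : ℝ) / ξ with ht
  have ht0 : 0 < t := div_pos har hξ0
  have htξ : ξ * t = a := by
    rw [ht]
    field_simp
  obtain ⟨hnn, hsum, hmax⟩ := hM
  have hpre : NN pre := fun x hx => hnn x (List.mem_append_left _ hx)
  have htl : NN tl := fun x hx => hnn x (List.mem_append_right _ (List.mem_cons_of_mem _ hx))
  have htv : 0 < t * v := mul_pos ht0 hv
  set ys : List ℝ := pre ++ (t * v) :: tl with hys
  have hysn : NN ys := by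
    intro x hx
    rcases List.mem_append.1 hx with h | h
    · exact hpre x h
    · rcases List.mem_cons.1 h with h | h
      · rw [h]; exact htv.le
      · exact htl x h
  have hyss : ys.sum = 1 + v * (t - 1) := by
    rw [List.sum_append, List.sum_cons] at hsum
    rw [hys, List.sum_append, List.sum_cons]
    linear_combination hsum
  have hys0 : 0 ≤ ys.sum := List.sum_nonneg hysn
  have hP0 : 0 ≤ Q ls (pre ++ v :: tl) := (hN ls _ hnn).1
  -- upper bound
  have hup : Q ls ys ≤ Q ls (pre ++ v :: tl) * Real.exp ((a : ℝ) - ξ) := by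
    refine (hI ls _ ys (by simp [hls]) hl ⟨hnn, hsum, hmax⟩ hysn).trans ?_
    refine mul_le_mul_of_nonneg_left ?_ hP0
    calc ys.sum ^ ls.sum ≤ (Real.exp (v * (t - 1))) ^ ls.sum := by
          refine pow_le_pow_left₀ hys0 ?_ _
          rw [hyss]
          have := Real.add_one_le_exp (v * (t - 1))
          linarith
      _ = Real.exp ((a : ℝ) - ξ) := by
          rw [← Real.exp_nat_mul]
          congr 1
          rw [← htξ]
          show (N : ℝ) * (v * (t - 1)) = ξ * t - ξ
          rw [hξ]
          ring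
  -- lower bound
  have hlow : Q L1 pre * ((t * v) ^ a * Q L2 tl) ≤ Q ls ys := by
    rw [hys, hA]
    have hmem : L1.length ∈ range (ls.length + 1) := by
      rw [mem_range, hls, List.length_append]
      omega
    have hnnt : NN ((t * v) :: tl) := by
      intro x hx
      rcases List.mem_cons.1 hx with h | h
      · rw [h]; exact htv.le
      · exact htl x h
    refine le_trans ?_ (Finset.single_le_sum
      (f := fun i => Q (ls.take i) pre * Q (ls.drop i) ((t * v) :: tl))
      (fun i _ => mul_nonneg (hN _ _ hpre).1 (hN _ _ hnnt).1) hmem)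
    have e1 : ls.take L1.length = L1 := by rw [hls]; simp
    have e2 : ls.drop L1.length = a :: L2 := by rw [hls]; simp
    simp only [e1, e2]
    refine mul_le_mul_of_nonneg_left ?_ (hN _ _ hpre).1
    rw [Q]
    have := (hN (a :: L2) tl htl).1
    linarith
  have hmain := hlow.trans hup
  have hta : 0 < t ^ a := pow_pos ht0 a
  have hX : (Real.exp 1 * ξ / a) ^ a * Real.exp (-ξ) * t ^ a = Real.exp ((a : ℝ) - ξ) := by
    have e3 : Real.exp 1 * ξ / a * t = Real.exp 1 := by
      rw [ht]
      field_simp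
    calc (Real.exp 1 * ξ / a) ^ a * Real.exp (-ξ) * t ^ a
        = (Real.exp 1 * ξ / a * t) ^ a * Real.exp (-ξ) := by rw [mul_pow]; ring
      _ = Real.exp a * Real.exp (-ξ) := by
          rw [e3, ← Real.exp_nat_mul, mul_one]
      _ = Real.exp ((a : ℝ) - ξ) := by rw [← Real.exp_add]; congr 1
  have hgoal : v ^ a * (Q L1 pre * Q L2 tl) * t ^ a ≤
      Q ls (pre ++ v :: tl) * ((Real.exp 1 * ξ / a) ^ a * Real.exp (-ξ)) * t ^ a := by
    calc v ^ a * (Q L1 pre * Q L2 tl) * t ^ a = Q L1 pre * ((t * v) ^ a * Q L2 tl) := by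
          rw [mul_pow]; ring
      _ ≤ Q ls (pre ++ v :: tl) * Real.exp ((a : ℝ) - ξ) := hmain
      _ = _ := by rw [← hX]; ring
  exact le_of_mul_le_mul_right hgoal hta

end Pool.LAY
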