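import Pool.Agent.H97.LAY.Stmts

/-!
# Row CNT: labelings of a layered permutation
-/

set_option autoImplicit false

namespace Pool.LAY

open Finset

theorem CNT44.ex {n k : ℕ} (A : Fin k → Finset (Fin n))
    (hd : ∀ i j x, x ∈ A i → x ∈ A j → i = j) :
    ∃ f : Fin n → Option (Fin k), ∀ x j, f x = some j ↔ x ∈ A j := by
  classical
  refine ⟨fun x => if h : ∃ j, x ∈ A j then some h.choose else none, ?_⟩
  intro x j
  beta_reduce
  by_cases h : ∃ j, x ∈ A j
  · rw [dif_pos h, Option.some.injEq]
    constructor
    · intro h'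
      rw [← h']
      exact h.choose_spec
    · intro h'
      exact hd _ _ x h.choose_spec h'
  · rw [dif_neg h]
    constructor
    · intro h'
      exact absurd h' (by simp)
    · intro h'
      exact absurd ⟨j, h'⟩ h

/-- in a valid labeling, equal labels are in the same layer and smaller labels in smaller layers -/
theorem CNT44.layer {n k h : ℕ} {ℓ : Fin k → ℕ} {π : Equiv.Perm (Fin n)} {c : Fin n → Fin h}
    (hc : IsLayering π c) {f : Fin n → Option (Fin k)}
    (hf : Lab ℓ (fun x : Fin n => (x : ℕ)) (fun x : Fin n => (π x : ℕ)) f) {x y : Fin n}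
    {i j : Fin k} (hx : f x = some i) (hy : f y = some j) :
    (i = j → c x = c y) ∧ (i < j → c x < c y) := by
  obtain ⟨-, hm, h3, h4⟩ := hc
  -- equal labels, `x < y`
  have key : ∀ (x y : Fin n) (i : Fin k), x < y → f x = some i → f y = some i → c x = c y := by
    intro x y i hxy hx hy
    rcases hf.2 x y i i hxy hx hy with h | h
    · rcases lt_or_eq_of_le (hm hxy.le) with h5 | h5
      · have := h4 x y h5
        have h6 : (π y : ℕ) < π x := h.2
        rw [Fin.lt_def] at this
        omega
      · exact h5
    · exact absurd h.1 (lt_irrefl i)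
  constructor
  · intro hij
    subst hij
    rcases lt_trichotomy x y with h | h | h
    · exact key x y i h hx hy
    · rw [h]
    · exact (key y x i h hy hx).symm
  · intro hij
    rcases lt_trichotomy x y with h | h | h
    · rcases hf.2 x y i j h hx hy with h' | h'
      · exact absurd h'.1 hij.ne
      · rcases lt_or_eq_of_le (hm h.le) with h5 | h5
        · exact h5
        · have := h3 x y h h5
          have h6 : (π x : ℕ) < π y := h'.2
          rw [Fin.lt_def] at this
          omega
    · rw [h, hy] at hx
      exact absurd (Option.some.inj hx) hij.ne'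
    · rcases hf.2 y x j i h hy hx with h' | h'
      · exact absurd h'.1 hij.ne'
      · exact absurd (h'.1.trans hij) (lt_irrefl j)

/-- **CNT.** -/
theorem CNT : CNTStmt := by
  classical
  intro n k h ℓ π c hc hℓ
  rw [Nat.card_eq_fintype_card, Fintype.card_subtype]
  have hW : ∑ φ ∈ (univ : Finset (Fin k → Fin h)).filter (fun φ => ∀ i j, i < j → φ i < φ j),
      ∏ j, (layerSize c (φ j)).choose (ℓ j) =
      (((univ : Finset (Fin k → Fin h)).filter (fun φ => ∀ i j, i < j → φ i < φ j)).sigma
        (fun φ => Fintype.piFinset (fun j => powersetCard (ℓ j)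
          (univ.filter (fun x : Fin n => c x = φ j))))).card := by
    rw [card_sigma]
    refine sum_congr rfl fun φ _ => ?_
    rw [Fintype.card_piFinset]
    refine prod_congr rfl fun j _ => ?_
    rw [card_powersetCard]
    rfl
  rw [hW]
  have hex : ∀ f : Fin n → Option (Fin k),
      f ∈ univ.filter (fun f : Fin n → Option (Fin k) =>
        Lab ℓ (fun x : Fin n => (x : ℕ)) (fun x : Fin n => (π x : ℕ)) f) →
      ∀ j, ∃ x, f x = some j := by
    intro f hf j
    have h1 := (mem_filter.1 hf).2.1 j
    have h2 := hℓ j
    by_contra hcon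
    have h3 : IsEmpty {x : Fin n // f x = some j} := ⟨fun x => hcon ⟨x.1, x.2⟩⟩
    rw [Nat.card_of_isEmpty] at h1
    omega
  refine card_bij (fun f hf => ⟨fun j => c (hex f hf j).choose,
    fun j => univ.filter (fun x => f x = some j)⟩) ?_ ?_ ?_
  · intro f hf
    have hL := (mem_filter.1 hf).2
    rw [mem_sigma]
    refine ⟨?_, ?_⟩
    · rw [mem_filter]
      refine ⟨mem_univ _, fun i j hij => ?_⟩
      exact (CNT44.layer hc hL (hex f hf i).choose_spec (hex f hf j).choose_spec).2 hij
    · rw [Fintype.mem_piFinset]
      intro j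
      rw [mem_powersetCard]
      constructor
      · intro x hx
        rw [mem_filter] at hx ⊢
        exact ⟨mem_univ _, (CNT44.layer hc hL hx.2 (hex f hf j).choose_spec).1 rfl⟩
      · have := hL.1 j
        rw [Nat.card_eq_fintype_card, Fintype.card_subtype] at this
        exact this
  · intro f hf g hg hfg
    have h1 := (Sigma.mk.inj_iff.1 hfg).2
    have h2 := eq_of_heq h1
    funext x
    refine Option.ext fun j => ?_
    have h3 := congrFun h2 j
    have h4 := congrArg (fun s : Finset (Fin n) => x ∈ s) h3
    simpa using h4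
  · rintro ⟨φ, A⟩ hA
    rw [mem_sigma, mem_filter, Fintype.mem_piFinset] at hA
    obtain ⟨⟨-, hφ⟩, hA⟩ := hA
    simp only [mem_powersetCard] at hA hφ
    have hcA : ∀ j x, x ∈ A j → c x = φ j := fun j x hx => (mem_filter.1 ((hA j).1 hx)).2
    have hφi : ∀ i j, φ i ≤ φ j → i ≤ j := by
      intro i j hij
      by_contra hcon
      exact absurd (hφ j i (not_le.1 hcon)) (not_lt.2 hij)
    obtain ⟨f, hf⟩ := CNT44.ex A (fun i j x hi hj => by
      have h1 := hcA i x hi
      have h2 := hcA j x hj
      exact le_antisymm (hφi i j (by rw [← h1, ← h2])) (hφi j i (by rw [← h1, ← h2])))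
    have hfV : f ∈ univ.filter (fun f : Fin n → Option (Fin k) =>
        Lab ℓ (fun x : Fin n => (x : ℕ)) (fun x : Fin n => (π x : ℕ)) f) := by
      rw [mem_filter]
      refine ⟨mem_univ _, ?_, ?_⟩
      · intro j
        rw [← (hA j).2, Nat.card_eq_fintype_card, Fintype.card_subtype]
        congr 1
        ext x
        rw [mem_filter]
        exact ⟨fun h => (hf x j).1 h.2, fun h => ⟨mem_univ _, (hf x j).2 h⟩⟩
      · intro x y i j hxy hx hy
        have h1 := hcA i x ((hf x i).1 hx)
        have h2 := hcA j y ((hf y j).1 hy)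
        have hxy' : x < y := hxy
        have h3 := hφi i j (by rw [← h1, ← h2]; exact hc.2.1 hxy'.le)
        rcases lt_or_eq_of_le h3 with h4 | h4
        · right
          refine ⟨h4, ?_⟩
          have h5 := hφ i j h4
          rw [← h1, ← h2] at h5
          exact hc.2.2.2 x y h5
        · left
          refine ⟨h4, ?_⟩
          have h5 : c x = c y := by rw [h1, h2, h4]
          exact hc.2.2.1 x y hxy' h5
    refine ⟨f, hfV, ?_⟩
    have e1 : (fun j => c (hex f hfV j).choose) = φ := by
      funext j
      exact hcA j _ ((hf _ j).1 (hex f hfV j).choose_spec)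
    have e2 : (fun j => univ.filter (fun x => f x = some j)) = A := by
      funext j
      ext x
      rw [mem_filter]
      exact ⟨fun h => (hf x j).1 h.2, fun h => ⟨mem_univ _, (hf x j).2 h⟩⟩
    exact Sigma.ext e1 (heq_of_eq e2)

end Pool.LAY
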