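import Pool.Agent.H97.LAY.Stmts2

/-!
# Board `lay`, row CO2: no finite maximiser when `b + 2 ≤ a`
-/

set_option autoImplicit false

namespace Pool.LAY

open Finset

private theorem co2_filter (hZ : QZRStmt) (ls : List ℕ) (hls : ∀ l ∈ ls, 1 ≤ l) :
    ∀ xs pre : List ℝ, Q ls (pre ++ xs.filter (fun x => decide (x ≠ 0))) = Q ls (pre ++ xs) := by
  intro xs
  induction xs with
  | nil => intro pre; simp
  | cons x xs ih =>
    intro pre
    by_cases hx : x = 0
    · subst hx
      have h1 : (List.filter (fun x : ℝ => decide (x ≠ 0)) (0 :: xs)) =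
          xs.filter (fun x => decide (x ≠ 0)) := by simp
      rw [h1, ih pre, hZ ls pre xs hls]
    · have h1 : (List.filter (fun x : ℝ => decide (x ≠ 0)) (x :: xs)) =
          x :: xs.filter (fun x => decide (x ≠ 0)) := by simp [hx]
      rw [h1]
      have h2 := ih (pre ++ [x])
      simpa using h2

private theorem co2_sum : ∀ xs : List ℝ,
    (xs.filter (fun x => decide (x ≠ 0))).sum = xs.sum := by
  intro xs
  induction xs with
  | nil => simp
  | cons x xs ih =>
    by_cases hx : x = 0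
    · subst hx
      have h1 : (List.filter (fun x : ℝ => decide (x ≠ 0)) (0 :: xs)) =
          xs.filter (fun x => decide (x ≠ 0)) := by simp
      rw [h1, ih]; simp
    · have h1 : (List.filter (fun x : ℝ => decide (x ≠ 0)) (x :: xs)) =
          x :: xs.filter (fun x => decide (x ≠ 0)) := by simp [hx]
      rw [h1, List.sum_cons, ih, List.sum_cons]

private theorem co2_pos (hN : QNNStmt) : ∀ (ls : List ℕ) (ys : List ℝ), (∀ y ∈ ys, 0 < y) →
    ls.length ≤ ys.length → 0 < Q ls ys := by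
  intro ls ys
  induction ys generalizing ls with
  | nil =>
    intro _ h
    have : ls = [] := by
      cases ls with
      | nil => rfl
      | cons l ls => simp at h
    subst this
    simp [Q]
  | cons y ys ih =>
    intro hy h
    cases ls with
    | nil => simp [Q]
    | cons l ls =>
      have h1 : 0 < y := hy y (by simp)
      have h2 : ∀ z ∈ ys, 0 < z := fun z hz => hy z (by simp [hz])
      have h3 := ih ls h2 (by simpa using h)
      have h4 : 0 ≤ Q (l :: ls) ys := (hN _ _ fun z hz => (h2 z hz).le).1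
      have h5 : 0 < y ^ l * Q ls ys := by positivity
      show 0 < y ^ l * Q ls ys + Q (l :: ls) ys
      linarith

private theorem co2_kap (b : ℕ) : 0 ≤ kap b := by
  unfold kap
  split_ifs
  · norm_num
  · positivity

theorem CO2 (hCOR : CORStmt) (h8 : QZRStmt) (h1 : EX1Stmt) (h2 : EX2Stmt) (hE3 : EX3Stmt)
    (hSWP : SWPStmt) (hK : K12Stmt) (hCUT : CUTStmt) (hREG : REGStmt) (h5 : NU2Stmt)
    (h3 : IMHStmt) (h9 : QNNStmt) : CO2Stmt := by
  intro a b bs ha hb hba hbs xs hM
  by_cases hsmall : a + 1 + b + bs.sum ≤ 2 * a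
  · exact hCOR a b bs (by omega) hb hbs hsmall xs hM
  obtain ⟨d, bs', rfl⟩ : ∃ d bs', bs = d :: bs' := by
    cases bs with
    | nil => exfalso; simp at hsmall; omega
    | cons d bs' => exact ⟨d, bs', rfl⟩
  have hd : 1 ≤ d := hbs d (by simp)
  have hbs' : ∀ l ∈ bs', 1 ≤ l := fun l hl => hbs l (by simp [hl])
  set ls : List ℕ := a :: 1 :: b :: d :: bs' with hls
  have hlspos : ∀ l ∈ ls, 1 ≤ l := by
    intro l hl
    simp only [hls, List.mem_cons] at hl
    rcases hl with rfl | rfl | rfl | rfl | hl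
    · omega
    · omega
    · omega
    · omega
    · exact hbs' l hl
  set N : ℕ := a + (1 + (b + (d + bs'.sum))) with hN
  have hlssum : ls.sum = N := by simp [hls, hN]
  have hNbig : 2 * a + 1 ≤ N := by
    simp only [List.sum_cons] at hsmall
    omega
  -- drop the zero entries
  obtain ⟨ys, hys, hypos⟩ : ∃ ys : List ℝ, IsMax ls ys ∧ ∀ y ∈ ys, 0 < y := by
    refine ⟨xs.filter (fun x => decide (x ≠ 0)), ⟨?_, ?_, ?_⟩, ?_⟩
    · intro y hy
      exact hM.1 y (List.mem_filter.1 hy).1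
    · rw [co2_sum, hM.2.1]
    · intro zs hz1 hz2
      have := co2_filter h8 ls hlspos xs []
      simp only [List.nil_append] at this
      rw [this]
      exact hM.2.2 zs hz1 hz2
    · intro y hy
      have h := List.mem_filter.1 hy
      have h0 := hM.1 y h.1
      have hne : y ≠ 0 := by simpa using h.2
      exact lt_of_le_of_ne h0 (Ne.symm hne)
  clear hM
  set P : ℝ := Q ls ys with hP
  have hPpos : 0 < P := by
    set k : ℕ := ls.length with hk
    have hk0 : 0 < k := by simp [hk, hls]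
    have hkR : (0 : ℝ) < k := by exact_mod_cast hk0
    have hc := co2_pos h9 ls (List.replicate k (1 / (k : ℝ))) (by
      intro y hy
      rw [List.eq_of_mem_replicate hy]
      positivity) (by simp [hk])
    refine lt_of_lt_of_le hc (hys.2.2 _ ?_ ?_)
    · intro y hy
      rw [List.eq_of_mem_replicate hy]
      positivity
    · rw [List.sum_replicate, nsmul_eq_mul]
      field_simp
  obtain ⟨x0, x1, tl, rfl⟩ : ∃ x0 x1 tl, ys = x0 :: x1 :: tl := by
    rcases ys with _ | ⟨x0, _ | ⟨x1, tl⟩⟩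
    · exfalso
      simp [hP, hls, Q] at hPpos
    · exfalso
      simp [hP, hls, Q] at hPpos
    · exact ⟨x0, x1, tl, rfl⟩
  have hx0 : 0 < x0 := hypos x0 (by simp)
  have hx1 : 0 < x1 := hypos x1 (by simp)
  have htl : NN tl := fun y hy => (hypos y (by simp [hy])).le
  have htl1 : NN (x1 :: tl) := by
    intro y hy
    rcases List.mem_cons.1 hy with rfl | hy
    · exact hx1.le
    · exact htl y hy
  have htls : 0 ≤ tl.sum := List.sum_nonneg htl
  have hsum : x0 + (x1 + tl.sum) = 1 := by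
    have := hys.2.1
    simpa using this
  have hx0lt : x0 < 1 := by linarith
  have hs : (x1 :: tl).sum = 1 - x0 := by
    rw [List.sum_cons]; linarith
  set U : ℝ := Q (d :: bs') tl with hU
  set V : ℝ := Q (1 :: b :: d :: bs') tl with hV
  have hU0 : 0 ≤ U := (h9 _ _ htl).1
  have hV0 : 0 ≤ V := (h9 _ _ htl).1
  have hT0 : 0 ≤ Q (b :: d :: bs') tl := (h9 _ _ htl).1
  have hPdef : P = x0 ^ a * Q (1 :: b :: d :: bs') (x1 :: tl) + Q ls (x1 :: tl) := rfl
  have hMdef : Q (1 :: b :: d :: bs') (x1 :: tl) = x1 ^ 1 * Q (b :: d :: bs') tl + V := rfl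
  have hlsne : ls ≠ [] := by simp [hls]
  have hR0 : 0 ≤ Q ls (x1 :: tl) := (h9 _ _ htl1).1
  have hR : Q ls (x1 :: tl) ≤ P * (1 - x0) ^ N := by
    have := h3 ls (x0 :: x1 :: tl) (x1 :: tl) hlsne hlspos hys htl1
    rwa [hs, hlssum] at this
  have haR : (4 : ℝ) ≤ a := by exact_mod_cast ha
  have ha0 : (0 : ℝ) < a := by linarith
  have hbR : (1 : ℝ) ≤ b := by exact_mod_cast hb
  have hbaR : (b : ℝ) + 2 ≤ a := by exact_mod_cast hba
  have hNR : 2 * (a : ℝ) + 1 ≤ N := by exact_mod_cast hNbig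
  have hN0 : (0 : ℝ) < N := by linarith
  have hlspos' : ∀ l ∈ (1 :: b :: d :: bs' : List ℕ), 1 ≤ l := by
    intro l hl
    exact hlspos l (by rw [hls]; exact List.mem_cons_of_mem _ hl)
  have hNsum : a + (1 :: b :: d :: bs' : List ℕ).sum = N := by simp [hN]
  -- `N x0 ≤ a`
  have hE : (N : ℝ) * x0 ≤ a := by
    have := hE3 a (1 :: b :: d :: bs') x0 (x1 :: tl) (by omega) hlspos' hys hPpos
    rwa [hNsum] at this
  -- `a x1 ≤ x0`
  have hS : (a : ℝ) * x1 ≤ x0 :=
    hSWP a b (d :: bs') x0 x1 tl (by omega) hb hbs hys hPpos hx0 hx1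
  -- cut
  set ν : ℝ := (b : ℝ) + 5 / 2 with hν
  have hν0 : 0 < ν := by rw [hν]; linarith
  have hc0 : 0 ≤ ν / N := by positivity
  have hcs : ν / N ≤ (x1 :: tl).sum := by
    rw [hs, div_le_iff₀ hN0]
    have : (1 - x0) * (N : ℝ) = N - N * x0 := by ring
    rw [this]
    linarith
  obtain ⟨pre, y, post, hpp, hp1, hp2⟩ := hCUT (x1 :: tl) (ν / N) (by simp) htl1 hc0 hcs
  cases pre with
  | nil =>
    exfalso
    have h10 : x1 = y := by
      have := hpp
      simp only [List.nil_append, List.cons.injEq] at this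
      exact this.1
    rw [← h10] at hp2
    simp only [List.sum_nil, zero_add] at hp2
    rw [div_le_iff₀ hN0] at hp2
    have h11 : (a : ℝ) * (x1 * N) ≤ a := by
      calc (a : ℝ) * (x1 * N) = ((a : ℝ) * x1) * N := by ring
        _ ≤ x0 * N := mul_le_mul_of_nonneg_right hS hN0.le
        _ = (N : ℝ) * x0 := by ring
        _ ≤ a := hE
    have h12 : x1 * N ≤ 1 := by
      by_contra hcon
      push Not at hcon
      have : (a : ℝ) * 1 < a * (x1 * N) := mul_lt_mul_of_pos_left hcon ha0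
      linarith
    linarith
  | cons z pre' =>
    have hz : x1 = z ∧ tl = pre' ++ y :: post := by
      have := hpp
      simp only [List.cons_append, List.cons.injEq] at this
      exact this
    obtain ⟨hz1, hz2⟩ := hz
    subst hz1
    have hsp : (x1 :: pre').sum = x1 + pre'.sum := by simp
    have hpre : NN (x1 :: pre') := by
      intro z hz
      rcases List.mem_cons.1 hz with rfl | hz
      · exact hx1.le
      · exact htl z (by rw [hz2]; simp [hz])
    have hν2 : (b : ℝ) + 5 / 2 ≤ ((a + (1 + (b + (d + bs'.sum))) : ℕ) : ℝ) * (x1 + pre'.sum + y) := by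
      rw [hsp, div_le_iff₀ hN0] at hp2
      rw [← hN]
      linarith
    have hys2 : IsMax (a :: 1 :: b :: d :: bs') (x0 :: x1 :: (pre' ++ y :: post)) := by
      rw [← hz2]; exact hys
    have hA := hREG a b d bs' x0 x1 y pre' post (by omega) hb hd hbs' hys2 hν2
    rw [← hz2, ← hN] at hA
    have hA' : (9 / (4 * (b : ℝ) + 19) - (1 - x0) ^ N) * P ≤ x0 ^ a * (Q [1, b] (x1 :: pre') * U) := hA
    have hKb : Q [1, b] (x1 :: pre') ≤ kap b * (ν / N) ^ (b + 1) := by
      refine (hK b (x1 :: pre') hb hpre).trans ?_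
      refine mul_le_mul_of_nonneg_left ?_ (co2_kap b)
      exact pow_le_pow_left₀ (List.sum_nonneg hpre) hp1 _
    -- (A)
    have hA2 : (9 / (4 * (b : ℝ) + 19) - (1 - x0) ^ N) * P ≤
        x0 ^ a * (kap b * (ν / N) ^ (b + 1) * U) := by
      refine hA'.trans ?_
      refine mul_le_mul_of_nonneg_left ?_ (by positivity)
      exact mul_le_mul_of_nonneg_right hKb hU0
    -- (B)
    have h10 := h1 a b (d :: bs') x0 x1 tl (by omega) hb hbs hys hx1
    have h11 : x0 ^ a * U ≤ (a : ℝ) * x1 ^ (a - 1 - b) * V := by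
      have h13 : x1 ^ (a - 1) = x1 ^ (a - 1 - b) * x1 ^ b := by
        rw [← pow_add]
        congr 1
        omega
      have h14 : (x0 ^ a * U) * x1 ^ b ≤ ((a : ℝ) * x1 ^ (a - 1 - b) * V) * x1 ^ b := by
        calc (x0 ^ a * U) * x1 ^ b = x0 ^ a * x1 ^ b * U := by ring
          _ ≤ (a : ℝ) * x1 ^ (a - 1) * V := h10
          _ = ((a : ℝ) * x1 ^ (a - 1 - b) * V) * x1 ^ b := by rw [h13]; ring
      exact le_of_mul_le_mul_right h14 (by positivity)
    obtain ⟨w, hw⟩ : ∃ w : ℕ, a - 1 - b = w + 1 := ⟨a - b - 2, by omega⟩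
    have hw2 : a - b - 2 = w := by omega
    have haw : a = (w + 1) + (b + 1) := by omega
    rw [hw] at h11
    have h15 : ((a : ℝ) * x1) ^ (w + 1) ≤ x0 ^ (w + 1) := pow_le_pow_left₀ (by positivity) hS _
    have hB : (a : ℝ) ^ (w + 1) * (x0 ^ (b + 1) * U) ≤ a * V := by
      have h16 : ((a : ℝ) ^ (w + 1) * (x0 ^ (b + 1) * U)) * x0 ^ (w + 1) ≤
          (a * V) * x0 ^ (w + 1) := by
        calc ((a : ℝ) ^ (w + 1) * (x0 ^ (b + 1) * U)) * x0 ^ (w + 1)
            = (a : ℝ) ^ (w + 1) * (x0 ^ ((w + 1) + (b + 1)) * U) := by rw [pow_add x0 (w + 1) (b + 1)]; ring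
          _ = (a : ℝ) ^ (w + 1) * (x0 ^ a * U) := by rw [← haw]
          _ ≤ (a : ℝ) ^ (w + 1) * ((a : ℝ) * x1 ^ (w + 1) * V) :=
              mul_le_mul_of_nonneg_left h11 (by positivity)
          _ = (a * V) * ((a : ℝ) * x1) ^ (w + 1) := by rw [mul_pow]; ring
          _ ≤ (a * V) * x0 ^ (w + 1) := mul_le_mul_of_nonneg_left h15 (by positivity)
      exact le_of_mul_le_mul_right h16 (by positivity)
    -- (C)
    have hC : x0 ^ a * V ≤ P := by
      rw [hPdef, hMdef]
      have h17 : 0 ≤ x0 ^ a * (x1 ^ 1 * Q (b :: d :: bs') tl) := by positivity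
      have h18 : x0 ^ a * (x1 ^ 1 * Q (b :: d :: bs') tl + V) =
          x0 ^ a * (x1 ^ 1 * Q (b :: d :: bs') tl) + x0 ^ a * V := by ring
      rw [h18]
      linarith
    -- combine
    have hfin : (9 / (4 * (b : ℝ) + 19) - (1 - x0) ^ N) *
        ((a : ℝ) ^ w * ((N : ℝ) * x0) ^ (b + 1)) ≤ kap b * ν ^ (b + 1) := by
      have hmul := mul_le_mul_of_nonneg_right hA2
        (show (0 : ℝ) ≤ (a : ℝ) ^ (w + 1) * ((N : ℝ) * x0) ^ (b + 1) by positivity)
      have hνN : (ν / N) ^ (b + 1) * (N : ℝ) ^ (b + 1) = ν ^ (b + 1) := by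
        rw [← mul_pow]
        congr 1
        field_simp
      have h19 : x0 ^ a * (kap b * (ν / N) ^ (b + 1) * U) *
          ((a : ℝ) ^ (w + 1) * ((N : ℝ) * x0) ^ (b + 1)) =
          (kap b * ν ^ (b + 1)) * (x0 ^ a * ((a : ℝ) ^ (w + 1) * (x0 ^ (b + 1) * U))) := by
        rw [← hνN, mul_pow]; ring
      rw [h19] at hmul
      have hkν : 0 ≤ kap b * ν ^ (b + 1) := mul_nonneg (co2_kap b) (by positivity)
      have h20 : (kap b * ν ^ (b + 1)) * (x0 ^ a * ((a : ℝ) ^ (w + 1) * (x0 ^ (b + 1) * U))) ≤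
          (kap b * ν ^ (b + 1)) * (a * P) := by
        refine mul_le_mul_of_nonneg_left ?_ hkν
        calc x0 ^ a * ((a : ℝ) ^ (w + 1) * (x0 ^ (b + 1) * U)) ≤ x0 ^ a * (a * V) :=
              mul_le_mul_of_nonneg_left hB (by positivity)
          _ = a * (x0 ^ a * V) := by ring
          _ ≤ a * P := mul_le_mul_of_nonneg_left hC ha0.le
      have h21 := hmul.trans h20
      have h22 : ((9 / (4 * (b : ℝ) + 19) - (1 - x0) ^ N) *
          ((a : ℝ) ^ w * ((N : ℝ) * x0) ^ (b + 1))) * (a * P) ≤ (kap b * ν ^ (b + 1)) * (a * P) := by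
        refine le_trans (le_of_eq ?_) h21
        rw [pow_succ (a : ℝ) w]; ring
      exact le_of_mul_le_mul_right h22 (by positivity)
    -- EX2
    have h18 := h2 a (1 :: b :: d :: bs') x0 (x1 :: tl) (by omega) hlspos' hys
    rw [hNsum] at h18
    have h20 : (a : ℝ) * (P - P * (1 - x0) ^ N) ≤ (N : ℝ) * P * x0 := by
      refine le_trans ?_ h18
      have h21 : x0 ^ a * Q (1 :: b :: d :: bs') (x1 :: tl) = P - Q ls (x1 :: tl) := by
        rw [hPdef]; ring
      rw [h21]
      exact mul_le_mul_of_nonneg_left (by linarith) (by positivity)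
    have h21 : (a : ℝ) * (1 - (1 - x0) ^ N) ≤ (N : ℝ) * x0 := by
      have h22 : ((a : ℝ) * (1 - (1 - x0) ^ N)) * P ≤ ((N : ℝ) * x0) * P := by
        nlinarith [h20]
      exact le_of_mul_le_mul_right h22 hPpos
    refine h5 a b N x0 hb hba ha (by omega) hx0 hx0lt h21 ?_
    rw [hw2]
    exact hfin

end Pool.LAY
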