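import Pool.Agent.H97.LAY.Stmts3

/-!
# Board `lay`, row CO3: no finite maximiser for `3, 1, 1, ...`
-/

set_option autoImplicit false

namespace Pool.LAY

open Finset

private theorem co3_filter (hZ : QZRStmt) (ls : List ℕ) (hls : ∀ l ∈ ls, 1 ≤ l) :
    ∀ xs pre : List ℝ, Q ls (pre ++ xs.filter (fun x => decide (x ≠ 0))) = Q ls (pre ++ xs) := by
  intro xs
  induction xs with
  | nil => intro pre; simp
  | cons x xs ih =>
    intro pre
    by_cases hx : x = 0
    · subst hx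
      have h1 : (List.filter (fun x : ℝ => decide (x ≠ 0)) (0 :: xs)) =
          xs.filter (fun x => decide (x ≠ 0)) := by simp
      rw [h1, ih pre, hZ ls pre xs hls]
    · have h1 : (List.filter (fun x : ℝ => decide (x ≠ 0)) (x :: xs)) =
          x :: xs.filter (fun x => decide (x ≠ 0)) := by simp [hx]
      rw [h1]
      have h2 := ih (pre ++ [x])
      simpa using h2

private theorem co3_sum : ∀ xs : List ℝ,
    (xs.filter (fun x => decide (x ≠ 0))).sum = xs.sum := by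
  intro xs
  induction xs with
  | nil => simp
  | cons x xs ih =>
    by_cases hx : x = 0
    · subst hx
      have h1 : (List.filter (fun x : ℝ => decide (x ≠ 0)) (0 :: xs)) =
          xs.filter (fun x => decide (x ≠ 0)) := by simp
      rw [h1, ih]; simp
    · have h1 : (List.filter (fun x : ℝ => decide (x ≠ 0)) (x :: xs)) =
          x :: xs.filter (fun x => decide (x ≠ 0)) := by simp [hx]
      rw [h1, List.sum_cons, ih, List.sum_cons]

private theorem co3_pos (hN : QNNStmt) : ∀ (ls : List ℕ) (ys : List ℝ), (∀ y ∈ ys, 0 < y) →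
    ls.length ≤ ys.length → 0 < Q ls ys := by
  intro ls ys
  induction ys generalizing ls with
  | nil =>
    intro _ h
    have : ls = [] := by
      cases ls with
      | nil => rfl
      | cons l ls => simp at h
    subst this
    simp [Q]
  | cons y ys ih =>
    intro hy h
    cases ls with
    | nil => simp [Q]
    | cons l ls =>
      have h1 : 0 < y := hy y (by simp)
      have h2 : ∀ z ∈ ys, 0 < z := fun z hz => hy z (by simp [hz])
      have h3 := ih ls h2 (by simpa using h)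
      have h4 : 0 ≤ Q (l :: ls) ys := (hN _ _ fun z hz => (h2 z hz).le).1
      have h5 : 0 < y ^ l * Q ls ys := by positivity
      show 0 < y ^ l * Q ls ys + Q (l :: ls) ys
      linarith

theorem CO3 (hCOR : CORStmt) (h8 : QZRStmt) (h1 : EX1Stmt) (h2 : EX2Stmt) (hE3 : EX3Stmt)
    (hSWP : SWPStmt) (hW : W11Stmt) (hCUT : CUTStmt) (hREG : REGStmt) (h5 : NU3Stmt)
    (hXE : XE1Stmt) (h3 : IMHStmt) (h9 : QNNStmt) : CO3Stmt := by
  intro bs hbs xs hM
  by_cases hsmall : 3 + 1 + 1 + bs.sum ≤ 2 * 3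
  · exact hCOR 3 1 bs (by omega) (by omega) hbs hsmall xs hM
  obtain ⟨d, bs', rfl⟩ : ∃ d bs', bs = d :: bs' := by
    cases bs with
    | nil => exfalso; simp at hsmall
    | cons d bs' => exact ⟨d, bs', rfl⟩
  have hd : 1 ≤ d := hbs d (by simp)
  have hbs' : ∀ l ∈ bs', 1 ≤ l := fun l hl => hbs l (by simp [hl])
  set ls : List ℕ := 3 :: 1 :: 1 :: d :: bs' with hls
  have hlspos : ∀ l ∈ ls, 1 ≤ l := by
    intro l hl
    simp only [hls, List.mem_cons] at hl
    rcases hl with rfl | rfl | rfl | rfl | hl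
    · omega
    · omega
    · omega
    · omega
    · exact hbs' l hl
  set N : ℕ := 3 + (1 + (1 + (d + bs'.sum))) with hN
  have hlssum : ls.sum = N := by simp [hls, hN]
  have hNbig : 7 ≤ N := by
    simp only [List.sum_cons] at hsmall
    omega
  -- drop the zero entries
  obtain ⟨ys, hys, hypos⟩ : ∃ ys : List ℝ, IsMax ls ys ∧ ∀ y ∈ ys, 0 < y := by
    refine ⟨xs.filter (fun x => decide (x ≠ 0)), ⟨?_, ?_, ?_⟩, ?_⟩
    · intro y hy
      exact hM.1 y (List.mem_filter.1 hy).1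
    · rw [co3_sum, hM.2.1]
    · intro zs hz1 hz2
      have := co3_filter h8 ls hlspos xs []
      simp only [List.nil_append] at this
      rw [this]
      exact hM.2.2 zs hz1 hz2
    · intro y hy
      have h := List.mem_filter.1 hy
      have h0 := hM.1 y h.1
      have hne : y ≠ 0 := by simpa using h.2
      exact lt_of_le_of_ne h0 (Ne.symm hne)
  clear hM
  set P : ℝ := Q ls ys with hP
  have hPpos : 0 < P := by
    set k : ℕ := ls.length with hk
    have hk0 : 0 < k := by simp [hk, hls]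
    have hkR : (0 : ℝ) < k := by exact_mod_cast hk0
    have hc := co3_pos h9 ls (List.replicate k (1 / (k : ℝ))) (by
      intro y hy
      rw [List.eq_of_mem_replicate hy]
      positivity) (by simp [hk])
    refine lt_of_lt_of_le hc (hys.2.2 _ ?_ ?_)
    · intro y hy
      rw [List.eq_of_mem_replicate hy]
      positivity
    · rw [List.sum_replicate, nsmul_eq_mul]
      field_simp
  obtain ⟨x0, x1, tl, rfl⟩ : ∃ x0 x1 tl, ys = x0 :: x1 :: tl := by
    rcases ys with _ | ⟨x0, _ | ⟨x1, tl⟩⟩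
    · exfalso
      simp [hP, hls, Q] at hPpos
    · exfalso
      simp [hP, hls, Q] at hPpos
    · exact ⟨x0, x1, tl, rfl⟩
  have hx0 : 0 < x0 := hypos x0 (by simp)
  have hx1 : 0 < x1 := hypos x1 (by simp)
  have htl : NN tl := fun y hy => (hypos y (by simp [hy])).le
  have htl1 : NN (x1 :: tl) := by
    intro y hy
    rcases List.mem_cons.1 hy with rfl | hy
    · exact hx1.le
    · exact htl y hy
  have htls : 0 ≤ tl.sum := List.sum_nonneg htl
  have hsum : x0 + (x1 + tl.sum) = 1 := by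
    have := hys.2.1
    simpa using this
  have hx0lt : x0 < 1 := by linarith
  have hs : (x1 :: tl).sum = 1 - x0 := by
    rw [List.sum_cons]; linarith
  set U : ℝ := Q (d :: bs') tl with hU
  set V : ℝ := Q (1 :: 1 :: d :: bs') tl with hV
  set T1 : ℝ := Q (1 :: d :: bs') tl with hT1
  have hU0 : 0 ≤ U := (h9 _ _ htl).1
  have hV0 : 0 ≤ V := (h9 _ _ htl).1
  have hT0 : 0 ≤ T1 := (h9 _ _ htl).1
  have hPdef : P = x0 ^ 3 * Q (1 :: 1 :: d :: bs') (x1 :: tl) + Q ls (x1 :: tl) := rfl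
  have hMdef : Q (1 :: 1 :: d :: bs') (x1 :: tl) = x1 ^ 1 * T1 + V := rfl
  have hRdef : Q ls (x1 :: tl) = x1 ^ 3 * V + Q ls tl := rfl
  have hRtl : 0 ≤ Q ls tl := (h9 _ _ htl).1
  have hlsne : ls ≠ [] := by simp [hls]
  have hR0 : 0 ≤ Q ls (x1 :: tl) := (h9 _ _ htl1).1
  have hR : Q ls (x1 :: tl) ≤ P * (1 - x0) ^ N := by
    have := h3 ls (x0 :: x1 :: tl) (x1 :: tl) hlsne hlspos hys htl1
    rwa [hs, hlssum] at this
  have hNR : (7 : ℝ) ≤ N := by exact_mod_cast hNbig
  have hN0 : (0 : ℝ) < N := by linarith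
  have hlspos' : ∀ l ∈ (1 :: 1 :: d :: bs' : List ℕ), 1 ≤ l := by
    intro l hl
    exact hlspos l (by rw [hls]; exact List.mem_cons_of_mem _ hl)
  have hNsum : 3 + (1 :: 1 :: d :: bs' : List ℕ).sum = N := by simp [hN]
  -- `N x0 ≤ 3`
  have hE : (N : ℝ) * x0 ≤ 3 := by
    have := hE3 3 (1 :: 1 :: d :: bs') x0 (x1 :: tl) (by omega) hlspos' hys hPpos
    rw [hNsum] at this
    exact_mod_cast this
  -- `3 x1 ≤ x0`
  have hS : 3 * x1 ≤ x0 := by
    have := hSWP 3 1 (d :: bs') x0 x1 tl (by omega) (by omega) hbs hys hPpos hx0 hx1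
    exact_mod_cast this
  -- cut
  set ν : ℝ := 7 / 2 with hν
  have hν0 : 0 < ν := by rw [hν]; norm_num
  have hc0 : 0 ≤ ν / N := by positivity
  have hcs : ν / N ≤ (x1 :: tl).sum := by
    rw [hs, div_le_iff₀ hN0]
    have : (1 - x0) * (N : ℝ) = N - N * x0 := by ring
    rw [this, hν]
    linarith
  obtain ⟨pre, y, post, hpp, hp1, hp2⟩ := hCUT (x1 :: tl) (ν / N) (by simp) htl1 hc0 hcs
  have hNx1 : x1 * N ≤ 1 := by
    have h11 : (3 : ℝ) * (x1 * N) ≤ 3 := by
      calc (3 : ℝ) * (x1 * N) = (3 * x1) * N := by ring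
        _ ≤ x0 * N := mul_le_mul_of_nonneg_right hS hN0.le
        _ = (N : ℝ) * x0 := by ring
        _ ≤ 3 := hE
    linarith
  cases pre with
  | nil =>
    exfalso
    have h10 : x1 = y := by
      have := hpp
      simp only [List.nil_append, List.cons.injEq] at this
      exact this.1
    rw [← h10] at hp2
    simp only [List.sum_nil, zero_add] at hp2
    rw [div_le_iff₀ hN0, hν] at hp2
    linarith
  | cons z pre' =>
    have hz : x1 = z ∧ tl = pre' ++ y :: post := by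
      have := hpp
      simp only [List.cons_append, List.cons.injEq] at this
      exact this
    obtain ⟨hz1, hz2⟩ := hz
    subst hz1
    have hsp : (x1 :: pre').sum = x1 + pre'.sum := by simp
    have hpre : NN (x1 :: pre') := by
      intro z hz
      rcases List.mem_cons.1 hz with rfl | hz
      · exact hx1.le
      · exact htl z (by rw [hz2]; simp [hz])
    have hν2 : ((1 : ℕ) : ℝ) + 5 / 2 ≤
        ((3 + (1 + (1 + (d + bs'.sum))) : ℕ) : ℝ) * (x1 + pre'.sum + y) := by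
      rw [hsp, div_le_iff₀ hN0, hν] at hp2
      rw [← hN]
      push_cast
      linarith
    have hys2 : IsMax (3 :: 1 :: 1 :: d :: bs') (x0 :: x1 :: (pre' ++ y :: post)) := by
      rw [← hz2]; exact hys
    have hA := hREG 3 1 d bs' x0 x1 y pre' post (by omega) (by omega) hd hbs' hys2 hν2
    rw [← hz2, ← hN] at hA
    have h923 : (9 : ℝ) / (4 * ((1 : ℕ) : ℝ) + 19) = 9 / 23 := by norm_num
    rw [h923] at hA
    have hA' : (9 / 23 - (1 - x0) ^ N) * P ≤ x0 ^ 3 * (Q [1, 1] (x1 :: pre') * U) := hA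
    have hKb : Q [1, 1] (x1 :: pre') ≤ 1 / 2 * (ν / N) ^ 2 := by
      have h30 := hW (x1 :: pre') hpre
      have h31 : (x1 :: pre').sum ^ 2 ≤ (ν / N) ^ 2 :=
        pow_le_pow_left₀ (List.sum_nonneg hpre) hp1 _
      linarith
    -- (A)
    have hA2 : (9 / 23 - (1 - x0) ^ N) * P ≤ x0 ^ 3 * (1 / 2 * (ν / N) ^ 2 * U) := by
      refine hA'.trans ?_
      refine mul_le_mul_of_nonneg_left ?_ (by positivity)
      exact mul_le_mul_of_nonneg_right hKb hU0
    -- (B)
    have h10 := h1 3 1 (d :: bs') x0 x1 tl (by omega) (by omega) hbs hys hx1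
    have h11 : x0 ^ 3 * U ≤ 3 * x1 * V := by
      have h14 : (x0 ^ 3 * U) * x1 ≤ (3 * x1 * V) * x1 := by
        have h15 : x0 ^ 3 * x1 ^ 1 * U ≤ ((3 : ℕ) : ℝ) * x1 ^ (3 - 1) * V := h10
        have h16 : ((3 : ℕ) : ℝ) * x1 ^ (3 - 1) * V = 3 * x1 ^ 2 * V := by norm_num
        rw [h16] at h15
        calc (x0 ^ 3 * U) * x1 = x0 ^ 3 * x1 ^ 1 * U := by ring
          _ ≤ 3 * x1 ^ 2 * V := h15
          _ = (3 * x1 * V) * x1 := by ring
      exact le_of_mul_le_mul_right h14 hx1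
    -- (X)
    have h12 := hXE 3 1 (d :: bs') x0 x1 tl (by omega) (by omega) hbs hys hx1
    have h13 : (N : ℝ) * P ≤ x0 ^ 3 * T1 + 3 * (x1 ^ 2 * V) := by
      have h15 : ((3 + (1 + (1 + (d :: bs').sum)) : ℕ) : ℝ) * P ≤
        x0 ^ 3 * T1 + ((3 : ℕ) : ℝ) * (x1 ^ (3 - 1) * V) := h12
      have h16 : 3 + (1 + (1 + (d :: bs').sum)) = N := by simp [hN]
      rw [h16] at h15
      have h17 : ((3 : ℕ) : ℝ) * (x1 ^ (3 - 1) * V) = 3 * (x1 ^ 2 * V) := by norm_num
      rw [h17] at h15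
      exact h15
    -- `25 x0^3 V ≤ 27 (1 - ξ) P`
    have hx13 : 27 * x1 ^ 3 ≤ x0 ^ 3 := by
      have h15 : (3 * x1) ^ 3 ≤ x0 ^ 3 := pow_le_pow_left₀ (by positivity) hS 3
      calc 27 * x1 ^ 3 = (3 * x1) ^ 3 := by ring
        _ ≤ x0 ^ 3 := h15
    have hPge : x0 ^ 3 * (x1 * T1 + V) + x1 ^ 3 * V ≤ P := by
      rw [hPdef, hMdef, hRdef]
      have : x1 ^ 1 = x1 := pow_one x1
      rw [this]
      linarith
    have hξ : (N : ℝ) * x1 * P ≤ x0 ^ 3 * (x1 * T1) + 3 * (x1 ^ 3 * V) := by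
      have h15 := mul_le_mul_of_nonneg_right h13 hx1.le
      calc (N : ℝ) * x1 * P = (N : ℝ) * P * x1 := by ring
        _ ≤ (x0 ^ 3 * T1 + 3 * (x1 ^ 2 * V)) * x1 := h15
        _ = x0 ^ 3 * (x1 * T1) + 3 * (x1 ^ 3 * V) := by ring
    have hC : 25 * (x0 ^ 3 * V) ≤ 27 * ((1 - N * x1) * P) := by
      have h15 : 27 * x1 ^ 3 * V ≤ x0 ^ 3 * V := mul_le_mul_of_nonneg_right hx13 hV0
      nlinarith [h15, hξ, hPge]
    -- combine
    set ξ : ℝ := N * x1 with hξd
    have hξ0 : 0 ≤ ξ := by positivity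
    have hfin : (9 / 23 - (1 - x0) ^ N) * ((N : ℝ) * x0) ^ 3 * P ≤ 3969 / 800 * P := by
      have hmul := mul_le_mul_of_nonneg_right hA2 (show (0 : ℝ) ≤ ((N : ℝ) * x0) ^ 3 by positivity)
      have h19 : x0 ^ 3 * (1 / 2 * (ν / N) ^ 2 * U) * ((N : ℝ) * x0) ^ 3 =
          (49 / 8) * (N * x0 ^ 3) * (x0 ^ 3 * U) := by
        rw [hν]
        field_simp
        ring
      rw [h19] at hmul
      have h20 : (49 / 8) * ((N : ℝ) * x0 ^ 3) * (x0 ^ 3 * U) ≤
          (49 / 8) * (N * x0 ^ 3) * (3 * x1 * V) :=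
        mul_le_mul_of_nonneg_left h11 (by positivity)
      have h21 : (49 / 8) * ((N : ℝ) * x0 ^ 3) * (3 * x1 * V) = (147 / 8) * ξ * (x0 ^ 3 * V) := by
        rw [hξd]; ring
      have h22 : (147 / 8) * ξ * (x0 ^ 3 * V) ≤ (147 / 8) * ξ * (27 / 25 * ((1 - ξ) * P)) := by
        refine mul_le_mul_of_nonneg_left ?_ (by positivity)
        linarith
      have h23 : (147 / 8) * ξ * (27 / 25 * ((1 - ξ) * P)) ≤ 3969 / 800 * P := by
        have h24 : ξ * (1 - ξ) ≤ 1 / 4 := by nlinarith [sq_nonneg (ξ - 1 / 2)]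
        have h25 := mul_le_mul_of_nonneg_right h24 hPpos.le
        nlinarith [h25]
      calc (9 / 23 - (1 - x0) ^ N) * ((N : ℝ) * x0) ^ 3 * P
          = (9 / 23 - (1 - x0) ^ N) * P * ((N : ℝ) * x0) ^ 3 := by ring
        _ ≤ (49 / 8) * ((N : ℝ) * x0 ^ 3) * (x0 ^ 3 * U) := hmul
        _ ≤ (49 / 8) * (N * x0 ^ 3) * (3 * x1 * V) := h20
        _ = (147 / 8) * ξ * (x0 ^ 3 * V) := h21
        _ ≤ (147 / 8) * ξ * (27 / 25 * ((1 - ξ) * P)) := h22
        _ ≤ 3969 / 800 * P := h23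
    have hfin2 : (9 / 23 - (1 - x0) ^ N) * ((N : ℝ) * x0) ^ 3 ≤ 3969 / 800 :=
      le_of_mul_le_mul_right hfin hPpos
    -- EX2
    have h18 := h2 3 (1 :: 1 :: d :: bs') x0 (x1 :: tl) (by omega) hlspos' hys
    rw [hNsum] at h18
    have h20 : (3 : ℝ) * (P - P * (1 - x0) ^ N) ≤ (N : ℝ) * P * x0 := by
      have h18' : (3 : ℝ) * (x0 ^ 3 * Q (1 :: 1 :: d :: bs') (x1 :: tl)) ≤ (N : ℝ) * P * x0 := by
        exact_mod_cast h18
      refine le_trans ?_ h18'
      have h21 : x0 ^ 3 * Q (1 :: 1 :: d :: bs') (x1 :: tl) = P - Q ls (x1 :: tl) := by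
        rw [hPdef]; ring
      rw [h21]
      linarith
    have h21 : 3 * (1 - (1 - x0) ^ N) ≤ (N : ℝ) * x0 := by
      have h22 : (3 * (1 - (1 - x0) ^ N)) * P ≤ ((N : ℝ) * x0) * P := by
        nlinarith [h20]
      exact le_of_mul_le_mul_right h22 hPpos
    have h30 := h5 N x0 (by omega) hx0 hx0lt h21
    linarith

end Pool.LAY
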