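import Pool.Agent.H97.LAY.Stmts5

/-!
# Board `lay`, row CO5: no finite maximiser when all layers before a layer of size one are large
-/

set_option autoImplicit false

namespace Pool.LAY

open Finset

private theorem co5_filter (hZ : QZRStmt) (ls : List ℕ) (hls : ∀ l ∈ ls, 1 ≤ l) :
    ∀ xs pre : List ℝ, Q ls (pre ++ xs.filter (fun x => decide (x ≠ 0))) = Q ls (pre ++ xs) := by
  intro xs
  induction xs with
  | nil => intro pre; simp
  | cons x xs ih =>
    intro pre
    by_cases hx : x = 0
    · subst hx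
      have h1 : (List.filter (fun x : ℝ => decide (x ≠ 0)) (0 :: xs)) =
          xs.filter (fun x => decide (x ≠ 0)) := by simp
      rw [h1, ih pre, hZ ls pre xs hls]
    · have h1 : (List.filter (fun x : ℝ => decide (x ≠ 0)) (x :: xs)) =
          x :: xs.filter (fun x => decide (x ≠ 0)) := by simp [hx]
      rw [h1]
      have h2 := ih (pre ++ [x])
      simpa using h2

private theorem co5_sum : ∀ xs : List ℝ,
    (xs.filter (fun x => decide (x ≠ 0))).sum = xs.sum := by
  intro xs
  induction xs with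
  | nil => simp
  | cons x xs ih =>
    by_cases hx : x = 0
    · subst hx
      have h1 : (List.filter (fun x : ℝ => decide (x ≠ 0)) (0 :: xs)) =
          xs.filter (fun x => decide (x ≠ 0)) := by simp
      rw [h1, ih]; simp
    · have h1 : (List.filter (fun x : ℝ => decide (x ≠ 0)) (x :: xs)) =
          x :: xs.filter (fun x => decide (x ≠ 0)) := by simp [hx]
      rw [h1, List.sum_cons, ih, List.sum_cons]

private theorem co5_pos (hN : QNNStmt) : ∀ (ls : List ℕ) (ys : List ℝ), (∀ y ∈ ys, 0 < y) →
    ls.length ≤ ys.length → 0 < Q ls ys := by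
  intro ls ys
  induction ys generalizing ls with
  | nil =>
    intro _ h
    have : ls = [] := by
      cases ls with
      | nil => rfl
      | cons l ls => simp at h
    subst this
    simp [Q]
  | cons y ys ih =>
    intro hy h
    cases ls with
    | nil => simp [Q]
    | cons l ls =>
      have h1 : 0 < y := hy y (by simp)
      have h2 : ∀ z ∈ ys, 0 < z := fun z hz => hy z (by simp [hz])
      have h3 := ih ls h2 (by simpa using h)
      have h4 : 0 ≤ Q (l :: ls) ys := (hN _ _ fun z hz => (h2 z hz).le).1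
      have h5 : 0 < y ^ l * Q ls ys := by positivity
      show 0 < y ^ l * Q ls ys + Q (l :: ls) ys
      linarith

private theorem co5_zero : ∀ (ys : List ℝ) (ls : List ℕ), ys.length < ls.length → Q ls ys = 0 := by
  intro ys
  induction ys with
  | nil =>
    intro ls h
    cases ls with
    | nil => simp at h
    | cons l ls => rfl
  | cons y ys ih =>
    intro ls h
    cases ls with
    | nil => simp at h
    | cons l ls =>
      have h1 : ys.length < ls.length := by simpa using h
      show y ^ l * Q ls ys + Q (l :: ls) ys = 0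
      rw [ih ls h1, ih (l :: ls) (by simp; omega)]
      simp

private theorem co5_kap (b : ℕ) : 0 ≤ kap b := by
  unfold kap
  split_ifs
  · norm_num
  · positivity

theorem CO5 (hEPS : EPSStmt) (hXI : XI2Stmt) (hSB : SB1Stmt) (hK : K12Stmt) (hCUT : CUTStmt)
    (hRG2 : RG2Stmt) (hRG3 : RG3Stmt) (hEXS : EXSStmt) (hCHF : CHFStmt) (hMON : MONStmt)
    (hNU : NU5Stmt) (h9 : QNNStmt) (h8 : QZRStmt) : CO5Stmt := by
  intro cs bs b A hcs hb hA hbs hpA xs hM
  set p : ℕ := cs.length with hp
  have hp1 : 1 ≤ p := by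
    rw [hp]; exact List.length_pos_iff.2 hcs
  have hA8 : 2 * b + 6 ≤ A := by
    have h1 : 2 ^ (2 * b + 6) ≤ 2 ^ A := le_trans (Nat.le_mul_of_pos_left _ hp1) hpA
    exact (Nat.pow_le_pow_iff_right (by norm_num)).1 h1
  set ls : List ℕ := cs ++ 1 :: b :: bs with hls
  have hcpos : ∀ l ∈ cs, 1 ≤ l := fun l hl => le_trans (by omega) (hA l hl)
  have hlspos : ∀ l ∈ ls, 1 ≤ l := by
    intro l hl
    simp only [hls, List.mem_append, List.mem_cons] at hl
    rcases hl with hl | rfl | rfl | hl
    · exact hcpos l hl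
    · omega
    · omega
    · exact hbs l hl
  set N : ℕ := ls.sum with hN
  have hAN : A + 1 ≤ N := by
    obtain ⟨c, cs', hc⟩ := List.exists_cons_of_ne_nil hcs
    have h1 : A ≤ c := hA c (by rw [hc]; simp)
    rw [hN, hls, hc]
    simp only [List.cons_append, List.sum_cons, List.sum_append]
    omega
  -- drop the zero entries
  obtain ⟨ys, hys, hypos⟩ : ∃ ys : List ℝ, IsMax ls ys ∧ ∀ y ∈ ys, 0 < y := by
    refine ⟨xs.filter (fun x => decide (x ≠ 0)), ⟨?_, ?_, ?_⟩, ?_⟩
    · intro y hy
      exact hM.1 y (List.mem_filter.1 hy).1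
    · rw [co5_sum, hM.2.1]
    · intro zs hz1 hz2
      have := co5_filter h8 ls hlspos xs []
      simp only [List.nil_append] at this
      rw [this]
      exact hM.2.2 zs hz1 hz2
    · intro y hy
      have h := List.mem_filter.1 hy
      have h0 := hM.1 y h.1
      have hne : y ≠ 0 := by simpa using h.2
      exact lt_of_le_of_ne h0 (Ne.symm hne)
  clear hM
  set P : ℝ := Q ls ys with hP
  have hPpos : 0 < P := by
    set k : ℕ := ls.length with hk
    have hk0 : 0 < k := by simp [hk, hls]
    have hkR : (0 : ℝ) < k := by exact_mod_cast hk0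
    have hc := co5_pos h9 ls (List.replicate k (1 / (k : ℝ))) (by
      intro y hy
      rw [List.eq_of_mem_replicate hy]
      positivity) (by simp [hk])
    refine lt_of_lt_of_le hc (hys.2.2 _ ?_ ?_)
    · intro y hy
      rw [List.eq_of_mem_replicate hy]
      positivity
    · rw [List.sum_replicate, nsmul_eq_mul]
      field_simp
  -- split the list
  have hlen : p + 2 ≤ ys.length := by
    by_contra hcon
    have h1 : ys.length < ls.length := by
      simp only [hls, List.length_append, List.length_cons]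
      omega
    have h2 := co5_zero ys ls h1
    rw [← hP] at h2
    linarith
  obtain ⟨pre, v, tl, rfl, hplen⟩ : ∃ (pre : List ℝ) (v : ℝ) (tl : List ℝ),
      ys = pre ++ v :: tl ∧ pre.length = p := by
    have h1 : (ys.drop p) ≠ [] := by
      intro h
      have := congrArg List.length h
      simp only [List.length_drop, List.length_nil] at this
      omega
    obtain ⟨v, tl, h2⟩ := List.exists_cons_of_ne_nil h1
    refine ⟨ys.take p, v, tl, ?_, ?_⟩
    · rw [← h2, List.take_append_drop]
    · rw [List.length_take]; omega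
  have hv : 0 < v := hypos v (by simp)
  have hprepos : ∀ x ∈ pre, 0 < x := fun x hx => hypos x (by simp [hx])
  have hpre : NN pre := fun x hx => (hprepos x hx).le
  have htl : NN tl := fun x hx => (hypos x (by simp [hx])).le
  have hvtl : NN (v :: tl) := by
    intro y hy
    rcases List.mem_cons.1 hy with rfl | hy
    · exact hv.le
    · exact htl y hy
  have hN0 : (0 : ℝ) < N := by
    have : 0 < N := by omega
    exact_mod_cast this
  have hbR : (1 : ℝ) ≤ b := by exact_mod_cast hb
  have hpR : (1 : ℝ) ≤ p := by exact_mod_cast hp1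
  set ε : ℝ := (p : ℝ) / 2 ^ (A + 1) with hε
  have hε0 : 0 ≤ ε := by positivity
  have hε4 : ε ≤ 1 / 4 := by
    rw [hε, div_le_iff₀ (by positivity)]
    have h1 : (p : ℝ) * 2 ^ (2 * b + 6) ≤ 2 ^ A := by exact_mod_cast hpA
    have h2 : (1 : ℝ) ≤ 2 ^ (2 * b + 6) := one_le_pow₀ (by norm_num)
    have h3 : (64 : ℝ) ≤ 2 ^ (2 * b + 6) := by
      calc (64 : ℝ) = 2 ^ 6 := by norm_num
        _ ≤ 2 ^ (2 * b + 6) := pow_le_pow_right₀ (by norm_num) (by omega)
    have h4 : (p : ℝ) * 64 ≤ 2 ^ A := le_trans (mul_le_mul_of_nonneg_left h3 (by positivity)) h1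
    rw [pow_succ]
    linarith
  set w0 : ℝ := Q cs pre * Q (1 :: b :: bs) (v :: tl) with hw0
  have hE : P - w0 ≤ ε * P :=
    hEPS cs (1 :: b :: bs) pre tl v A hcs hlspos hA (by omega) hAN hplen hys hprepos hv hPpos
  have hξ2 : (N : ℝ) * v < 2 := by
    refine hXI cs bs b pre tl v hb hcpos hbs hys hPpos (le_trans hE ?_)
    exact mul_le_mul_of_nonneg_right hε4 hPpos.le
  set ξ : ℝ := (N : ℝ) * v with hξ
  have hξ0 : 0 < ξ := by positivity
  set U : ℝ := Q bs tl with hU
  have hU0 : 0 ≤ U := (h9 _ _ htl).1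
  have hC0 : 0 ≤ Q cs pre := (h9 _ _ hpre).1
  set ν : ℝ := (b : ℝ) + 5 / 2 with hν
  have hν0 : 0 < ν := by rw [hν]; linarith
  set ρ : ℝ := 9 / (4 * (b : ℝ) + 19) with hρ
  have hρ1 : ρ ≤ 1 := by
    rw [hρ, div_le_one (by positivity)]
    linarith
  have hKb : ∀ zs : List ℝ, NN zs → (N : ℝ) * zs.sum ≤ ν →
      Q [1, b] zs ≤ kap b * (ν / N) ^ (b + 1) := by
    intro zs hzs hle
    refine (hK b zs hb hzs).trans ?_
    refine mul_le_mul_of_nonneg_left ?_ (co5_kap b)
    refine pow_le_pow_left₀ (List.sum_nonneg hzs) ?_ _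
    rw [le_div_iff₀ hN0]
    linarith
  have hclaim : (ρ - ε) * P ≤ Q cs pre * (kap b * (ν / N) ^ (b + 1) * U) := by
    have hR0 : 0 ≤ Q cs pre * (kap b * (ν / N) ^ (b + 1) * U) :=
      mul_nonneg hC0 (mul_nonneg (mul_nonneg (co5_kap b) (by positivity)) hU0)
    by_cases hcase : (N : ℝ) * (v + tl.sum) ≤ ν
    · have h1 : Q (1 :: b :: bs) (v :: tl) ≤ Q [1, b] (v :: tl) * Q bs tl :=
        hSB [1, b] bs v tl (by simp) hv.le htl
      have h2 : Q [1, b] (v :: tl) ≤ kap b * (ν / N) ^ (b + 1) :=
        hKb (v :: tl) hvtl (by simpa using hcase)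
      have h3 : w0 ≤ Q cs pre * (kap b * (ν / N) ^ (b + 1) * U) := by
        rw [hw0]
        refine mul_le_mul_of_nonneg_left ?_ hC0
        exact h1.trans (mul_le_mul_of_nonneg_right h2 hU0)
      have h4 : ρ * P ≤ 1 * P := mul_le_mul_of_nonneg_right hρ1 hPpos.le
      have h5 : (ρ - ε) * P = ρ * P - ε * P := by ring
      linarith
    · push Not at hcase
      have hc0 : 0 ≤ ν / N := by positivity
      have hcs' : ν / N ≤ (v :: tl).sum := by
        rw [List.sum_cons, div_le_iff₀ hN0]
        linarith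
      obtain ⟨pre', y, post, hpp, hq1, hq2⟩ := hCUT (v :: tl) (ν / N) (by simp) hvtl hc0 hcs'
      cases pre' with
      | nil =>
        exfalso
        have h10 : v = y := by
          have := hpp
          simp only [List.nil_append, List.cons.injEq] at this
          exact this.1
        rw [← h10] at hq2
        simp only [List.sum_nil, zero_add] at hq2
        rw [div_le_iff₀ hN0] at hq2
        have h11 : v * (N : ℝ) = ξ := by rw [hξ]; ring
        rw [h11, hν] at hq2
        linarith
      | cons z mid =>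
        obtain ⟨hz1, hz2⟩ : v = z ∧ tl = mid ++ y :: post := by
          have := hpp
          simp only [List.cons_append, List.cons.injEq] at this
          exact this
        subst hz1
        have hvm : NN (v :: mid) := by
          intro z hz
          rcases List.mem_cons.1 hz with rfl | hz
          · exact hv.le
          · exact htl z (by rw [hz2]; simp [hz])
        have hsp : (v :: mid).sum = v + mid.sum := by simp
        have hge : (b : ℝ) + 5 / 2 ≤ (N : ℝ) * (v + mid.sum + y) := by
          rw [hsp, div_le_iff₀ hN0] at hq2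
          linarith
        have hle : (N : ℝ) * (v :: mid).sum ≤ ν := by
          rw [le_div_iff₀ hN0] at hq1
          linarith
        have hk := hKb (v :: mid) hvm hle
        rcases bs with _ | ⟨d, bs'⟩
        · have hys2 : IsMax (cs ++ [1, b]) (pre ++ v :: (mid ++ y :: post)) := by
            rw [← hz2]; exact hys
          have h1 := hRG3 cs b pre mid post v y hb hcpos hplen hys2 hge
          rw [← hz2] at h1
          have h2 : ρ * P ≤ P - w0 := h1
          have h5 : (ρ - ε) * P = ρ * P - ε * P := by ring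
          linarith
        · have hys2 : IsMax (cs ++ 1 :: b :: d :: bs') (pre ++ v :: (mid ++ y :: post)) := by
            rw [← hz2]; exact hys
          have h1 := hRG2 cs bs' b d pre mid post v y hb (hbs d (by simp)) hcpos
            (fun l hl => hbs l (by simp [hl])) hplen hys2 hge
          rw [← hz2] at h1
          have h2 : ρ * P ≤ (P - w0) + Q cs pre * (Q [1, b] (v :: mid) * U) := h1
          have h3 : Q cs pre * (Q [1, b] (v :: mid) * U) ≤
              Q cs pre * (kap b * (ν / N) ^ (b + 1) * U) :=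
            mul_le_mul_of_nonneg_left (mul_le_mul_of_nonneg_right hk hU0) hC0
          have h5 : (ρ - ε) * P = ρ * P - ε * P := by ring
          linarith
  -- the exchange inequality
  set M : ℝ := (A : ℝ) * (Real.exp 1 * ξ / A) ^ A * Real.exp (-ξ) with hMd
  have hexs : Q cs pre * (v ^ (b + 1) * U) ≤ (p : ℝ) * (M * P) := by
    refine (hEXS cs bs b pre tl v hb hcpos hbs hplen hys hv).trans ?_
    have hterm : ∀ j ∈ range cs.length, ((cs.getD j 0 : ℕ) : ℝ) * (v ^ (cs.getD j 0) *
        (Q (cs.take j) pre * Q (cs.drop (j + 1) ++ 1 :: b :: bs) tl)) ≤ M * P := by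
      intro j hj
      have hj' : j < cs.length := mem_range.1 hj
      have hget : cs.getD j 0 = cs[j] := by simp [List.getD, hj']
      rw [hget]
      have hmem : cs[j] ∈ cs := List.getElem_mem hj'
      have hAj : A ≤ cs[j] := hA _ hmem
      have hdec : cs.take j ++ cs[j] :: (cs.drop (j + 1) ++ 1 :: b :: bs) = ls := by
        rw [hls]
        have h1 : cs.take j ++ cs[j] :: cs.drop (j + 1) = cs := by
          rw [← List.drop_eq_getElem_cons hj', List.take_append_drop]
        calc cs.take j ++ cs[j] :: (cs.drop (j + 1) ++ 1 :: b :: bs)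
            = (cs.take j ++ cs[j] :: cs.drop (j + 1)) ++ 1 :: b :: bs := by
              rw [List.append_assoc]; rfl
          _ = cs ++ 1 :: b :: bs := by rw [h1]
      have h1 := hCHF (cs.take j) (cs.drop (j + 1) ++ 1 :: b :: bs) cs[j] pre tl v
        (hcpos _ hmem) (by rw [hdec]; exact hlspos) (by rw [hdec]; exact hys) hv
      rw [hdec] at h1
      have h2 := hMON A cs[j] ξ (by omega) hAj hξ0.le hξ2.le
      have hc0 : (0 : ℝ) ≤ (cs[j] : ℕ) := by positivity
      calc ((cs[j] : ℕ) : ℝ) * (v ^ cs[j] *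
            (Q (cs.take j) pre * Q (cs.drop (j + 1) ++ 1 :: b :: bs) tl))
          ≤ ((cs[j] : ℕ) : ℝ) * (P * ((Real.exp 1 * ξ / (cs[j] : ℕ)) ^ cs[j] * Real.exp (-ξ))) :=
            mul_le_mul_of_nonneg_left h1 hc0
        _ = (((cs[j] : ℕ) : ℝ) * (Real.exp 1 * ξ / (cs[j] : ℕ)) ^ cs[j]) *
              (Real.exp (-ξ) * P) := by ring
        _ ≤ ((A : ℝ) * (Real.exp 1 * ξ / A) ^ A) * (Real.exp (-ξ) * P) :=
            mul_le_mul_of_nonneg_right h2 (by positivity)
        _ = M * P := by rw [hMd]; ring
    refine (Finset.sum_le_sum hterm).trans ?_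
    rw [Finset.sum_const, card_range, nsmul_eq_mul]
  -- combine
  have hnum := hNU A b p ξ ε hb hp1 hpA hξ0 hξ2 hε0 le_rfl
  have hmul := mul_le_mul_of_nonneg_right hclaim (show (0 : ℝ) ≤ ξ ^ (b + 1) by positivity)
  have hνN : (ν / N) ^ (b + 1) * ξ ^ (b + 1) = ν ^ (b + 1) * v ^ (b + 1) := by
    rw [← mul_pow, ← mul_pow, hξ]
    congr 1
    field_simp
  have hkν : 0 ≤ kap b * ν ^ (b + 1) := mul_nonneg (co5_kap b) (by positivity)
  have h1 : Q cs pre * (kap b * (ν / N) ^ (b + 1) * U) * ξ ^ (b + 1) =
      kap b * ν ^ (b + 1) * (Q cs pre * (v ^ (b + 1) * U)) := by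
    calc Q cs pre * (kap b * (ν / N) ^ (b + 1) * U) * ξ ^ (b + 1)
        = Q cs pre * (kap b * ((ν / N) ^ (b + 1) * ξ ^ (b + 1)) * U) := by ring
      _ = _ := by rw [hνN]; ring
  rw [h1] at hmul
  have h2 := hmul.trans (mul_le_mul_of_nonneg_left hexs hkν)
  have h3 : kap b * ν ^ (b + 1) * ((p : ℝ) * M) < (ρ - ε) * ξ ^ (b + 1) := hnum
  have h4 := mul_lt_mul_of_pos_right h3 hPpos
  have h5 : (ρ - ε) * P * ξ ^ (b + 1) = (ρ - ε) * ξ ^ (b + 1) * P := by ring
  have h6 : kap b * ν ^ (b + 1) * ((p : ℝ) * (M * P)) = kap b * ν ^ (b + 1) * ((p : ℝ) * M) * P := by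
    ring
  linarith

end Pool.LAY
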