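import Pool.Agent.H97.LAY.Stmts

/-!
# Board `lay`, row COR: no finite maximiser
-/

set_option autoImplicit false

namespace Pool.LAY

open Finset

private theorem cor_filter (hZ : QZRStmt) (ls : List ℕ) (hls : ∀ l ∈ ls, 1 ≤ l) :
    ∀ xs pre : List ℝ, Q ls (pre ++ xs.filter (fun x => decide (x ≠ 0))) = Q ls (pre ++ xs) := by
  intro xs
  induction xs with
  | nil => intro pre; simp
  | cons x xs ih =>
    intro pre
    by_cases hx : x = 0
    · subst hx
      have h1 : (List.filter (fun x : ℝ => decide (x ≠ 0)) (0 :: xs)) =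
          xs.filter (fun x => decide (x ≠ 0)) := by simp
      rw [h1, ih pre, hZ ls pre xs hls]
    · have h1 : (List.filter (fun x : ℝ => decide (x ≠ 0)) (x :: xs)) =
          x :: xs.filter (fun x => decide (x ≠ 0)) := by simp [hx]
      rw [h1]
      have h2 := ih (pre ++ [x])
      simpa using h2

private theorem cor_sum : ∀ xs : List ℝ,
    (xs.filter (fun x => decide (x ≠ 0))).sum = xs.sum := by
  intro xs
  induction xs with
  | nil => simp
  | cons x xs ih =>
    by_cases hx : x = 0
    · subst hx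
      have h1 : (List.filter (fun x : ℝ => decide (x ≠ 0)) (0 :: xs)) =
          xs.filter (fun x => decide (x ≠ 0)) := by simp
      rw [h1, ih]; simp
    · have h1 : (List.filter (fun x : ℝ => decide (x ≠ 0)) (x :: xs)) =
          x :: xs.filter (fun x => decide (x ≠ 0)) := by simp [hx]
      rw [h1, List.sum_cons, ih, List.sum_cons]

private theorem cor_pos (hN : QNNStmt) : ∀ (ls : List ℕ) (ys : List ℝ), (∀ y ∈ ys, 0 < y) →
    ls.length ≤ ys.length → 0 < Q ls ys := by
  intro ls ys
  induction ys generalizing ls with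
  | nil =>
    intro _ h
    have : ls = [] := by
      cases ls with
      | nil => rfl
      | cons l ls => simp at h
    subst this
    simp [Q]
  | cons y ys ih =>
    intro hy h
    cases ls with
    | nil => simp [Q]
    | cons l ls =>
      have h1 : 0 < y := hy y (by simp)
      have h2 : ∀ z ∈ ys, 0 < z := fun z hz => hy z (by simp [hz])
      have h3 := ih ls h2 (by simpa using h)
      have h4 : 0 ≤ Q (l :: ls) ys := (hN _ _ fun z hz => (h2 z hz).le).1
      have h5 : 0 < y ^ l * Q ls ys := by positivity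
      show 0 < y ^ l * Q ls ys + Q (l :: ls) ys
      linarith

theorem COR (h1 : EX1Stmt) (h2 : EX2Stmt) (h3 : IMHStmt) (h4 : ALGStmt) (h5 : NUMStmt)
    (h6 : QSBStmt) (h8 : QZRStmt) (h9 : QNNStmt) : CORStmt := by
  intro a b bs ha hb hbs hN xs hM
  set ls : List ℕ := a :: 1 :: b :: bs with hls
  have hlspos : ∀ l ∈ ls, 1 ≤ l := by
    intro l hl
    simp only [hls, List.mem_cons] at hl
    rcases hl with rfl | rfl | rfl | hl
    · omega
    · omega
    · omega
    · exact hbs l hl
  have hlssum : ls.sum = a + (1 + (b + bs.sum)) := by simp [hls]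
  -- drop the zero entries
  obtain ⟨ys, hys, hypos⟩ : ∃ ys : List ℝ, IsMax ls ys ∧ ∀ y ∈ ys, 0 < y := by
    refine ⟨xs.filter (fun x => decide (x ≠ 0)), ⟨?_, ?_, ?_⟩, ?_⟩
    · intro y hy
      exact hM.1 y (List.mem_filter.1 hy).1
    · rw [cor_sum, hM.2.1]
    · intro zs hz1 hz2
      have := cor_filter h8 ls hlspos xs []
      simp only [List.nil_append] at this
      rw [this]
      exact hM.2.2 zs hz1 hz2
    · intro y hy
      have h := List.mem_filter.1 hy
      have h0 := hM.1 y h.1
      have hne : y ≠ 0 := by simpa using h.2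
      exact lt_of_le_of_ne h0 (Ne.symm hne)
  clear hM
  set P : ℝ := Q ls ys with hP
  have hPpos : 0 < P := by
    set k : ℕ := ls.length with hk
    have hk0 : 0 < k := by simp [hk, hls]
    have hkR : (0 : ℝ) < k := by exact_mod_cast hk0
    have hc := cor_pos h9 ls (List.replicate k (1 / (k : ℝ))) (by
      intro y hy
      rw [List.eq_of_mem_replicate hy]
      positivity) (by simp [hk])
    refine lt_of_lt_of_le hc (hys.2.2 _ ?_ ?_)
    · intro y hy
      rw [List.eq_of_mem_replicate hy]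
      positivity
    · rw [List.sum_replicate, nsmul_eq_mul]
      field_simp
  obtain ⟨x0, x1, tl, rfl⟩ : ∃ x0 x1 tl, ys = x0 :: x1 :: tl := by
    rcases ys with _ | ⟨x0, _ | ⟨x1, tl⟩⟩
    · exfalso
      simp [hP, hls, Q] at hPpos
    · exfalso
      simp [hP, hls, Q] at hPpos
    · exact ⟨x0, x1, tl, rfl⟩
  have hx0 : 0 < x0 := hypos x0 (by simp)
  have hx1 : 0 < x1 := hypos x1 (by simp)
  have htl : NN tl := fun y hy => (hypos y (by simp [hy])).le
  have htl1 : NN (x1 :: tl) := by
    intro y hy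
    rcases List.mem_cons.1 hy with rfl | hy
    · exact hx1.le
    · exact htl y hy
  have htls : 0 ≤ tl.sum := List.sum_nonneg htl
  have hsum : x0 + (x1 + tl.sum) = 1 := by
    have := hys.2.1
    simpa using this
  have hx0lt : x0 < 1 := by linarith
  have hs : (x1 :: tl).sum = 1 - x0 := by
    rw [List.sum_cons]; linarith
  set U : ℝ := Q bs tl with hU
  set V : ℝ := Q (1 :: b :: bs) tl with hV
  have hU0 : 0 ≤ U := (h9 _ _ htl).1
  have hV0 : 0 ≤ V := (h9 _ _ htl).1
  have hVU : V ≤ Q [1, b] tl * U := h6 [1, b] bs tl htl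
  have hTU : Q (b :: bs) tl ≤ Q [b] tl * U := h6 [b] bs tl htl
  have hT0 : 0 ≤ Q (b :: bs) tl := (h9 _ _ htl).1
  have hPdef : P = x0 ^ a * Q (1 :: b :: bs) (x1 :: tl) + Q ls (x1 :: tl) := rfl
  have hMdef : Q (1 :: b :: bs) (x1 :: tl) = x1 ^ 1 * Q (b :: bs) tl + V := rfl
  have hlsne : ls ≠ [] := by simp [hls]
  have hR : Q ls (x1 :: tl) ≤ P * (1 - x0) ^ ls.sum := by
    have := h3 ls (x0 :: x1 :: tl) (x1 :: tl) hlsne hlspos hys htl1
    rwa [hs] at this
  have hpow : (1 - x0) ^ ls.sum < 1 := by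
    apply pow_lt_one₀ (by linarith) (by linarith)
    rw [hlssum]; omega
  rcases hU0.eq_or_lt with hU1 | hU1
  · -- `U = 0`
    have hV1 : V = 0 := by
      rw [← hU1] at hVU
      have : V ≤ 0 := by simpa using hVU
      exact le_antisymm this hV0
    have hT1 : Q (b :: bs) tl = 0 := by
      rw [← hU1] at hTU
      have : Q (b :: bs) tl ≤ 0 := by simpa using hTU
      exact le_antisymm this hT0
    rw [hMdef, hV1, hT1] at hPdef
    have h10 : P = Q ls (x1 :: tl) := by
      rw [hPdef]; ring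
    have h11 : P * (1 - x0) ^ ls.sum < P * 1 := by
      exact mul_lt_mul_of_pos_left hpow hPpos
    linarith
  · -- `U > 0`
    have hba : b + 1 ≤ a := by omega
    have h10 := h1 a b bs x0 x1 tl (by omega) hb hbs hys hx1
    have h11 : x0 ^ a * x1 ^ b * U ≤ ((a : ℝ) * x1 ^ (a - 1) * Q [1, b] tl) * U := by
      refine h10.trans ?_
      have : (a : ℝ) * x1 ^ (a - 1) * V ≤ (a : ℝ) * x1 ^ (a - 1) * (Q [1, b] tl * U) :=
        mul_le_mul_of_nonneg_left hVU (by positivity)
      refine this.trans (le_of_eq ?_)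
      ring
    have h12 : x0 ^ a * x1 ^ b ≤ (a : ℝ) * x1 ^ (a - 1) * Q [1, b] tl :=
      le_of_mul_le_mul_right h11 hU1
    have h13 : x1 ^ (a - 1) = x1 ^ (a - 1 - b) * x1 ^ b := by
      rw [← pow_add]
      congr 1
      omega
    have h14 : x0 ^ a * x1 ^ b ≤ ((a : ℝ) * x1 ^ (a - 1 - b) * Q [1, b] tl) * x1 ^ b := by
      rw [h13] at h12
      refine h12.trans (le_of_eq ?_)
      ring
    have h15 : x0 ^ a ≤ (a : ℝ) * x1 ^ (a - 1 - b) * Q [1, b] tl :=
      le_of_mul_le_mul_right h14 (by positivity)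
    have h16 := h4 a b x1 tl ha hb hba hx1.le htl
    have h17 : x0 ^ a ≤ (3 / 4) * (1 - x0) ^ a := by
      have : x1 + tl.sum = 1 - x0 := by linarith
      rw [this] at h16
      exact h15.trans h16
    have h18 := h2 a (1 :: b :: bs) x0 (x1 :: tl) (by omega) (by
      intro l hl
      exact hlspos l (by rw [hls]; exact List.mem_cons_of_mem _ hl)) hys
    have h19 : (a + (1 :: b :: bs).sum : ℕ) = ls.sum := by simp [hls]
    rw [h19] at h18
    have h20 : (a : ℝ) * (P - P * (1 - x0) ^ ls.sum) ≤ (ls.sum : ℝ) * P * x0 := by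
      refine le_trans ?_ h18
      have h21 : x0 ^ a * Q (1 :: b :: bs) (x1 :: tl) = P - Q ls (x1 :: tl) := by
        rw [hPdef]; ring
      rw [h21]
      exact mul_le_mul_of_nonneg_left (by linarith) (by positivity)
    have h21 : (a : ℝ) * (1 - (1 - x0) ^ ls.sum) ≤ (ls.sum : ℝ) * x0 := by
      have h22 : ((a : ℝ) * (1 - (1 - x0) ^ ls.sum)) * P ≤ ((ls.sum : ℝ) * x0) * P := by
        nlinarith [h20]
      exact le_of_mul_le_mul_right h22 hPpos
    exact h5 a ls.sum x0 ha (by rw [hlssum]; omega) (by rw [hlssum]; omega) hx0 hx0lt h21 h17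

end Pool.LAY
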