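import Pool.Agent.H97.LAY.DSM

/-!
# Row COU of the board `lay`: the occurrences in a layered permutation, counted directly
-/

set_option autoImplicit false

namespace Pool.LAY

open Finset

/-- auxiliary form of `IsLayering` -/
def LayeredBy {n r : ℕ} (π : Equiv.Perm (Fin n)) (b : Fin n → Fin r) : Prop :=
  Function.Surjective b ∧ Monotone b ∧ ∀ i j : Fin n, i < j → (π i < π j ↔ b i < b j)

theorem IsLayering.layeredBy {n r : ℕ} {π : Equiv.Perm (Fin n)} {b : Fin n → Fin r}
    (h : IsLayering π b) : LayeredBy π b := by
  refine ⟨h.1, h.2.1, ?_⟩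
  intro i j hij
  rcases lt_or_eq_of_le (h.2.1 hij.le) with h1 | h1
  · exact ⟨fun _ => h1, fun _ => h.2.2.2 i j h1⟩
  · have h2 := h.2.2.1 i j hij h1
    constructor
    · intro h3
      exact absurd h3 (not_lt.mpr h2.le)
    · intro h3
      exact absurd h3 (by rw [h1]; exact lt_irrefl _)

/-- The set `S` of points of `π` induces the pattern `σ`. -/
def Induces {m n : ℕ} (σ : Equiv.Perm (Fin m)) (π : Equiv.Perm (Fin n)) (S : Finset (Fin n)) : Prop :=
  ∃ h : S.card = m, ∀ i j : Fin m,
    σ i < σ j ↔ π (S.orderEmbOfFin h i) < π (S.orderEmbOfFin h j)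

/-! ### Monotone functions with the same fibres sizes -/

theorem mono_eq {m r : ℕ} (f g : Fin m → Fin r) (hf : Monotone f) (hg : Monotone g)
    (h : ∀ v, (univ.filter (fun i => f i = v)).card = (univ.filter (fun i => g i = v)).card) :
    f = g := by
  classical
  have hlt : ∀ v : Fin r, (univ.filter (fun i => f i < v)).card = (univ.filter (fun i => g i < v)).card := by
    intro v
    have e1 : ∀ F : Fin m → Fin r, (univ.filter (fun i => F i < v)).card
        = ∑ u ∈ univ.filter (fun u : Fin r => u < v), (univ.filter (fun i => F i = u)).card := by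
      intro F
      rw [← Finset.card_biUnion]
      · congr 1
        ext i
        simp
      · intro a _ b _ hab
        rw [Function.onFun, Finset.disjoint_left]
        intro i hi hi'
        simp only [mem_filter, mem_univ, true_and] at hi hi'
        exact hab (hi.symm.trans hi')
    rw [e1 f, e1 g]
    exact Finset.sum_congr rfl (fun u _ => h u)
  have hset : ∀ v : Fin r, (univ.filter (fun i => f i < v)) = (univ.filter (fun i => g i < v)) := by
    intro v
    have hsub : (univ.filter (fun i => f i < v)) ⊆ (univ.filter (fun i => g i < v)) ∨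
        (univ.filter (fun i => g i < v)) ⊆ (univ.filter (fun i => f i < v)) := by
      by_contra hcon
      push Not at hcon
      obtain ⟨h1, h2⟩ := hcon
      obtain ⟨i, hi, hi'⟩ := Finset.not_subset.mp h1
      obtain ⟨j, hj, hj'⟩ := Finset.not_subset.mp h2
      simp only [mem_filter, mem_univ, true_and, not_lt] at hi hi' hj hj'
      rcases le_total i j with hij | hij
      · have := hg hij
        exact absurd (lt_of_le_of_lt this hj) (not_lt.mpr hi')
      · have := hf hij
        exact absurd (lt_of_le_of_lt this hi) (not_lt.mpr hj')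
    rcases hsub with hs | hs
    · exact Finset.eq_of_subset_of_card_le hs (le_of_eq (hlt v).symm)
    · exact (Finset.eq_of_subset_of_card_le hs (le_of_eq (hlt v))).symm
  funext i
  by_contra hne
  rcases lt_or_gt_of_ne hne with hh | hh
  · have : i ∈ univ.filter (fun i' => f i' < g i) := by simp [hh]
    rw [hset] at this
    simp at this
  · have : i ∈ univ.filter (fun i' => g i' < f i) := by simp [hh]
    rw [← hset] at this
    simp at this

/-! ### Subsets with prescribed numbers of points in the blocks -/

theorem card_blocks {n r : ℕ} (b : Fin n → Fin r) (w : Fin r → ℕ) :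
    (univ.filter (fun S : Finset (Fin n) =>
      ∀ v, (S.filter (fun i => b i = v)).card = w v)).card
      = ∏ v, ((univ.filter (fun i => b i = v)).card).choose (w v) := by
  classical
  have h1 : ∏ v, ((univ.filter (fun i => b i = v)).card).choose (w v)
      = (Fintype.piFinset (fun v => Finset.powersetCard (w v) (univ.filter (fun i => b i = v)))).card := by
    rw [Fintype.card_piFinset]
    exact Finset.prod_congr rfl (fun v _ => (Finset.card_powersetCard _ _).symm)
  rw [h1]
  refine Finset.card_bij (fun S _ v => S.filter (fun i => b i = v)) ?_ ?_ ?_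
  · intro S hS
    simp only [mem_filter, mem_univ, true_and] at hS
    rw [Fintype.mem_piFinset]
    intro v
    rw [Finset.mem_powersetCard]
    refine ⟨?_, hS v⟩
    intro i hi
    simp only [mem_filter, mem_univ, true_and] at hi ⊢
    exact hi.2
  · intro S _ S' _ hEq
    ext i
    have := congrFun hEq (b i)
    have h2 : i ∈ S.filter (fun i' => b i' = b i) ↔ i ∈ S'.filter (fun i' => b i' = b i) := by
      rw [this]
    simpa using h2
  · intro F hF
    rw [Fintype.mem_piFinset] at hF
    have hF' : ∀ v i, i ∈ F v → b i = v := by
      intro v i hi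
      have := (Finset.mem_powersetCard.mp (hF v)).1 hi
      simpa using this
    refine ⟨univ.filter (fun i => i ∈ F (b i)), ?_, ?_⟩
    · simp only [mem_filter, mem_univ, true_and]
      intro v
      rw [← (Finset.mem_powersetCard.mp (hF v)).2]
      congr 1
      ext i
      simp only [mem_filter, mem_univ, true_and]
      constructor
      · rintro ⟨h3, h4⟩
        rw [h4] at h3
        exact h3
      · intro h3
        have := hF' v i h3
        exact ⟨by rw [this]; exact h3, this⟩
    · funext v
      ext i
      simp only [mem_filter, mem_univ, true_and]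
      constructor
      · rintro ⟨h3, h4⟩
        rw [h4] at h3
        exact h3
      · intro h3
        have := hF' v i h3
        exact ⟨by rw [this]; exact h3, this⟩


theorem card_filter_emb {m n r : ℕ} (S : Finset (Fin n)) (h : S.card = m) (b : Fin n → Fin r) (v : Fin r) :
    (S.filter (fun i => b i = v)).card
      = (univ.filter (fun i : Fin m => b (S.orderEmbOfFin h i) = v)).card := by
  classical
  have e1 : S.filter (fun i => b i = v)
      = (univ.filter (fun i : Fin m => b (S.orderEmbOfFin h i) = v)).map (S.orderEmbOfFin h).toEmbedding := by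
    ext i
    rw [Finset.mem_filter, Finset.mem_map]
    constructor
    · rintro ⟨hi, hb⟩
      have : i ∈ Set.range (S.orderEmbOfFin h) := by
        rw [Finset.range_orderEmbOfFin]
        exact hi
      obtain ⟨j, rfl⟩ := this
      exact ⟨j, by simp [hb], rfl⟩
    · rintro ⟨j, hj, rfl⟩
      rw [Finset.mem_filter] at hj
      exact ⟨Finset.orderEmbOfFin_mem S h j, hj.2⟩
  rw [e1, Finset.card_map]

theorem induces_iff {m n k r : ℕ} {σ : Equiv.Perm (Fin m)} {π : Equiv.Perm (Fin n)}
    {c : Fin m → Fin k} {b : Fin n → Fin r} (hσ : LayeredBy σ c) (hπ : LayeredBy π b)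
    (S : Finset (Fin n)) :
    Induces σ π S ↔ ∃ t : Fin k → Fin r, StrictMono t ∧
      ∀ v, (S.filter (fun i => b i = v)).card = (univ.filter (fun i => t (c i) = v)).card := by
  classical
  obtain ⟨cs, cm, hc⟩ := hσ
  obtain ⟨bs, bm, hb⟩ := hπ
  constructor
  · rintro ⟨h, hS⟩
    have hrel : ∀ i j : Fin m, i < j →
        (c i < c j ↔ b (S.orderEmbOfFin h i) < b (S.orderEmbOfFin h j)) := by
      intro i j hij
      rw [← hc i j hij, hS i j, hb _ _ ((S.orderEmbOfFin h).strictMono hij)]
    have hmono : ∀ i j : Fin m, i ≤ j → b (S.orderEmbOfFin h i) ≤ b (S.orderEmbOfFin h j) := by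
      intro i j hij
      exact bm ((S.orderEmbOfFin h).monotone hij)
    have heq : ∀ i j : Fin m, i ≤ j → c i = c j →
        b (S.orderEmbOfFin h i) = b (S.orderEmbOfFin h j) := by
      intro i j hij hcc
      rcases eq_or_lt_of_le hij with rfl | hlt
      · rfl
      · refine le_antisymm (hmono i j hij) ?_
        rw [← not_lt, ← hrel i j hlt, hcc]
        exact lt_irrefl _
    choose s hs using cs
    have ht : ∀ i, b (S.orderEmbOfFin h (s (c i))) = b (S.orderEmbOfFin h i) := by
      intro i
      rcases le_total (s (c i)) i with h1 | h1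
      · exact heq _ _ h1 (hs _)
      · exact (heq _ _ h1 (hs _).symm).symm
    refine ⟨fun j => b (S.orderEmbOfFin h (s j)), ?_, ?_⟩
    · intro j j' hjj
      have h1 : s j < s j' := by
        by_contra hcon
        push Not at hcon
        have := cm hcon
        rw [hs, hs] at this
        exact absurd hjj (not_lt.mpr this)
      have h2 : c (s j) < c (s j') := by rw [hs, hs]; exact hjj
      exact (hrel _ _ h1).mp h2
    · intro v
      rw [card_filter_emb S h b v]
      congr 1
      ext i
      simp [ht]
  · rintro ⟨t, ht, hcard⟩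
    have hS : S.card = m := by
      have h1 : S.card = ∑ v, (S.filter (fun i => b i = v)).card :=
        Finset.card_eq_sum_card_fiberwise (fun i _ => Finset.mem_univ (b i))
      have h2 : (univ : Finset (Fin m)).card = ∑ v, (univ.filter (fun i => t (c i) = v)).card :=
        Finset.card_eq_sum_card_fiberwise (fun i _ => Finset.mem_univ (t (c i)))
      rw [h1, Finset.sum_congr rfl (fun v _ => hcard v), ← h2]
      simp
    have hfun : (fun i => b (S.orderEmbOfFin hS i)) = (fun i => t (c i)) := by
      refine mono_eq _ _ ?_ ?_ ?_
      · intro i j hij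
        exact bm ((S.orderEmbOfFin hS).monotone hij)
      · intro i j hij
        exact ht.monotone (cm hij)
      · intro v
        rw [← card_filter_emb S hS b v]
        exact hcard v
    have hlt : ∀ i j : Fin m, i < j →
        (σ i < σ j ↔ π (S.orderEmbOfFin hS i) < π (S.orderEmbOfFin hS j)) := by
      intro i j hij
      rw [hc i j hij, hb _ _ ((S.orderEmbOfFin hS).strictMono hij)]
      have e1 : b (S.orderEmbOfFin hS i) = t (c i) := congrFun hfun i
      have e2 : b (S.orderEmbOfFin hS j) = t (c j) := congrFun hfun j
      rw [e1, e2]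
      exact ht.lt_iff_lt.symm
    refine ⟨hS, ?_⟩
    intro i j
    rcases lt_trichotomy i j with hij | hij | hij
    · exact hlt i j hij
    · subst hij
      simp
    · have h1 := hlt j i hij
      have n1 : σ i ≠ σ j := fun h => absurd (σ.injective h) (ne_of_gt hij)
      have n2 : π (S.orderEmbOfFin hS i) ≠ π (S.orderEmbOfFin hS j) := fun h =>
        absurd ((S.orderEmbOfFin hS).injective (π.injective h)) (ne_of_gt hij)
      constructor
      · intro h2
        rcases lt_trichotomy (π (S.orderEmbOfFin hS i)) (π (S.orderEmbOfFin hS j)) with h3 | h3 | h3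
        · exact h3
        · exact absurd h3 n2
        · exact absurd (h1.mpr h3) (not_lt.mpr h2.le)
      · intro h2
        rcases lt_trichotomy (σ i) (σ j) with h3 | h3 | h3
        · exact h3
        · exact absurd h3 n1
        · exact absurd (h1.mp h3) (not_lt.mpr h2.le)

theorem prod_choose {m n k r : ℕ} (c : Fin m → Fin k) (b : Fin n → Fin r)
    (t : Fin k → Fin r) (ht : StrictMono t) :
    ∏ v, ((univ.filter (fun i => b i = v)).card).choose ((univ.filter (fun i => t (c i) = v)).card)
      = ∏ j, ((univ.filter (fun i => b i = t j)).card).choose ((univ.filter (fun i => c i = j)).card) := by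
  classical
  have h1 : ∏ v ∈ univ.image t, ((univ.filter (fun i => b i = v)).card).choose
        ((univ.filter (fun i => t (c i) = v)).card)
      = ∏ v, ((univ.filter (fun i => b i = v)).card).choose
        ((univ.filter (fun i => t (c i) = v)).card) := by
    refine Finset.prod_subset (Finset.subset_univ _) ?_
    intro v _ hv
    have : (univ.filter (fun i => t (c i) = v)) = ∅ := by
      rw [Finset.filter_eq_empty_iff]
      intro i _ hi
      exact hv (Finset.mem_image.mpr ⟨c i, Finset.mem_univ _, hi⟩)
    rw [this]
    simp
  rw [← h1, Finset.prod_image (fun x _ y _ h => ht.injective h)]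
  refine Finset.prod_congr rfl (fun j _ => ?_)
  congr 2
  ext i
  simp [ht.injective.eq_iff]

open Classical in
theorem card_induces {m n k r : ℕ} {σ : Equiv.Perm (Fin m)} {π : Equiv.Perm (Fin n)}
    {c : Fin m → Fin k} {b : Fin n → Fin r} (hσ : LayeredBy σ c) (hπ : LayeredBy π b) :
    (univ.filter (fun S : Finset (Fin n) => Induces σ π S)).card = D (List.ofFn (layerSize c)) (List.ofFn (layerSize b)) := by
  have e1 : (univ.filter (fun S : Finset (Fin n) => Induces σ π S))
      = (SM k r).biUnion (fun t => univ.filter (fun S : Finset (Fin n) =>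
        ∀ v, (S.filter (fun i => b i = v)).card = (univ.filter (fun i => t (c i) = v)).card)) := by
    ext S
    rw [Finset.mem_filter, Finset.mem_biUnion, induces_iff hσ hπ]
    constructor
    · rintro ⟨_, t, ht, h⟩
      exact ⟨t, (mem_SM t).mpr ht, Finset.mem_filter.mpr ⟨Finset.mem_univ _, h⟩⟩
    · rintro ⟨t, ht, h⟩
      exact ⟨Finset.mem_univ _, t, (mem_SM t).mp ht, (Finset.mem_filter.mp h).2⟩
  rw [e1, Finset.card_biUnion]
  · rw [← D_eq_sum]
    refine Finset.sum_congr rfl (fun t ht => ?_)
    rw [card_blocks, prod_choose c b t ((mem_SM t).mp ht)]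
    rfl
  · intro t ht t' ht' hne
    rw [Function.onFun, Finset.disjoint_left]
    intro S h1 h2
    rw [Finset.mem_filter] at h1 h2
    apply hne
    have h3 : (fun i => t (c i)) = (fun i => t' (c i)) := by
      refine mono_eq _ _ ?_ ?_ ?_
      · intro i j hij
        exact ((mem_SM t).mp ht).monotone (hσ.2.1 hij)
      · intro i j hij
        exact ((mem_SM t').mp ht').monotone (hσ.2.1 hij)
      · intro v
        rw [← h1.2 v, ← h2.2 v]
    funext j
    obtain ⟨i, rfl⟩ := hσ.1 j
    exact congrFun h3 i


/-- embeddings inducing `σ` correspond to subsets inducing `σ` -/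
noncomputable def embEquiv {m n : ℕ} (σ : Equiv.Perm (Fin m)) (π : Equiv.Perm (Fin n)) :
    {e : Fin m ↪o Fin n // ∀ a b : Fin m, σ a < σ b ↔ π (e a) < π (e b)} ≃
      {S : Finset (Fin n) // Induces σ π S} := by
  have hc : ∀ e : Fin m ↪o Fin n, (univ.map e.toEmbedding).card = m := by
    intro e
    rw [Finset.card_map, Finset.card_univ, Fintype.card_fin]
  have he : ∀ e : Fin m ↪o Fin n, (univ.map e.toEmbedding).orderEmbOfFin (hc e) = e := by
    intro e
    exact (Finset.orderEmbOfFin_unique' (hc e)
      (fun x => Finset.mem_map.mpr ⟨x, Finset.mem_univ _, rfl⟩)).symm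
  exact
    { toFun := fun e => ⟨univ.map e.1.toEmbedding, hc e.1, by
        intro i j
        rw [he e.1]
        exact e.2 i j⟩
      invFun := fun S => ⟨S.1.orderEmbOfFin S.2.choose, S.2.choose_spec⟩
      left_inv := by
        intro e
        apply Subtype.ext
        exact he e.1
      right_inv := by
        intro S
        apply Subtype.ext
        apply Finset.eq_of_subset_of_card_le
        · intro i hi
          obtain ⟨j, _, rfl⟩ := Finset.mem_map.mp hi
          exact Finset.orderEmbOfFin_mem S.1 S.2.choose j
        · rw [hc, S.2.choose] }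

theorem COU : COUStmt := by
  classical
  intro s n k h σ b π c hσ hπ
  rw [← card_induces hσ.layeredBy hπ.layeredBy]
  unfold occ
  rw [Nat.card_congr (embEquiv σ π), Nat.card_eq_fintype_card, Fintype.card_subtype]

end Pool.LAY
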