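import Pool.Agent.H97.LAY.Stmts

set_option autoImplicit false

namespace Pool.LAY

open Finset

theorem CPT_cont (ls : List ℕ) : ∀ m : ℕ, Continuous (fun x : Fin m → ℝ => Q ls (List.ofFn x)) := by
  intro m
  induction m generalizing ls with
  | zero =>
    simp only [List.ofFn_zero]
    exact continuous_const
  | succ m ih =>
    cases ls with
    | nil =>
      have : (fun x : Fin (m + 1) → ℝ => Q [] (List.ofFn x)) = fun _ => 1 := by
        funext x; rw [Q]
      rw [this]; exact continuous_const
    | cons l ls =>
      have : (fun x : Fin (m + 1) → ℝ => Q (l :: ls) (List.ofFn x)) =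
          fun x => (x 0) ^ l * Q ls (List.ofFn (fun i : Fin m => x i.succ)) +
            Q (l :: ls) (List.ofFn (fun i : Fin m => x i.succ)) := by
        funext x
        rw [List.ofFn_succ, Q]
      rw [this]
      have hs : Continuous (fun x : Fin (m + 1) → ℝ => (fun i : Fin m => x i.succ)) := by fun_prop
      have c1 := (ih ls).comp hs
      have c2 := (ih (l :: ls)).comp hs
      have c0 : Continuous (fun x : Fin (m + 1) → ℝ => (x 0) ^ l) := by fun_prop
      exact (c0.mul c1).add c2

theorem CPT_zeros (h : QZRStmt) (ls : List ℕ) (hls : ∀ l ∈ ls, 1 ≤ l) (xs : List ℝ) :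
    ∀ k : ℕ, Q ls (xs ++ List.replicate k 0) = Q ls xs := by
  intro k
  induction k with
  | zero => simp
  | succ k ih =>
    rw [List.replicate_succ, h ls xs _ hls, ih]

theorem CPT (h : QZRStmt) : CPTStmt := by
  intro ls hls hno m
  rcases Nat.eq_zero_or_pos m with rfl | hm
  · refine ⟨Q ls [1] - 1, ?_, [1], ?_, ?_, ?_⟩
    · intro xs hx _ hsum
      have : xs = [] := List.eq_nil_of_length_eq_zero (by omega)
      subst this
      simp at hsum
    · intro y hy
      simp only [List.mem_singleton] at hy
      subst hy; norm_num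
    · simp
    · linarith
  · have : Nonempty (Fin m) := ⟨⟨0, hm⟩⟩
    have hne : (stdSimplex ℝ (Fin m)).Nonempty :=
      ⟨Pi.single ⟨0, hm⟩ 1, single_mem_stdSimplex ℝ _⟩
    obtain ⟨x, hx, hxmax⟩ := (isCompact_stdSimplex ℝ (Fin m)).exists_isMaxOn hne
      (CPT_cont ls m).continuousOn
    have hxs : (List.ofFn x).sum = 1 := by
      rw [List.sum_ofFn]; exact hx.2
    have hxnn : NN (List.ofFn x) := by
      intro y hy
      rw [List.mem_ofFn] at hy
      obtain ⟨i, rfl⟩ := hy
      exact hx.1 i
    refine ⟨Q ls (List.ofFn x), ?_, ?_⟩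
    · intro xs hlen hnn hsum
      rw [← CPT_zeros h ls hls xs (m - xs.length)]
      set zs := xs ++ List.replicate (m - xs.length) (0 : ℝ) with hzs
      have hzl : zs.length = m := by
        rw [hzs]; simp; omega
      have hzsum : zs.sum = 1 := by
        rw [hzs]; simp [hsum]
      have hznn : ∀ y ∈ zs, 0 ≤ y := by
        intro y hy
        rw [hzs, List.mem_append] at hy
        rcases hy with hy | hy
        · exact hnn y hy
        · rw [List.mem_replicate] at hy
          rw [hy.2]
      have hof : List.ofFn (fun i : Fin m => zs.get (Fin.cast hzl.symm i)) = zs := by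
        apply List.ext_get
        · simp [hzl]
        · intro n h1 h2
          simp
      rw [← hof]
      apply hxmax
      refine ⟨fun i => hznn _ (List.get_mem _ _), ?_⟩
      rw [← List.sum_ofFn, hof, hzsum]
    · by_contra hcon
      push Not at hcon
      exact hno (List.ofFn x) ⟨hxnn, hxs, fun ys h1 h2 => hcon ys h1 h2⟩

end Pool.LAY
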