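import Pool.Agent.H97.LAY.Stmts2

set_option autoImplicit false

namespace Pool.LAY

theorem CUT : CUTStmt := by
  intro ys
  induction ys with
  | nil => intro c h; exact absurd rfl h
  | cons y ys ih =>
    intro c _ hnn h0 hc
    rw [List.sum_cons] at hc
    rcases le_or_gt c y with h | h
    · exact ⟨[], y, ys, rfl, by simpa using h0, by simpa using h⟩
    · have hne : ys ≠ [] := by
        rintro rfl
        simp only [List.sum_nil, add_zero] at hc
        linarith
      obtain ⟨pre, z, post, h1, h2, h3⟩ := ih (c - y) hne
        (fun x hx => hnn x (List.mem_cons_of_mem _ hx)) (by linarith) (by linarith)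
      refine ⟨y :: pre, z, post, by rw [h1]; rfl, ?_, ?_⟩
      · rw [List.sum_cons]; linarith
      · rw [List.sum_cons]; linarith

end Pool.LAY
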