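import Pool.Agent.H97.LAY.Stmts

set_option autoImplicit false

namespace Pool.LAY

open Finset

theorem cv1_aux {k : ℕ} (ℓ : Fin k → ℕ) (as bs : List ℕ) (x : ℕ)
    (h : List.ofFn ℓ = as ++ x :: bs) : ∃ j : Fin k, (j : ℕ) = as.length ∧ ℓ j = x ∧
      k = as.length + 1 + bs.length := by
  have hl : k = as.length + 1 + bs.length := by
    have := congrArg List.length h
    rw [List.length_ofFn, List.length_append, List.length_cons] at this
    omega
  have hj : as.length < k := by omega
  refine ⟨⟨as.length, hj⟩, rfl, ?_, hl⟩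
  have h1 : (List.ofFn ℓ)[as.length]? = some (ℓ ⟨as.length, hj⟩) := by
    rw [List.getElem?_ofFn, dif_pos hj]
  have h2 : (as ++ x :: bs)[as.length]? = some x := by
    simp
  rw [h, h2] at h1
  exact (Option.some.inj h1).symm

theorem CV1 : CV1Stmt := by
  intro k ℓ hk h1 hend hmid
  refine ⟨?_, ?_, ?_, ?_, ?_⟩
  · intro h
    have := congrArg List.length h
    rw [List.length_ofFn, List.length_nil] at this
    omega
  · intro l hl
    rw [List.mem_ofFn] at hl
    obtain ⟨j, rfl⟩ := hl
    exact h1 j
  · intro l bs h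
    obtain ⟨j, hj, hx, -⟩ := cv1_aux ℓ [] bs l (by simpa using h)
    rw [← hx]
    exact hend j (Or.inl (by simpa using hj))
  · intro as l h
    obtain ⟨j, hj, hx, hl⟩ := cv1_aux ℓ as [] l h
    rw [← hx]
    refine hend j (Or.inr ?_)
    rw [List.length_nil] at hl
    omega
  · intro as x y bs h
    obtain ⟨i, hi, hxi, -⟩ := cv1_aux ℓ as (1 :: y :: bs) x h
    obtain ⟨j, hj, hxj, -⟩ := cv1_aux ℓ (as ++ [x]) (y :: bs) 1 (by simpa using h)
    obtain ⟨l, hl, hxl, -⟩ := cv1_aux ℓ (as ++ [x, 1]) bs y (by simpa using h)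
    simp only [List.length_append, List.length_cons, List.length_nil] at hj hl
    have := hmid i j l (by omega) (by omega) hxj
    rw [hxi, hxl] at this
    exact this

end Pool.LAY
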