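import Pool.Agent.H97.LAY.Stmts4

/-!
# Row CV2 of the board `lay`
-/

set_option autoImplicit false

namespace Pool.LAY

open Finset

theorem cv2_aux {k : ℕ} (ℓ : Fin k → ℕ) (as bs : List ℕ) (x : ℕ)
    (h : List.ofFn ℓ = as ++ x :: bs) : ∃ j : Fin k, (j : ℕ) = as.length ∧ ℓ j = x ∧
      k = as.length + 1 + bs.length := by
  have hl : k = as.length + 1 + bs.length := by
    have := congrArg List.length h
    rw [List.length_ofFn, List.length_append, List.length_cons] at this
    omega
  have hj : as.length < k := by omega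
  refine ⟨⟨as.length, hj⟩, rfl, ?_, hl⟩
  have h1 : (List.ofFn ℓ)[as.length]? = some (ℓ ⟨as.length, hj⟩) := by
    rw [List.getElem?_ofFn, dif_pos hj]
  have h2 : (as ++ x :: bs)[as.length]? = some x := by
    simp
  rw [h, h2] at h1
  exact (Option.some.inj h1).symm

theorem cv2_get {k : ℕ} (ℓ : Fin k → ℕ) (L : List ℕ) (h : List.ofFn ℓ = L) (m : Fin k) :
    L[(m : ℕ)]? = some (ℓ m) := by
  rw [← h, List.getElem?_ofFn, dif_pos m.2]

theorem CV2 : CV2Stmt := by
  intro k ℓ hk h1 hend hmid
  refine ⟨?_, ?_, ?_, ?_, ?_⟩
  · intro h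
    have := congrArg List.length h
    rw [List.length_ofFn, List.length_nil] at this
    omega
  · intro l hl
    rw [List.mem_ofFn] at hl
    obtain ⟨j, rfl⟩ := hl
    exact h1 j
  · intro l bs h
    obtain ⟨j, hj, hx, -⟩ := cv2_aux ℓ [] bs l (by simpa using h)
    rw [← hx]
    exact hend j (Or.inl (by simpa using hj))
  · intro as l h
    obtain ⟨j, hj, hx, hl⟩ := cv2_aux ℓ as [] l h
    rw [← hx]
    refine hend j (Or.inr ?_)
    rw [List.length_nil] at hl
    omega
  · intro as x y bs h
    obtain ⟨i, hi, hxi, -⟩ := cv2_aux ℓ as (1 :: y :: bs) x h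
    obtain ⟨j, hj, hxj, -⟩ := cv2_aux ℓ (as ++ [x]) (y :: bs) 1 (by simpa using h)
    obtain ⟨l, hl, hxl, -⟩ := cv2_aux ℓ (as ++ [x, 1]) bs y (by simpa using h)
    simp only [List.length_append, List.length_cons, List.length_nil] at hj hl
    obtain ⟨a1, a2, a3, a4⟩ := hmid i j l (by omega) (by omega) hxj
    rw [hxi, hxl] at a3 a4
    rw [hxi] at a1
    rw [hxl] at a2
    refine ⟨a1, a2, fun hxy => ?_, fun hyx => ?_⟩
    · obtain ⟨m, hm, m1, m2⟩ := a3 hxy
      have g := cv2_get ℓ _ h m
      have hm' : (m : ℕ) = as.length + 3 := by omega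
      have e : (as ++ x :: 1 :: y :: bs)[(m : ℕ)]? = bs[0]? := by
        rw [hm', List.getElem?_append_right (by omega)]
        have : as.length + 3 - as.length = 3 := by omega
        rw [this]
        rfl
      rw [e] at g
      cases bs with
      | nil => simp at g
      | cons z cs =>
        simp only [List.getElem?_cons_zero, Option.some.injEq] at g
        exact ⟨z, cs, rfl, by rw [g]; exact m1, by rw [g]; exact m2⟩
    · obtain ⟨m, hm, m1, m2⟩ := a4 hyx
      have g := cv2_get ℓ _ h m
      rcases List.eq_nil_or_concat as with has | ⟨cs, w, has0⟩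
      · rw [has, List.length_nil] at hi
        omega
      · have has : as = cs ++ [w] := by rw [has0, List.concat_eq_append]
        have hm' : (m : ℕ) = cs.length := by
          rw [has] at hi
          simp only [List.length_append, List.length_cons, List.length_nil] at hi
          omega
        have e : (as ++ x :: 1 :: y :: bs)[(m : ℕ)]? = some w := by
          rw [hm', has]
          simp
        rw [e] at g
        have g' := Option.some.inj g
        exact ⟨w, cs, has, by rw [g']; exact m1, by rw [g']; exact m2⟩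

end Pool.LAY
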