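import Pool.Agent.H97.LAY.Stmts4

/-!
# Board `lay`, row CXZ (typed by helper44)
-/

set_option autoImplicit false

namespace Pool.LAY

theorem cxz_choose (n x z : ℕ) (h : z ≤ x) : n.choose x ≤ n.choose z * n ^ (x - z) := by
  rcases lt_or_ge n x with hx | hx
  · rw [Nat.choose_eq_zero_of_lt hx]; exact Nat.zero_le _
  · have h1 : n.choose x * x.choose z = n.choose z * (n - z).choose (x - z) := Nat.choose_mul h
    have h2 : 1 ≤ x.choose z := Nat.choose_pos h
    calc n.choose x ≤ n.choose x * x.choose z := Nat.le_mul_of_pos_right _ h2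
      _ = n.choose z * (n - z).choose (x - z) := h1
      _ ≤ n.choose z * n ^ (x - z) := by
        refine Nat.mul_le_mul le_rfl ?_
        exact (Nat.choose_le_pow (n - z) (x - z)).trans (Nat.pow_le_pow_left (Nat.sub_le _ _) _)

theorem cxz_core (x z n q T d : ℕ) (ε : ℝ) (hz : 2 ≤ z) (hzx : z ≤ x)
    (hd : z * (q * n.choose z) ≤ n * d) (hn : n ≤ T) (hε : (n : ℝ) ≤ ε * T) :
    ((T ^ z * (n.choose x * q) : ℕ) : ℝ) ≤ ε * ((T ^ (x + 1) * d : ℕ) : ℝ) := by
  have h1 : T ^ z * (n.choose x * q) ≤ T ^ x * (n * d) := by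
    calc T ^ z * (n.choose x * q) ≤ T ^ z * ((n.choose z * n ^ (x - z)) * q) :=
          Nat.mul_le_mul le_rfl (Nat.mul_le_mul (cxz_choose n x z hzx) le_rfl)
      _ = T ^ z * (n ^ (x - z) * (1 * (q * n.choose z))) := by ring
      _ ≤ T ^ z * (T ^ (x - z) * (z * (q * n.choose z))) := by
          refine Nat.mul_le_mul le_rfl (Nat.mul_le_mul (Nat.pow_le_pow_left hn _) ?_)
          exact Nat.mul_le_mul (by omega) le_rfl
      _ ≤ T ^ z * (T ^ (x - z) * (n * d)) := by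
          exact Nat.mul_le_mul le_rfl (Nat.mul_le_mul le_rfl hd)
      _ = T ^ x * (n * d) := by
          rw [← mul_assoc, ← pow_add, Nat.add_sub_cancel' hzx]
  calc ((T ^ z * (n.choose x * q) : ℕ) : ℝ) ≤ ((T ^ x * (n * d) : ℕ) : ℝ) := by exact_mod_cast h1
    _ = (n : ℝ) * ((T : ℝ) ^ x * d) := by push_cast; ring
    _ ≤ (ε * T) * ((T : ℝ) ^ x * d) := mul_le_mul_of_nonneg_right hε (by positivity)
    _ = ε * ((T ^ (x + 1) * d : ℕ) : ℝ) := by push_cast; ring

theorem CXZ (h1 : DLTStmt) : CXZStmt := by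
  intro x z s t T ε hz hzx
  obtain ⟨ha, hb, -⟩ := h1 z s t hz
  refine ⟨fun hs hε => cxz_core x z s t T _ ε hz hzx hb hs hε, fun ht hε => ?_⟩
  rw [mul_comm s (t.choose x)]
  exact cxz_core x z t s T _ ε hz hzx ha ht hε

end Pool.LAY
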