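import Pool.Agent.H97.LAY.Stmts4

set_option autoImplicit false

namespace Pool.LAY

open Finset

theorem D3G (hSUB : SUBStmt) (hPOW : POWStmt) (hCXZ : CXZStmt) : D3GStmt := by
  intro as bs pre post x y s t T δ ε hbs hx hxy hpre hpost htT ht hδ hW
  have hT0 : (0 : ℝ) ≤ (T : ℝ) := Nat.cast_nonneg _
  -- D (as ++ [x]) pre ≤ D as pre * T ^ x
  have h1 : D (as ++ [x]) pre ≤ D as pre * T ^ x := by
    have h3 : D [x] pre ≤ T ^ x := by
      have h4 := hPOW [x] pre (by intro l hl; rw [List.mem_singleton] at hl; omega)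
      rw [List.sum_singleton] at h4
      exact h4.trans (Nat.pow_le_pow_left hpre _)
    exact (hSUB as [x] pre).trans (Nat.mul_le_mul_left _ h3)
  have h2 : D bs post ≤ T ^ bs.sum := (hPOW bs post hbs).trans (Nat.pow_le_pow_left hpost _)
  -- T^x * (s * C(t,y)) ≤ ε T^(y+1) dl x s t
  have h3 := (hCXZ y x s t T ε hx hxy).2 htT ht
  have h4 : D (as ++ [x]) pre * D bs post * (s.choose 1 * t.choose y) ≤
      D as pre * T ^ bs.sum * (T ^ x * (s * t.choose y)) := by
    rw [Nat.choose_one_right]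
    calc D (as ++ [x]) pre * D bs post * (s * t.choose y)
        ≤ (D as pre * T ^ x) * T ^ bs.sum * (s * t.choose y) :=
          Nat.mul_le_mul_right _ (Nat.mul_le_mul h1 h2)
      _ = D as pre * T ^ bs.sum * (T ^ x * (s * t.choose y)) := by ring
  have h4r : ((D (as ++ [x]) pre * D bs post * (s.choose 1 * t.choose y) : ℕ) : ℝ) ≤
      (D as pre : ℝ) * (T : ℝ) ^ bs.sum * ((T ^ x * (s * t.choose y) : ℕ) : ℝ) := by
    exact_mod_cast h4
  have h5 : (D as pre : ℝ) * (T : ℝ) ^ bs.sum * ((T ^ x * (s * t.choose y) : ℕ) : ℝ) ≤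
      (D as pre : ℝ) * (T : ℝ) ^ bs.sum * (ε * ((T ^ (y + 1) * dl x s t : ℕ) : ℝ)) :=
    mul_le_mul_of_nonneg_left h3 (by positivity)
  have hεd : 0 ≤ ε * ((T ^ (y + 1) * dl x s t : ℕ) : ℝ) :=
    le_trans (Nat.cast_nonneg _) h3
  by_cases hTz : T = 0
  · -- everything is 0
    have ht0 : t = 0 := by omega
    have hy0 : 1 ≤ y := by omega
    have e1 : t.choose y = 0 := by rw [ht0]; exact Nat.choose_eq_zero_of_lt (by omega)
    rw [e1, mul_zero, mul_zero, Nat.cast_zero, mul_zero]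
    by_cases hε : 0 ≤ ε
    · exact mul_nonneg hε (Nat.cast_nonneg _)
    · -- dl x s 0 = 0
      have e2 : dl x s t = 0 := by
        rw [ht0]
        unfold dl
        rw [Nat.add_zero]
        omega
      rw [e2, mul_zero, Nat.cast_zero, mul_zero]
  · have hTp : (0 : ℝ) < (T : ℝ) := by exact_mod_cast Nat.pos_of_ne_zero hTz
    have hεd' : 0 ≤ ε * (dl x s t : ℝ) := by
      have h6 : ε * ((T ^ (y + 1) * dl x s t : ℕ) : ℝ) =
          (T : ℝ) ^ (y + 1) * (ε * (dl x s t : ℝ)) := by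
        push_cast
        ring
      rw [h6] at hεd
      exact nonneg_of_mul_nonneg_right hεd (by positivity)
    have h7 : ((D as pre * D (1 :: y :: bs) post * dl x s t : ℕ) : ℝ) =
        (D as pre : ℝ) * (D (1 :: y :: bs) post : ℝ) * (dl x s t : ℝ) := by push_cast; rfl
    rw [h7]
    calc δ * ((D (as ++ [x]) pre * D bs post * (s.choose 1 * t.choose y) : ℕ) : ℝ)
        ≤ δ * ((D as pre : ℝ) * (T : ℝ) ^ bs.sum * (ε * ((T ^ (y + 1) * dl x s t : ℕ) : ℝ))) :=
          mul_le_mul_of_nonneg_left (h4r.trans h5) hδ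
      _ = ((D as pre : ℝ) * (ε * (dl x s t : ℝ))) * (δ * (T : ℝ) ^ (1 + y + bs.sum)) := by
          rw [show 1 + y + bs.sum = (y + 1) + bs.sum by ring, pow_add (T : ℝ) (y + 1) bs.sum]
          push_cast
          ring
      _ ≤ ((D as pre : ℝ) * (ε * (dl x s t : ℝ))) * (D (1 :: y :: bs) post : ℝ) :=
          mul_le_mul_of_nonneg_left hW (mul_nonneg (Nat.cast_nonneg _) hεd')
      _ = ε * ((D as pre : ℝ) * (D (1 :: y :: bs) post : ℝ) * (dl x s t : ℝ)) := by ring

end Pool.LAY
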