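import Pool.Agent.H97.LAY.Stmts

/-!
# Row DLT of the board `lay`: binomial inequalities
-/

set_option autoImplicit false

namespace Pool.LAY

open Finset

theorem dl_ge (a s t i : ℕ) (h0 : 0 < i) (h1 : i < a) :
    s.choose i * t.choose (a - i) ≤ dl a s t := by
  unfold dl
  have hv := Nat.add_choose_eq s t a
  have hsub : ({(a, 0), (0, a), (i, a - i)} : Finset (ℕ × ℕ)) ⊆ Finset.HasAntidiagonal.antidiagonal a := by
    intro x hx
    simp only [Finset.mem_insert, Finset.mem_singleton] at hx
    rw [Finset.HasAntidiagonal.mem_antidiagonal]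
    rcases hx with rfl | rfl | rfl
    · simp
    · simp
    · simp only
      omega
  have hsum := Finset.sum_le_sum_of_subset (f := fun ij : ℕ × ℕ => s.choose ij.1 * t.choose ij.2) hsub
  rw [← hv, Finset.sum_insert, Finset.sum_insert, Finset.sum_singleton] at hsum
  · simp only [Nat.choose_zero_right, mul_one, one_mul] at hsum
    omega
  · rw [Finset.mem_singleton, Prod.mk.injEq]
    omega
  · rw [Finset.mem_insert, Finset.mem_singleton, Prod.mk.injEq, Prod.mk.injEq]
    omega

theorem mul_choose_le (a t : ℕ) (ha : 1 ≤ a) : a * t.choose a ≤ t * t.choose (a - 1) := by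
  obtain ⟨b, rfl⟩ := Nat.exists_eq_add_of_le ha
  have h := Nat.choose_succ_right_eq t b
  have h2 : 1 + b = b + 1 := by omega
  rw [h2, Nat.add_sub_cancel, mul_comm, h, mul_comm]
  exact Nat.mul_le_mul_right _ (Nat.sub_le t b)

theorem DLT : DLTStmt := by
  intro a s t ha
  refine ⟨?_, ?_, ?_⟩
  · have h1 := dl_ge a s t 1 (by omega) (by omega)
    rw [Nat.choose_one_right] at h1
    have h2 := mul_choose_le a t (by omega)
    calc a * (s * t.choose a) = s * (a * t.choose a) := by ring
      _ ≤ s * (t * t.choose (a - 1)) := Nat.mul_le_mul_left _ h2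
      _ = t * (s * t.choose (a - 1)) := by ring
      _ ≤ t * dl a s t := Nat.mul_le_mul_left _ h1
  · have h1 := dl_ge a s t (a - 1) (by omega) (by omega)
    have h3 : a - (a - 1) = 1 := by omega
    rw [h3, Nat.choose_one_right] at h1
    have h2 := mul_choose_le a s (by omega)
    calc a * (t * s.choose a) = t * (a * s.choose a) := by ring
      _ ≤ t * (s * s.choose (a - 1)) := Nat.mul_le_mul_left _ h2
      _ = s * (s.choose (a - 1) * t) := by ring
      _ ≤ s * dl a s t := Nat.mul_le_mul_left _ h1
  · intro hs ht hst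
    have h1 := dl_ge a s t (min s (a - 1)) (by omega) (by omega)
    have h2 : 0 < s.choose (min s (a - 1)) := Nat.choose_pos (by omega)
    have h3 : 0 < t.choose (a - min s (a - 1)) := Nat.choose_pos (by omega)
    exact lt_of_lt_of_le (Nat.mul_pos h2 h3) h1

end Pool.LAY
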