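import Pool.Agent.H97.LAY.Stmts

/-!
# Row DM1 of board lay
-/

set_option autoImplicit false

namespace Pool.LAY

theorem DM1 (hP : POWStmt) (hL : DLTStmt) : DM1Stmt := by
  intro as bs pre post x y s t T δ ε has hx hy hpre hs ht hδ hD
  obtain ⟨h1, -, -⟩ := hL y s t hy
  rcases Nat.eq_zero_or_pos T with h0 | hT
  · subst h0
    have hs0 : s = 0 := by omega
    subst hs0
    have ht0 : t = 0 := by
      have : (t : ℝ) ≤ 0 := by simpa using ht
      exact_mod_cast le_antisymm this (Nat.cast_nonneg t)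
    subst ht0
    have e1 : Nat.choose 0 x = 0 := Nat.choose_eq_zero_of_lt (by omega)
    have e2 : Nat.choose 0 y = 0 := Nat.choose_eq_zero_of_lt (by omega)
    have e3 : dl y 0 0 = 0 := by
      unfold dl
      rw [Nat.add_zero, e2]
    rw [e1, e3]
    simp
  · have hTR : (0 : ℝ) < T := by exact_mod_cast hT
    have hε : 0 ≤ ε := by
      by_contra hc
      have : ε * T < 0 := mul_neg_of_neg_of_pos (not_le.1 hc) hTR
      linarith [Nat.cast_nonneg (α := ℝ) t]
    have hA : (D as pre : ℝ) ≤ (T : ℝ) ^ as.sum := by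
      have : D as pre ≤ T ^ as.sum := (hP as pre has).trans (Nat.pow_le_pow_left hpre _)
      exact_mod_cast this
    have hC : (s.choose x : ℝ) ≤ s * (T : ℝ) ^ (x - 1) := by
      have h2 : s.choose x ≤ s ^ x := Nat.choose_le_pow s x
      have h3 : s ^ x = s * s ^ (x - 1) := by
        conv_lhs => rw [show x = (x - 1) + 1 by omega, pow_succ]
        rw [mul_comm]
      have h4 : s * s ^ (x - 1) ≤ s * T ^ (x - 1) :=
        Nat.mul_le_mul_left _ (Nat.pow_le_pow_left hs _)
      have h5 : s.choose x ≤ s * T ^ (x - 1) := by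
        rw [h3] at h2
        exact h2.trans h4
      exact_mod_cast h5
    have hE : (s : ℝ) * (t.choose y : ℝ) ≤ t * (dl y s t : ℝ) := by
      have h6 : s * t.choose y ≤ t * dl y s t :=
        (Nat.le_mul_of_pos_left _ (by omega)).trans h1
      exact_mod_cast h6
    set B : ℝ := (D bs post : ℝ) with hB
    set G : ℝ := (dl y s t : ℝ) with hG
    have hB0 : 0 ≤ B := Nat.cast_nonneg _
    have hG0 : 0 ≤ G := Nat.cast_nonneg _
    have hpow : (T : ℝ) ^ as.sum * (T : ℝ) ^ (x - 1) * T = (T : ℝ) ^ (as.sum + x) := by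
      rw [mul_assoc, ← pow_succ, ← pow_add]
      congr 2
      omega
    push_cast
    calc δ * ((D as pre : ℝ) * B * ((s.choose x : ℝ) * (t.choose y : ℝ)))
        ≤ δ * ((T : ℝ) ^ as.sum * B * ((s * (T : ℝ) ^ (x - 1)) * (t.choose y : ℝ))) := by
          gcongr
      _ = δ * ((T : ℝ) ^ as.sum * B * (T : ℝ) ^ (x - 1)) * (s * (t.choose y : ℝ)) := by ring
      _ ≤ δ * ((T : ℝ) ^ as.sum * B * (T : ℝ) ^ (x - 1)) * (t * G) := by
          gcongr
      _ ≤ δ * ((T : ℝ) ^ as.sum * B * (T : ℝ) ^ (x - 1)) * ((ε * T) * G) := by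
          gcongr
      _ = ε * (δ * ((T : ℝ) ^ as.sum * (T : ℝ) ^ (x - 1) * T) * (B * G)) := by ring
      _ = ε * (δ * (T : ℝ) ^ (as.sum + x) * (B * G)) := by rw [hpow]
      _ ≤ ε * ((D (as ++ [x]) pre : ℝ) * (B * G)) := by
          gcongr
      _ = ε * ((D (as ++ [x]) pre : ℝ) * B * G) := by ring

end Pool.LAY
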