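import Pool.Agent.H97.LAY.Stmts

set_option autoImplicit false

namespace Pool.LAY

open Finset

/-- `C(t, y) ≤ t * T^(y-1)` for `1 ≤ y`, `t ≤ T`. -/
theorem dm2_choose (t T y : ℕ) (hy : 1 ≤ y) (ht : t ≤ T) : t.choose y ≤ t * T ^ (y - 1) := by
  obtain ⟨k, rfl⟩ : ∃ k, y = k + 1 := ⟨y - 1, by omega⟩
  calc t.choose (k + 1) ≤ t ^ (k + 1) := Nat.choose_le_pow t (k + 1)
    _ = t * t ^ k := by rw [pow_succ, mul_comm]
    _ ≤ t * T ^ (k + 1 - 1) := by
        rw [Nat.add_sub_cancel]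
        exact Nat.mul_le_mul_left _ (Nat.pow_le_pow_left ht k)

theorem DM2 (h1 : POWStmt) (h2 : DLTStmt) : DM2Stmt := by
  intro as bs pre post x y s t T δ ε hbs hx hy hpost ht hs hδ hW
  have hT0 : (0 : ℝ) ≤ (T : ℝ) := Nat.cast_nonneg _
  -- natural number inequalities
  have hB : D bs post ≤ T ^ bs.sum := (h1 bs post hbs).trans (Nat.pow_le_pow_left hpost _)
  have hC : t.choose y ≤ t * T ^ (y - 1) := dm2_choose t T y hy ht
  have hL : x * (t * s.choose x) ≤ s * dl x s t := (h2 x s t hx).2.1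
  have hL' : t * s.choose x ≤ s * dl x s t :=
    le_trans (Nat.le_mul_of_pos_left _ (by omega)) hL
  have hN : D as pre * D bs post * (s.choose x * t.choose y)
      ≤ D as pre * ((s * dl x s t) * (T ^ (y - 1) * T ^ bs.sum)) := by
    calc D as pre * D bs post * (s.choose x * t.choose y)
        = D as pre * (D bs post * (s.choose x * t.choose y)) := by ring
      _ ≤ D as pre * (T ^ bs.sum * (s.choose x * (t * T ^ (y - 1)))) :=
          Nat.mul_le_mul_left _ (Nat.mul_le_mul hB (Nat.mul_le_mul_left _ hC))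
      _ = D as pre * ((t * s.choose x) * (T ^ (y - 1) * T ^ bs.sum)) := by ring
      _ ≤ D as pre * ((s * dl x s t) * (T ^ (y - 1) * T ^ bs.sum)) :=
          Nat.mul_le_mul_left _ (Nat.mul_le_mul_right _ hL')
  have hNR : ((D as pre * D bs post * (s.choose x * t.choose y) : ℕ) : ℝ)
      ≤ (D as pre : ℝ) * (((s : ℝ) * (dl x s t : ℝ)) * ((T : ℝ) ^ (y - 1) * (T : ℝ) ^ bs.sum)) := by
    exact_mod_cast hN
  set A : ℝ := (D as pre : ℝ) with hA
  set d : ℝ := (dl x s t : ℝ) with hd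
  set W : ℝ := (D (y :: bs) post : ℝ) with hWd
  have hA0 : 0 ≤ A := Nat.cast_nonneg _
  have hd0 : 0 ≤ d := Nat.cast_nonneg _
  have hW0 : 0 ≤ W := Nat.cast_nonneg _
  have hP0 : 0 ≤ (T : ℝ) ^ (y - 1) * (T : ℝ) ^ bs.sum := by positivity
  have hTy : (T : ℝ) * ((T : ℝ) ^ (y - 1) * (T : ℝ) ^ bs.sum) = (T : ℝ) ^ (y + bs.sum) := by
    obtain ⟨k, rfl⟩ : ∃ k, y = k + 1 := ⟨y - 1, by omega⟩
    rw [Nat.add_sub_cancel]
    rw [pow_add (T : ℝ) (k + 1) bs.sum, pow_succ]
    ring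
  have hsd : (s : ℝ) * d ≤ (ε * T) * d := mul_le_mul_of_nonneg_right hs hd0
  have hεd : 0 ≤ ε * d := by
    rcases Nat.eq_zero_or_pos T with h0 | h0
    · have hs0 : (s : ℝ) ≤ 0 := by
        have := hs
        rw [h0] at this
        simpa using this
      have hs1 : s = 0 := by
        have : (s : ℝ) = 0 := le_antisymm hs0 (Nat.cast_nonneg _)
        exact_mod_cast this
      have ht1 : t = 0 := by omega
      have hd1 : dl x s t = 0 := by
        rw [hs1, ht1]
        unfold dl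
        rw [Nat.add_zero]
        omega
      rw [hd, hd1]
      simp
    · have hTp : (0 : ℝ) < (T : ℝ) := by exact_mod_cast h0
      have : 0 ≤ ε := by
        by_contra hne
        have hne' : ε < 0 := not_le.mp hne
        have h3 : ε * T < 0 := mul_neg_of_neg_of_pos hne' hTp
        have h4 : (0 : ℝ) ≤ (s : ℝ) := Nat.cast_nonneg _
        linarith
      exact mul_nonneg this hd0
  have hgoal : ((D as pre * D (y :: bs) post * dl x s t : ℕ) : ℝ) = A * W * d := by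
    push_cast
    rfl
  rw [hgoal]
  calc δ * ((D as pre * D bs post * (s.choose x * t.choose y) : ℕ) : ℝ)
      ≤ δ * (A * (((s : ℝ) * d) * ((T : ℝ) ^ (y - 1) * (T : ℝ) ^ bs.sum))) :=
        mul_le_mul_of_nonneg_left hNR hδ
    _ ≤ δ * (A * (((ε * T) * d) * ((T : ℝ) ^ (y - 1) * (T : ℝ) ^ bs.sum))) :=
        mul_le_mul_of_nonneg_left
          (mul_le_mul_of_nonneg_left (mul_le_mul_of_nonneg_right hsd hP0) hA0) hδ
    _ = (A * (ε * d)) * (δ * ((T : ℝ) * ((T : ℝ) ^ (y - 1) * (T : ℝ) ^ bs.sum))) := by ring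
    _ = (A * (ε * d)) * (δ * (T : ℝ) ^ (y + bs.sum)) := by rw [hTy]
    _ ≤ (A * (ε * d)) * W := mul_le_mul_of_nonneg_left hW (mul_nonneg hA0 hεd)
    _ = ε * (A * W * d) := by ring

end Pool.LAY
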