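import Pool.Agent.H97.LAY.Stmts

set_option autoImplicit false

namespace Pool.LAY

open Finset

theorem DM3 (h1 : POWStmt) (h2 : SUBStmt) (h3 : DLTStmt) : DM3Stmt := by
  intro as bs pre post a s t T δ ε hbs ha hpre hpost ht hδ hW
  have hT0 : (0 : ℝ) ≤ (T : ℝ) := Nat.cast_nonneg _
  have hB : D bs post ≤ T ^ bs.sum := (h1 bs post hbs).trans (Nat.pow_le_pow_left hpost _)
  have hone : ∀ l ∈ ([a] : List ℕ), 1 ≤ l := by
    intro l hl
    rw [List.mem_singleton] at hl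
    omega
  have hA1 : D [a] pre ≤ T ^ a := by
    have := (h1 [a] pre hone).trans (Nat.pow_le_pow_left hpre _)
    simpa using this
  have hA : D (as ++ [a]) pre ≤ D as pre * T ^ a :=
    (h2 as [a] pre).trans (Nat.mul_le_mul_left _ hA1)
  have hL : a * (s * t.choose a) ≤ t * dl a s t := (h3 a s t ha).1
  have hL' : s * t.choose a ≤ t * dl a s t :=
    le_trans (Nat.le_mul_of_pos_left _ (by omega)) hL
  have hN : D (as ++ [a]) pre * D bs post * (s.choose 1 * t.choose a)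
      ≤ D as pre * ((t * dl a s t) * (T ^ a * T ^ bs.sum)) := by
    rw [Nat.choose_one_right]
    calc D (as ++ [a]) pre * D bs post * (s * t.choose a)
        ≤ (D as pre * T ^ a) * T ^ bs.sum * (t * dl a s t) :=
          Nat.mul_le_mul (Nat.mul_le_mul hA hB) hL'
      _ = D as pre * ((t * dl a s t) * (T ^ a * T ^ bs.sum)) := by ring
  have hNR : ((D (as ++ [a]) pre * D bs post * (s.choose 1 * t.choose a) : ℕ) : ℝ)
      ≤ (D as pre : ℝ) * (((t : ℝ) * (dl a s t : ℝ)) * ((T : ℝ) ^ a * (T : ℝ) ^ bs.sum)) := by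
    exact_mod_cast hN
  have hgoal : ((D as pre * D (1 :: a :: bs) post * dl a s t : ℕ) : ℝ)
      = (D as pre : ℝ) * (D (1 :: a :: bs) post : ℝ) * (dl a s t : ℝ) := by
    push_cast
    rfl
  rw [hgoal]
  have hd0' : (dl a s t : ℝ) = 0 ∨ 0 ≤ ε := by
    rcases Nat.eq_zero_or_pos T with h0 | h0
    · left
      have ht0 : (t : ℝ) ≤ 0 := by
        have := ht
        rw [h0] at this
        simpa using this
      have ht1 : t = 0 := by
        have : (t : ℝ) = 0 := le_antisymm ht0 (Nat.cast_nonneg _)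
        exact_mod_cast this
      have hd1 : dl a s t = 0 := by
        rw [ht1]
        unfold dl
        rw [Nat.add_zero]
        omega
      rw [hd1]
      simp
    · right
      have hTp : (0 : ℝ) < (T : ℝ) := by exact_mod_cast h0
      by_contra hne
      have hne' : ε < 0 := not_le.mp hne
      have h3' : ε * T < 0 := mul_neg_of_neg_of_pos hne' hTp
      have h4 : (0 : ℝ) ≤ (t : ℝ) := Nat.cast_nonneg _
      linarith
  have hA0 : (0 : ℝ) ≤ (D as pre : ℝ) := Nat.cast_nonneg _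
  have hd0 : (0 : ℝ) ≤ (dl a s t : ℝ) := Nat.cast_nonneg _
  have hP0 : 0 ≤ (T : ℝ) ^ a * (T : ℝ) ^ bs.sum := by positivity
  have hεd : 0 ≤ ε * (dl a s t : ℝ) := by
    rcases hd0' with h | h
    · rw [h]; simp
    · exact mul_nonneg h hd0
  have hTa : (T : ℝ) * ((T : ℝ) ^ a * (T : ℝ) ^ bs.sum) = (T : ℝ) ^ (1 + (a + bs.sum)) := by
    rw [pow_add, pow_add, pow_one]
  have hsd : (t : ℝ) * (dl a s t : ℝ) ≤ (ε * T) * (dl a s t : ℝ) :=
    mul_le_mul_of_nonneg_right ht hd0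
  calc δ * ((D (as ++ [a]) pre * D bs post * (s.choose 1 * t.choose a) : ℕ) : ℝ)
      ≤ δ * ((D as pre : ℝ) * (((t : ℝ) * (dl a s t : ℝ)) * ((T : ℝ) ^ a * (T : ℝ) ^ bs.sum))) :=
        mul_le_mul_of_nonneg_left hNR hδ
    _ ≤ δ * ((D as pre : ℝ) * (((ε * T) * (dl a s t : ℝ)) * ((T : ℝ) ^ a * (T : ℝ) ^ bs.sum))) :=
        mul_le_mul_of_nonneg_left
          (mul_le_mul_of_nonneg_left (mul_le_mul_of_nonneg_right hsd hP0) hA0) hδ
    _ = ((D as pre : ℝ) * (ε * (dl a s t : ℝ))) *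
          (δ * ((T : ℝ) * ((T : ℝ) ^ a * (T : ℝ) ^ bs.sum))) := by ring
    _ = ((D as pre : ℝ) * (ε * (dl a s t : ℝ))) * (δ * (T : ℝ) ^ (1 + (a + bs.sum))) := by
        rw [hTa]
    _ ≤ ((D as pre : ℝ) * (ε * (dl a s t : ℝ))) * (D (1 :: a :: bs) post : ℝ) :=
        mul_le_mul_of_nonneg_left hW (mul_nonneg hA0 hεd)
    _ = ε * ((D as pre : ℝ) * (D (1 :: a :: bs) post : ℝ) * (dl a s t : ℝ)) := by ring

end Pool.LAY
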