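import Pool.Agent.H97.LAY.Stmts

/-!
# Board `lay` (MP_609328_co): row DM4 (helper31)
-/

set_option autoImplicit false

namespace Pool.LAY

open Finset

theorem DM4 (hP : POWStmt) (hS : SUBStmt) (hD : DLTStmt) : DM4Stmt := by
  intro as bs pre post a s t T δ ε has ha hpre hpost hs hδ hδT
  have h1 : D as pre ≤ T ^ as.sum := (hP as pre has).trans (Nat.pow_le_pow_left hpre _)
  have h2 : D (a :: bs) post ≤ T ^ a * D bs post := by
    have h3 := hP [a] post (by intro l hl; rw [List.mem_singleton] at hl; omega)
    rw [List.sum_singleton] at h3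
    calc D (a :: bs) post ≤ D [a] post * D bs post := hS [a] bs post
      _ ≤ T ^ a * D bs post := Nat.mul_le_mul_right _ (h3.trans (Nat.pow_le_pow_left hpost _))
  have h5 : s.choose a * t.choose 1 ≤ s * dl a s t := by
    have h6 := (hD a s t ha).2.1
    have h7 : t * s.choose a ≤ a * (t * s.choose a) := Nat.le_mul_of_pos_left _ (by omega)
    rw [Nat.choose_one_right, mul_comm]
    exact h7.trans h6
  rcases Nat.eq_zero_or_pos T with hT | hT
  · subst hT
    have hs0 : s = 0 := by
      have : (s : ℝ) ≤ 0 := by simpa using hs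
      exact_mod_cast le_antisymm this (Nat.cast_nonneg s)
    have hpre0 : pre.sum = 0 := by omega
    have h8 : D (as ++ [a, 1]) pre = 0 := by
      have h9 := hP (as ++ [a, 1]) pre (by
        intro l hl
        rw [List.mem_append] at hl
        rcases hl with hl | hl
        · exact has l hl
        · simp only [List.mem_cons, List.not_mem_nil, or_false] at hl
          omega)
      rw [hpre0, zero_pow (by simp)] at h9
      exact Nat.le_zero.mp h9
    have h10 : s.choose a = 0 := by
      rw [hs0]; exact Nat.choose_eq_zero_of_lt (by omega)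
    rw [h8, h10]
    simp
  · have hTr : (0 : ℝ) < T := by exact_mod_cast hT
    have hε : 0 ≤ ε := by
      by_contra hneg
      have h11 : ε * T < 0 := mul_neg_of_neg_of_pos (not_le.mp hneg) hTr
      have h12 : (0 : ℝ) ≤ s := Nat.cast_nonneg s
      linarith
    have e1 : (D as pre : ℝ) ≤ (T : ℝ) ^ as.sum := by exact_mod_cast h1
    have e2 : (D (a :: bs) post : ℝ) ≤ (T : ℝ) ^ a * D bs post := by exact_mod_cast h2
    have e3 : ((s.choose a * t.choose 1 : ℕ) : ℝ) ≤ ε * T * dl a s t := by
      have h13 : ((s.choose a * t.choose 1 : ℕ) : ℝ) ≤ (s : ℝ) * dl a s t := by exact_mod_cast h5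
      exact h13.trans (mul_le_mul_of_nonneg_right hs (Nat.cast_nonneg _))
    have h14 : (0 : ℝ) ≤ ε * T * dl a s t := by positivity
    calc δ * ((D as pre * D (a :: bs) post * (s.choose a * t.choose 1) : ℕ) : ℝ)
        = δ * ((D as pre : ℝ) * D (a :: bs) post * ((s.choose a * t.choose 1 : ℕ) : ℝ)) := by
          push_cast; ring
      _ ≤ δ * ((T : ℝ) ^ as.sum * ((T : ℝ) ^ a * D bs post) * (ε * T * dl a s t)) := by
          gcongr
      _ = ε * (δ * (T : ℝ) ^ (as.sum + a + 1)) * D bs post * dl a s t := by
          rw [pow_add, pow_add, pow_one]; ring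
      _ ≤ ε * (D (as ++ [a, 1]) pre : ℝ) * D bs post * dl a s t := by
          gcongr
      _ = ε * ((D (as ++ [a, 1]) pre * D bs post * dl a s t : ℕ) : ℝ) := by
          push_cast; ring

end Pool.LAY
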