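import Pool.Agent.H97.LAY.Stmts4

/-!
# Board `lay` (MP_609328_co): row DM5 (helper2)
-/

set_option autoImplicit false

namespace Pool.LAY

open Finset

theorem DM5 (hS : SUBStmt) (hP : POWStmt) (hC : CXZStmt) : DM5Stmt := by
  intro as bs pre post x y z s t T δ ε has hy hz hzx hpre hpost hsT hs hδ hδT
  have h1 : D as pre ≤ T ^ as.sum := (hP as pre has).trans (Nat.pow_le_pow_left hpre _)
  have h2 : D (y :: z :: bs) post ≤ T ^ (y + z) * D bs post := by
    have h3 := hP [y, z] post (by
      intro l hl
      simp only [List.mem_cons, List.not_mem_nil, or_false] at hl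
      rcases hl with hl | hl <;> omega)
    have h4 : ([y, z] : List ℕ).sum = y + z := by simp
    rw [h4] at h3
    calc D (y :: z :: bs) post ≤ D [y, z] post * D bs post := hS [y, z] bs post
      _ ≤ T ^ (y + z) * D bs post := Nat.mul_le_mul_right _ (h3.trans (Nat.pow_le_pow_left hpost _))
  rcases Nat.eq_zero_or_pos T with hT | hT
  · subst hT
    have hs0 : s = 0 := by omega
    have hpre0 : pre.sum = 0 := by omega
    have h8 : D (as ++ [x, 1, y]) pre = 0 := by
      have h9 := hP (as ++ [x, 1, y]) pre (by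
        intro l hl
        rw [List.mem_append] at hl
        rcases hl with hl | hl
        · exact has l hl
        · simp only [List.mem_cons, List.not_mem_nil, or_false] at hl
          omega)
      rw [hpre0, zero_pow (by simp)] at h9
      exact Nat.le_zero.mp h9
    have h10 : s.choose x = 0 := by
      rw [hs0]; exact Nat.choose_eq_zero_of_lt (by omega)
    rw [h8, h10]
    simp
  · have hTr : (0 : ℝ) < T := by exact_mod_cast hT
    have hε : 0 ≤ ε := by
      by_contra hneg
      have h11 : ε * T < 0 := mul_neg_of_neg_of_pos (not_le.mp hneg) hTr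
      have h12 : (0 : ℝ) ≤ s := Nat.cast_nonneg s
      linarith
    have e1 : (D as pre : ℝ) ≤ (T : ℝ) ^ as.sum := by exact_mod_cast h1
    have e2 : (D (y :: z :: bs) post : ℝ) ≤ (T : ℝ) ^ (y + z) * D bs post := by exact_mod_cast h2
    have e3 := (hC x z s t T ε hz hzx).1 hsT hs
    have e4 : (T : ℝ) ^ z * ((s.choose x : ℝ) * t) ≤ ε * ((T : ℝ) ^ (x + 1) * dl z s t) := by
      have := e3
      push_cast at this
      exact this
    have hb : (0 : ℝ) ≤ D bs post := Nat.cast_nonneg _
    calc δ * ((D as pre * D (y :: z :: bs) post * (s.choose x * t.choose 1) : ℕ) : ℝ)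
        = δ * ((D as pre : ℝ) * D (y :: z :: bs) post * ((s.choose x : ℝ) * t)) := by
          rw [Nat.choose_one_right]; push_cast; ring
      _ ≤ δ * ((T : ℝ) ^ as.sum * ((T : ℝ) ^ (y + z) * D bs post) * ((s.choose x : ℝ) * t)) := by
          gcongr
      _ = δ * ((T : ℝ) ^ as.sum * (T : ℝ) ^ y * D bs post) *
            ((T : ℝ) ^ z * ((s.choose x : ℝ) * t)) := by
          rw [pow_add]; ring
      _ ≤ δ * ((T : ℝ) ^ as.sum * (T : ℝ) ^ y * D bs post) *
            (ε * ((T : ℝ) ^ (x + 1) * dl z s t)) :=
          mul_le_mul_of_nonneg_left e4 (by positivity)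
      _ = ε * (δ * (T : ℝ) ^ (as.sum + x + 1 + y)) * D bs post * dl z s t := by
          rw [pow_add, pow_add, pow_add, pow_add, pow_one]; ring
      _ ≤ ε * (D (as ++ [x, 1, y]) pre : ℝ) * D bs post * dl z s t := by
          gcongr
      _ = ε * ((D (as ++ [x, 1, y]) pre * D bs post * dl z s t : ℕ) : ℝ) := by
          push_cast; ring

end Pool.LAY
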