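import Pool.Agent.H97.LAY.Stmts4

/-! Row `DM6` of the board `lay` (mirror of `DM5`). -/

set_option autoImplicit false

namespace Pool.LAY

theorem DM6 (hSUB : SUBStmt) (hPOW : POWStmt) (hCXZ : CXZStmt) : DM6Stmt := by
  intro as bs pre post w x y s t T δ ε hbs hx hw hwy hpre hpost htT htε hδ hD
  rcases Nat.eq_zero_or_pos T with hT | hT
  · -- `T = 0`: both sides vanish
    subst hT
    have ht : t = 0 := Nat.le_zero.mp htT
    subst ht
    have h1 : (0 : ℕ).choose y = 0 := Nat.choose_eq_zero_of_lt (by omega)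
    have h2 : dl w s 0 = 0 := by
      have h3 : (0 : ℕ).choose w = 0 := Nat.choose_eq_zero_of_lt (by omega)
      unfold dl
      rw [h3]
      simp
    rw [h1, h2]
    simp
  · have hTR : (0 : ℝ) < (T : ℝ) := by exact_mod_cast hT
    have hε : 0 ≤ ε := by
      by_contra hneg
      push Not at hneg
      have h1 : ε * (T : ℝ) < 0 := mul_neg_of_neg_of_pos hneg hTR
      have h2 : (0 : ℝ) ≤ (t : ℝ) := Nat.cast_nonneg t
      linarith
    -- bounds for the two factors
    have hA : D (as ++ [w, x]) pre ≤ D as pre * T ^ (w + x) := by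
      refine (hSUB as [w, x] pre).trans (Nat.mul_le_mul_left _ ?_)
      have h1 : D [w, x] pre ≤ pre.sum ^ ([w, x] : List ℕ).sum := by
        refine hPOW [w, x] pre ?_
        intro l hl
        simp only [List.mem_cons, List.not_mem_nil, or_false] at hl
        rcases hl with h | h
        · omega
        · omega
      have h2 : ([w, x] : List ℕ).sum = w + x := by simp
      rw [h2] at h1
      exact h1.trans (Nat.pow_le_pow_left hpre _)
    have hB : D bs post ≤ T ^ bs.sum :=
      (hPOW bs post hbs).trans (Nat.pow_le_pow_left hpost _)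
    have hC := (hCXZ y w s t T ε hw hwy).2 htT htε
    have hAB : D (as ++ [w, x]) pre * D bs post * (s.choose 1 * t.choose y) ≤
        D as pre * T ^ (x + bs.sum) * (T ^ w * (s * t.choose y)) := by
      rw [Nat.choose_one_right]
      calc D (as ++ [w, x]) pre * D bs post * (s * t.choose y)
          ≤ (D as pre * T ^ (w + x)) * T ^ bs.sum * (s * t.choose y) :=
            Nat.mul_le_mul_right _ (Nat.mul_le_mul hA hB)
        _ = D as pre * T ^ (x + bs.sum) * (T ^ w * (s * t.choose y)) := by
            rw [pow_add, pow_add]; ring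
    have hABR : ((D (as ++ [w, x]) pre * D bs post * (s.choose 1 * t.choose y) : ℕ) : ℝ) ≤
        ((D as pre * T ^ (x + bs.sum) : ℕ) : ℝ) * ((T ^ w * (s * t.choose y) : ℕ) : ℝ) := by
      have := (Nat.cast_le (α := ℝ)).2 hAB
      rwa [Nat.cast_mul (D as pre * T ^ (x + bs.sum))] at this
    calc δ * ((D (as ++ [w, x]) pre * D bs post * (s.choose 1 * t.choose y) : ℕ) : ℝ)
        ≤ δ * (((D as pre * T ^ (x + bs.sum) : ℕ) : ℝ) * ((T ^ w * (s * t.choose y) : ℕ) : ℝ)) :=
          mul_le_mul_of_nonneg_left hABR hδ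
      _ ≤ δ * (((D as pre * T ^ (x + bs.sum) : ℕ) : ℝ) * (ε * ((T ^ (y + 1) * dl w s t : ℕ) : ℝ))) :=
          mul_le_mul_of_nonneg_left (mul_le_mul_of_nonneg_left hC (Nat.cast_nonneg _)) hδ
      _ = (ε * ((D as pre * dl w s t : ℕ) : ℝ)) * (δ * (T : ℝ) ^ (x + 1 + y + bs.sum)) := by
          push_cast
          ring
      _ ≤ (ε * ((D as pre * dl w s t : ℕ) : ℝ)) * (D (x :: 1 :: y :: bs) post : ℝ) :=
          mul_le_mul_of_nonneg_left hD (mul_nonneg hε (Nat.cast_nonneg _))
      _ = ε * ((D as pre * D (x :: 1 :: y :: bs) post * dl w s t : ℕ) : ℝ) := by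
          push_cast
          ring

end Pool.LAY
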