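import Pool.Agent.H97.LAY.Stmts4

/-!
# Board `lay` (MP_609328_co): row DO2 (helper2, after row DOM of helper31)
-/

set_option autoImplicit false

namespace Pool.LAY

open Finset

namespace DO2aux

lemma gain_term (as bs pre post : List ℕ) (z s t : ℕ) :
    D as pre * D bs post * dl z s t ≤ gain (as ++ z :: bs) pre post s t := by
  have hlen : as.length ∈ range (as ++ z :: bs).length := by simp
  have h := Finset.single_le_sum (f := fun i => D ((as ++ z :: bs).take i) pre *
    D ((as ++ z :: bs).drop (i + 1)) post * dl ((as ++ z :: bs).getD i 0) s t)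
    (fun i _ => Nat.zero_le _) hlen
  have e1 : (as ++ z :: bs).take as.length = as := List.take_left
  have e2 : (as ++ z :: bs).drop (as.length + 1) = bs := by simp
  have e3 : (as ++ z :: bs).getD as.length 0 = z := by simp
  simp only [e1, e2, e3] at h
  exact h

lemma split_two (ls : List ℕ) (i : ℕ) (hi : i + 1 < ls.length) :
    ls = ls.take i ++ ls.getD i 0 :: ls.getD (i + 1) 0 :: ls.drop (i + 2) := by
  conv_lhs => rw [← List.take_append_drop i ls]
  congr 1
  rw [List.drop_eq_getElem_cons (by omega : i < ls.length), List.drop_eq_getElem_cons hi,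
    List.getD_eq_getElem _ _ (by omega : i < ls.length), List.getD_eq_getElem _ _ hi]

/-- drop the first entry -/
lemma peelL (hP : POWStmt) (hS : SUBStmt) (x : ℕ) (bs post : List ℕ) (T n : ℕ) (δ : ℝ)
    (hx : 1 ≤ x) (hT : 0 < T) (hpost : post.sum ≤ T)
    (hd : δ * (T : ℝ) ^ (x + n) ≤ (D (x :: bs) post : ℝ)) :
    δ * (T : ℝ) ^ n ≤ (D bs post : ℝ) := by
  have hTr : (0 : ℝ) < T := by exact_mod_cast hT
  have h5 : D (x :: bs) post ≤ T ^ x * D bs post := by
    have h6 := hP [x] post (by intro l hl; rw [List.mem_singleton] at hl; omega)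
    rw [List.sum_singleton] at h6
    calc D (x :: bs) post ≤ D [x] post * D bs post := hS [x] bs post
      _ ≤ T ^ x * D bs post :=
          Nat.mul_le_mul_right _ (h6.trans (Nat.pow_le_pow_left hpost _))
  have h8 : (D (x :: bs) post : ℝ) ≤ (T : ℝ) ^ x * D bs post := by
    exact_mod_cast h5
  have h9 : (T : ℝ) ^ x * (δ * (T : ℝ) ^ n) ≤ (T : ℝ) ^ x * (D bs post : ℝ) := by
    calc (T : ℝ) ^ x * (δ * (T : ℝ) ^ n)
        = δ * (T : ℝ) ^ (x + n) := by
          rw [pow_add (T : ℝ) x]; ring
      _ ≤ _ := hd.trans h8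
  exact le_of_mul_le_mul_left h9 (by positivity)

/-- drop the last entry -/
lemma peelR (hP : POWStmt) (hS : SUBStmt) (x : ℕ) (as pre : List ℕ) (T n : ℕ) (δ : ℝ)
    (hx : 1 ≤ x) (hT : 0 < T) (hpre : pre.sum ≤ T)
    (hd : δ * (T : ℝ) ^ (n + x) ≤ (D (as ++ [x]) pre : ℝ)) :
    δ * (T : ℝ) ^ n ≤ (D as pre : ℝ) := by
  have hTr : (0 : ℝ) < T := by exact_mod_cast hT
  have h5 : D (as ++ [x]) pre ≤ D as pre * T ^ x := by
    have h6 := hP [x] pre (by intro l hl; rw [List.mem_singleton] at hl; omega)
    rw [List.sum_singleton] at h6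
    calc D (as ++ [x]) pre ≤ D as pre * D [x] pre := hS as [x] pre
      _ ≤ D as pre * T ^ x :=
          Nat.mul_le_mul_left _ (h6.trans (Nat.pow_le_pow_left hpre _))
  have h8 : (D (as ++ [x]) pre : ℝ) ≤ D as pre * (T : ℝ) ^ x := by
    exact_mod_cast h5
  have h9 : (T : ℝ) ^ x * (δ * (T : ℝ) ^ n) ≤ (T : ℝ) ^ x * (D as pre : ℝ) := by
    calc (T : ℝ) ^ x * (δ * (T : ℝ) ^ n)
        = δ * (T : ℝ) ^ (n + x) := by
          rw [pow_add (T : ℝ) n]; ring
      _ ≤ D as pre * (T : ℝ) ^ x := hd.trans h8
      _ = _ := mul_comm _ _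
  exact le_of_mul_le_mul_left h9 (by positivity)

end DO2aux

open DO2aux

theorem DO2 (h1 : DM1Stmt) (h2 : DM2Stmt) (h3 : D3GStmt) (h4 : D4GStmt) (h5 : DM5Stmt)
    (h6 : DM6Stmt) (hS : SUBStmt) (hP : POWStmt) : DO2Stmt := by
  intro ls pre post s t T δ ε hG hDi hDi2 hδ hT hsum hs ht
  obtain ⟨hne, hpos, hfirst, hlast, hmid⟩ := hG
  have hTr : (0 : ℝ) < T := by exact_mod_cast hT
  have hε : 0 ≤ ε := by
    by_contra hneg
    have h11 : ε * T < 0 := mul_neg_of_neg_of_pos (not_le.mp hneg) hTr
    have h12 : (0 : ℝ) ≤ s := Nat.cast_nonneg s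
    linarith
  have hpre : pre.sum ≤ T := by omega
  have hpost : post.sum ≤ T := by omega
  have hsT : s ≤ T := by omega
  have htT : t ≤ T := by omega
  have key : ∀ (as bs : List ℕ) (x y : ℕ), ls = as ++ x :: y :: bs →
      δ * ((D as pre * D bs post * (s.choose x * t.choose y) : ℕ) : ℝ) ≤
        ε * (gain ls pre post s t : ℝ) := by
    intro as bs x y hls
    have has : ∀ a ∈ as, 1 ≤ a := fun a ha => hpos a (by rw [hls]; simp [ha])
    have hbs : ∀ b ∈ bs, 1 ≤ b := fun b hb => hpos b (by rw [hls]; simp [hb])
    have hx : 1 ≤ x := hpos x (by rw [hls]; simp)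
    have hy : 1 ≤ y := hpos y (by rw [hls]; simp)
    -- it is enough to compare with a term of the gain
    have fin : ∀ (as' bs' : List ℕ) (z : ℕ), ls = as' ++ z :: bs' →
        δ * ((D as pre * D bs post * (s.choose x * t.choose y) : ℕ) : ℝ) ≤
          ε * ((D as' pre * D bs' post * dl z s t : ℕ) : ℝ) →
        δ * ((D as pre * D bs post * (s.choose x * t.choose y) : ℕ) : ℝ) ≤
        ε * (gain ls pre post s t : ℝ) := by
      intro as' bs' z hls' hle
      refine hle.trans (mul_le_mul_of_nonneg_left ?_ hε)
      rw [hls']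
      exact_mod_cast gain_term as' bs' pre post z s t
    rcases Nat.lt_or_ge 1 y with hy2 | hy1
    · rcases Nat.lt_or_ge 1 x with hx2 | hx1
      · -- both at least two
        rcases hDi as x (y :: bs) hls with hd | hd
        · exact fin (as ++ [x]) bs y (by rw [hls]; simp)
            (h1 as bs pre post x y s t T δ ε has hx hy2 hpre hsT ht hδ hd)
        · have h7 : δ * (T : ℝ) ^ (y + bs.sum) ≤ (D (y :: bs) post : ℝ) := by
            refine peelL hP hS x (y :: bs) post T (y + bs.sum) δ hx hT hpost ?_
            rw [List.sum_cons] at hd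
            exact hd
          exact fin as (y :: bs) x hls
            (h2 as bs pre post x y s t T δ ε hbs hx2 hy hpost htT hs hδ h7)
      · have hx1' : x = 1 := by omega
        subst hx1'
        rcases List.eq_nil_or_concat as with hnil | ⟨as', v, hz⟩
        · rw [hnil, List.nil_append] at hls
          have := hfirst 1 (y :: bs) hls
          omega
        · rw [List.concat_eq_append] at hz
          have hls2 : ls = as' ++ v :: 1 :: y :: bs := by rw [hls, hz]; simp
          obtain ⟨hv2, hy2', hvy, hyv⟩ := hmid as' v y bs hls2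
          have hv1 : 1 ≤ v := by omega
          rcases (hDi2 as' v y bs hls2).2 with hd | hd
          · -- DM1
            refine fin (as ++ [1]) bs y (by rw [hls]; simp) ?_
            refine h1 as bs pre post 1 y s t T δ ε has le_rfl hy2 hpre hsT ht hδ ?_
            have e1 : as ++ [1] = as' ++ [v, 1] := by rw [hz]; simp
            have e2 : as.sum + 1 = as'.sum + v + 1 := by rw [hz]; simp
            rw [e1, e2]
            exact hd
          · rcases Nat.lt_or_ge y v with hlt | hge
            · -- DM6
              obtain ⟨w, cs, hcs, hw2, hwy⟩ := hyv hlt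
              have has2 : as = cs ++ [w, v] := by rw [hz, hcs]; simp
              have hls3 : ls = cs ++ w :: v :: 1 :: y :: bs := by rw [hls, has2]; simp
              rw [has2]
              rw [has2] at fin
              refine fin cs (v :: 1 :: y :: bs) w hls3 ?_
              exact h6 cs bs pre post w v y s t T δ ε hbs hv1 hw2 hwy hpre hpost htT ht hδ hd
            · -- D3G
              rw [hz]
              rw [hz] at fin
              refine fin as' (1 :: y :: bs) v hls2 ?_
              refine h3 as' bs pre post v y s t T δ ε hbs hv2 hge hpre hpost htT ht hδ ?_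
              refine peelL hP hS v (1 :: y :: bs) post T (1 + y + bs.sum) δ hv1 hT hpost ?_
              have e3 : v + (1 + y + bs.sum) = v + 1 + y + bs.sum := by omega
              rw [e3]
              exact hd
    · have hy1' : y = 1 := by omega
      subst hy1'
      rcases bs with _ | ⟨v, bs'⟩
      · have := hlast (as ++ [x]) 1 (by rw [hls]; simp)
        omega
      · obtain ⟨hx2, hv2, hxv, hvx⟩ := hmid as x v bs' hls
        have hv1 : 1 ≤ v := by omega
        rcases (hDi2 as x v bs' hls).1 with hd | hd
        · rcases Nat.lt_or_ge x v with hlt | hge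
          · -- DM5
            obtain ⟨z, cs, hcs, hz2, hzx⟩ := hxv hlt
            subst hcs
            refine fin (as ++ [x, 1, v]) cs z (by rw [hls]; simp) ?_
            exact h5 as cs pre post x v z s t T δ ε has hv1 hz2 hzx hpre hpost hsT hs hδ hd
          · -- D4G
            refine fin (as ++ [x, 1]) bs' v (by rw [hls]; simp) ?_
            refine h4 as bs' pre post x v s t T δ ε has hv2 hge hpre hpost hsT hs hδ ?_
            refine peelR hP hS v (as ++ [x, 1]) pre T (as.sum + x + 1) δ hv1 hT hpre ?_
            have e4 : (as ++ [x, 1]) ++ [v] = as ++ [x, 1, v] := by simp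
            rw [e4]
            exact hd
        · -- DM2
          refine fin as (1 :: v :: bs') x hls ?_
          refine h2 as (v :: bs') pre post x 1 s t T δ ε hbs hx2 le_rfl hpost htT hs hδ ?_
          have e5 : 1 + (v :: bs').sum = 1 + v + bs'.sum := by rw [List.sum_cons]; omega
          rw [e5]
          exact hd
  have hsumle : δ * (loss ls pre post s t : ℝ) ≤
      ∑ _i ∈ range (ls.length - 1), ε * (gain ls pre post s t : ℝ) := by
    unfold loss
    push_cast
    rw [Finset.mul_sum]
    refine Finset.sum_le_sum fun i hi => ?_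
    have hi' : i + 1 < ls.length := by
      have := Finset.mem_range.mp hi
      omega
    have := key (ls.take i) (ls.drop (i + 2)) (ls.getD i 0) (ls.getD (i + 1) 0) (split_two ls i hi')
    push_cast at this
    exact this
  refine hsumle.trans ?_
  rw [Finset.sum_const, card_range, nsmul_eq_mul, ← mul_assoc]
  refine mul_le_mul_of_nonneg_right ?_ (Nat.cast_nonneg _)
  refine mul_le_mul_of_nonneg_right ?_ hε
  exact_mod_cast Nat.sub_le _ _

end Pool.LAY
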