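import Pool.Agent.H97.LAY.Stmts

/-!
# Board `lay` (MP_609328_co): row DOM (helper31)
-/

set_option autoImplicit false

namespace Pool.LAY

open Finset

namespace DOMaux

lemma gain_term (as bs pre post : List ℕ) (z s t : ℕ) :
    D as pre * D bs post * dl z s t ≤ gain (as ++ z :: bs) pre post s t := by
  have hlen : as.length ∈ range (as ++ z :: bs).length := by simp
  have h := Finset.single_le_sum (f := fun i => D ((as ++ z :: bs).take i) pre *
    D ((as ++ z :: bs).drop (i + 1)) post * dl ((as ++ z :: bs).getD i 0) s t)
    (fun i _ => Nat.zero_le _) hlen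
  have e1 : (as ++ z :: bs).take as.length = as := List.take_left
  have e2 : (as ++ z :: bs).drop (as.length + 1) = bs := by simp
  have e3 : (as ++ z :: bs).getD as.length 0 = z := by simp
  simp only [e1, e2, e3] at h
  exact h

lemma split_two (ls : List ℕ) (i : ℕ) (hi : i + 1 < ls.length) :
    ls = ls.take i ++ ls.getD i 0 :: ls.getD (i + 1) 0 :: ls.drop (i + 2) := by
  conv_lhs => rw [← List.take_append_drop i ls]
  congr 1
  rw [List.drop_eq_getElem_cons (by omega : i < ls.length), List.drop_eq_getElem_cons hi,
    List.getD_eq_getElem _ _ (by omega : i < ls.length), List.getD_eq_getElem _ _ hi]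

end DOMaux

open DOMaux

theorem DOM (h1 : DM1Stmt) (h2 : DM2Stmt) (h3 : DM3Stmt) (h4 : DM4Stmt) (hP : POWStmt)
    (hS : SUBStmt) : DOMStmt := by
  intro ls pre post s t T δ ε hG hDi hδ hT hsum hs ht
  obtain ⟨hne, hpos, hfirst, hlast, hmid⟩ := hG
  have hTr : (0 : ℝ) < T := by exact_mod_cast hT
  have hε : 0 ≤ ε := by
    by_contra hneg
    have h11 : ε * T < 0 := mul_neg_of_neg_of_pos (not_le.mp hneg) hTr
    have h12 : (0 : ℝ) ≤ s := Nat.cast_nonneg s
    linarith
  have key : ∀ (as bs : List ℕ) (x y : ℕ), ls = as ++ x :: y :: bs →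
      δ * ((D as pre * D bs post * (s.choose x * t.choose y) : ℕ) : ℝ) ≤
        ε * (gain ls pre post s t : ℝ) := by
    intro as bs x y hls
    have has : ∀ a ∈ as, 1 ≤ a := fun a ha => hpos a (by rw [hls]; simp [ha])
    have hbs : ∀ b ∈ bs, 1 ≤ b := fun b hb => hpos b (by rw [hls]; simp [hb])
    have hx : 1 ≤ x := hpos x (by rw [hls]; simp)
    have hy : 1 ≤ y := hpos y (by rw [hls]; simp)
    -- it is enough to compare with a term of the gain
    have fin : ∀ (as' bs' : List ℕ) (z : ℕ), ls = as' ++ z :: bs' →
        δ * ((D as pre * D bs post * (s.choose x * t.choose y) : ℕ) : ℝ) ≤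
          ε * ((D as' pre * D bs' post * dl z s t : ℕ) : ℝ) →
        δ * ((D as pre * D bs post * (s.choose x * t.choose y) : ℕ) : ℝ) ≤
        ε * (gain ls pre post s t : ℝ) := by
      intro as' bs' z hls' hle
      refine hle.trans (mul_le_mul_of_nonneg_left ?_ hε)
      rw [hls']
      exact_mod_cast gain_term as' bs' pre post z s t
    rcases Nat.lt_or_ge 1 y with hy2 | hy1
    · rcases hDi as x (y :: bs) hls with hd | hd
      · exact fin (as ++ [x]) bs y (by rw [hls]; simp)
          (h1 as bs pre post x y s t T δ ε has hx hy2 (by omega) (by omega) ht hδ hd)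
      · rcases Nat.lt_or_ge 1 x with hx2 | hx1
        · have h5 : D (x :: y :: bs) post ≤ T ^ x * D (y :: bs) post := by
            have h6 := hP [x] post (by intro l hl; rw [List.mem_singleton] at hl; omega)
            rw [List.sum_singleton] at h6
            calc D (x :: y :: bs) post ≤ D [x] post * D (y :: bs) post := hS [x] (y :: bs) post
              _ ≤ T ^ x * D (y :: bs) post :=
                  Nat.mul_le_mul_right _ (h6.trans (Nat.pow_le_pow_left (by omega) _))
          have h7 : δ * (T : ℝ) ^ (y + bs.sum) ≤ (D (y :: bs) post : ℝ) := by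
            have h8 : (D (x :: y :: bs) post : ℝ) ≤ (T : ℝ) ^ x * D (y :: bs) post := by
              exact_mod_cast h5
            have h9 : (T : ℝ) ^ x * (δ * (T : ℝ) ^ (y + bs.sum)) ≤
                (T : ℝ) ^ x * (D (y :: bs) post : ℝ) := by
              calc (T : ℝ) ^ x * (δ * (T : ℝ) ^ (y + bs.sum))
                  = δ * (T : ℝ) ^ (x + (y :: bs).sum) := by
                    rw [List.sum_cons, pow_add (T : ℝ) x]; ring
                _ ≤ _ := hd.trans h8
            exact le_of_mul_le_mul_left h9 (by positivity)
          exact fin as (y :: bs) x hls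
            (h2 as bs pre post x y s t T δ ε hbs hx2 hy (by omega) (by omega) hs hδ h7)
        · have hx1' : x = 1 := by omega
          subst hx1'
          rcases List.eq_nil_or_concat as with hnil | ⟨as', z, hz⟩
          · rw [hnil, List.nil_append] at hls
            have := hfirst 1 (y :: bs) hls
            omega
          · rw [List.concat_eq_append] at hz
            have hls2 : ls = as' ++ z :: 1 :: y :: bs := by rw [hls, hz]; simp
            obtain ⟨hzy, hz2⟩ := hmid as' z y bs hls2
            subst hzy
            rw [hz]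
            rw [hz] at fin
            refine fin as' (1 :: z :: bs) z hls2 ?_
            exact h3 as' bs pre post z s t T δ ε hbs hz2 (by omega) (by omega) ht hδ
              (by simpa only [List.sum_cons] using hd)
    · have hy1' : y = 1 := by omega
      subst hy1'
      rcases bs with _ | ⟨z, bs'⟩
      · have := hlast (as ++ [x]) 1 (by rw [hls]; simp)
        omega
      · obtain ⟨hxz, hx2⟩ := hmid as x z bs' hls
        subst hxz
        rcases hDi (as ++ [x]) 1 (x :: bs') (by rw [hls]; simp) with hd | hd
        · refine fin (as ++ [x, 1]) bs' x (by rw [hls]; simp) ?_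
          refine h4 as bs' pre post x s t T δ ε has hx2 (by omega) (by omega) hs hδ ?_
          have e1 : (as ++ [x]) ++ [1] = as ++ [x, 1] := by simp
          have e2 : (as ++ [x]).sum + 1 = as.sum + x + 1 := by simp
          rw [e1, e2] at hd
          exact hd
        · refine fin as (1 :: x :: bs') x hls ?_
          exact h2 as (x :: bs') pre post x 1 s t T δ ε hbs hx2 le_rfl (by omega) (by omega) hs hδ hd
  have hsumle : δ * (loss ls pre post s t : ℝ) ≤
      ∑ _i ∈ range (ls.length - 1), ε * (gain ls pre post s t : ℝ) := by
    unfold loss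
    push_cast
    rw [Finset.mul_sum]
    refine Finset.sum_le_sum fun i hi => ?_
    have hi' : i + 1 < ls.length := by
      have := Finset.mem_range.mp hi
      omega
    have := key (ls.take i) (ls.drop (i + 2)) (ls.getD i 0) (ls.getD (i + 1) 0) (split_two ls i hi')
    push_cast at this
    exact this
  refine hsumle.trans ?_
  rw [Finset.sum_const, card_range, nsmul_eq_mul, ← mul_assoc]
  refine mul_le_mul_of_nonneg_right ?_ (Nat.cast_nonneg _)
  refine mul_le_mul_of_nonneg_right ?_ hε
  exact_mod_cast Nat.sub_le _ _

end Pool.LAY
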