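import Pool.Agent.H97.LAY.Stmts

/-!
# Board `lay`, row DQL: discretisation, lower bound
-/

set_option autoImplicit false

namespace Pool.LAY

open Finset Filter

private theorem dql_filter : ∀ (xs ls : List ℕ), (∀ l ∈ ls, 1 ≤ l) →
    D ls (xs.filter (fun x => decide (x ≠ 0))) = D ls xs := by
  intro xs
  induction xs with
  | nil => intro ls _; simp
  | cons x xs ih =>
    intro ls hls
    by_cases hx : x = 0
    · subst hx
      have h1 : (List.filter (fun x : ℕ => decide (x ≠ 0)) (0 :: xs)) =
          xs.filter (fun x => decide (x ≠ 0)) := by simp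
      rw [h1, ih ls hls]
      cases ls with
      | nil => simp [D]
      | cons l ls =>
        have h2 : (0 : ℕ).choose l = 0 := Nat.choose_eq_zero_of_lt (hls l (by simp))
        simp [D, h2]
    · have h1 : (List.filter (fun x : ℕ => decide (x ≠ 0)) (x :: xs)) =
          x :: xs.filter (fun x => decide (x ≠ 0)) := by simp [hx]
      rw [h1]
      cases ls with
      | nil => simp [D]
      | cons l ls =>
        have h2 := ih ls fun y hy => hls y (by simp [hy])
        have h3 := ih (l :: ls) hls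
        show x.choose l * D ls _ + D (l :: ls) _ = x.choose l * D ls _ + D (l :: ls) _
        rw [h2, h3]

private theorem dql_fsum : ∀ xs : List ℕ,
    (xs.filter (fun x => decide (x ≠ 0))).sum = xs.sum := by
  intro xs
  induction xs with
  | nil => simp
  | cons x xs ih =>
    by_cases hx : x = 0
    · subst hx
      have h1 : (List.filter (fun x : ℕ => decide (x ≠ 0)) (0 :: xs)) =
          xs.filter (fun x => decide (x ≠ 0)) := by simp
      rw [h1, ih]; simp
    · have h1 : (List.filter (fun x : ℕ => decide (x ≠ 0)) (x :: xs)) =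
          x :: xs.filter (fun x => decide (x ≠ 0)) := by simp [hx]
      rw [h1, List.sum_cons, ih, List.sum_cons]

private theorem dql_cons (r : ℕ) (ls ms : List ℕ) : D ls ms ≤ D ls (r :: ms) := by
  cases ls with
  | nil => simp [D]
  | cons l ls =>
    show D (l :: ls) ms ≤ r.choose l * D ls ms + D (l :: ls) ms
    exact Nat.le_add_left _ _

private theorem dql_low (L : ℕ) : ∀ (ms ls : List ℕ), (∀ l ∈ ls, l ≤ L) →
    Q ls (ms.map fun m : ℕ => ((m + 1 - L : ℕ) : ℝ)) ≤
      (((ls.map Nat.factorial).prod * D ls ms : ℕ) : ℝ) := by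
  intro ms
  induction ms with
  | nil =>
    intro ls _
    cases ls with
    | nil => simp [Q, D]
    | cons l ls => simp [Q, D]
  | cons m ms ih =>
    intro ls hls
    cases ls with
    | nil => simp [Q, D]
    | cons l ls =>
      have h1 := ih ls fun y hy => hls y (by simp [hy])
      have h2 := ih (l :: ls) hls
      have hl : l ≤ L := hls l (by simp)
      have h3 : ((m + 1 - L : ℕ) : ℝ) ^ l ≤ ((l.factorial * m.choose l : ℕ) : ℝ) := by
        have h4 : (m + 1 - L) ^ l ≤ m.descFactorial l :=
          (Nat.pow_le_pow_left (by omega) l).trans (Nat.pow_sub_le_descFactorial m l)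
        rw [Nat.descFactorial_eq_factorial_mul_choose] at h4
        exact_mod_cast h4
      have h5 : (((( l :: ls).map Nat.factorial).prod * D (l :: ls) (m :: ms) : ℕ) : ℝ) =
          ((l.factorial * m.choose l : ℕ) : ℝ) * (((ls.map Nat.factorial).prod * D ls ms : ℕ) : ℝ) +
            (((( l :: ls).map Nat.factorial).prod * D (l :: ls) ms : ℕ) : ℝ) := by
        have : D (l :: ls) (m :: ms) = m.choose l * D ls ms + D (l :: ls) ms := rfl
        rw [this]
        simp only [List.map_cons, List.prod_cons]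
        push_cast
        ring
      rw [h5]
      show ((m + 1 - L : ℕ) : ℝ) ^ l * Q ls (ms.map fun m : ℕ => ((m + 1 - L : ℕ) : ℝ)) +
        Q (l :: ls) (ms.map fun m : ℕ => ((m + 1 - L : ℕ) : ℝ)) ≤ _
      have h6 : ((m + 1 - L : ℕ) : ℝ) ^ l * Q ls (ms.map fun m : ℕ => ((m + 1 - L : ℕ) : ℝ)) ≤
          ((l.factorial * m.choose l : ℕ) : ℝ) *
            (((ls.map Nat.factorial).prod * D ls ms : ℕ) : ℝ) := by
        refine (mul_le_mul_of_nonneg_left h1 (by positivity)).trans ?_
        exact mul_le_mul_of_nonneg_right h3 (by positivity)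
      linarith

private theorem dql_mono (hN : QNNStmt) (f g : ℝ → ℝ) : ∀ (ys : List ℝ) (ls : List ℕ),
    (∀ y ∈ ys, 0 ≤ f y ∧ f y ≤ g y) → Q ls (ys.map f) ≤ Q ls (ys.map g) := by
  intro ys
  induction ys with
  | nil => intro ls _; simp
  | cons y ys ih =>
    intro ls h
    cases ls with
    | nil => simp [Q]
    | cons l ls =>
      have h1 : ∀ z ∈ ys, 0 ≤ f z ∧ f z ≤ g z := fun z hz => h z (by simp [hz])
      have h2 := ih ls h1
      have h3 := ih (l :: ls) h1
      have h4 : 0 ≤ Q ls (ys.map f) := (hN _ _ (by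
        intro z hz
        obtain ⟨w, hw, rfl⟩ := List.mem_map.1 hz
        exact (h1 w hw).1)).1
      obtain ⟨h5, h6⟩ := h y (by simp)
      have h7 : f y ^ l ≤ g y ^ l := pow_le_pow_left₀ h5 h6 l
      show f y ^ l * Q ls (ys.map f) + Q (l :: ls) (ys.map f) ≤
        g y ^ l * Q ls (ys.map g) + Q (l :: ls) (ys.map g)
      have h8 : f y ^ l * Q ls (ys.map f) ≤ g y ^ l * Q ls (ys.map g) :=
        mul_le_mul h7 h2 h4 (pow_nonneg (h5.trans h6) l)
      linarith

private theorem dql_cont : ∀ (ys : List ℝ) (ls : List ℕ),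
    Continuous fun t : ℝ => Q ls (ys.map fun y => max 0 (y - t)) := by
  intro ys
  induction ys with
  | nil =>
    intro ls
    simpa using continuous_const
  | cons y ys ih =>
    intro ls
    cases ls with
    | nil => simpa [Q] using continuous_const
    | cons l ls =>
      show Continuous fun t : ℝ => (max 0 (y - t)) ^ l * Q ls (ys.map fun y => max 0 (y - t)) +
        Q (l :: ls) (ys.map fun y => max 0 (y - t))
      exact (((continuous_const.max (continuous_const.sub continuous_id)).pow l).mul (ih ls)).add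
        (ih (l :: ls))

private theorem dql_floor (n : ℕ) : ∀ ys : List ℝ, NN ys →
    (((ys.map fun y : ℝ => ⌊y * (n : ℝ)⌋₊).sum : ℕ) : ℝ) ≤ ys.sum * n := by
  intro ys
  induction ys with
  | nil => intro _; simp
  | cons y ys ih =>
    intro h
    have h1 := ih fun z hz => h z (by simp [hz])
    have h2 : 0 ≤ y := h y (by simp)
    have h3 : ((⌊y * (n : ℝ)⌋₊ : ℕ) : ℝ) ≤ y * n := Nat.floor_le (by positivity)
    simp only [List.map_cons, List.sum_cons]
    push_cast at h1 ⊢
    rw [add_mul]
    linarith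

theorem DQL (h1 : QHOStmt) (h2 : QNNStmt) : DQLStmt := by
  intro ls ys hls hys hsum η hη
  set L : ℕ := ls.sum with hL
  have hleL : ∀ l ∈ ls, l ≤ L := fun l hl => List.single_le_sum (fun _ _ => Nat.zero_le _) l hl
  have h0 : (ys.map fun y => max 0 (y - 0)) = ys := by
    conv_rhs => rw [← List.map_id ys]
    apply List.map_congr_left
    intro y hy
    simp [hys y hy]
  have hlim : Tendsto (fun n : ℕ => Q ls (ys.map fun y => max 0 (y - (L : ℝ) / (n : ℝ)))) atTop
      (nhds (Q ls ys)) := by
    have h3 := (dql_cont ys ls).tendsto 0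
    rw [h0] at h3
    exact h3.comp (tendsto_const_div_atTop_nhds_zero_nat (L : ℝ))
  have hev := (hlim.eventually (lt_mem_nhds (show Q ls ys - η < Q ls ys by linarith))).and
    (eventually_ge_atTop 1)
  obtain ⟨n0, hn0⟩ := eventually_atTop.1 hev
  refine ⟨n0, fun n hn => ?_⟩
  obtain ⟨h3, h4⟩ := hn0 n hn
  have hnpos : (0 : ℝ) < n := by exact_mod_cast h4
  set ms : List ℕ := ys.map fun y : ℝ => ⌊y * (n : ℝ)⌋₊ with hms
  have hmsn : ms.sum ≤ n := by
    have := dql_floor n ys hys
    rw [hsum, one_mul] at this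
    exact_mod_cast this
  refine ⟨((n - ms.sum) :: ms).filter (fun x => decide (x ≠ 0)), ?_, ?_, ?_⟩
  · intro x hx
    have := (List.mem_filter.1 hx).2
    have hx0 : x ≠ 0 := by simpa using this
    omega
  · rw [dql_fsum, List.sum_cons]
    omega
  · rw [dql_filter _ _ hls]
    have h5 : (((ls.map Nat.factorial).prod * D ls ms : ℕ) : ℝ) ≤
        (((ls.map Nat.factorial).prod * D ls ((n - ms.sum) :: ms) : ℕ) : ℝ) := by
      have := Nat.mul_le_mul_left (ls.map Nat.factorial).prod (dql_cons (n - ms.sum) ls ms)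
      exact_mod_cast this
    refine le_trans ?_ h5
    refine le_trans ?_ (dql_low L ms ls hleL)
    rw [hms, List.map_map]
    have h6 : Q ls (ys.map fun y => (n : ℝ) * max 0 (y - (L : ℝ) / (n : ℝ))) ≤
        Q ls (ys.map ((fun m : ℕ => ((m + 1 - L : ℕ) : ℝ)) ∘ fun y : ℝ => ⌊y * n⌋₊)) := by
      apply dql_mono h2
      intro y hy
      refine ⟨by positivity, ?_⟩
      show (n : ℝ) * max 0 (y - (L : ℝ) / (n : ℝ)) ≤ ((⌊y * n⌋₊ + 1 - L : ℕ) : ℝ)
      have h7 : (n : ℝ) * max 0 (y - (L : ℝ) / (n : ℝ)) = max 0 (y * n - L) := by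
        rw [mul_max_of_nonneg _ _ hnpos.le, mul_zero]
        congr 1
        field_simp
      rw [h7]
      apply max_le (by positivity)
      have h8 : y * n < (⌊y * n⌋₊ : ℝ) + 1 := Nat.lt_floor_add_one _
      rcases le_total L (⌊y * n⌋₊ + 1) with h9 | h9
      · rw [Nat.cast_sub h9]
        push_cast
        linarith
      · have h10 : ((⌊y * n⌋₊ + 1 : ℕ) : ℝ) ≤ (L : ℝ) := by exact_mod_cast h9
        push_cast at h10
        have h11 : (0 : ℝ) ≤ ((⌊y * n⌋₊ + 1 - L : ℕ) : ℝ) := by positivity
        linarith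
    refine le_trans ?_ h6
    have h7 : (ys.map fun y => (n : ℝ) * max 0 (y - (L : ℝ) / (n : ℝ))) =
        (ys.map fun y => max 0 (y - (L : ℝ) / (n : ℝ))).map (fun x => (n : ℝ) * x) := by
      rw [List.map_map]
      rfl
    rw [h7, h1 (n : ℝ), mul_comm]
    exact mul_le_mul_of_nonneg_left h3.le (by positivity)

end Pool.LAY
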