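import Mathlib

/-!
# Layered permutations (MP_609328_co)

Definitions for the board `lay`.
-/

set_option autoImplicit false

namespace Pool.LAY

open Finset

/-- number of occurrences of `σ` in `π`: the order embeddings `e` of `[m]` into `[n]` such that
the points `e 0 < e 1 < ...` of `π` induce `σ` (they correspond to the `m`-element subsets of `[n]`
inducing `σ`). -/
noncomputable def occ {m n : ℕ} (σ : Equiv.Perm (Fin m)) (π : Equiv.Perm (Fin n)) : ℕ :=
  Nat.card {e : Fin m ↪o Fin n // ∀ a b : Fin m, σ a < σ b ↔ π (e a) < π (e b)}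

/-- the density `d(σ, π)` -/
noncomputable def density {m n : ℕ} (σ : Equiv.Perm (Fin m)) (π : Equiv.Perm (Fin n)) : ℝ :=
  (occ σ π : ℝ) / (n.choose m : ℝ)

/-- `π` is `σ`-optimal -/
def Optimal {m n : ℕ} (σ : Equiv.Perm (Fin m)) (π : Equiv.Perm (Fin n)) : Prop :=
  m ≤ n ∧ ∀ π' : Equiv.Perm (Fin n), density σ π' ≤ density σ π

/-- `b` splits `[n]` into `k` consecutive nonempty intervals `b⁻¹ 0, b⁻¹ 1, ...`; `π` is decreasing
on each of them, and every value on an interval is smaller than every value on a later one. -/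
def IsLayering {n k : ℕ} (π : Equiv.Perm (Fin n)) (b : Fin n → Fin k) : Prop :=
  Function.Surjective b ∧ Monotone b ∧
  (∀ i j : Fin n, i < j → b i = b j → π j < π i) ∧ (∀ i j : Fin n, b i < b j → π i < π j)

/-- `π` is layered with `k` layers -/
def HasLayers {n : ℕ} (π : Equiv.Perm (Fin n)) (k : ℕ) : Prop :=
  ∃ b : Fin n → Fin k, IsLayering π b

/-- the size of the layer `j` -/
def layerSize {n k : ℕ} (b : Fin n → Fin k) (j : Fin k) : ℕ :=
  (Finset.univ.filter (fun i => b i = j)).card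

/-- condition (i) of Q1 -/
def CondI {s : ℕ} (σ : Equiv.Perm (Fin s)) (m : ℕ) : Prop :=
  {n : ℕ | ∃ π : Equiv.Perm (Fin n), Optimal σ π ∧ ∃ k ≤ m, HasLayers π k}.Infinite

/-- condition (ii) of Q1 -/
def CondII {s : ℕ} (σ : Equiv.Perm (Fin s)) : Prop :=
  ∀ k : ℕ, ∃ n ≥ s, ∀ π : Equiv.Perm (Fin n), Optimal σ π → ∀ j : ℕ, HasLayers π j → k ≤ j

/-- `D [ℓ_1, ..., ℓ_k] [x_1, ..., x_h]` is the sum over `i_1 < ... < i_k` of the products of the
binomial coefficients `C(x_(i_j), ℓ_j)`. -/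
def D : List ℕ → List ℕ → ℕ
  | [], _ => 1
  | _ :: _, [] => 0
  | l :: ls, x :: xs => x.choose l * D ls xs + D (l :: ls) xs

/-- the same with powers: the sum over `i_1 < ... < i_k` of the products of `x_(i_j) ^ ℓ_j`. -/
def Q : List ℕ → List ℝ → ℝ
  | [], _ => 1
  | _ :: _, [] => 0
  | l :: ls, x :: xs => x ^ l * Q ls xs + Q (l :: ls) xs

/-- `C(s+t, l) - C(s, l) - C(t, l)` -/
def dl (l s t : ℕ) : ℕ := (s + t).choose l - s.choose l - t.choose l

/-- gain of merging two consecutive layers `s, t` (between `pre` and `post`) -/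
def gain (ls pre post : List ℕ) (s t : ℕ) : ℕ :=
  ∑ i ∈ range ls.length, D (ls.take i) pre * D (ls.drop (i + 1)) post * dl (ls.getD i 0) s t

/-- loss of merging two consecutive layers `s, t` -/
def loss (ls pre post : List ℕ) (s t : ℕ) : ℕ :=
  ∑ i ∈ range (ls.length - 1), D (ls.take i) pre * D (ls.drop (i + 2)) post *
    (s.choose (ls.getD i 0) * t.choose (ls.getD (i + 1) 0))

/-- first and last entry at least 2; the two neighbours of an entry 1 are equal and at least 2 -/
def Good (ls : List ℕ) : Prop :=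
  ls ≠ [] ∧ (∀ l ∈ ls, 1 ≤ l) ∧ (∀ l bs, ls = l :: bs → 2 ≤ l) ∧ (∀ as l, ls = as ++ [l] → 2 ≤ l) ∧
  (∀ as x y bs, ls = as ++ x :: 1 :: y :: bs → x = y ∧ 2 ≤ x)

/-- the dichotomy at a place between `pre` and `post` -/
def Dich (δ : ℝ) (T : ℕ) (ls pre post : List ℕ) : Prop :=
  ∀ as l bs, ls = as ++ l :: bs →
    δ * (T : ℝ) ^ (as.sum + l) ≤ (D (as ++ [l]) pre : ℝ) ∨
    δ * (T : ℝ) ^ (l + bs.sum) ≤ (D (l :: bs) post : ℝ)

/-- positive entries -/
def Pos (ns : List ℕ) : Prop := ∀ x ∈ ns, 1 ≤ x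

/-- best among the lists of positive numbers with the same sum -/
def OptL (ls ns : List ℕ) : Prop :=
  Pos ns ∧ ∀ ns' : List ℕ, Pos ns' → ns'.sum = ns.sum → D ls ns' ≤ D ls ns

/-- nonnegative entries -/
def NN (xs : List ℝ) : Prop := ∀ x ∈ xs, 0 ≤ x

/-- maximiser of `Q ls` on all finite nonnegative lists of sum 1 -/
def IsMax (ls : List ℕ) (xs : List ℝ) : Prop :=
  NN xs ∧ xs.sum = 1 ∧ ∀ ys : List ℝ, NN ys → ys.sum = 1 → Q ls ys ≤ Q ls xs

/-- `f` labels some elements of `α` by `0, ..., k-1`, `ℓ j` of them by `j`, such that for two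
labelled elements `x`, `y` with `p x < p y` either the labels are equal and `q y < q x`, or the label
of `x` is smaller and `q x < q y`. -/
def Lab {α : Type} {k : ℕ} (ℓ : Fin k → ℕ) (p q : α → ℕ) (f : α → Option (Fin k)) : Prop :=
  (∀ j : Fin k, Nat.card {x : α // f x = some j} = ℓ j) ∧
  ∀ (x y : α) (i j : Fin k), p x < p y → f x = some i → f y = some j →
    (i = j ∧ q y < q x) ∨ (i < j ∧ q x < q y)

/-- the positions after `u` has been made a clone of `v` (just to the right of `v`) -/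
def clp {α : Type} [DecidableEq α] (p : α → ℕ) (u v : α) : α → ℕ :=
  fun x => if x = u then 3 * p v + 1 else 3 * p x

/-- the values after `u` has been made a clone of `v` (just below `v`) -/
def clq {α : Type} [DecidableEq α] (q : α → ℕ) (u v : α) : α → ℕ :=
  fun x => if x = u then 3 * q v else 3 * q x + 1

/-- inverted pair -/
def Inv {α : Type} (p q : α → ℕ) (x y : α) : Prop :=
  (p x < p y ∧ q y < q x) ∨ (p y < p x ∧ q x < q y)

end Pool.LAY
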