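import Pool.Agent.H97.LAY.Defs

/-!
# Statements of the board `lay`

Row `XXX` is the statement `XXXStmt`; the file `Pool/Agent/H97/LAY/XXX.lean` proves
`theorem Pool.LAY.XXX (h1 : YYYStmt) ... : XXXStmt` (`YYY` the rows in the column `needs`; fewer
hypotheses are fine).
-/

set_option autoImplicit false

namespace Pool.LAY

open Finset

/-! ## Part A: lists of naturals -/

/-- row APP. Induction on `xs` (all `ls`): for `x :: xs` use the recursion of `D`; the `i = 0` term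
of the sum is `D ls ys`; `take (i+1)`, `drop (i+1)` of `l :: ls`. -/
def APPStmt : Prop := ∀ ls xs ys : List ℕ,
  D ls (xs ++ ys) = ∑ i ∈ range (ls.length + 1), D (ls.take i) xs * D (ls.drop i) ys

/-- row POW. Induction on `xs`: `C(x,l) * S^r + S^(l+r) ≤ (x^l + S^l) * S^r ≤ (x+S)^(l+r)`, `l ≥ 1`
(`Nat.choose_le_pow`-like: `C(x,l) ≤ x^l`; superadditivity of `x^l`). -/
def POWStmt : Prop := ∀ ls xs : List ℕ, (∀ l ∈ ls, 1 ≤ l) → D ls xs ≤ xs.sum ^ ls.sum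

/-- row SUB. Induction on `xs`, all `as`; `D bs xs ≤ D bs (x :: xs)`. -/
def SUBStmt : Prop := ∀ as bs xs : List ℕ, D (as ++ bs) xs ≤ D as xs * D bs xs

/-- row PIV (where does the entry `l` go: into `X`, `M` or `Y`). Induction on `X`, all `as`, with
`T` = total sum. Step `X = x :: X'`, `T = x + T'`: for `as = []`:
`D (l::bs) (x :: Z) = C(x,l) D bs Z + D (l::bs) Z`, `D bs Z ≤ T ^ bs.sum` (POW), and
`D [l] (x::X') = C(x,l) + D [l] X'`; for `as = a :: as'`: both terms of the recursion by induction and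
`C(x,a) T'^|as'| + T'^(a+|as'|) ≤ T^(a+|as'|)`, `|as| = as.sum`. For `X = []` induction on `M`:
`M = []`: SUB and POW; `M = m :: M'`: as before, with `m^l + M'.sum^l ≤ (m + M'.sum)^l`, `l ≥ 1`. -/
def PIVStmt : Prop := ∀ (as bs X M Y : List ℕ) (l : ℕ), (∀ a ∈ as, 1 ≤ a) → (∀ b ∈ bs, 1 ≤ b) →
  1 ≤ l →
  D (as ++ l :: bs) (X ++ M ++ Y) ≤
    D (as ++ [l]) X * (X ++ M ++ Y).sum ^ bs.sum + (X ++ M ++ Y).sum ^ as.sum * D (l :: bs) Y
      + M.sum ^ l * (X ++ M ++ Y).sum ^ (as.sum + bs.sum)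

/-- row DLT. `C(s+t,a) = Σ C(s,i) C(t,a-i)` (`Nat.add_choose_eq`, Vandermonde) contains the terms
`i = 0`, `i = a`, `i = 1` and `i = a-1`; `a * C(t,a) ≤ t * C(t,a-1)`; for positivity the term
`i = min(s, a-1)`. -/
def DLTStmt : Prop := ∀ a s t : ℕ, 2 ≤ a →
  a * (s * t.choose a) ≤ t * dl a s t ∧ a * (t * s.choose a) ≤ s * dl a s t ∧
  (1 ≤ s → 1 ≤ t → a ≤ s + t → 0 < dl a s t)

/-- row MRG. APP for `pre ++ (x :: post)` and `pre ++ (s :: t :: post)`; for `i < ls.length`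
`D (ls.drop i) (x :: post) = C(x, ℓ_i) D (ls.drop (i+1)) post + D (ls.drop i) post`, and twice for
`s :: t :: post`; `C(s+t,l) = C(s,l) + C(t,l) + dl l s t` for `l ≥ 1`. (Checked by computer.) -/
def MRGStmt : Prop := ∀ (ls pre post : List ℕ) (s t : ℕ), (∀ l ∈ ls, 1 ≤ l) →
  D ls (pre ++ (s + t) :: post) + loss ls pre post s t
    = D ls (pre ++ s :: t :: post) + gain ls pre post s t

/-- row DM1. `D as pre ≤ T^as.sum` (POW), `C(s,x) ≤ s * T^(x-1)`, `y * s * C(t,y) ≤ t * dl y s t`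
(DLT), `t ≤ ε T`. (If `T = 0` both sides are 0.) -/
def DM1Stmt : Prop := ∀ (as bs pre post : List ℕ) (x y s t T : ℕ) (δ ε : ℝ),
  (∀ a ∈ as, 1 ≤ a) → 1 ≤ x → 2 ≤ y → pre.sum ≤ T → s ≤ T → (t : ℝ) ≤ ε * T → 0 ≤ δ →
  δ * (T : ℝ) ^ (as.sum + x) ≤ (D (as ++ [x]) pre : ℝ) →
  δ * ((D as pre * D bs post * (s.choose x * t.choose y) : ℕ) : ℝ)
    ≤ ε * ((D (as ++ [x]) pre * D bs post * dl y s t : ℕ) : ℝ)

/-- row DM2 (mirror of DM1). `D bs post ≤ T^bs.sum`, `C(t,y) ≤ t * T^(y-1)`,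
`x * t * C(s,x) ≤ s * dl x s t`, `s ≤ ε T`. -/
def DM2Stmt : Prop := ∀ (as bs pre post : List ℕ) (x y s t T : ℕ) (δ ε : ℝ),
  (∀ b ∈ bs, 1 ≤ b) → 2 ≤ x → 1 ≤ y → post.sum ≤ T → t ≤ T → (s : ℝ) ≤ ε * T → 0 ≤ δ →
  δ * (T : ℝ) ^ (y + bs.sum) ≤ (D (y :: bs) post : ℝ) →
  δ * ((D as pre * D bs post * (s.choose x * t.choose y) : ℕ) : ℝ)
    ≤ ε * ((D as pre * D (y :: bs) post * dl x s t : ℕ) : ℝ)

/-- row DM3. `D (as ++ [a]) pre ≤ D as pre * T^a` (SUB, POW), `D bs post ≤ T^bs.sum`,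
`a * s * C(t,a) ≤ t * dl a s t`, `t ≤ ε T`. -/
def DM3Stmt : Prop := ∀ (as bs pre post : List ℕ) (a s t T : ℕ) (δ ε : ℝ),
  (∀ b ∈ bs, 1 ≤ b) → 2 ≤ a → pre.sum ≤ T → post.sum ≤ T → (t : ℝ) ≤ ε * T → 0 ≤ δ →
  δ * (T : ℝ) ^ (1 + (a + bs.sum)) ≤ (D (1 :: a :: bs) post : ℝ) →
  δ * ((D (as ++ [a]) pre * D bs post * (s.choose 1 * t.choose a) : ℕ) : ℝ)
    ≤ ε * ((D as pre * D (1 :: a :: bs) post * dl a s t : ℕ) : ℝ)

/-- row DM4 (mirror of DM3). `D as pre ≤ T^as.sum`, `D (a :: bs) post ≤ T^a * D bs post`,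
`a * t * C(s,a) ≤ s * dl a s t`, `s ≤ ε T`. -/
def DM4Stmt : Prop := ∀ (as bs pre post : List ℕ) (a s t T : ℕ) (δ ε : ℝ),
  (∀ b ∈ as, 1 ≤ b) → 2 ≤ a → pre.sum ≤ T → post.sum ≤ T → (s : ℝ) ≤ ε * T → 0 ≤ δ →
  δ * (T : ℝ) ^ (as.sum + a + 1) ≤ (D (as ++ [a, 1]) pre : ℝ) →
  δ * ((D as pre * D (a :: bs) post * (s.choose a * t.choose 1) : ℕ) : ℝ)
    ≤ ε * ((D (as ++ [a, 1]) pre * D bs post * dl a s t : ℕ) : ℝ)

/-- row DOM. Every term `i` of `loss` is, times `δ`, at most `ε` times a term of `gain`. Write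
`ls = as ++ x :: y :: bs`, `as = ls.take i`. If `y ≥ 2`: `Dich` at `x`: either
`δ T^(as.sum+x) ≤ D (as ++ [x]) pre`: DM1, term `i+1`; or `δ T^(x+y+bs.sum) ≤ D (x::y::bs) post`:
if `x ≥ 2` then `D (x::y::bs) post ≤ T^x * D (y::bs) post` (SUB, POW), DM2, term `i`; if `x = 1` then
`as = as' ++ [y]` (`Good`), DM3, term `i-1`. If `y = 1`: `bs = x :: bs'`, `x ≥ 2` (`Good`); `Dich` at
`y`: either `δ T^(as.sum+x+1) ≤ D (as++[x,1]) pre`: DM4, term `i+2`; or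
`δ T^(1+bs.sum) ≤ D (1::bs) post`: DM2, term `i`. Sum over `i`. -/
def DOMStmt : Prop := ∀ (ls pre post : List ℕ) (s t T : ℕ) (δ ε : ℝ), Good ls →
  Dich δ T ls pre post → 0 ≤ δ → 0 < T → pre.sum + s + t + post.sum ≤ T →
  (s : ℝ) ≤ ε * T → (t : ℝ) ≤ ε * T →
  δ * (loss ls pre post s t : ℝ) ≤ (ls.length : ℝ) * ε * (gain ls pre post s t : ℝ)

/-- row POS. Let `j` be the largest index with `D (ls.take j) pre > 0`. If `j = ls.length`: the term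
`j-1` of `gain` is positive (last entry `≥ 2`). Otherwise `D (ls.take (j+1)) pre = 0`, so `Dich` at the
entry `j` gives `D (ls.drop j) post > 0`, hence `D (ls.drop (j+1)) post > 0`: the terms `j` and (if
`j ≥ 1`) `j-1` have positive coefficients, and one of the two entries is `≥ 2` (`Good`); `dl > 0` by
DLT. (SUB gives: `D (as ++ bs) xs > 0` implies `D as xs > 0` and `D bs xs > 0`.) -/
def POSStmt : Prop := ∀ (ls pre post : List ℕ) (s t T : ℕ) (δ : ℝ), Good ls →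
  Dich δ T ls pre post → 0 < δ → 0 < T → 1 ≤ s → 1 ≤ t → (∀ l ∈ ls, l ≤ s + t) →
  0 < gain ls pre post s t

/-- row DCH. From PIV with `M = [s, t]`: if both alternatives fail, the right side of PIV is less than
`δ T^N + δ T^N + ε T^N ≤ c T^N`, `N = ls.sum` (`(s+t)^l ≤ (ε T)^l ≤ ε T^l`). -/
def DCHStmt : Prop := ∀ (ls pre post : List ℕ) (s t : ℕ) (c δ ε : ℝ), (∀ l ∈ ls, 1 ≤ l) →
  0 < (pre ++ [s, t] ++ post).sum → 0 ≤ ε → ε ≤ 1 → 2 * δ + ε ≤ c →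
  ((s + t : ℕ) : ℝ) ≤ ε * ((pre ++ [s, t] ++ post).sum : ℝ) →
  c * ((pre ++ [s, t] ++ post).sum : ℝ) ^ ls.sum ≤ (D ls (pre ++ [s, t] ++ post) : ℝ) →
  Dich δ (pre ++ [s, t] ++ post).sum ls pre post

/-- row LOW. `q = n / ls.sum`; take `ns` of the same length as `ls` with entries `≥ ℓ_j * q` (all of
them equal to it except the first, which takes the rest);
`D ls ns ≥ ∏ C(n_j, ℓ_j) ≥ ∏ q^ℓ_j / ℓ_j!` and `q ≥ n / (2 ls.sum)`. -/
def LOWStmt : Prop := ∀ ls : List ℕ, ls ≠ [] → (∀ l ∈ ls, 1 ≤ l) → ∃ c : ℝ, 0 < c ∧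
  ∀ n : ℕ, ls.sum ≤ n → ∃ ns : List ℕ, Pos ns ∧ ns.sum = n ∧ c * (n : ℝ) ^ ls.sum ≤ (D ls ns : ℝ)

/-- row STP. `c` from LOW, `δ = c/4`, `ε = min 1 (min (c/4) (δ / (2 * ls.length)))`. Suppose
`ns = pre ++ ys ++ post` is best, `ys.length = ls.sum ≥ 2` and `ys.sum ≤ ε ns.sum`. Merge the entries
of `ys` one after the other: by induction on `j`, the list
`pre ++ (sum of the first j entries of ys) :: (rest of ys) ++ post` is best too: for the step put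
`s` = that sum, `t` = the next entry; `c T^N ≤ D` (best and LOW), so `Dich` by DCH, then DOM gives
`loss ≤ gain / 2`, and MRG gives `D new ≥ D old + gain/2`; as the old list is best, `gain = 0` and the
new list is best. At the last step `s + t = ys.sum ≥ ys.length = ls.sum ≥` every entry of `ls`, so
`gain > 0` by POS: contradiction. -/
def STPStmt : Prop := ∀ ls : List ℕ, Good ls → ∃ ε : ℝ, 0 < ε ∧ ∀ ns : List ℕ, OptL ls ns →
  ls.sum ≤ ns.sum → ∀ pre ys post : List ℕ, ns = pre ++ ys ++ post → ys.length = ls.sum →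
  ε * (ns.sum : ℝ) < (ys.sum : ℝ)

/-- row LEN. Induction: the first `h * B` entries have sum `> B ε ns.sum` (`B ≥ 1`);
`B = ⌈1/ε⌉₊ + 1`. -/
def LENStmt : Prop := ∀ (ns : List ℕ) (h : ℕ) (ε : ℝ), 1 ≤ h → 0 < ε →
  (∀ pre ys post : List ℕ, ns = pre ++ ys ++ post → ys.length = h →
    ε * (ns.sum : ℝ) < (ys.sum : ℝ)) → ns.length ≤ h * (⌈1 / ε⌉₊ + 1)

/-- row FN1. STP and LEN with `h = ls.sum`. -/
def FN1Stmt : Prop := ∀ ls : List ℕ, Good ls → ∃ K : ℕ, ∀ ns : List ℕ, OptL ls ns →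
  ls.sum ≤ ns.sum → ns.length ≤ K

/-! ## Part B: permutations -/

/-- row LBO. `e ↦ f` with `f (e a) = some (b a)`, `f = none` outside the range of `e`. Conversely a
valid `f` has `s` labelled elements; let `e` be their increasing enumeration; `a ↦` label of `e a` is
monotone with the same fibre sizes as the monotone map `b`, so it is `b`. (For `a < a'` with
`b a = b a'`: `σ a' < σ a`; with `b a < b a'`: `σ a < σ a'`.) -/
def LBOStmt : Prop := ∀ (s n k : ℕ) (σ : Equiv.Perm (Fin s)) (b : Fin s → Fin k)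
  (π : Equiv.Perm (Fin n)), IsLayering σ b →
  occ σ π = Nat.card {f : Fin n → Option (Fin k) //
    Lab (layerSize b) (fun x : Fin n => (x : ℕ)) (fun x : Fin n => (π x : ℕ)) f}

/-- row CNT. For a layered `π` with layers `c`, a valid `f` is the same as a strictly increasing
`φ : Fin k → Fin h` and for every `j` a subset of the layer `φ j` with `ℓ j ≥ 1` elements. -/
def CNTStmt : Prop := ∀ (n k h : ℕ) (ℓ : Fin k → ℕ) (π : Equiv.Perm (Fin n)) (c : Fin n → Fin h),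
  IsLayering π c → (∀ j, 1 ≤ ℓ j) →
  Nat.card {f : Fin n → Option (Fin k) // Lab ℓ (fun x : Fin n => (x : ℕ)) (fun x : Fin n => (π x : ℕ)) f} =
    ∑ φ ∈ (univ : Finset (Fin k → Fin h)).filter (fun φ => ∀ i j, i < j → φ i < φ j),
      ∏ j, (layerSize c (φ j)).choose (ℓ j)

/-- row DSM. Induction on `h` and `k`: `φ 0 = 0` (then `φ (i+1) = φ' i + 1`) or all `φ i ≥ 1`. -/
def DSMStmt : Prop := ∀ (k h : ℕ) (ℓ : Fin k → ℕ) (x : Fin h → ℕ),
  D (List.ofFn ℓ) (List.ofFn x) =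
    ∑ φ ∈ (univ : Finset (Fin k → Fin h)).filter (fun φ => ∀ i j, i < j → φ i < φ j),
      ∏ j, (x (φ j)).choose (ℓ j)

/-- row LSZ. -/
def LSZStmt : Prop := ∀ (n k : ℕ) (b : Fin n → Fin k), Function.Surjective b →
  (∀ j, 1 ≤ layerSize b j) ∧ (List.ofFn (layerSize b)).sum = n

/-- row COU. LBO, CNT, DSM, LSZ. -/
def COUStmt : Prop := ∀ (s n k h : ℕ) (σ : Equiv.Perm (Fin s)) (b : Fin s → Fin k)
  (π : Equiv.Perm (Fin n)) (c : Fin n → Fin h), IsLayering σ b → IsLayering π c →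
  occ σ π = D (List.ofFn (layerSize b)) (List.ofFn (layerSize c))

/-- row EXI. `b` = block index (e.g. by `Composition` or by induction on `ns`); `π` from sorting: for
an injective `g : Fin n → ℕ` (here `g i = b i * (n+1) + (n - i)`) there is a permutation `π` with
`π i < π j ↔ g i < g j` (`Tuple.sort`). -/
def EXIStmt : Prop := ∀ ns : List ℕ, Pos ns →
  ∃ (π : Equiv.Perm (Fin ns.sum)) (b : Fin ns.sum → Fin ns.length),
    IsLayering π b ∧ List.ofFn (layerSize b) = ns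

/-- row RLB. `e` = rank of `p`, `π ∘ e` = rank of `q` (`Tuple.sort`). -/
def RLBStmt : Prop := ∀ (n : ℕ) (p q : Fin n → ℕ), Function.Injective p → Function.Injective q →
  ∃ (e : Fin n ≃ Fin n) (π : Equiv.Perm (Fin n)),
    (∀ x y, p x < p y ↔ e x < e y) ∧ (∀ x y, q x < q y ↔ π (e x) < π (e y))

/-- row RLC. `f ↦ f ∘ e.symm`. -/
def RLCStmt : Prop := ∀ (n k : ℕ) (ℓ : Fin k → ℕ) (p q : Fin n → ℕ) (e : Fin n ≃ Fin n)
  (π : Equiv.Perm (Fin n)), (∀ x y, p x < p y ↔ e x < e y) →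
  (∀ x y, q x < q y ↔ π (e x) < π (e y)) →
  Nat.card {f : Fin n → Option (Fin k) // Lab ℓ p q f} =
    Nat.card {f : Fin n → Option (Fin k) // Lab ℓ (fun x : Fin n => (x : ℕ)) (fun x : Fin n => (π x : ℕ)) f}

/-- row ZYK (symmetrisation). Let `c0`, `cu`, `cv`, `cuv` count the valid `f` of `(p, q)` with neither
`u` nor `v` labelled, only `u`, only `v`, both. In `(clp p u v, clq q u v)` (`u` is a clone of `v`):
the valid `f` with `u` unlabelled are the same (`c0 + cv`); those with only `u` labelled correspond to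
those of `(p,q)` with only `v` labelled (exchange the labels of `u` and `v`): `cv`; those of `(p,q)` with
both labelled stay valid (`u`, `v` inverted, so the labels of `u` and `v` are equal): `≥ cuv`. Total
`≥ c0 + 2 cv + cuv`; the same with `u`, `v` exchanged. -/
def ZYKStmt : Prop := ∀ (n k : ℕ) (ℓ : Fin k → ℕ) (p q : Fin n → ℕ) (u v : Fin n),
  Function.Injective p → Function.Injective q → u ≠ v → Inv p q u v →
  2 * Nat.card {f : Fin n → Option (Fin k) // Lab ℓ p q f} ≤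
    Nat.card {f : Fin n → Option (Fin k) // Lab ℓ (clp p u v) (clq q u v) f} +
    Nat.card {f : Fin n → Option (Fin k) // Lab ℓ (clp p v u) (clq q v u) f}

/-- row TRL. If the inversion relation is transitive then `π` is layered: `b i` = number of `t < i`
with `π t < π (t+1)` (ascents). Within a run `π` decreases. If there is an ascent `t` with
`i ≤ t`, `t + 1 ≤ j` and `π j < π i`, then `t` is equal to or inverted with `i` (otherwise
`π t > π i > π j`, so `t`, `j` and `i`, `j` are inverted, hence `t`, `i` are: contradiction), in the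
same way `t + 1` is equal to or inverted with `j`; so `t`, `t+1` are inverted: contradiction. -/
def TRLStmt : Prop := ∀ (n : ℕ) (π : Equiv.Perm (Fin n)),
  (∀ x y z : Fin n, Inv (fun x : Fin n => (x : ℕ)) (fun x : Fin n => (π x : ℕ)) x y →
    Inv (fun x : Fin n => (x : ℕ)) (fun x : Fin n => (π x : ℕ)) y z → x ≠ z →
    Inv (fun x : Fin n => (x : ℕ)) (fun x : Fin n => (π x : ℕ)) x z) → ∃ k, HasLayers π k

/-- row SYF (for layered `σ` and `n ≥ |σ|` some layered permutation is `σ`-optimal). Let `μ` be the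
maximum over the injective pairs `(p, q)` of the number of valid `f` (by RLB, RLC, LBO the same as the
maximum of `occ σ`). Put `N[x]` = `x` and the elements inverted with `x`. Among the pairs
`(p, q)` with the number `μ` take one with the greatest number of `(x, y)`, `x ≠ y` inverted,
`N[x] = N[y]`. Claim: all inverted `u, v` have `N[u] = N[v]` (so the inversion relation is
transitive; then RLB and TRL). Otherwise let `v` be the one with the larger class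
`{x : N[x] = N[v]}`, make `u` a clone of `v` (`clp p u v`, `clq q u v`): by ZYK this pair has the
number `μ` too; the new neighbourhoods are `N'[u] = N'[v] = N[v]` and
`N'[x] = (N[x] \ {u}) ∪ ({u} if v ∈ N[x])`, so the number grows: contradiction. -/
def SYFStmt : Prop := ∀ (s n k : ℕ) (σ : Equiv.Perm (Fin s)) (b : Fin s → Fin k), IsLayering σ b →
  s ≤ n → ∃ π : Equiv.Perm (Fin n), Optimal σ π ∧ ∃ j, HasLayers π j

/-- row CV1. -/
def CV1Stmt : Prop := ∀ (k : ℕ) (ℓ : Fin k → ℕ), 0 < k → (∀ j, 1 ≤ ℓ j) →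
  (∀ j : Fin k, ((j : ℕ) = 0 ∨ (j : ℕ) + 1 = k) → 2 ≤ ℓ j) →
  (∀ i j l : Fin k, (i : ℕ) + 1 = j → (j : ℕ) + 1 = l → ℓ j = 1 → ℓ i = ℓ l ∧ 2 ≤ ℓ i) →
  Good (List.ofFn ℓ)

/-! ## Part C: lists of reals -/

/-- row QNN. -/
def QNNStmt : Prop := ∀ (ls : List ℕ) (xs : List ℝ), NN xs → 0 ≤ Q ls xs ∧
  ∀ x : ℝ, 0 ≤ x → Q ls xs ≤ Q ls (x :: xs)

/-- row QHO. -/
def QHOStmt : Prop := ∀ (c : ℝ) (ls : List ℕ) (xs : List ℝ),
  Q ls (xs.map (fun x => c * x)) = c ^ ls.sum * Q ls xs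

/-- row QSB. As SUB. -/
def QSBStmt : Prop := ∀ (as bs : List ℕ) (xs : List ℝ), NN xs →
  Q (as ++ bs) xs ≤ Q as xs * Q bs xs

/-- row QPW. As POW. -/
def QPWStmt : Prop := ∀ (ls : List ℕ) (xs : List ℝ), (∀ l ∈ ls, 1 ≤ l) → NN xs →
  Q ls xs ≤ xs.sum ^ ls.sum

/-- row QZR (zero entries do not matter). -/
def QZRStmt : Prop := ∀ (ls : List ℕ) (xs ys : List ℝ), (∀ l ∈ ls, 1 ≤ l) →
  Q ls (xs ++ 0 :: ys) = Q ls (xs ++ ys)

/-- row AMG. `2 b y^(b-1) z ≤ (y+z)^b` for `b ≥ 2`, then `1/(2b) ≤ 3/(4(b+1))`. For the first, e.g.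
induction on `b` (step from `b` to `b+1`: if `y ≤ b z` multiply by `y + z`; if `y ≥ (b+1) z` use the
first two terms of the binomial formula, otherwise the first three), or Bernoulli. -/
def AMGStmt : Prop := ∀ (b : ℕ) (y z : ℝ), 2 ≤ b → 0 ≤ y → 0 ≤ z →
  4 * ((b : ℝ) + 1) * (y ^ (b - 1) * z) ≤ 3 * (y + z) ^ b

/-- row W12. Prove by induction on `ys`, for all `z ≥ 0`:
`4 (b+1) (z * Q [b] ys + Q [1, b] ys) ≤ 3 (z + ys.sum)^b * ys.sum` (step: `ys = y :: ys'`; the new term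
is `z * y^b = y * (y^(b-1) z)`, AMG; then the induction hypothesis with `z + y`). -/
def W12Stmt : Prop := ∀ (b : ℕ) (ys : List ℝ), 2 ≤ b → NN ys →
  4 * ((b : ℝ) + 1) * Q [1, b] ys ≤ 3 * ys.sum ^ (b + 1)

/-- row W11. -/
def W11Stmt : Prop := ∀ ys : List ℝ, NN ys → 2 * Q [1, 1] ys ≤ ys.sum ^ 2

/-- row BIN. `C(w+u, u) X^w Y^u ≤ (X+Y)^(w+u)` and `u C(w+u,u) = (w+u) C(w+u-1,u-1) ≥ w+u`. -/
def BINStmt : Prop := ∀ (w u : ℕ) (X Y : ℝ), 1 ≤ u → 0 ≤ X → 0 ≤ Y →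
  ((w : ℝ) + u) * (X ^ w * Y ^ u) ≤ (u : ℝ) * (X + Y) ^ (w + u)

/-- row ALG. For `b ≥ 2`: W12 and BIN with `u = b+1`, `w = a-1-b`. For `b = 1`: W11 and
`C(a,2) X^(a-2) Y^2 ≤ (X+Y)^a`, `a ≥ 3`. -/
def ALGStmt : Prop := ∀ (a b : ℕ) (X : ℝ) (ys : List ℝ), 3 ≤ a → 1 ≤ b → b + 1 ≤ a → 0 ≤ X →
  NN ys → (a : ℝ) * X ^ (a - 1 - b) * Q [1, b] ys ≤ (3 / 4) * (X + ys.sum) ^ a

/-- row NUM. Put `s = 1 - x`, `r = x / s`. If `r ≥ 1` the last hypothesis fails. So `s > 1/2`. From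
`N ≤ 2a`: `2 x ≥ 1 - s^N`, i.e. `2 s - 1 ≤ s^N`, i.e. (divide by `1 - s`) `Σ_{i<N} s^i ≤ 2`; as
`N ≥ 5` this gives `s ≤ 0.52` (`Σ_{i<5} s^i ≤ 2`), so `s^N ≤ 0.52^(a+2)`. From `r^a ≤ 3/4` and
`1 - r^a ≤ a (1 - r)`: `1 - r ≥ 1/(4a)`, so `2 s - 1 = s (1 - r) ≥ 1/(8a)`. Hence
`1 ≤ 8 a * 0.52^(a+2)`, false for `a ≥ 3` (`a = 3`: `0.9125`; then it decreases). -/
def NUMStmt : Prop := ∀ (a N : ℕ) (x : ℝ), 3 ≤ a → a + 2 ≤ N → N ≤ 2 * a → 0 < x → x < 1 →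
  (a : ℝ) * (1 - (1 - x) ^ N) ≤ (N : ℝ) * x → ¬ (x ^ a ≤ (3 / 4) * (1 - x) ^ a)

/-- row IMH. Scale `ys` to sum 1 (QHO); if `ys.sum = 0` all entries are 0. -/
def IMHStmt : Prop := ∀ (ls : List ℕ) (xs ys : List ℝ), ls ≠ [] → (∀ l ∈ ls, 1 ≤ l) →
  IsMax ls xs → NN ys → Q ls ys ≤ Q ls xs * ys.sum ^ ls.sum

/-- row EX1. Compare with `x0 :: e :: (x1 - e) :: tl`, `0 < e < x1`: writing
`ls = a :: 1 :: b :: bs`, `V = Q (1::b::bs) tl`, `T1 = Q (b::bs) tl`, `U = Q bs tl`, `R = Q ls tl`: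
`Q ls (x0::x1::tl) = x0^a (x1 T1 + V) + x1^a V + R`, and `Q ls` of the new list is at least
`x0^a (e ((x1-e)^b U + T1) + (x1-e) T1 + V) + (x1-e)^a V + R`. So
`x0^a (x1-e)^b U * e ≤ (x1^a - (x1-e)^a) V ≤ a x1^(a-1) e V`; divide by `e` and let `e → 0`. -/
def EX1Stmt : Prop := ∀ (a b : ℕ) (bs : List ℕ) (x0 x1 : ℝ) (tl : List ℝ), 1 ≤ a → 1 ≤ b →
  (∀ l ∈ bs, 1 ≤ l) → IsMax (a :: 1 :: b :: bs) (x0 :: x1 :: tl) → 0 < x1 →
  x0 ^ a * x1 ^ b * Q bs tl ≤ (a : ℝ) * x1 ^ (a - 1) * Q (1 :: b :: bs) tl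

/-- row EX2. Compare with `(x0 + e) :: tl`: `(x0+e)^a M + R ≤ P (1+e)^N` (IMH), `P = x0^a M + R`,
`M = Q ls' tl`, `R = Q ls tl`, `N = ls.sum`; `(x0+e)^a ≥ x0^a + a x0^(a-1) e`; divide by `e`, let
`e → 0`, multiply by `x0`. -/
def EX2Stmt : Prop := ∀ (a : ℕ) (ls : List ℕ) (x0 : ℝ) (tl : List ℝ), 1 ≤ a →
  (∀ l ∈ ls, 1 ≤ l) → IsMax (a :: ls) (x0 :: tl) →
  (a : ℝ) * (x0 ^ a * Q ls tl) ≤ ((a + ls.sum : ℕ) : ℝ) * Q (a :: ls) (x0 :: tl) * x0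

/-- row COR (no finite maximiser). Let `xs` be one; drop its zero entries (QZR), so all entries are
positive. `P = Q ls xs > 0` (compare with `ls.length` equal entries), so `xs = x0 :: x1 :: tl` (at least
3 entries). `U = Q bs tl`, `V = Q (1::b::bs) tl ≤ Q [1,b] tl * U` (QSB). If `U = 0` then `V = 0` and
`Q (b::bs) tl = 0`, so `P = Q ls (x1::tl) ≤ P (1-x0)^N < P` (IMH). So `U > 0` and EX1 gives
`x0^a ≤ a x1^(a-1-b) Q [1,b] tl ≤ (3/4) (x1 + tl.sum)^a = (3/4) (1-x0)^a` (ALG; `b + 1 ≤ a` from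
`a + 1 + b + bs.sum ≤ 2a`). EX2 with `R ≤ P (1-x0)^N`: `N x0 ≥ a (1 - (1-x0)^N)`. Contradiction to NUM
(`0 < x0 < 1`). -/
def CORStmt : Prop := ∀ (a b : ℕ) (bs : List ℕ), 3 ≤ a → 1 ≤ b → (∀ l ∈ bs, 1 ≤ l) →
  a + 1 + b + bs.sum ≤ 2 * a → ∀ xs : List ℝ, ¬ IsMax (a :: 1 :: b :: bs) xs

/-- row CPT. `Q ls (List.ofFn x)` is continuous in `x : Fin m → ℝ`; maximum on the compact simplex
(`isCompact_stdSimplex`), `q` = that maximum; shorter lists: append zeros (QZR). As the maximiser is not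
`IsMax`, some `ys` has a larger value. (`m = 0`: no list; take `q = -1`.) -/
def CPTStmt : Prop := ∀ ls : List ℕ, (∀ l ∈ ls, 1 ≤ l) → (∀ xs : List ℝ, ¬ IsMax ls xs) →
  ∀ m : ℕ, ∃ q : ℝ, (∀ xs : List ℝ, xs.length ≤ m → NN xs → xs.sum = 1 → Q ls xs ≤ q) ∧
    ∃ ys : List ℝ, NN ys ∧ ys.sum = 1 ∧ q < Q ls ys

/-- row DQU. `C(x,l) * l! ≤ x^l`. -/
def DQUStmt : Prop := ∀ ls ns : List ℕ,
  (((ls.map Nat.factorial).prod * D ls ns : ℕ) : ℝ) ≤ Q ls (ns.map (fun n : ℕ => (n : ℝ)))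

/-- row DQL. `n_i = ⌊y_i n⌋`, drop the zeros, add the rest `n - Σ n_i` as a new first entry if it is not
0 (this only increases `D`); `C(x,l) * l! ≥ (x+1-l)^l`, so
`(∏ ℓ_j!) D ls ns ≥ Q ls (max 0 (y_i n - L))`, `L = ls.sum + 1`, and
`Q ls (max 0 (y_i - L/n)) → Q ls ys` (QHO, continuity). -/
def DQLStmt : Prop := ∀ (ls : List ℕ) (ys : List ℝ), (∀ l ∈ ls, 1 ≤ l) → NN ys → ys.sum = 1 →
  ∀ η : ℝ, 0 < η → ∃ n0 : ℕ, ∀ n ≥ n0, ∃ ns : List ℕ, Pos ns ∧ ns.sum = n ∧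
    (Q ls ys - η) * (n : ℝ) ^ ls.sum ≤ (((ls.map Nat.factorial).prod * D ls ns : ℕ) : ℝ)

/-- row FN2. COR, CPT, DQU, DQL, QHO: for `ns.length ≤ m`, `n = ns.sum`:
`(∏ ℓ_j!) D ls ns ≤ n^N Q ls (ns/n) ≤ n^N q`, and `q < Q ls ys`. -/
def FN2Stmt : Prop := ∀ (a b : ℕ) (bs : List ℕ), 3 ≤ a → 1 ≤ b → (∀ l ∈ bs, 1 ≤ l) →
  a + 1 + b + bs.sum ≤ 2 * a → ∀ m : ℕ, ∃ n0 : ℕ, ∀ ns : List ℕ, n0 ≤ ns.sum → ns.length ≤ m →
  ∃ ns' : List ℕ, Pos ns' ∧ ns'.sum = ns.sum ∧ D (a :: 1 :: b :: bs) ns < D (a :: 1 :: b :: bs) ns'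

end Pool.LAY
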