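import Mathlib
import Pool.Agent.H97.LAY.Defs
import Pool.Agent.H97.LAY.Stmts

set_option autoImplicit false

namespace Pool.LAY

theorem DQU : DQUStmt := by
  intro ls ns
  induction ns generalizing ls with
  | nil =>
    cases ls with
    | nil => simp [D, Q]
    | cons l ls => simp [D, Q]
  | cons n ns ih =>
    cases ls with
    | nil => simp [D, Q]
    | cons l ls =>
      have h1 := ih ls
      have h2 := ih (l :: ls)
      have h3 : ((l.factorial * n.choose l : ℕ) : ℝ) ≤ (n:ℝ) ^ l := by
        have : l.factorial * n.choose l ≤ n ^ l := by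
          rw [← Nat.descFactorial_eq_factorial_mul_choose]
          exact Nat.descFactorial_le_pow n l
        exact_mod_cast this
      have h4 : (0:ℝ) ≤ (((ls.map Nat.factorial).prod * D ls ns : ℕ) : ℝ) := Nat.cast_nonneg _
      simp only [List.map_cons, D, Q, List.prod_cons] at h1 h2 ⊢
      push_cast at h1 h2 h3 h4 ⊢
      have h5 := mul_le_mul h3 h1 h4 (by positivity)
      nlinarith
end Pool.LAY
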