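import Pool.Agent.H97.LAY.Stmts

/-!
# Row DSM of the board `lay`: the list recursion is a sum over strictly increasing maps
-/

set_option autoImplicit false

namespace Pool.LAY

open Finset

@[simp] theorem D_nil (xs : List ℕ) : D [] xs = 1 := by
  cases xs <;> rfl

@[simp] theorem D_cons_nil (l : ℕ) (ls : List ℕ) : D (l :: ls) [] = 0 := rfl

theorem D_cons_cons (l : ℕ) (ls : List ℕ) (x : ℕ) (xs : List ℕ) :
    D (l :: ls) (x :: xs) = D (l :: ls) xs + x.choose l * D ls xs := by
  rw [Nat.add_comm]
  rfl

/-- strictly monotone maps `Fin k → Fin r` -/
def SM (k r : ℕ) : Finset (Fin k → Fin r) := by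
  classical
  exact univ.filter (fun t => StrictMono t)

theorem mem_SM {k r : ℕ} (t : Fin k → Fin r) : t ∈ SM k r ↔ StrictMono t := by
  classical
  simp [SM]

theorem SM_sum_zero {r : ℕ} (f : (Fin 0 → Fin r) → ℕ) (hf : ∀ t, f t = 1) :
    ∑ t ∈ SM 0 r, f t = 1 := by
  classical
  have : SM 0 r = {(fun i => Fin.elim0 i)} := by
    ext t
    rw [mem_SM, Finset.mem_singleton]
    constructor
    · intro _
      funext i
      exact Fin.elim0 i
    · intro _ i
      exact Fin.elim0 i
  rw [this, Finset.sum_singleton, hf]

theorem SM_succ_zero (k : ℕ) : SM (k + 1) 0 = ∅ := by
  classical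
  ext t
  exact Fin.elim0 (t 0)

theorem D_eq_sum : ∀ (r k : ℕ) (l : Fin k → ℕ) (x : Fin r → ℕ),
    ∑ t ∈ SM k r, ∏ j, (x (t j)).choose (l j) = D (List.ofFn l) (List.ofFn x) := by
  classical
  intro r
  induction r with
  | zero =>
    intro k l x
    cases k with
    | zero =>
      rw [SM_sum_zero]
      · simp
      · intro t
        simp
    | succ k =>
      rw [SM_succ_zero]
      simp [List.ofFn_succ]
  | succ r ih =>
    intro k l x
    cases k with
    | zero =>
      rw [SM_sum_zero]
      · simp
      · intro t
        simp
    | succ k =>
      rw [List.ofFn_succ, List.ofFn_succ, D_cons_cons]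
      have e1 : SM (k + 1) (r + 1) =
          (SM (k + 1) r).image (fun t => fun i => (t i).succ) ∪
          (SM k r).image (fun t => Fin.cons 0 (fun i => (t i).succ)) := by
        ext t
        rw [mem_SM, Finset.mem_union, Finset.mem_image, Finset.mem_image]
        constructor
        · intro ht
          by_cases h0 : t 0 = 0
          · right
            have hpos : ∀ i : Fin k, t i.succ ≠ 0 := by
              intro i hi
              have : t 0 < t i.succ := ht (Fin.succ_pos i)
              rw [h0, hi] at this
              exact lt_irrefl _ this
            refine ⟨fun i => (t i.succ).pred (hpos i), ?_, ?_⟩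
            · rw [mem_SM]
              intro i j hij
              rw [Fin.pred_lt_pred_iff]
              exact ht (Fin.succ_lt_succ_iff.mpr hij)
            · funext i
              refine Fin.cases ?_ (fun i => ?_) i
              · simp [h0]
              · simp
          · left
            have hpos : ∀ i : Fin (k + 1), t i ≠ 0 := by
              intro i hi
              have h1 : t 0 ≤ t i := ht.monotone (Fin.zero_le i)
              rw [hi] at h1
              exact h0 (le_antisymm h1 (Fin.zero_le _))
            refine ⟨fun i => (t i).pred (hpos i), ?_, ?_⟩
            · rw [mem_SM]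
              intro i j hij
              rw [Fin.pred_lt_pred_iff]
              exact ht hij
            · funext i
              simp
        · rintro (⟨t', ht', rfl⟩ | ⟨t', ht', rfl⟩)
          · rw [mem_SM] at ht'
            intro i j hij
            exact Fin.succ_lt_succ_iff.mpr (ht' hij)
          · rw [mem_SM] at ht'
            intro i j
            refine Fin.cases ?_ (fun i => ?_) i
            · refine Fin.cases ?_ (fun j => ?_) j
              · intro h
                exact absurd h (lt_irrefl _)
              · intro _
                simp
            · refine Fin.cases ?_ (fun j => ?_) j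
              · intro h
                exact absurd h (not_lt.mpr (Fin.zero_le _))
              · intro h
                simp only [Fin.cons_succ]
                exact Fin.succ_lt_succ_iff.mpr (ht' (Fin.succ_lt_succ_iff.mp h))
      have hdisj : Disjoint ((SM (k + 1) r).image (fun t => fun i => (t i).succ))
          ((SM k r).image (fun t => (Fin.cons 0 (fun i => (t i).succ) : Fin (k + 1) → Fin (r + 1)))) := by
        rw [Finset.disjoint_left]
        intro t h1 h2
        rw [Finset.mem_image] at h1 h2
        obtain ⟨t1, _, rfl⟩ := h1
        obtain ⟨t2, _, h2⟩ := h2
        have := congrFun h2 0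
        simp only [Fin.cons_zero] at this
        exact (Fin.succ_ne_zero _) this.symm
      rw [e1, Finset.sum_union hdisj, Finset.sum_image, Finset.sum_image]
      · congr 1
        · have h5 := ih (k + 1) l (fun i => x i.succ)
          rw [List.ofFn_succ] at h5
          exact h5
        · rw [← ih k (fun i => l i.succ) (fun i => x i.succ), Finset.mul_sum]
          refine Finset.sum_congr rfl (fun t _ => ?_)
          rw [Fin.prod_univ_succ]
          simp
      · intro t1 _ t2 _ h
        funext i
        have := congrFun h i.succ
        simp only [Fin.cons_succ] at this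
        exact Fin.succ_injective _ this
      · intro t1 _ t2 _ h
        funext i
        have := congrFun h i
        simp only at this
        exact Fin.succ_injective _ this

theorem DSM : DSMStmt := by
  classical
  intro k h ℓ x
  rw [← D_eq_sum h k ℓ x]
  refine Finset.sum_congr ?_ (fun _ _ => rfl)
  ext t
  rw [mem_SM, Finset.mem_filter]
  constructor
  · intro ht
    exact ⟨Finset.mem_univ _, fun i j hij => ht hij⟩
  · intro ht i j hij
    exact ht.2 i j hij

end Pool.LAY
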