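import Pool.Agent.H97.LAY.Stmts5

set_option autoImplicit false

namespace Pool.LAY

open Finset

theorem EPS (h1 : UNUStmt) (h2 : EXGStmt) (h3 : NUAStmt) : EPSStmt := by
  intro cs rs pre tl v A hcs hls hA hA4 hAN hlen hmax hpre hv hP
  set P : ℝ := Q (cs ++ rs) (pre ++ v :: tl) with hPdef
  set N : ℕ := (cs ++ rs).sum with hN
  have hU := h1 cs rs pre (v :: tl) hcs hls hlen hmax
  rw [← hPdef, ← hN] at hU
  refine hU.trans ?_
  have key : ∀ i ∈ range pre.length, (1 - pre.getD i 0) ^ N * P ≤ 1 / 2 ^ (A + 1) * P := by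
    intro i hi
    rw [mem_range] at hi
    have hget : pre.getD i 0 = pre[i] := List.getD_eq_getElem _ _ hi
    rw [hget]
    have hdec : pre = pre.take i ++ pre[i] :: pre.drop (i + 1) := by
      rw [List.cons_getElem_drop_succ, List.take_append_drop]
    have hdec2 : pre ++ v :: tl = pre.take i ++ pre[i] :: (pre.drop (i + 1) ++ v :: tl) := by
      conv_lhs => rw [hdec]
      rw [List.append_assoc, List.cons_append]
    have hx0 : 0 < pre[i] := hpre _ (List.getElem_mem hi)
    have hx1 : pre[i] < 1 := by
      have hs := hmax.2.1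
      rw [hdec2, List.sum_append, List.sum_cons, List.sum_append, List.sum_cons] at hs
      have hn1 : 0 ≤ (pre.take i).sum := List.sum_nonneg fun y hy =>
        (hpre y (List.mem_of_mem_take hy)).le
      have hn2 : 0 ≤ (pre.drop (i + 1)).sum := List.sum_nonneg fun y hy =>
        (hpre y (List.mem_of_mem_drop hy)).le
      have hn3 : 0 ≤ tl.sum := List.sum_nonneg fun y hy =>
        hmax.1 y (by simp [hy])
      linarith
    have hg := h2 cs rs (pre.take i) (pre.drop (i + 1) ++ v :: tl) pre[i] A hls hA
      (by rw [List.length_take]; omega) (by rw [← hdec2]; exact hmax)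
      (by rw [← hdec2]; exact hP) hx0
    have := h3 A N pre[i] hA4 hAN hx0 hx1 hg
    exact mul_le_mul_of_nonneg_right this hP.le
  refine (sum_le_sum key).trans (le_of_eq ?_)
  rw [sum_const, card_range, hlen, nsmul_eq_mul]
  ring

end Pool.LAY
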