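import Pool.Agent.H97.LAY.Stmts

set_option autoImplicit false

namespace Pool.LAY

open Finset

theorem EX2_pow_sub_pow_le_aux (x f : ℝ) (a : ℕ) (hf : 0 ≤ f) (hfx : f ≤ x) :
    x ^ a - f ^ a ≤ (a : ℝ) * x ^ (a - 1) * (x - f) := by
  rw [← geom_sum₂_mul]
  apply mul_le_mul_of_nonneg_right _ (by linarith)
  calc ∑ i ∈ range a, x ^ i * f ^ (a - 1 - i)
      ≤ ∑ i ∈ range a, x ^ (a - 1) := by
        apply Finset.sum_le_sum
        intro i hi
        have hi' : i < a := Finset.mem_range.mp hi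
        calc x ^ i * f ^ (a - 1 - i) ≤ x ^ i * x ^ (a - 1 - i) := by
              apply mul_le_mul_of_nonneg_left _ (pow_nonneg (by linarith) _)
              exact pow_le_pow_left₀ hf hfx _
          _ = x ^ (a - 1) := by
              rw [← pow_add]; congr 1; omega
    _ = (a : ℝ) * x ^ (a - 1) := by simp

theorem EX2_le_pow_sub_pow_aux (x f : ℝ) (a : ℕ) (hf : 0 ≤ f) (hfx : f ≤ x) :
    (a : ℝ) * f ^ (a - 1) * (x - f) ≤ x ^ a - f ^ a := by
  rw [← geom_sum₂_mul]
  apply mul_le_mul_of_nonneg_right _ (by linarith)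
  calc (a : ℝ) * f ^ (a - 1) = ∑ i ∈ range a, f ^ (a - 1) := by simp
    _ ≤ ∑ i ∈ range a, x ^ i * f ^ (a - 1 - i) := by
        apply Finset.sum_le_sum
        intro i hi
        have hi' : i < a := Finset.mem_range.mp hi
        calc f ^ (a - 1) = f ^ i * f ^ (a - 1 - i) := by
              rw [← pow_add]; congr 1; omega
          _ ≤ x ^ i * f ^ (a - 1 - i) := by
              apply mul_le_mul_of_nonneg_right _ (pow_nonneg hf _)
              exact pow_le_pow_left₀ hf hfx _

theorem EX2 (h0 : IMHStmt) (h1 : QNNStmt) : EX2Stmt := by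
  intro a ls x0 tl ha hls hmax
  have hmax' := hmax
  obtain ⟨hnn, hsum, hbest⟩ := hmax
  have hx0 : 0 ≤ x0 := hnn x0 (by simp)
  have htl : NN tl := fun y hy => hnn y (by simp [hy])
  set N := a + ls.sum with hN
  set P := Q (a :: ls) (x0 :: tl) with hP
  have hPnn : 0 ≤ P := (h1 _ _ hnn).1
  set M := Q ls tl with hM
  have hMnn : 0 ≤ M := (h1 _ _ htl).1
  set R := Q (a :: ls) tl with hR
  have hPeq : P = x0 ^ a * M + R := by rw [hP, Q]
  have hpos : ∀ l ∈ a :: ls, 1 ≤ l := by
    intro l hl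
    simp only [List.mem_cons] at hl
    rcases hl with rfl | hl
    · exact ha
    · exact hls l hl
  have key : ∀ e : ℝ, 0 < e →
      (a : ℝ) * x0 ^ (a - 1) * M ≤ (N : ℝ) * (1 + e) ^ (N - 1) * P := by
    intro e he
    have hnn' : NN ((x0 + e) :: tl) := by
      intro y hy
      simp only [List.mem_cons] at hy
      rcases hy with rfl | hy
      · linarith
      · exact htl y hy
    have h2 := h0 (a :: ls) (x0 :: tl) ((x0 + e) :: tl) (by simp) hpos hmax' hnn'
    have hs : ((x0 + e) :: tl).sum = 1 + e := by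
      simp only [List.sum_cons] at hsum ⊢
      linarith
    have hsl : (a :: ls).sum = N := by simp [hN]
    rw [hs, hsl] at h2
    have hQe : Q (a :: ls) ((x0 + e) :: tl) = (x0 + e) ^ a * M + R := by rw [Q]
    rw [hQe, ← hP] at h2
    have h3 := EX2_le_pow_sub_pow_aux (x0 + e) x0 a hx0 (by linarith)
    have h4 := EX2_pow_sub_pow_le_aux (1 + e) 1 N (by norm_num) (by linarith)
    have h3' := mul_le_mul_of_nonneg_right h3 hMnn
    have h4' := mul_le_mul_of_nonneg_right h4 hPnn
    have h5 : ((a : ℝ) * x0 ^ (a - 1) * M) * e ≤ ((N : ℝ) * (1 + e) ^ (N - 1) * P) * e := by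
      have e1 : (a : ℝ) * x0 ^ (a - 1) * (x0 + e - x0) * M =
        ((a : ℝ) * x0 ^ (a - 1) * M) * e := by ring
      have e2 : (N : ℝ) * (1 + e) ^ (N - 1) * (1 + e - 1) * P =
        ((N : ℝ) * (1 + e) ^ (N - 1) * P) * e := by ring
      rw [e1] at h3'
      rw [e2] at h4'
      refine le_trans h3' (le_trans ?_ h4')
      rw [one_pow]
      nlinarith [h2, hPeq]
    exact le_of_mul_le_mul_right h5 he
  have hcont : Filter.Tendsto (fun e : ℝ => (N : ℝ) * (1 + e) ^ (N - 1) * P)
      (nhdsWithin 0 (Set.Ioi 0)) (nhds ((N : ℝ) * P)) := by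
    have hc : Continuous (fun e : ℝ => (N : ℝ) * (1 + e) ^ (N - 1) * P) := by fun_prop
    have := hc.tendsto 0
    simp only [add_zero, one_pow, mul_one] at this
    exact this.mono_left nhdsWithin_le_nhds
  have hfin : (a : ℝ) * x0 ^ (a - 1) * M ≤ (N : ℝ) * P := by
    refine ge_of_tendsto hcont ?_
    filter_upwards [self_mem_nhdsWithin] with e he
    exact key e he
  have h6 := mul_le_mul_of_nonneg_right hfin hx0
  have e3 : (a : ℝ) * x0 ^ (a - 1) * M * x0 = (a : ℝ) * (x0 ^ a * M) := by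
    have : x0 ^ a = x0 ^ (a - 1) * x0 := by
      rw [← pow_succ]; congr 1; omega
    rw [this]; ring
  rw [e3] at h6
  exact h6

end Pool.LAY
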