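import Pool.Agent.H97.LAY.Stmts2

set_option autoImplicit false

namespace Pool.LAY

open Finset Filter Topology

theorem EX3 (hI : IMHStmt) (hN : QNNStmt) : EX3Stmt := by
  intro a ls x0 tl ha hls hmax hP
  have hmax' := hmax
  obtain ⟨hnn, hsum, -⟩ := hmax
  have hx0 : 0 ≤ x0 := hnn x0 (by simp)
  have htl : NN tl := fun y hy => hnn y (List.mem_cons_of_mem _ hy)
  have htls : 0 ≤ tl.sum := List.sum_nonneg htl
  have hsum' : x0 + tl.sum = 1 := by simpa using hsum
  have hx1 : x0 ≤ 1 := by linarith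
  rcases hx0.eq_or_lt with h0 | h0
  · rw [← h0]
    simp
  have hM : 0 ≤ Q ls tl := (hN ls tl htl).1
  have hR : 0 ≤ Q (a :: ls) tl := (hN (a :: ls) tl htl).1
  have hPe : Q (a :: ls) (x0 :: tl) = x0 ^ a * Q ls tl + Q (a :: ls) tl := rfl
  set P : ℝ := Q (a :: ls) (x0 :: tl) with hPdef
  set N : ℕ := a + ls.sum with hNdef
  have hN1 : (0 : ℝ) ≤ N := Nat.cast_nonneg _
  have ha0 : (0 : ℝ) ≤ a := Nat.cast_nonneg _
  have key : ∀ e : ℝ, 0 < e → e < x0 → (N : ℝ) * x0 ≤ a * (1 + N * e) := by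
    intro e he hex
    have h1 : Q (a :: ls) ((x0 - e) :: tl) ≤ P * ((x0 - e) :: tl).sum ^ (a :: ls).sum := by
      apply hI
      · simp
      · intro l hl
        rcases List.mem_cons.1 hl with h | h
        · rw [h]; exact ha
        · exact hls l h
      · exact hmax'
      · intro y hy
        rcases List.mem_cons.1 hy with h | h
        · rw [h]; linarith
        · exact htl y h
    have h2 : ((x0 - e) :: tl).sum = 1 - e := by
      rw [List.sum_cons]; linarith
    have h3 : (a :: ls).sum = N := by rw [List.sum_cons]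
    have h4 : Q (a :: ls) ((x0 - e) :: tl) = (x0 - e) ^ a * Q ls tl + Q (a :: ls) tl := rfl
    rw [h2, h3, h4] at h1
    -- Bernoulli
    have h5 : x0 * (x0 - e) ^ a ≥ x0 ^ a * (x0 - a * e) := by
      have hb : (1 : ℝ) + a * (-(e / x0)) ≤ (1 + -(e / x0)) ^ a := by
        apply one_add_mul_le_pow
        have : e / x0 ≤ 1 := by rw [div_le_one h0]; exact hex.le
        linarith
      have e1 : 1 + -(e / x0) = (x0 - e) / x0 := by
        field_simp
        ring
      rw [e1, div_pow, le_div_iff₀ (by positivity)] at hb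
      have e2 : x0 * ((1 + (a : ℝ) * (-(e / x0))) * x0 ^ a) = x0 ^ a * (x0 - a * e) := by
        field_simp
        ring
      have := mul_le_mul_of_nonneg_left hb h0.le
      rw [e2] at this
      exact this
    have h6 : x0 * P * (1 - e) ^ N ≥ x0 * P - a * e * P := by
      have h7 : x0 * (P * (1 - e) ^ N) ≥ x0 * ((x0 - e) ^ a * Q ls tl + Q (a :: ls) tl) :=
        mul_le_mul_of_nonneg_left h1 h0.le
      have h8 : x0 * (x0 - e) ^ a * Q ls tl ≥ x0 ^ a * (x0 - a * e) * Q ls tl :=
        mul_le_mul_of_nonneg_right h5 hM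
      have h9 : x0 ^ a * Q ls tl ≤ P := by linarith
      have h10 : a * e * (x0 ^ a * Q ls tl) ≤ a * e * P := by
        apply mul_le_mul_of_nonneg_left h9
        positivity
      nlinarith
    have h11 : (1 - e) ^ N * (1 + N * e) ≤ 1 := by
      have q1 : 1 + (N : ℝ) * e ≤ (1 + e) ^ N := one_add_mul_le_pow (by linarith) N
      have q2 : (1 - e) ^ N * (1 + e) ^ N ≤ 1 := by
        rw [← mul_pow]
        apply pow_le_one₀
        · nlinarith
        · nlinarith
      have q3 : 0 ≤ (1 - e) ^ N := pow_nonneg (by linarith) _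
      nlinarith [mul_le_mul_of_nonneg_left q1 q3]
    have h12 : x0 * (1 - (1 - e) ^ N) ≤ a * e := by
      have : P * (x0 * (1 - (1 - e) ^ N)) ≤ P * (a * e) := by nlinarith
      exact le_of_mul_le_mul_left this hP
    have h13 : 0 < 1 + (N : ℝ) * e := by positivity
    have h14 : x0 * ((1 - (1 - e) ^ N) * (1 + N * e)) ≤ a * e * (1 + N * e) := by
      have := mul_le_mul_of_nonneg_right h12 h13.le
      nlinarith
    have h15 : (N : ℝ) * e ≤ (1 - (1 - e) ^ N) * (1 + N * e) := by nlinarith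
    have h16 : x0 * ((N : ℝ) * e) ≤ a * e * (1 + N * e) :=
      le_trans (mul_le_mul_of_nonneg_left h15 h0.le) h14
    have h17 : e * ((N : ℝ) * x0) ≤ e * (a * (1 + N * e)) := by nlinarith
    exact le_of_mul_le_mul_left h17 he
  have hlim : Tendsto (fun e : ℝ => (a : ℝ) * (1 + N * e)) (𝓝[>] 0) (𝓝 (a * (1 + N * 0))) := by
    apply Tendsto.mono_left _ nhdsWithin_le_nhds
    apply Continuous.tendsto
    fun_prop
  have hev : ∀ᶠ e : ℝ in 𝓝[>] 0, (N : ℝ) * x0 ≤ a * (1 + N * e) := by
    have h1 : ∀ᶠ e : ℝ in 𝓝[>] 0, e < x0 :=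
      (eventually_lt_nhds h0).filter_mono nhdsWithin_le_nhds
    filter_upwards [h1, self_mem_nhdsWithin] with e he1 he2
    exact key e he2 he1
  have := ge_of_tendsto hlim hev
  simpa using this

end Pool.LAY
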