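import Pool.Agent.H97.LAY.Stmts5

/-!
# Board `lay` (MP_609328_co): row EXG (helper31)
-/

set_option autoImplicit false

namespace Pool.LAY

open Finset Filter Topology

theorem EXG (h1 : SCAStmt) (h2 : IMHStmt) : EXGStmt := by
  intro cs rs pre1 post x A hls hA hlen hmax hP hx
  set ls := cs ++ rs with hlsdef
  set P := Q ls (pre1 ++ x :: post) with hPdef
  set N := ls.sum with hN
  have hne : ls ≠ [] := by
    rintro h
    rw [hlsdef, List.append_eq_nil_iff] at h
    rw [h.1] at hlen
    simp at hlen
  have hNN := hmax.1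
  have hpre : NN pre1 := fun y hy => hNN y (by simp [hy])
  have hpost : NN post := fun y hy => hNN y (by simp [hy])
  have hsum : pre1.sum + (x + post.sum) = 1 := by
    have := hmax.2.1
    rwa [List.sum_append, List.sum_cons] at this
  set C0 := Q ls (pre1 ++ post) with hC0
  have hC : C0 ≤ P * (1 - x) ^ N := by
    have := h2 ls (pre1 ++ x :: post) (pre1 ++ post) hne hls hmax (by
      intro y hy
      rcases List.mem_append.mp hy with h | h
      · exact hpre y h
      · exact hpost y h)
    rw [List.sum_append] at this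
    have e : pre1.sum + post.sum = 1 - x := by linarith
    rwa [e] at this
  -- for every `e > 0`
  have key : ∀ e : ℝ, 0 < e → (A : ℝ) * (1 - (1 - x) ^ N) / x ≤ ((1 + e) ^ N - 1) / e := by
    intro e he
    have hs1 : (1 : ℝ) ≤ 1 + e / x := by
      have : 0 < e / x := div_pos he hx
      linarith
    have hsc := h1 cs rs pre1 post x (1 + e / x) A hA hlen hpre hpost hx.le hs1
    have hsx : (1 + e / x) * x = x + e := by field_simp
    rw [hsx] at hsc
    have him := h2 ls (pre1 ++ x :: post) (pre1 ++ (x + e) :: post) hne hls hmax (by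
      intro y hy
      rcases List.mem_append.mp hy with h | h
      · exact hpre y h
      · rcases List.mem_cons.mp h with rfl | h
        · linarith
        · exact hpost y h)
    rw [List.sum_append, List.sum_cons] at him
    have e2 : pre1.sum + (x + e + post.sum) = 1 + e := by linarith
    rw [e2] at him
    have hber : 1 + (A : ℝ) * (e / x) ≤ (1 + e / x) ^ A :=
      one_add_mul_le_pow (by have : 0 < e / x := div_pos he hx; linarith) A
    have hPC : P * (1 - (1 - x) ^ N) ≤ P - C0 := by
      have : P * (1 - (1 - x) ^ N) = P - P * (1 - x) ^ N := by ring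
      rw [this]; linarith
    have hPC0 : 0 ≤ P - C0 := by
      have hx1 : x ≤ 1 := by
        have a1 : 0 ≤ pre1.sum := List.sum_nonneg hpre
        have a2 : 0 ≤ post.sum := List.sum_nonneg hpost
        linarith
      have : (1 - x) ^ N ≤ 1 := pow_le_one₀ (by linarith) (by linarith)
      have h4 : 0 ≤ P * (1 - (1 - x) ^ N) := mul_nonneg hP.le (by linarith)
      linarith
    have h5 : (P - C0) * (1 + (A : ℝ) * (e / x)) ≤ P * (1 + e) ^ N - C0 := by
      calc (P - C0) * (1 + (A : ℝ) * (e / x)) ≤ (P - C0) * (1 + e / x) ^ A :=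
            mul_le_mul_of_nonneg_left hber hPC0
        _ ≤ Q ls (pre1 ++ (x + e) :: post) - C0 := hsc
        _ ≤ P * (1 + e) ^ N - C0 := by linarith
    have h6 : (P - C0) * ((A : ℝ) * (e / x)) ≤ P * ((1 + e) ^ N - 1) := by nlinarith
    have hAe : 0 ≤ (A : ℝ) * (e / x) := by positivity
    have h7 : P * ((1 - (1 - x) ^ N) * ((A : ℝ) * (e / x))) ≤ P * ((1 + e) ^ N - 1) := by
      calc P * ((1 - (1 - x) ^ N) * ((A : ℝ) * (e / x)))
          = (P * (1 - (1 - x) ^ N)) * ((A : ℝ) * (e / x)) := by ring
        _ ≤ (P - C0) * ((A : ℝ) * (e / x)) := mul_le_mul_of_nonneg_right hPC hAe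
        _ ≤ _ := h6
    have h8 := le_of_mul_le_mul_left h7 hP
    rw [le_div_iff₀ he]
    calc (A : ℝ) * (1 - (1 - x) ^ N) / x * e = (1 - (1 - x) ^ N) * ((A : ℝ) * (e / x)) := by
          field_simp
      _ ≤ _ := h8
  -- the limit
  have hder : HasDerivAt (fun e : ℝ => (1 + e) ^ N) ((N : ℝ)) 0 := by
    have h := ((hasDerivAt_id (0 : ℝ)).const_add 1).pow N
    have e : (N : ℝ) * (1 + id (0 : ℝ)) ^ (N - 1) * 1 = N := by simp
    rw [e] at h
    exact h
  have hsl := hder.tendsto_slope
  have hsl2 : Tendsto (slope (fun e : ℝ => (1 + e) ^ N) 0) (𝓝[>] 0) (𝓝 (N : ℝ)) :=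
    hsl.mono_left (nhdsWithin_mono _ (fun y hy => ne_of_gt hy))
  have hle : (A : ℝ) * (1 - (1 - x) ^ N) / x ≤ (N : ℝ) := by
    refine ge_of_tendsto hsl2 ?_
    filter_upwards [self_mem_nhdsWithin] with e he
    have := key e he
    rw [slope_def_field]
    simpa using this
  rwa [div_le_iff₀ hx] at hle

end Pool.LAY
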