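import Pool.Agent.H97.LAY.Stmts

/-!
# Row EXI of the board `lay`: a layered permutation with given layer sizes
-/

set_option autoImplicit false

namespace Pool.LAY

open Finset

/-- a permutation with the same relative order as an injective key -/
theorem exists_perm_of_key (n : ℕ) (g : Fin n → ℕ) (hg : Function.Injective g) :
    ∃ π : Equiv.Perm (Fin n), ∀ i j, π i < π j ↔ g i < g j := by
  classical
  have hcard : (univ.image g).card = n := by
    rw [Finset.card_image_of_injective _ hg, Finset.card_univ, Fintype.card_fin]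
  have hmem : ∀ i, g i ∈ univ.image g := fun i => Finset.mem_image_of_mem g (Finset.mem_univ i)
  have hinj : Function.Injective
      (fun i : Fin n => ((univ.image g).orderIsoOfFin hcard).symm ⟨g i, hmem i⟩) := by
    intro i j hij
    have h1 := ((univ.image g).orderIsoOfFin hcard).symm.injective hij
    exact hg (Subtype.ext_iff.mp h1)
  refine ⟨Equiv.ofBijective _ (Finite.injective_iff_bijective.mp hinj), ?_⟩
  intro i j
  change ((univ.image g).orderIsoOfFin hcard).symm ⟨g i, hmem i⟩
      < ((univ.image g).orderIsoOfFin hcard).symm ⟨g j, hmem j⟩ ↔ _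
  rw [OrderIso.lt_iff_lt, Subtype.mk_lt_mk]

theorem EXI : EXIStmt := by
  classical
  intro ns hns
  let c : Composition ns.sum := ⟨ns, fun {i} hi => hns i hi, rfl⟩
  let b : Fin ns.sum → Fin ns.length := c.index
  have hmono : Monotone b := by
    intro i j hij
    by_contra hcon
    push Not at hcon
    have h1 : (j : ℕ) < c.sizeUpTo ((c.index j : ℕ) + 1) := c.lt_sizeUpTo_index_succ j
    have h2 : c.sizeUpTo (c.index i) ≤ i := c.sizeUpTo_index_le i
    have h3 : c.sizeUpTo ((c.index j : ℕ) + 1) ≤ c.sizeUpTo (c.index i) :=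
      c.monotone_sizeUpTo (Nat.succ_le_of_lt hcon)
    have h4 : (i : ℕ) ≤ j := hij
    omega
  have hsize : ∀ v : Fin ns.length, layerSize b v = ns.get v := by
    intro v
    have h1 : (univ.filter (fun i => b i = v)) = univ.map (c.embedding v).toEmbedding := by
      ext i
      rw [Finset.mem_filter, Finset.mem_map]
      constructor
      · rintro ⟨_, hi⟩
        have h2 : i ∈ Set.range (c.embedding v) := c.mem_range_embedding_iff'.mpr hi.symm
        obtain ⟨j, hj⟩ := h2
        exact ⟨j, Finset.mem_univ _, hj⟩
      · rintro ⟨j, _, rfl⟩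
        exact ⟨Finset.mem_univ _, c.index_embedding v j⟩
    unfold layerSize
    rw [h1, Finset.card_map, Finset.card_univ, Fintype.card_fin]
    rfl
  have hsurj : Function.Surjective b := by
    intro v
    have h1 : 0 < c.blocksFun v := c.blocks_pos' v v.2
    exact ⟨c.embedding v ⟨0, h1⟩, c.index_embedding v ⟨0, h1⟩⟩
  obtain ⟨π, hπ⟩ := exists_perm_of_key ns.sum
    (fun i => (b i : ℕ) * (ns.sum + 1) + (ns.sum - i)) (by
      intro i j hij
      simp only at hij
      have hi := i.2
      have hj := j.2
      rcases lt_trichotomy (b i : ℕ) (b j : ℕ) with h | h | h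
      · have : ((b i : ℕ) + 1) * (ns.sum + 1) ≤ (b j : ℕ) * (ns.sum + 1) := Nat.mul_le_mul_right _ h
        rw [Nat.add_mul] at this
        omega
      · rw [h] at hij
        apply Fin.ext
        omega
      · have : ((b j : ℕ) + 1) * (ns.sum + 1) ≤ (b i : ℕ) * (ns.sum + 1) := Nat.mul_le_mul_right _ h
        rw [Nat.add_mul] at this
        omega)
  refine ⟨π, b, ⟨hsurj, hmono, ?_, ?_⟩, ?_⟩
  · intro i j hij hb
    rw [hπ, hb]
    have h1 : (i : ℕ) < j := hij
    have hj := j.2
    omega
  · intro i j hb
    rw [hπ]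
    have h : (b i : ℕ) < (b j : ℕ) := hb
    have : ((b i : ℕ) + 1) * (ns.sum + 1) ≤ (b j : ℕ) * (ns.sum + 1) := Nat.mul_le_mul_right _ h
    rw [Nat.add_mul] at this
    have hi := i.2
    omega
  · have : layerSize b = ns.get := funext hsize
    rw [this]
    exact List.ofFn_get ns

end Pool.LAY
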