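import Pool.Agent.H97.LAY.Stmts

/-!
# Row FN1 of the board `lay`
-/

set_option autoImplicit false

namespace Pool.LAY

theorem FN1 (hS : STPStmt) (hL : LENStmt) : FN1Stmt := by
  intro ls hls
  obtain ⟨ε, hε, h⟩ := hS ls hls
  refine ⟨ls.sum * (⌈1 / ε⌉₊ + 1), fun ns hns hsum => ?_⟩
  have h1 : 1 ≤ ls.sum := by
    obtain ⟨l, bs, rfl⟩ := List.exists_cons_of_ne_nil hls.1
    have := hls.2.1 l (by simp)
    simp only [List.sum_cons]
    omega
  exact hL ns ls.sum ε h1 hε (h ns hns hsum)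

end Pool.LAY
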