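import Pool.Agent.H97.LAY.Stmts4

/-!
# Row FN3 of the board `lay`
-/

set_option autoImplicit false

namespace Pool.LAY

theorem fn3_length_le_sum : ∀ ns : List ℕ, (∀ n ∈ ns, 1 ≤ n) → ns.length ≤ ns.sum
  | [], _ => by simp
  | n :: ns, h => by
    have h1 := fn3_length_le_sum ns (fun m hm => h m (List.mem_cons_of_mem n hm))
    have h2 := h n List.mem_cons_self
    simp only [List.length_cons, List.sum_cons]
    omega

theorem FN3 (hS : ST2Stmt) (hL : LENStmt) : FN3Stmt := by
  intro ls hls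
  obtain ⟨ε, hε, T0, h⟩ := hS ls hls
  refine ⟨max (ls.sum * (⌈1 / ε⌉₊ + 1)) T0, fun ns hns hsum => ?_⟩
  have h1 : 1 ≤ ls.sum := by
    obtain ⟨l, bs, rfl⟩ := List.exists_cons_of_ne_nil hls.1
    have := hls.2.1 l (by simp)
    simp only [List.sum_cons]
    omega
  rcases le_or_gt T0 ns.sum with hT | hT
  · exact (hL ns ls.sum ε h1 hε (h ns hns hsum hT)).trans (le_max_left _ _)
  · exact ((fn3_length_le_sum ns hns.1).trans hT.le).trans (le_max_right _ _)

end Pool.LAY
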