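import Pool.Agent.H97.LAY.Stmts2

/-!
# Board `lay`, row FNG
-/

set_option autoImplicit false

namespace Pool.LAY

theorem FNG (h2 : CPTStmt) (h3 : DQUStmt) (h4 : DQLStmt) (h5 : QHOStmt) :
    FNGStmt := by
  intro ls hne hls hmax m
  obtain ⟨q, hq, ys, hy0, hy1, hy2⟩ := h2 ls hls hmax m
  obtain ⟨n0, hn0⟩ := h4 ls ys hls hy0 hy1 ((Q ls ys - q) / 2) (by linarith)
  refine ⟨n0 + 1, fun ns hn hlen => ?_⟩
  obtain ⟨ns', g1, g2, g3⟩ := hn0 ns.sum (by omega)
  refine ⟨ns', g1, g2, ?_⟩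
  have hpos : (0 : ℝ) < (ns.sum : ℝ) := by
    have : 0 < ns.sum := by omega
    exact_mod_cast this
  set n : ℝ := (ns.sum : ℝ) with hn'
  have e1 := h3 ls ns
  have e2 : ns.map (fun k : ℕ => (k : ℝ)) =
      (ns.map (fun k : ℕ => (k : ℝ) / n)).map (fun x => n * x) := by
    rw [List.map_map]
    apply List.map_congr_left
    intro k _
    simp only [Function.comp]
    rw [mul_div_cancel₀ _ hpos.ne']
  rw [e2, h5] at e1
  have e3 : Q ls (ns.map (fun k : ℕ => (k : ℝ) / n)) ≤ q := by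
    apply hq
    · simpa using hlen
    · intro x hx
      rw [List.mem_map] at hx
      obtain ⟨k, _, rfl⟩ := hx
      positivity
    · have e4 : (ns.map (fun k : ℕ => (k : ℝ) / n)).sum = (ns.map (fun k : ℕ => (k : ℝ))).sum / n := by
        simp only [div_eq_mul_inv]
        rw [List.sum_map_mul_right]
      have e5 : (ns.map (fun k : ℕ => (k : ℝ))).sum = n := by
        rw [hn']
        exact (Nat.cast_list_sum ns).symm
      rw [e4, e5, div_self hpos.ne']
  have hnp : 0 < n ^ ls.sum := by positivity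
  have e6 : (((ls.map Nat.factorial).prod * D ls ns : ℕ) : ℝ) <
      (((ls.map Nat.factorial).prod * D ls ns' : ℕ) : ℝ) := by
    calc (((ls.map Nat.factorial).prod * D ls ns : ℕ) : ℝ) ≤
        n ^ ls.sum * Q ls (ns.map (fun k : ℕ => (k : ℝ) / n)) := e1
      _ ≤ n ^ ls.sum * q := mul_le_mul_of_nonneg_left e3 hnp.le
      _ < (Q ls ys - (Q ls ys - q) / 2) * n ^ ls.sum := by
        rw [mul_comm]
        exact mul_lt_mul_of_pos_right (by linarith) hnp
      _ ≤ _ := g3
  have e7 : (ls.map Nat.factorial).prod * D ls ns < (ls.map Nat.factorial).prod * D ls ns' := by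
    exact_mod_cast e6
  exact lt_of_mul_lt_mul_left e7 (Nat.zero_le _)

end Pool.LAY
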