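import Pool.Agent.H97.LAY.Stmts

/-!
# Row POW of board `lay`
-/

set_option autoImplicit false

namespace Pool.LAY

theorem POW : POWStmt := by
  intro ls xs
  induction xs generalizing ls with
  | nil =>
    intro _
    cases ls with
    | nil => simp [D]
    | cons l ls => simp [D]
  | cons x xs ih =>
    intro h
    cases ls with
    | nil => simp [D]
    | cons l ls =>
      have h1 : D ls xs ≤ xs.sum ^ ls.sum := ih ls fun a ha => h a (List.mem_cons_of_mem _ ha)
      have h2 : D (l :: ls) xs ≤ xs.sum ^ (l + ls.sum) := by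
        simpa using ih (l :: ls) h
      have h3 : x.choose l ≤ x ^ l := Nat.choose_le_pow x l
      obtain ⟨k, rfl⟩ : ∃ k, l = k + 1 := ⟨l - 1, by have := h l (by simp); omega⟩
      have h4 : x ^ (k + 1) + xs.sum ^ (k + 1) ≤ (x + xs.sum) ^ (k + 1) := by
        rw [pow_succ, pow_succ, pow_succ, mul_add]
        exact Nat.add_le_add
          (Nat.mul_le_mul_right _ (Nat.pow_le_pow_left (Nat.le_add_right _ _) _))
          (Nat.mul_le_mul_right _ (Nat.pow_le_pow_left (Nat.le_add_left _ _) _))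
      have h5 : xs.sum ^ ls.sum ≤ (x + xs.sum) ^ ls.sum :=
        Nat.pow_le_pow_left (Nat.le_add_left _ _) _
      calc D ((k + 1) :: ls) (x :: xs) = x.choose (k + 1) * D ls xs + D ((k + 1) :: ls) xs := rfl
        _ ≤ x ^ (k + 1) * xs.sum ^ ls.sum + xs.sum ^ (k + 1 + ls.sum) :=
          Nat.add_le_add (Nat.mul_le_mul h3 h1) h2
        _ = (x ^ (k + 1) + xs.sum ^ (k + 1)) * xs.sum ^ ls.sum := by ring
        _ ≤ (x + xs.sum) ^ (k + 1) * (x + xs.sum) ^ ls.sum := Nat.mul_le_mul h4 h5
        _ = (x :: xs).sum ^ ((k + 1) :: ls).sum := by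
          rw [List.sum_cons, List.sum_cons, ← pow_add]

end Pool.LAY
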