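import Pool.Agent.H97.LAY.REV
import Pool.Agent.H97.LAY.POW

/-!
# Board `lay`, row FUP
-/

set_option autoImplicit false

namespace Pool.LAY

open Finset

private theorem fup_nil (xs : List ℕ) : D [] xs = 1 := by cases xs <;> rfl

/-- two last entries `x`, `1`; the elements of `P` are added one by one -/
private theorem fup_one (as Z P : List ℕ) (x T E : ℕ) (has : ∀ a ∈ as, 1 ≤ a) (hx : 1 ≤ x)
    (hT : Z.sum + P.sum ≤ T) (hE : ∀ e ∈ P, e ≤ E) :
    D (as ++ [x]) (Z ++ P) ≤ D (as ++ [x]) Z + T ^ as.sum * (P.sum * E ^ (x - 1)) := by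
  induction P using List.reverseRecOn with
  | nil => simp
  | append_singleton P e ih =>
    have hT' : Z.sum + P.sum ≤ T := by
      have : (P ++ [e]).sum = P.sum + e := by simp
      omega
    have h1 := ih hT' (fun a ha => hE a (by simp [ha]))
    have h2 : D as (Z ++ P) ≤ T ^ as.sum :=
      (POW as (Z ++ P) has).trans (Nat.pow_le_pow_left (by simpa using hT') _)
    have h3 : e.choose x ≤ e * E ^ (x - 1) := by
      obtain ⟨k, rfl⟩ : ∃ k, x = k + 1 := ⟨x - 1, by omega⟩
      calc e.choose (k + 1) ≤ e ^ (k + 1) := Nat.choose_le_pow _ _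
        _ = e * e ^ k := by rw [pow_succ]; ring
        _ ≤ e * E ^ (k + 1 - 1) := by
          rw [Nat.add_sub_cancel]
          exact Nat.mul_le_mul_left _ (Nat.pow_le_pow_left (hE e (by simp)) _)
    rw [← List.append_assoc, D_snoc]
    calc D as (Z ++ P) * e.choose x + D (as ++ [x]) (Z ++ P)
        ≤ T ^ as.sum * (e * E ^ (x - 1)) +
          (D (as ++ [x]) Z + T ^ as.sum * (P.sum * E ^ (x - 1))) :=
          Nat.add_le_add (Nat.mul_le_mul h2 h3) h1
      _ = D (as ++ [x]) Z + T ^ as.sum * ((P ++ [e]).sum * E ^ (x - 1)) := by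
          rw [List.sum_append, List.sum_singleton]
          ring

private theorem fup_two (as Z P : List ℕ) (x T E : ℕ) (has : ∀ a ∈ as, 1 ≤ a) (hx : 1 ≤ x)
    (hT : Z.sum + P.sum ≤ T) (hE : ∀ e ∈ P, e ≤ E) :
    D (as ++ [x, 1]) (Z ++ P) ≤ D (as ++ [x, 1]) Z + D (as ++ [x]) Z * P.sum +
      T ^ as.sum * (P.sum * E ^ (x - 1)) * P.sum := by
  induction P using List.reverseRecOn with
  | nil => simp
  | append_singleton P e ih =>
    have hs : (P ++ [e]).sum = P.sum + e := by simp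
    have hT' : Z.sum + P.sum ≤ T := by omega
    have hE' : ∀ a ∈ P, a ≤ E := fun a ha => hE a (by simp [ha])
    have h1 := ih hT' hE'
    have h2 := fup_one as Z P x T E has hx hT' hE'
    have e0 : as ++ [x, 1] = (as ++ [x]) ++ [1] := by simp
    have e1 : D (as ++ [x, 1]) ((Z ++ P) ++ [e]) =
        D (as ++ [x]) (Z ++ P) * e + D (as ++ [x, 1]) (Z ++ P) := by
      rw [e0, D_snoc, Nat.choose_one_right]
    rw [← List.append_assoc, e1, hs]
    have h3 : T ^ as.sum * (P.sum * E ^ (x - 1)) * e + T ^ as.sum * (P.sum * E ^ (x - 1)) * P.sum ≤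
        T ^ as.sum * ((P.sum + e) * E ^ (x - 1)) * (P.sum + e) := by
      rw [← mul_add]
      apply Nat.mul_le_mul
      · apply Nat.mul_le_mul_left
        apply Nat.mul_le_mul_right
        omega
      · omega
    calc D (as ++ [x]) (Z ++ P) * e + D (as ++ [x, 1]) (Z ++ P)
        ≤ (D (as ++ [x]) Z + T ^ as.sum * (P.sum * E ^ (x - 1))) * e +
          (D (as ++ [x, 1]) Z + D (as ++ [x]) Z * P.sum +
            T ^ as.sum * (P.sum * E ^ (x - 1)) * P.sum) :=
          Nat.add_le_add (Nat.mul_le_mul_right _ h2) h1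
      _ = D (as ++ [x, 1]) Z + D (as ++ [x]) Z * (P.sum + e) +
          (T ^ as.sum * (P.sum * E ^ (x - 1)) * e +
            T ^ as.sum * (P.sum * E ^ (x - 1)) * P.sum) := by ring
      _ ≤ _ := Nat.add_le_add_left h3 _

theorem FUP : FUPStmt := by
  intro as pre1 pre2 x u T E has hx hT hET hE
  have hx1 : 1 ≤ x := by omega
  have e0 : pre1 ++ u :: pre2 = (pre1 ++ [u]) ++ pre2 := by simp
  have hs : (pre1 ++ [u]).sum + pre2.sum ≤ T := by
    rw [List.sum_append, List.sum_singleton]; omega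
  have h1 := fup_two as (pre1 ++ [u]) pre2 x T E has hx1 hs hE
  have e1 : D (as ++ [x, 1]) (pre1 ++ [u]) = D (as ++ [x]) pre1 * u + D (as ++ [x, 1]) pre1 := by
    have : as ++ [x, 1] = (as ++ [x]) ++ [1] := by simp
    rw [this, D_snoc, Nat.choose_one_right]
  have e2 : D (as ++ [x]) (pre1 ++ [u]) = D as pre1 * u.choose x + D (as ++ [x]) pre1 := D_snoc _ _ _ _
  rw [e1, e2] at h1
  have h2 : T ^ as.sum * (pre2.sum * E ^ (x - 1)) * pre2.sum ≤ E * T ^ (as.sum + x) := by
    obtain ⟨k, rfl⟩ : ∃ k, x = k + 2 := ⟨x - 2, by omega⟩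
    have hp : pre2.sum ≤ T := by omega
    calc T ^ as.sum * (pre2.sum * E ^ (k + 2 - 1)) * pre2.sum
        = T ^ as.sum * (pre2.sum * (E * E ^ k)) * pre2.sum := by
          have : k + 2 - 1 = k + 1 := by omega
          rw [this, pow_succ]; ring
      _ ≤ T ^ as.sum * (T * (E * T ^ k)) * T := by
          gcongr
      _ = E * T ^ (as.sum + (k + 2)) := by ring
  rw [e0]
  calc D (as ++ [x, 1]) ((pre1 ++ [u]) ++ pre2) ≤ _ := h1
    _ ≤ D (as ++ [x]) pre1 * u + D (as ++ [x, 1]) pre1 +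
        (D as pre1 * u.choose x + D (as ++ [x]) pre1) * pre2.sum + E * T ^ (as.sum + x) :=
        Nat.add_le_add_left h2 _
    _ = _ := by ring

end Pool.LAY
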