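import Pool.Agent.H97.LAY.Stmts4

set_option autoImplicit false

namespace Pool.LAY

open Finset

theorem kpl_mono (bs ys : List ℕ) (x : ℕ) : D bs ys ≤ D bs (x :: ys) := by
  cases bs with
  | nil => simp [D]
  | cons b bs =>
      show D (b :: bs) ys ≤ x.choose b * D bs ys + D (b :: bs) ys
      exact Nat.le_add_left _ _

/-- the place where `D L` passes the level `g` -/
theorem kpl_prefix (L : List ℕ) (hL : L ≠ []) (g : ℝ) (hg : 0 < g) (pre : List ℕ)
    (h : g ≤ (D L pre : ℝ)) :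
    ∃ (pre1 : List ℕ) (u : ℕ) (pre2 : List ℕ), pre = pre1 ++ u :: pre2 ∧ (D L pre1 : ℝ) < g ∧
      g ≤ (D L (pre1 ++ [u]) : ℝ) := by
  induction pre using List.reverseRecOn with
  | nil =>
      exfalso
      cases L with
      | nil => exact hL rfl
      | cons a L =>
          have h0 : D (a :: L) [] = 0 := rfl
          rw [h0, Nat.cast_zero] at h
          linarith
  | append_singleton l a ih =>
      by_cases hl : g ≤ (D L l : ℝ)
      · obtain ⟨p1, u, p2, h1, h2, h3⟩ := ih hl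
        refine ⟨p1, u, p2 ++ [a], ?_, h2, h3⟩
        rw [h1]
        simp
      · exact ⟨l, a, [], rfl, not_le.mp hl, h⟩

theorem kpl_single (y e : ℕ) (ys : List ℕ) (h : e ∈ ys) : e.choose y ≤ D [y] ys := by
  induction ys with
  | nil => simp at h
  | cons a ys ih =>
      have h0 : D [y] (a :: ys) = a.choose y + D [y] ys := by
        rw [D, D, mul_one]
      rw [h0]
      rcases List.mem_cons.1 h with h | h
      · rw [h]
        exact Nat.le_add_right _ _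
      · exact (ih h).trans (Nat.le_add_left _ _)

theorem kpl_choose0 (q l : ℕ) : q ^ l ≤ (l * q).choose l := by
  induction l with
  | zero => simp
  | succ l ih =>
      have h : (l * q).choose l * q.choose 1 ≤ ((l + 1) * q).choose (l + 1) := by
        rw [show (l + 1) * q = l * q + q by ring, Nat.add_choose_eq]
        have hmem : ((l, 1) : ℕ × ℕ) ∈ antidiagonal (l + 1) :=
          Finset.HasAntidiagonal.mem_antidiagonal.mpr rfl
        exact Finset.single_le_sum (f := fun ij : ℕ × ℕ => (l * q).choose ij.1 * q.choose ij.2)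
          (fun i _ => Nat.zero_le _) hmem
      calc q ^ (l + 1) = q ^ l * q := pow_succ _ _
        _ ≤ (l * q).choose l * q := Nat.mul_le_mul_right _ ih
        _ = (l * q).choose l * q.choose 1 := by rw [Nat.choose_one_right]
        _ ≤ _ := h

theorem kpl_choose (e y : ℕ) (hy : 1 ≤ y) (he : y ≤ e) : e ^ y ≤ (2 * y) ^ y * e.choose y := by
  have hq1 : 1 ≤ e / y := (Nat.one_le_div_iff (by omega)).mpr he
  have hle : y * (e / y) ≤ e := Nat.mul_div_le e y
  have hlt : e < y * (e / y + 1) := Nat.lt_mul_div_succ e (by omega)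
  have h1 : y ≤ y * (e / y) := Nat.le_mul_of_pos_right _ hq1
  have h2 : e ≤ 2 * y * (e / y) := by
    have : y * (e / y + 1) = y * (e / y) + y := by ring
    have h3 : 2 * y * (e / y) = y * (e / y) + y * (e / y) := by ring
    omega
  calc e ^ y ≤ (2 * y * (e / y)) ^ y := Nat.pow_le_pow_left h2 y
    _ = (2 * y) ^ y * (e / y) ^ y := mul_pow _ _ _
    _ ≤ (2 * y) ^ y * (y * (e / y)).choose y := Nat.mul_le_mul_left _ (kpl_choose0 _ _)
    _ ≤ (2 * y) ^ y * e.choose y := Nat.mul_le_mul_left _ (Nat.choose_le_choose y hle)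

/-- the numerical contradiction -/
theorem kpl_core (x : ℕ) (c lam om et T P A B G Cu v w : ℝ)
    (hc : 0 < c) (hlam : 0 < lam) (hom : om = lam * (c / 4) ^ (x + 2) / 2) (het1 : et ≤ c / 2)
    (het2 : et < c / 4 * lam * om ^ (x + 1)) (het3 : et < om)
    (hT : 0 < T) (hP : 0 < P) (hB : 0 ≤ B) (hG : 0 ≤ G) (hQP : B * G ≤ P)
    (hAB : A ≤ B * T ^ x) (hCu : Cu ≤ T ^ x) (hw0 : 0 ≤ w) (hwv : w ≤ v)
    (hvT : v ≤ T)
    (h4 : c * (P * T ^ (x + 1)) ≤ (A * v + B * (Cu * w)) * G + et * (P * T ^ (x + 1)))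
    (h2 : 3 * (x : ℝ) ≤ w → lam * w ^ (x + 1) * (B * G) ≤ et * (P * T ^ (x + 1)))
    (h3 : 3 * (x : ℝ) ≤ v →
      lam * v ^ (x + 1) * (B * G) ≤ Cu * w * (B * G) + et * (P * T ^ (x + 1)))
    (hT1 : 3 * (x : ℝ) ≤ c / 4 * T) (hT2 : 3 * (x : ℝ) ≤ om * T) : False := by
  have hom0 : 0 < om := by
    rw [hom]
    positivity
  have hv0 : 0 ≤ v := hw0.trans hwv
  have hTx : 0 < T ^ x := pow_pos hT x
  have hTx1 : 0 < T ^ (x + 1) := pow_pos hT (x + 1)
  have hQ0 : 0 ≤ B * G := mul_nonneg hB hG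
  have hPT : 0 < P * T ^ (x + 1) := mul_pos hP hTx1
  have hsucc : T ^ (x + 1) = T ^ x * T := pow_succ T x
  -- `(c / 4) P T ≤ Q v`
  have e1 : A * v * G ≤ B * G * (T ^ x * v) := by
    have := mul_le_mul_of_nonneg_right hAB (mul_nonneg hv0 hG)
    calc A * v * G = A * (v * G) := by ring
      _ ≤ B * T ^ x * (v * G) := this
      _ = B * G * (T ^ x * v) := by ring
  have e2 : B * (Cu * w) * G ≤ B * G * (T ^ x * v) := by
    have h5 : Cu * w ≤ T ^ x * v := mul_le_mul hCu hwv hw0 hTx.le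
    have := mul_le_mul_of_nonneg_left h5 hQ0
    calc B * (Cu * w) * G = B * G * (Cu * w) := by ring
      _ ≤ B * G * (T ^ x * v) := this
  have e3 : et * (P * T ^ (x + 1)) ≤ c / 2 * (P * T ^ (x + 1)) :=
    mul_le_mul_of_nonneg_right het1 hPT.le
  have e4 : (A * v + B * (Cu * w)) * G = A * v * G + B * (Cu * w) * G := by ring
  have e5 : T ^ x * (c / 4 * P * T) ≤ T ^ x * (B * G * v) := by
    have e6 : T ^ x * (c / 4 * P * T) = c / 4 * (P * T ^ (x + 1)) := by rw [hsucc]; ring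
    have e7 : T ^ x * (B * G * v) = B * G * (T ^ x * v) := by ring
    rw [e6, e7]
    rw [e4] at h4
    linarith
  have e8 : c / 4 * P * T ≤ B * G * v := le_of_mul_le_mul_left e5 hTx
  have e9 : c / 4 * P ≤ B * G := by
    have : c / 4 * P * T ≤ B * G * T := e8.trans (mul_le_mul_of_nonneg_left hvT hQ0)
    exact le_of_mul_le_mul_right this hT
  have e10 : c / 4 * T ≤ v := by
    have h5 : B * G * v ≤ P * v := mul_le_mul_of_nonneg_right hQP hv0
    have h6 : P * (c / 4 * T) ≤ P * v := by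
      calc P * (c / 4 * T) = c / 4 * P * T := by ring
        _ ≤ B * G * v := e8
        _ ≤ P * v := h5
    exact le_of_mul_le_mul_left h6 hP
  by_cases hw : om * T ≤ w
  · have h5 := h2 (hT2.trans hw)
    have h6 : (om * T) ^ (x + 1) ≤ w ^ (x + 1) := pow_le_pow_left₀ (by positivity) hw _
    have h7 : lam * (om * T) ^ (x + 1) * (c / 4 * P) ≤ lam * w ^ (x + 1) * (B * G) := by
      apply mul_le_mul (mul_le_mul_of_nonneg_left h6 hlam.le) e9 (by positivity)
      positivity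
    have h8 : c / 4 * lam * om ^ (x + 1) * (P * T ^ (x + 1)) ≤ et * (P * T ^ (x + 1)) := by
      calc c / 4 * lam * om ^ (x + 1) * (P * T ^ (x + 1))
          = lam * (om * T) ^ (x + 1) * (c / 4 * P) := by rw [mul_pow]; ring
        _ ≤ lam * w ^ (x + 1) * (B * G) := h7
        _ ≤ et * (P * T ^ (x + 1)) := h5
    have h9 := le_of_mul_le_mul_right h8 hPT
    linarith
  · have hw' : w ≤ om * T := (not_le.mp hw).le
    have h5 := h3 (hT1.trans e10)
    have h6 : (c / 4 * T) ^ (x + 1) ≤ v ^ (x + 1) := pow_le_pow_left₀ (by positivity) e10 _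
    have h7 : lam * (c / 4 * T) ^ (x + 1) * (c / 4 * P) ≤ lam * v ^ (x + 1) * (B * G) := by
      apply mul_le_mul (mul_le_mul_of_nonneg_left h6 hlam.le) e9 (by positivity)
      positivity
    have h8 : Cu * w * (B * G) ≤ om * (P * T ^ (x + 1)) := by
      have h9 : Cu * w ≤ T ^ x * (om * T) := mul_le_mul hCu hw' hw0 hTx.le
      calc Cu * w * (B * G) ≤ T ^ x * (om * T) * P :=
            mul_le_mul h9 hQP hQ0 (by positivity)
        _ = om * (P * T ^ (x + 1)) := by rw [hsucc]; ring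
    have h9 : lam * (c / 4) ^ (x + 2) * (P * T ^ (x + 1)) ≤ (om + et) * (P * T ^ (x + 1)) := by
      calc lam * (c / 4) ^ (x + 2) * (P * T ^ (x + 1))
          = lam * (c / 4 * T) ^ (x + 1) * (c / 4 * P) := by
            rw [mul_pow, pow_succ (c / 4) (x + 1)]; ring
        _ ≤ lam * v ^ (x + 1) * (B * G) := h7
        _ ≤ Cu * w * (B * G) + et * (P * T ^ (x + 1)) := h5
        _ ≤ om * (P * T ^ (x + 1)) + et * (P * T ^ (x + 1)) := by linarith
        _ = (om + et) * (P * T ^ (x + 1)) := by ring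
    have h10 := le_of_mul_le_mul_right h9 hPT
    have h11 : lam * (c / 4) ^ (x + 2) = 2 * om := by rw [hom]; ring
    linarith

/-- the two comparison lists -/
theorem kpl_cmp (hDPR : DPRStmt) (ls1 ls2 pre pre' post' : List ℕ) (m : ℕ)
    (hopt : OptL (ls1 ++ ls2) (pre ++ post')) (hpos : Pos pre') (hsum : pre'.sum = pre.sum)
    (hm : m ≤ D ls1 pre') : m * D ls2 post' ≤ D (ls1 ++ ls2) (pre ++ post') := by
  have h1 : D (ls1 ++ ls2) (pre' ++ post') ≤ D (ls1 ++ ls2) (pre ++ post') := by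
    apply hopt.2
    · intro z hz
      rcases List.mem_append.1 hz with h | h
      · exact hpos z h
      · exact hopt.1 z (List.mem_append.2 (Or.inr h))
    · rw [List.sum_append, List.sum_append, hsum]
  exact ((Nat.mul_le_mul_right _ hm).trans (hDPR ls1 ls2 pre' post')).trans h1

/-- every entry after the place `u` is small -/
theorem kpl_small (hDPR : DPRStmt) (as pre1 pre2 : List ℕ) (x y u e T : ℕ) (ga de ta : ℝ)
    (hy : 1 ≤ y) (hta : 0 < ta) (hT : 0 < T) (hde : de ≤ ga * (ta / (2 * y)) ^ y)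
    (hyT : (y : ℝ) ≤ ta * T)
    (h1 : ga * (T : ℝ) ^ (as.sum + x + 1) ≤ (D (as ++ [x, 1]) (pre1 ++ [u]) : ℝ))
    (h2 : (D (as ++ [x, 1, y]) (pre1 ++ u :: pre2) : ℝ) < de * (T : ℝ) ^ (as.sum + x + 1 + y))
    (he : e ∈ pre2) : (e : ℝ) ≤ ta * T := by
  by_contra hcon
  have hcon' : ta * T < (e : ℝ) := not_le.mp hcon
  have hTr : (0 : ℝ) < (T : ℝ) := by exact_mod_cast hT
  have hyr : (0 : ℝ) < (y : ℝ) := by exact_mod_cast hy
  have hye : y ≤ e := by
    have : (y : ℝ) ≤ (e : ℝ) := hyT.trans hcon'.le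
    exact_mod_cast this
  have h3 : (D (as ++ [x, 1]) (pre1 ++ [u]) * e.choose y : ℕ) ≤
      D (as ++ [x, 1, y]) (pre1 ++ u :: pre2) := by
    have h4 := hDPR (as ++ [x, 1]) [y] (pre1 ++ [u]) pre2
    have e1 : (as ++ [x, 1]) ++ [y] = as ++ [x, 1, y] := by simp
    have e2 : (pre1 ++ [u]) ++ pre2 = pre1 ++ u :: pre2 := by simp
    rw [e1, e2] at h4
    exact (Nat.mul_le_mul_left _ (kpl_single y e pre2 he)).trans h4
  have h3r : (D (as ++ [x, 1]) (pre1 ++ [u]) : ℝ) * (e.choose y : ℝ) ≤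
      (D (as ++ [x, 1, y]) (pre1 ++ u :: pre2) : ℝ) := by exact_mod_cast h3
  have h5 : ((e : ℝ)) ^ y ≤ (2 * (y : ℝ)) ^ y * (e.choose y : ℝ) := by
    exact_mod_cast kpl_choose e y hy hye
  have h6 : (ta * T) ^ y ≤ (2 * (y : ℝ)) ^ y * (e.choose y : ℝ) :=
    (pow_le_pow_left₀ (by positivity) hcon'.le y).trans h5
  have h7 : (ta / (2 * y)) ^ y * (T : ℝ) ^ y ≤ (e.choose y : ℝ) := by
    have hp : (0 : ℝ) < (2 * (y : ℝ)) ^ y := by positivity
    have e3 : (2 * (y : ℝ)) ^ y * ((ta / (2 * y)) ^ y * (T : ℝ) ^ y) = (ta * T) ^ y := by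
      rw [← mul_pow, ← mul_pow]
      congr 1
      field_simp
    rw [← e3] at h6
    exact le_of_mul_le_mul_left h6 hp
  have h8 : ga * (T : ℝ) ^ (as.sum + x + 1) * ((ta / (2 * y)) ^ y * (T : ℝ) ^ y) ≤
      (D (as ++ [x, 1]) (pre1 ++ [u]) : ℝ) * (e.choose y : ℝ) :=
    mul_le_mul h1 h7 (by positivity) (by positivity)
  have h9 : de * (T : ℝ) ^ (as.sum + x + 1 + y) ≤
      ga * (T : ℝ) ^ (as.sum + x + 1) * ((ta / (2 * y)) ^ y * (T : ℝ) ^ y) := by
    calc de * (T : ℝ) ^ (as.sum + x + 1 + y)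
        ≤ ga * (ta / (2 * y)) ^ y * (T : ℝ) ^ (as.sum + x + 1 + y) :=
          mul_le_mul_of_nonneg_right hde (by positivity)
      _ = _ := by rw [pow_add (T : ℝ) (as.sum + x + 1) y]; ring
  linarith

theorem KPL (hPV2 : PV2Stmt) (hFUP : FUPStmt) (hLB3 : LB3Stmt) (hDPR : DPRStmt) (hCHL : CHLStmt)
    (hSUB : SUBStmt) (hPOW : POWStmt) : KPLStmt := by
  intro as bs x y has hbs hx hy c0 hc0
  -- constants
  obtain ⟨c, hcdef⟩ : ∃ c : ℝ, c = min c0 1 := ⟨_, rfl⟩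
  have hc : 0 < c := by rw [hcdef]; exact lt_min hc0 one_pos
  have hc1 : c ≤ 1 := by rw [hcdef]; exact min_le_right _ _
  have hcc0 : c ≤ c0 := by rw [hcdef]; exact min_le_left _ _
  have hxr : (0 : ℝ) < (x : ℝ) := by exact_mod_cast (by omega : 0 < x)
  have hyr : (0 : ℝ) < (y : ℝ) := by exact_mod_cast hy
  obtain ⟨lam, hlamdef⟩ : ∃ lam : ℝ, lam = (2 * (3 * (x : ℝ)) ^ x)⁻¹ := ⟨_, rfl⟩
  have hlam : 0 < lam := by rw [hlamdef]; positivity
  obtain ⟨om, homdef⟩ : ∃ om : ℝ, om = lam * (c / 4) ^ (x + 2) / 2 := ⟨_, rfl⟩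
  have hom : 0 < om := by rw [homdef]; positivity
  obtain ⟨et, hetdef⟩ : ∃ et : ℝ, et = min (c / 2) (min (c / 4 * lam * om ^ (x + 1)) om) / 2 :=
    ⟨_, rfl⟩
  have hmin : 0 < min (c / 2) (min (c / 4 * lam * om ^ (x + 1)) om) := by
    refine lt_min (by positivity) (lt_min (by positivity) hom)
  have het0 : 0 < et := by rw [hetdef]; positivity
  have het1 : et ≤ c / 4 := by
    have := min_le_left (c / 2) (min (c / 4 * lam * om ^ (x + 1)) om)
    rw [hetdef]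
    linarith
  have het2 : et < c / 4 * lam * om ^ (x + 1) := by
    have h1 := min_le_right (c / 2) (min (c / 4 * lam * om ^ (x + 1)) om)
    have h2 := min_le_left (c / 4 * lam * om ^ (x + 1)) om
    rw [hetdef]
    have h3 : 0 < c / 4 * lam * om ^ (x + 1) := by positivity
    linarith
  have het3 : et < om := by
    have h1 := min_le_right (c / 2) (min (c / 4 * lam * om ^ (x + 1)) om)
    have h2 := min_le_right (c / 4 * lam * om ^ (x + 1)) om
    rw [hetdef]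
    linarith
  obtain ⟨ga, hgadef⟩ : ∃ ga : ℝ, ga = et / 8 := ⟨_, rfl⟩
  have hga : 0 < ga := by rw [hgadef]; positivity
  have hga1 : ga ≤ 1 := by rw [hgadef]; linarith
  obtain ⟨K, hKdef⟩ : ∃ K : ℕ, K = (as ++ [x]).length + bs.length + 3 := ⟨_, rfl⟩
  have hK1 : 1 ≤ K := by omega
  have hKr : (0 : ℝ) < (K : ℝ) := by exact_mod_cast hK1
  obtain ⟨de, hdedef⟩ : ∃ de : ℝ, de = min (ga * (ga / (2 * y)) ^ y) (et / (8 * K)) := ⟨_, rfl⟩
  have hde0 : 0 < de := by rw [hdedef]; refine lt_min (by positivity) (by positivity)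
  have hde1 : de ≤ ga * (ga / (2 * y)) ^ y := by rw [hdedef]; exact min_le_left _ _
  have hde2 : K * de ≤ et / 8 := by
    have h1 : de ≤ et / (8 * K) := by rw [hdedef]; exact min_le_right _ _
    have h2 := mul_le_mul_of_nonneg_left h1 hKr.le
    have h3 : (K : ℝ) * (et / (8 * K)) = et / 8 := by field_simp
    linarith
  obtain ⟨ep, hepdef⟩ : ∃ ep : ℝ, ep = et / (8 * K ^ 2) := ⟨_, rfl⟩
  have hep0 : 0 < ep := by rw [hepdef]; positivity
  have hep1 : (K : ℝ) * (K * ep) = et / 8 := by rw [hepdef]; field_simp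
  refine ⟨de, ep, hde0, hep0, ⌈12 * (x : ℝ) / c⌉₊ + ⌈3 * (x : ℝ) / om⌉₊ + ⌈(y : ℝ) / ga⌉₊ + 1, ?_⟩
  intro pre post s t T hopt hsum hT0 hst hDc
  by_contra hcon
  rw [not_or, not_le, not_le] at hcon
  obtain ⟨hn1, hn2⟩ := hcon
  -- sizes
  have hT : 0 < T := by omega
  have hTr : (0 : ℝ) < (T : ℝ) := by exact_mod_cast hT
  have hT0r : (⌈12 * (x : ℝ) / c⌉₊ : ℝ) + (⌈3 * (x : ℝ) / om⌉₊ : ℝ) + (⌈(y : ℝ) / ga⌉₊ : ℝ) + 1
      ≤ (T : ℝ) := by exact_mod_cast hT0
  have hc1' := Nat.le_ceil (12 * (x : ℝ) / c)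
  have hc2' := Nat.le_ceil (3 * (x : ℝ) / om)
  have hc3' := Nat.le_ceil ((y : ℝ) / ga)
  have hp1 : (0 : ℝ) ≤ (⌈12 * (x : ℝ) / c⌉₊ : ℝ) := Nat.cast_nonneg _
  have hp2 : (0 : ℝ) ≤ (⌈3 * (x : ℝ) / om⌉₊ : ℝ) := Nat.cast_nonneg _
  have hp3 : (0 : ℝ) ≤ (⌈(y : ℝ) / ga⌉₊ : ℝ) := Nat.cast_nonneg _
  have hT1 : 3 * (x : ℝ) ≤ c / 4 * T := by
    have h1 : 12 * (x : ℝ) / c ≤ T := by linarith
    rw [div_le_iff₀ hc] at h1
    linarith
  have hT2 : 3 * (x : ℝ) ≤ om * T := by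
    have h1 : 3 * (x : ℝ) / om ≤ T := by linarith
    rw [div_le_iff₀ hom] at h1
    linarith
  have hT3 : (y : ℝ) ≤ ga * T := by
    have h1 : (y : ℝ) / ga ≤ T := by linarith
    rw [div_le_iff₀ hga] at h1
    linarith
  -- sums
  have hsum' : pre.sum + (s + t + post.sum) = T := by
    rw [List.sum_append, List.sum_append] at hsum
    have : ([s, t] : List ℕ).sum = s + t := by simp
    omega
  have hlsum : (as ++ x :: 1 :: y :: bs).sum = as.sum + x + 1 + y + bs.sum := by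
    rw [List.sum_append]
    simp only [List.sum_cons]
    omega
  have hposas : ∀ a ∈ as ++ [x], 1 ≤ a := by
    intro a ha
    rcases List.mem_append.1 ha with h | h
    · exact has a h
    · rw [List.mem_singleton] at h
      omega
  have hposy : ∀ b ∈ y :: bs, 1 ≤ b := by
    intro b hb
    rcases List.mem_cons.1 hb with h | h
    · omega
    · exact hbs b h
  -- (0)
  have h0 := hPV2 (as ++ [x]) bs pre [s, t] post 1 y T hposas hbs le_rfl hy (by
    have : ([s, t] : List ℕ).sum = s + t := by simp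
    omega)
  have e1 : (as ++ [x]) ++ 1 :: y :: bs = as ++ x :: 1 :: y :: bs := by simp
  have e2 : pre ++ ([s, t] ++ post) = pre ++ [s, t] ++ post := by simp
  have e3 : (as ++ [x]) ++ [1] = as ++ [x, 1] := by simp
  have e4 : (as ++ [x]) ++ [1, y] = as ++ [x, 1, y] := by simp
  have e6 : (as ++ [x]).sum = as.sum + x := by simp
  have e7 : ([s, t] : List ℕ).sum = s + t := by simp
  rw [e1, e2, e3, e4, e6, e7, ← hKdef] at h0
  have e8 : as.sum + x + 1 + y + bs.sum - 1 = as.sum + x + y + bs.sum := by omega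
  rw [e8] at h0
  have h0r : (D (as ++ x :: 1 :: y :: bs) (pre ++ [s, t] ++ post) : ℝ) ≤
      (D (as ++ [x, 1]) pre : ℝ) * (D (y :: bs) post : ℝ) +
      (K : ℝ) * ((D (as ++ [x, 1, y]) pre : ℝ) * (T : ℝ) ^ bs.sum +
        (T : ℝ) ^ (as.sum + x) * (D (1 :: y :: bs) post : ℝ) +
        (K : ℝ) * (((s + t : ℕ) : ℝ) * (T : ℝ) ^ (as.sum + x + y + bs.sum))) := by
    exact_mod_cast h0
  obtain ⟨F, hF⟩ : ∃ F : ℝ, F = (D (as ++ [x, 1]) pre : ℝ) := ⟨_, rfl⟩
  obtain ⟨G, hG⟩ : ∃ G : ℝ, G = (D (y :: bs) post : ℝ) := ⟨_, rfl⟩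
  obtain ⟨Dn, hDn⟩ : ∃ Dn : ℝ, Dn = (D (as ++ x :: 1 :: y :: bs) (pre ++ [s, t] ++ post) : ℝ) :=
    ⟨_, rfl⟩
  have hG0 : 0 ≤ G := by rw [hG]; exact Nat.cast_nonneg _
  have hF0 : 0 ≤ F := by rw [hF]; exact Nat.cast_nonneg _
  obtain ⟨TN, hTN⟩ : ∃ TN : ℝ, TN = (T : ℝ) ^ (as.sum + x + 1 + y + bs.sum) := ⟨_, rfl⟩
  have hTN0 : 0 < TN := by rw [hTN]; positivity
  have p1 : (T : ℝ) ^ (as.sum + x + 1 + y) * (T : ℝ) ^ bs.sum = TN := by
    rw [hTN, ← pow_add]
  have p2 : (T : ℝ) ^ (as.sum + x) * (T : ℝ) ^ (1 + y + bs.sum) = TN := by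
    rw [hTN, ← pow_add]
    congr 1
    omega
  have p3 : (T : ℝ) * (T : ℝ) ^ (as.sum + x + y + bs.sum) = TN := by
    rw [hTN, ← pow_succ']
    congr 1
    omega
  have p4 : (T : ℝ) ^ (as.sum + x + 1) * (T : ℝ) ^ (y + bs.sum) = TN := by
    rw [hTN, ← pow_add]
    congr 1
    omega
  have q1 : (D (as ++ [x, 1, y]) pre : ℝ) * (T : ℝ) ^ bs.sum ≤ de * TN := by
    have := mul_le_mul_of_nonneg_right hn1.le (pow_nonneg hTr.le bs.sum)
    rw [mul_assoc, p1] at this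
    exact this
  have q2 : (T : ℝ) ^ (as.sum + x) * (D (1 :: y :: bs) post : ℝ) ≤ de * TN := by
    have := mul_le_mul_of_nonneg_left hn2.le (pow_nonneg hTr.le (as.sum + x))
    calc (T : ℝ) ^ (as.sum + x) * (D (1 :: y :: bs) post : ℝ)
        ≤ (T : ℝ) ^ (as.sum + x) * (de * (T : ℝ) ^ (1 + y + bs.sum)) := this
      _ = de * ((T : ℝ) ^ (as.sum + x) * (T : ℝ) ^ (1 + y + bs.sum)) := by ring
      _ = de * TN := by rw [p2]
  have q3 : ((s + t : ℕ) : ℝ) * (T : ℝ) ^ (as.sum + x + y + bs.sum) ≤ ep * TN := by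
    have := mul_le_mul_of_nonneg_right hst (pow_nonneg hTr.le (as.sum + x + y + bs.sum))
    rw [mul_assoc, p3] at this
    exact this
  have r0 : Dn ≤ F * G + (et / 4 + et / 8) * TN := by
    rw [← hDn, ← hF, ← hG] at h0r
    have h1 : (K : ℝ) * ((D (as ++ [x, 1, y]) pre : ℝ) * (T : ℝ) ^ bs.sum +
        (T : ℝ) ^ (as.sum + x) * (D (1 :: y :: bs) post : ℝ) +
        (K : ℝ) * (((s + t : ℕ) : ℝ) * (T : ℝ) ^ (as.sum + x + y + bs.sum))) ≤
        (K : ℝ) * (de * TN + de * TN + (K : ℝ) * (ep * TN)) := by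
      apply mul_le_mul_of_nonneg_left _ hKr.le
      have := mul_le_mul_of_nonneg_left q3 hKr.le
      linarith
    have h2 : (K : ℝ) * (de * TN + de * TN + (K : ℝ) * (ep * TN)) =
        2 * (K * de) * TN + ((K : ℝ) * (K * ep)) * TN := by ring
    rw [h2, hep1] at h1
    have h3 : 2 * (K * de) * TN ≤ et / 4 * TN := by
      apply mul_le_mul_of_nonneg_right _ hTN0.le
      linarith
    linarith
  have hcD : c * TN ≤ Dn := by
    rw [hlsum, ← hTN, ← hDn] at hDc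
    exact (mul_le_mul_of_nonneg_right hcc0 hTN0.le).trans hDc
  have hGle : G ≤ (T : ℝ) ^ (y + bs.sum) := by
    have h1 : D (y :: bs) post ≤ T ^ (y + bs.sum) := by
      have h2 := hPOW (y :: bs) post hposy
      rw [List.sum_cons] at h2
      exact h2.trans (Nat.pow_le_pow_left (by omega) _)
    rw [hG]
    exact_mod_cast h1
  -- F is large
  have hFl : ga * (T : ℝ) ^ (as.sum + x + 1) ≤ F := by
    have h1 : c / 2 * TN ≤ F * G := by
      have h2 : (et / 4 + et / 8) * TN ≤ c / 2 * TN := by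
        apply mul_le_mul_of_nonneg_right _ hTN0.le
        linarith
      linarith
    have h2 : F * G ≤ F * (T : ℝ) ^ (y + bs.sum) := mul_le_mul_of_nonneg_left hGle hF0
    have h3 : ga * (T : ℝ) ^ (as.sum + x + 1) * (T : ℝ) ^ (y + bs.sum) ≤
        F * (T : ℝ) ^ (y + bs.sum) := by
      have h4 : ga * TN ≤ c / 2 * TN := by
        apply mul_le_mul_of_nonneg_right _ hTN0.le
        rw [hgadef]
        linarith
      rw [mul_assoc, p4]
      linarith
    exact le_of_mul_le_mul_right h3 (pow_pos hTr _)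
  -- the place
  obtain ⟨pre1, u, pre2, hpre, hp1, hp2⟩ := kpl_prefix (as ++ [x, 1]) (by simp)
    (ga * (T : ℝ) ^ (as.sum + x + 1)) (by positivity) pre (by rw [← hF]; exact hFl)
  obtain ⟨w, hw⟩ : ∃ w : ℕ, w = pre2.sum := ⟨_, rfl⟩
  have hpsum : pre1.sum + (u + w) = pre.sum := by
    rw [hpre, List.sum_append, List.sum_cons, hw]
  have hPpre : Pos pre := fun z hz => hopt.1 z (by simp [hz])
  have hu : 1 ≤ u := hPpre u (by rw [hpre]; simp)
  have hPpre1 : Pos pre1 := fun z hz => hPpre z (by rw [hpre]; simp [hz])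
  -- (1)
  have hsmall : ∀ e ∈ pre2, e ≤ ⌊ga * (T : ℝ)⌋₊ := by
    intro e he
    apply Nat.le_floor
    refine kpl_small hDPR as pre1 pre2 x y u e T ga de ga hy hga hT hde1 hT3 hp2 ?_ he
    rw [← hpre]
    exact hn1
  have hE : ((⌊ga * (T : ℝ)⌋₊ : ℕ) : ℝ) ≤ ga * T := Nat.floor_le (by positivity)
  have hET : ⌊ga * (T : ℝ)⌋₊ ≤ T := by
    have h1 : ga * (T : ℝ) ≤ T := by
      calc ga * (T : ℝ) ≤ 1 * T := mul_le_mul_of_nonneg_right hga1 hTr.le
        _ = T := one_mul _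
    have h2 : ((⌊ga * (T : ℝ)⌋₊ : ℕ) : ℝ) ≤ T := hE.trans h1
    exact_mod_cast h2
  have h1 := hFUP as pre1 pre2 x u T ⌊ga * (T : ℝ)⌋₊ has hx (by rw [← hw]; omega) hET hsmall
  rw [← hpre, ← hw] at h1
  obtain ⟨A, hA⟩ : ∃ A : ℝ, A = (D (as ++ [x]) pre1 : ℝ) := ⟨_, rfl⟩
  obtain ⟨B, hB⟩ : ∃ B : ℝ, B = (D as pre1 : ℝ) := ⟨_, rfl⟩
  obtain ⟨Cu, hCu⟩ : ∃ Cu : ℝ, Cu = (u.choose x : ℝ) := ⟨_, rfl⟩
  have h1r : F ≤ (D (as ++ [x, 1]) pre1 : ℝ) + (A * ((u + w : ℕ) : ℝ) + B * (Cu * (w : ℝ))) +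
      ((⌊ga * (T : ℝ)⌋₊ : ℕ) : ℝ) * (T : ℝ) ^ (as.sum + x) := by
    rw [hF, hA, hB, hCu]
    exact_mod_cast h1
  have hB0 : 0 ≤ B := by rw [hB]; exact Nat.cast_nonneg _
  have hA0 : 0 ≤ A := by rw [hA]; exact Nat.cast_nonneg _
  have hCu0 : 0 ≤ Cu := by rw [hCu]; exact Nat.cast_nonneg _
  have h1s : F ≤ (et / 8 + et / 8) * (T : ℝ) ^ (as.sum + x + 1) +
      (A * ((u + w : ℕ) : ℝ) + B * (Cu * (w : ℝ))) := by
    have h2 : ((⌊ga * (T : ℝ)⌋₊ : ℕ) : ℝ) * (T : ℝ) ^ (as.sum + x) ≤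
        ga * (T : ℝ) ^ (as.sum + x + 1) := by
      calc ((⌊ga * (T : ℝ)⌋₊ : ℕ) : ℝ) * (T : ℝ) ^ (as.sum + x)
          ≤ ga * T * (T : ℝ) ^ (as.sum + x) := mul_le_mul_of_nonneg_right hE (by positivity)
        _ = ga * (T : ℝ) ^ (as.sum + x + 1) := by rw [pow_succ]; ring
    have h3 : ga * (T : ℝ) ^ (as.sum + x + 1) = et / 8 * (T : ℝ) ^ (as.sum + x + 1) := by
      rw [hgadef]
    rw [h3] at h2 hp1
    linarith
  -- bound for Dn
  have hDn1 : Dn ≤ (A * ((u + w : ℕ) : ℝ) + B * (Cu * (w : ℝ))) * G + et * TN := by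
    have h2 := mul_le_mul_of_nonneg_right h1s hG0
    have h3 : ((et / 8 + et / 8) * (T : ℝ) ^ (as.sum + x + 1) +
        (A * ((u + w : ℕ) : ℝ) + B * (Cu * (w : ℝ)))) * G =
        (et / 4) * ((T : ℝ) ^ (as.sum + x + 1) * G) +
        (A * ((u + w : ℕ) : ℝ) + B * (Cu * (w : ℝ))) * G := by ring
    have h4 : (T : ℝ) ^ (as.sum + x + 1) * G ≤ TN := by
      rw [← p4]
      exact mul_le_mul_of_nonneg_left hGle (by positivity)
    have h5 : (et / 4) * ((T : ℝ) ^ (as.sum + x + 1) * G) ≤ (et / 4) * TN :=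
      mul_le_mul_of_nonneg_left h4 (by positivity)
    have h6 : 0 ≤ et * TN := by positivity
    rw [h3] at h2
    linarith
  -- comparison lists
  have hls : (as ++ [x, 1]) ++ (y :: bs) = as ++ x :: 1 :: y :: bs := by simp
  have hopt' : OptL ((as ++ [x, 1]) ++ (y :: bs)) (pre ++ ([s, t] ++ post)) := by
    rw [hls, e2]
    exact hopt
  have hGp : D (y :: bs) post ≤ D (y :: bs) ([s, t] ++ post) :=
    (kpl_mono (y :: bs) post t).trans (kpl_mono (y :: bs) (t :: post) s)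
  have hcmp : ∀ (pre' : List ℕ) (m : ℕ), Pos pre' → pre'.sum = pre.sum →
      m ≤ D (as ++ [x, 1]) pre' → (m : ℝ) * G ≤ Dn := by
    intro pre' m h2 h3 h4
    have h5 := kpl_cmp hDPR (as ++ [x, 1]) (y :: bs) pre pre' ([s, t] ++ post) m hopt' h2 h3 h4
    have h6 : m * D (y :: bs) post ≤ D (as ++ x :: 1 :: y :: bs) (pre ++ [s, t] ++ post) := by
      rw [hls, e2] at h5
      exact (Nat.mul_le_mul_left _ hGp).trans h5
    rw [hG, hDn]
    exact_mod_cast h6
  have hlamC : ∀ v : ℕ, 3 * x ≤ v → ∃ p q : ℕ, p + q = v ∧ 1 ≤ p ∧ 1 ≤ q ∧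
      lam * (v : ℝ) ^ (x + 1) ≤ (p.choose x : ℝ) * (q : ℝ) := by
    intro v hv
    obtain ⟨p, q, h2, h3, h4, h5⟩ := hCHL x v hx hv
    refine ⟨p, q, h2, h3, h4, ?_⟩
    have h6 : ((v : ℝ)) ^ (x + 1) ≤ 2 * (3 * (x : ℝ)) ^ x * ((p.choose x : ℝ) * (q : ℝ)) := by
      exact_mod_cast h5
    rw [hlamdef, inv_mul_le_iff₀ (by positivity)]
    exact h6
  have hQle : B * G ≤ (T : ℝ) ^ (as.sum + y + bs.sum) := by
    have h2 : D as pre1 ≤ T ^ as.sum :=
      (hPOW as pre1 has).trans (Nat.pow_le_pow_left (by omega) _)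
    have h3 : B ≤ (T : ℝ) ^ as.sum := by rw [hB]; exact_mod_cast h2
    calc B * G ≤ (T : ℝ) ^ as.sum * (T : ℝ) ^ (y + bs.sum) :=
          mul_le_mul h3 hGle hG0 (by positivity)
      _ = (T : ℝ) ^ (as.sum + y + bs.sum) := by rw [← pow_add]; congr 1; omega
  have hABle : A ≤ B * (T : ℝ) ^ x := by
    have h2 : D (as ++ [x]) pre1 ≤ D as pre1 * T ^ x := by
      have h3 : D [x] pre1 ≤ T ^ x := by
        have h4 := hPOW [x] pre1 (by intro l hl; rw [List.mem_singleton] at hl; omega)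
        rw [List.sum_singleton] at h4
        exact h4.trans (Nat.pow_le_pow_left (by omega) _)
      exact (hSUB as [x] pre1).trans (Nat.mul_le_mul_left _ h3)
    rw [hA, hB]
    exact_mod_cast h2
  have hCule : Cu ≤ (T : ℝ) ^ x := by
    have h2 : u.choose x ≤ T ^ x := (Nat.choose_le_pow u x).trans (Nat.pow_le_pow_left (by omega) _)
    rw [hCu]
    exact_mod_cast h2
  have hPTN : (T : ℝ) ^ (as.sum + y + bs.sum) * (T : ℝ) ^ (x + 1) = TN := by
    rw [hTN, ← pow_add]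
    congr 1
    omega
  refine kpl_core x c lam om et (T : ℝ) ((T : ℝ) ^ (as.sum + y + bs.sum)) A B G Cu
    ((u + w : ℕ) : ℝ) (w : ℝ) hc hlam homdef (by linarith) het2 het3 hTr (by positivity) hB0 hG0
    hQle hABle hCule (Nat.cast_nonneg _) (by exact_mod_cast (by omega : w ≤ u + w))
    (by exact_mod_cast (by omega : u + w ≤ T)) ?_ ?_ ?_ hT1 hT2
  · rw [hPTN]
    exact hcD.trans hDn1
  · intro hw3
    have hw3' : 3 * x ≤ w := by exact_mod_cast hw3
    obtain ⟨p, q, h2, h3, h4, h5⟩ := hlamC w hw3'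
    have h6 := (hLB3 as pre1 x u p q).1
    have h7 := hcmp (pre1 ++ [u, p, q]) _ (by
      intro z hz
      rcases List.mem_append.1 hz with h | h
      · exact hPpre1 z h
      · simp only [List.mem_cons, List.not_mem_nil, or_false] at h
        omega) (by
      rw [List.sum_append]
      simp only [List.sum_cons, List.sum_nil]
      omega) h6
    rw [h2] at h7
    have h8 : ((D (as ++ [x]) pre1 * (u + w) + D as pre1 * (u.choose x * w + p.choose x * q) : ℕ) : ℝ)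
        = A * ((u + w : ℕ) : ℝ) + B * (Cu * (w : ℝ)) + B * ((p.choose x : ℝ) * (q : ℝ)) := by
      rw [hA, hB, hCu]
      push_cast
      ring
    rw [h8] at h7
    rw [hPTN]
    have h9 : B * ((p.choose x : ℝ) * (q : ℝ)) * G ≤ et * TN := by
      have h10 := h7.trans hDn1
      have h11 : (A * ((u + w : ℕ) : ℝ) + B * (Cu * (w : ℝ)) + B * ((p.choose x : ℝ) * (q : ℝ))) * G
        = (A * ((u + w : ℕ) : ℝ) + B * (Cu * (w : ℝ))) * G + B * ((p.choose x : ℝ) * (q : ℝ)) * G := by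
        ring
      rw [h11] at h10
      linarith
    calc lam * (w : ℝ) ^ (x + 1) * (B * G) ≤ (p.choose x : ℝ) * (q : ℝ) * (B * G) :=
          mul_le_mul_of_nonneg_right h5 (mul_nonneg hB0 hG0)
      _ = B * ((p.choose x : ℝ) * (q : ℝ)) * G := by ring
      _ ≤ et * TN := h9
  · intro hv3
    have hv3' : 3 * x ≤ u + w := by exact_mod_cast hv3
    obtain ⟨p, q, h2, h3, h4, h5⟩ := hlamC (u + w) hv3'
    have h6 := (hLB3 as pre1 x u p q).2
    have h7 := hcmp (pre1 ++ [p, q]) _ (by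
      intro z hz
      rcases List.mem_append.1 hz with h | h
      · exact hPpre1 z h
      · simp only [List.mem_cons, List.not_mem_nil, or_false] at h
        omega) (by
      rw [List.sum_append]
      simp only [List.sum_cons, List.sum_nil]
      omega) h6
    rw [h2] at h7
    have h8 : ((D (as ++ [x]) pre1 * (u + w) + D as pre1 * (p.choose x * q) : ℕ) : ℝ)
        = A * ((u + w : ℕ) : ℝ) + B * ((p.choose x : ℝ) * (q : ℝ)) := by
      rw [hA, hB]
      push_cast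
      ring
    rw [h8] at h7
    rw [hPTN]
    have h9 : B * ((p.choose x : ℝ) * (q : ℝ)) * G ≤ Cu * (w : ℝ) * (B * G) + et * TN := by
      have h10 := h7.trans hDn1
      have h11 : (A * ((u + w : ℕ) : ℝ) + B * ((p.choose x : ℝ) * (q : ℝ))) * G
        = A * ((u + w : ℕ) : ℝ) * G + B * ((p.choose x : ℝ) * (q : ℝ)) * G := by ring
      have h12 : (A * ((u + w : ℕ) : ℝ) + B * (Cu * (w : ℝ))) * G
        = A * ((u + w : ℕ) : ℝ) * G + Cu * (w : ℝ) * (B * G) := by ring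
      rw [h11, h12] at h10
      linarith
    calc lam * ((u + w : ℕ) : ℝ) ^ (x + 1) * (B * G) ≤ (p.choose x : ℝ) * (q : ℝ) * (B * G) :=
          mul_le_mul_of_nonneg_right h5 (mul_nonneg hB0 hG0)
      _ = B * ((p.choose x : ℝ) * (q : ℝ)) * G := by ring
      _ ≤ Cu * (w : ℝ) * (B * G) + et * TN := h9

end Pool.LAY
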