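import Pool.Agent.H97.LAY.Stmts4

/-!
# Board `lay` (MP_609328_co): row KPM (helper45)
-/

set_option autoImplicit false

namespace Pool.LAY

open Finset

namespace KPMaux

lemma optL_reverse (hR : REVStmt) (ls ns : List ℕ) (h : OptL ls ns) :
    OptL ls.reverse ns.reverse := by
  obtain ⟨h1, h2⟩ := h
  refine ⟨fun x hx => h1 x (List.mem_reverse.mp hx), ?_⟩
  intro ns' hp hs
  have h3 : D ls.reverse ns' = D ls ns'.reverse := by
    have := hR ls ns'.reverse
    rwa [List.reverse_reverse] at this
  rw [h3, hR ls ns]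
  refine h2 ns'.reverse (fun x hx => hp x (List.mem_reverse.mp hx)) ?_
  rw [List.sum_reverse, hs, List.sum_reverse]

end KPMaux

open KPMaux

theorem KPM (hK : KPLStmt) (hR : REVStmt) : KPMStmt := by
  intro as bs x y has hbs hx hy c hc
  obtain ⟨δ, ε, hδ, hε, T0, h⟩ := hK bs.reverse as.reverse y x
    (fun l hl => hbs l (List.mem_reverse.mp hl)) (fun l hl => has l (List.mem_reverse.mp hl))
    hy hx c hc
  refine ⟨δ, ε, hδ, hε, T0, ?_⟩
  intro pre post s t T hO hsum hT hst hD
  have e1 : bs.reverse ++ y :: 1 :: x :: as.reverse = (as ++ x :: 1 :: y :: bs).reverse := by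
    simp
  have e2 : post.reverse ++ [t, s] ++ pre.reverse = (pre ++ [s, t] ++ post).reverse := by
    simp
  have e3 : bs.reverse ++ [y, 1, x] = (x :: 1 :: y :: bs).reverse := by simp
  have e4 : 1 :: x :: as.reverse = (as ++ [x, 1]).reverse := by simp
  have h1 := h post.reverse pre.reverse t s T
    (by rw [e1, e2]; exact optL_reverse hR _ _ hO)
    (by rw [e2, List.sum_reverse]; exact hsum) hT (by rw [add_comm t s]; exact hst)
    (by rw [e1, e2, List.sum_reverse, hR]; exact hD)
  rw [e3, e4, hR, hR, List.sum_reverse, List.sum_reverse] at h1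
  rcases h1 with h1 | h1
  · right
    have e5 : bs.sum + y + 1 + x = x + 1 + y + bs.sum := by omega
    rwa [e5] at h1
  · left
    have e5 : 1 + x + as.sum = as.sum + x + 1 := by omega
    rwa [e5] at h1

end Pool.LAY
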