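import Pool.Agent.H97.LAY.Stmts4

/-!
# Row LB3: lower bound for the last two entries
-/

set_option autoImplicit false

namespace Pool.LAY

open Finset

theorem lb3_aux (h1 : APPStmt) (as pre Z : List ℕ) (x : ℕ) :
    D (as ++ [x]) pre * D [1] Z + D as pre * D [x, 1] Z ≤ D (as ++ [x, 1]) (pre ++ Z) := by
  rw [h1]
  have hlen : (as ++ [x, 1]).length + 1 = as.length + 1 + 1 + 1 := by simp
  rw [hlen, sum_range_succ, sum_range_succ, sum_range_succ]
  have h2 : (as ++ [x, 1]).take as.length = as := by simp
  have h3 : (as ++ [x, 1]).drop as.length = [x, 1] := by simp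
  have h4 : (as ++ [x, 1]).take (as.length + 1) = as ++ [x] := by
    have h : as ++ [x, 1] = (as ++ [x]) ++ [1] := by simp
    have h' : as.length + 1 = (as ++ [x]).length := by simp
    rw [h, h', List.take_left]
  have h5 : (as ++ [x, 1]).drop (as.length + 1) = [1] := by
    rw [← List.drop_drop, h3]
    rfl
  rw [h2, h3, h4, h5]
  omega

/-- row LB3 -/
theorem LB3 (h1 : APPStmt) : LB3Stmt := by
  intro as pre1 x u v w
  have e1 : D [1] [u, v, w] = u + (v + w) := by
    simp [D]
  have e2 : D [1] [v, w] = v + w := by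
    simp [D]
  have e3 : D [x, 1] [u, v, w] = u.choose x * (v + w) + v.choose x * w := by
    simp [D]
  have e4 : D [x, 1] [v, w] = v.choose x * w := by
    simp [D]
  refine ⟨?_, ?_⟩
  · have h := lb3_aux h1 as pre1 [u, v, w] x
    rw [e1, e3] at h
    exact h
  · have h := lb3_aux h1 as pre1 [v, w] x
    rw [e2, e4] at h
    exact h

end Pool.LAY
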