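import Pool.Agent.H97.LAY.Stmts

/-!
# Board `lay`, row LBO: occurrences are labelings
-/

set_option autoImplicit false

namespace Pool.LAY

open Finset

/-- two monotone maps with the same fibre sizes are equal -/
private theorem lbo_mono {s k : ℕ} {g b : Fin s → Fin k} (hg : Monotone g) (hb : Monotone b)
    (h : ∀ j, (univ.filter fun a => g a = j).card = (univ.filter fun a => b a = j).card) :
    g = b := by
  have key : ∀ j, (univ.filter fun a => g a ≤ j) = (univ.filter fun a => b a ≤ j) := by
    intro j
    have hcard : ∀ c : Fin s → Fin k, (univ.filter fun a => c a ≤ j).card =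
        ∑ i ∈ univ.filter (fun i => i ≤ j), (univ.filter fun a => c a = i).card := by
      intro c
      rw [Finset.card_eq_sum_card_fiberwise (f := c) (t := univ.filter (fun i => i ≤ j))]
      · refine Finset.sum_congr rfl fun i hi => ?_
        congr 1
        ext a
        simp only [mem_filter, mem_univ, true_and] at hi ⊢
        constructor
        · exact fun h => h.2
        · intro h
          subst h
          exact ⟨hi, rfl⟩
      · intro a ha
        simpa using ha
    have h1 : (univ.filter fun a => g a ≤ j).card = (univ.filter fun a => b a ≤ j).card := by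
      rw [hcard g, hcard b]
      exact Finset.sum_congr rfl fun i _ => h i
    have h2 : IsLowerSet ((univ.filter fun a => g a ≤ j : Finset (Fin s)) : Set (Fin s)) := by
      intro x y hxy hx
      simp only [coe_filter, mem_univ, true_and, Set.mem_ofPred_eq] at hx ⊢
      exact (hg hxy).trans hx
    have h3 : IsLowerSet ((univ.filter fun a => b a ≤ j : Finset (Fin s)) : Set (Fin s)) := by
      intro x y hxy hx
      simp only [coe_filter, mem_univ, true_and, Set.mem_ofPred_eq] at hx ⊢
      exact (hb hxy).trans hx
    rcases h2.total h3 with h4 | h4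
    · exact Finset.eq_of_subset_of_card_le (Finset.coe_subset.1 h4) h1.ge
    · exact (Finset.eq_of_subset_of_card_le (Finset.coe_subset.1 h4) h1.le).symm
  funext a
  apply le_antisymm
  · have h1 : a ∈ univ.filter fun a' => b a' ≤ b a := by simp
    rw [← key] at h1
    simpa using h1
  · have h1 : a ∈ univ.filter fun a' => g a' ≤ g a := by simp
    rw [key] at h1
    simpa using h1

/-- the labeling of an embedding -/
private noncomputable def lbl {s n k : ℕ} (b : Fin s → Fin k) (e : Fin s ↪o Fin n) (x : Fin n) :
    Option (Fin k) :=
  open Classical in if h : ∃ a, e a = x then some (b h.choose) else none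

private theorem lbl_apply {s n k : ℕ} (b : Fin s → Fin k) (e : Fin s ↪o Fin n) (a : Fin s) :
    lbl b e (e a) = some (b a) := by
  have h : ∃ a', e a' = e a := ⟨a, rfl⟩
  unfold lbl
  rw [dif_pos h]
  congr 2
  exact e.injective h.choose_spec

private theorem lbl_none {s n k : ℕ} (b : Fin s → Fin k) (e : Fin s ↪o Fin n) (x : Fin n)
    (h : ¬ ∃ a, e a = x) : lbl b e x = none := by
  unfold lbl
  rw [dif_neg h]

private theorem lbl_some {s n k : ℕ} {b : Fin s → Fin k} {e : Fin s ↪o Fin n} {x : Fin n}
    {j : Fin k} (h : lbl b e x = some j) : ∃ a, e a = x ∧ b a = j := by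
  by_cases h1 : ∃ a, e a = x
  · obtain ⟨a, rfl⟩ := h1
    rw [lbl_apply] at h
    exact ⟨a, rfl, by simpa using h⟩
  · rw [lbl_none b e x h1] at h
    simp at h

private theorem lbl_lab {s n k : ℕ} {σ : Equiv.Perm (Fin s)} {b : Fin s → Fin k}
    {π : Equiv.Perm (Fin n)} (hσ : IsLayering σ b) (e : Fin s ↪o Fin n)
    (he : ∀ a c : Fin s, σ a < σ c ↔ π (e a) < π (e c)) :
    Lab (layerSize b) (fun x : Fin n => (x : ℕ)) (fun x : Fin n => (π x : ℕ)) (lbl b e) := by
  obtain ⟨-, hmono, hdec, hinc⟩ := hσ
  constructor
  · intro j
    have h1 : Nat.card {x : Fin n // lbl b e x = some j} = Nat.card {a : Fin s // b a = j} := by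
      refine (Nat.card_congr (Equiv.ofBijective
        (fun a : {a : Fin s // b a = j} => (⟨e a.1, by rw [lbl_apply, a.2]⟩ :
          {x : Fin n // lbl b e x = some j})) ⟨?_, ?_⟩)).symm
      · intro a a' h
        have := congrArg Subtype.val h
        exact Subtype.ext (e.injective this)
      · rintro ⟨x, hx⟩
        obtain ⟨a, ha, hb⟩ := lbl_some hx
        exact ⟨⟨a, hb⟩, Subtype.ext ha⟩
    rw [h1, Nat.card_eq_fintype_card, Fintype.card_subtype]
    rfl
  · intro x y i j hxy hx hy
    obtain ⟨a, rfl, rfl⟩ := lbl_some hx
    obtain ⟨c, rfl, rfl⟩ := lbl_some hy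
    have hac : a < c := e.lt_iff_lt.1 (by exact_mod_cast hxy)
    rcases (hmono hac.le).lt_or_eq with h1 | h1
    · right
      refine ⟨h1, ?_⟩
      have := (he a c).1 (hinc a c h1)
      exact_mod_cast this
    · left
      refine ⟨h1, ?_⟩
      have := (he c a).1 (hdec a c hac h1)
      exact_mod_cast this

theorem LBO : LBOStmt := by
  intro s n k σ b π hσ
  unfold occ
  refine Nat.card_congr (Equiv.ofBijective
    (fun e : {e : Fin s ↪o Fin n // ∀ a b : Fin s, σ a < σ b ↔ π (e a) < π (e b)} =>
      (⟨lbl b e.1, lbl_lab hσ e.1 e.2⟩ : {f : Fin n → Option (Fin k) //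
        Lab (layerSize b) (fun x : Fin n => (x : ℕ)) (fun x : Fin n => (π x : ℕ)) f})) ⟨?_, ?_⟩)
  · rintro ⟨e, he⟩ ⟨e', he'⟩ h
    have h1 : lbl b e = lbl b e' := congrArg Subtype.val h
    apply Subtype.ext
    show e = e'
    have hr : Set.range e = Set.range e' := by
      ext x
      constructor
      · rintro ⟨a, rfl⟩
        by_contra h2
        have h3 := lbl_none b e' (e a) (by simpa using h2)
        rw [← h1, lbl_apply] at h3
        simp at h3
      · rintro ⟨a, rfl⟩
        by_contra h2
        have h3 := lbl_none b e (e' a) (by simpa using h2)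
        rw [h1, lbl_apply] at h3
        simp at h3
    exact DFunLike.coe_injective ((StrictMono.range_inj e.strictMono e'.strictMono).1 hr)
  · rintro ⟨f, hf⟩
    obtain ⟨hf1, hf2⟩ := hf
    obtain ⟨hsurj, hmono, hdec, hinc⟩ := hσ
    set S : Finset (Fin n) := univ.filter fun x => (f x).isSome with hS
    have hScard : S.card = s := by
      have h1 : S.card = ∑ j : Fin k, (S.filter fun x => f x = some j).card := by
        have h2 : S = univ.biUnion fun j : Fin k => S.filter fun x => f x = some j := by
          ext x
          simp only [hS, mem_filter, mem_univ, true_and, mem_biUnion]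
          constructor
          · intro h
            obtain ⟨j, hj⟩ := Option.isSome_iff_exists.1 h
            exact ⟨j, h, hj⟩
          · rintro ⟨j, h, _⟩
            exact h
        conv_lhs => rw [h2]
        rw [Finset.card_biUnion]
        intro i _ j _ hij
        rw [Function.onFun, Finset.disjoint_left]
        intro x hx hx'
        simp only [mem_filter] at hx hx'
        exact hij (by simpa [hx.2] using hx'.2)
      have h3 : ∀ j : Fin k, (S.filter fun x => f x = some j).card = layerSize b j := by
        intro j
        rw [← hf1 j, Nat.card_eq_fintype_card, Fintype.card_subtype]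
        congr 1
        ext x
        simp only [hS, mem_filter, mem_univ, true_and, and_iff_right_iff_imp]
        intro h
        rw [h]; rfl
      rw [h1, Finset.sum_congr rfl fun j _ => h3 j]
      unfold layerSize
      rw [← Finset.card_eq_sum_card_fiberwise (f := b) (s := univ) (t := univ)]
      · simp
      · intro a _
        simp
    set e : Fin s ↪o Fin n := S.orderEmbOfFin hScard with he
    have heS : ∀ a, (f (e a)).isSome := by
      intro a
      have : e a ∈ S := Finset.orderEmbOfFin_mem S hScard a
      simpa [hS] using this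
    have heR : ∀ x, (f x).isSome → ∃ a, e a = x := by
      intro x hx
      have h1 : x ∈ S := by simp [hS, hx]
      have h2 : x ∈ Set.range e := by
        rw [he, Finset.range_orderEmbOfFin]
        exact h1
      exact h2
    set g : Fin s → Fin k := fun a => (f (e a)).get (heS a) with hg
    have hgf : ∀ a, f (e a) = some (g a) := fun a => (Option.some_get (heS a)).symm
    have hgm : Monotone g := by
      intro a c hac
      rcases hac.lt_or_eq with h | h
      · have h1 : (e a : ℕ) < (e c : ℕ) := by exact_mod_cast (e.strictMono h)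
        rcases hf2 (e a) (e c) (g a) (g c) h1 (hgf a) (hgf c) with h2 | h2
        · exact h2.1.le
        · exact h2.1.le
      · rw [h]
    have hgb : g = b := by
      apply lbo_mono hgm hmono
      intro j
      have h1 : (univ.filter fun a => b a = j).card = layerSize b j := rfl
      rw [h1, ← hf1 j, ← Fintype.card_subtype, ← Nat.card_eq_fintype_card]
      refine Nat.card_congr (Equiv.ofBijective
        (fun a : {a : Fin s // g a = j} => (⟨e a.1, by rw [hgf, a.2]⟩ :
          {x : Fin n // f x = some j})) ⟨?_, ?_⟩)
      · intro a a' h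
        have h0 := congrArg Subtype.val h
        exact Subtype.ext (e.injective h0)
      · rintro ⟨x, hx⟩
        obtain ⟨a, ha⟩ := heR x (by rw [hx]; rfl)
        subst ha
        refine ⟨⟨a, ?_⟩, rfl⟩
        rw [hgf] at hx
        simpa using hx
    have hlt : ∀ a c : Fin s, a < c →
        (σ a < σ c ↔ π (e a) < π (e c)) ∧ (σ c < σ a ↔ π (e c) < π (e a)) := by
      intro a c hac
      have h1 : (e a : ℕ) < (e c : ℕ) := by exact_mod_cast (e.strictMono hac)
      have h2 := hf2 (e a) (e c) (g a) (g c) h1 (hgf a) (hgf c)
      rw [hgb] at h2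
      rcases h2 with ⟨h3, h4⟩ | ⟨h3, h4⟩
      · have h5 : π (e c) < π (e a) := by exact_mod_cast h4
        have h6 := hdec a c hac h3
        exact ⟨⟨fun h => absurd h (not_lt.2 h6.le), fun h => absurd h (not_lt.2 h5.le)⟩,
          ⟨fun _ => h5, fun _ => h6⟩⟩
      · have h5 : π (e a) < π (e c) := by exact_mod_cast h4
        have h6 := hinc a c h3
        exact ⟨⟨fun _ => h5, fun _ => h6⟩,
          ⟨fun h => absurd h (not_lt.2 h6.le), fun h => absurd h (not_lt.2 h5.le)⟩⟩
    refine ⟨⟨e, ?_⟩, ?_⟩
    · intro a c
      rcases lt_trichotomy a c with h | h | h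
      · exact (hlt a c h).1
      · subst h
        simp
      · exact (hlt c a h).2
    · apply Subtype.ext
      funext x
      show lbl b e x = f x
      by_cases h : ∃ a, e a = x
      · obtain ⟨a, rfl⟩ := h
        rw [lbl_apply, hgf, hgb]
      · rw [lbl_none b e x h]
        by_contra h1
        apply h
        apply heR
        exact Option.ne_none_iff_isSome.1 (Ne.symm h1)

end Pool.LAY
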