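import Pool.Agent.H97.LAY.Stmts

set_option autoImplicit false

namespace Pool.LAY

open Finset

/-- `q^l ≤ C(l q, l)`. -/
theorem low_choose (q l : ℕ) : q ^ l ≤ (l * q).choose l := by
  induction l with
  | zero => simp
  | succ l ih =>
      have h : (l * q).choose l * q.choose 1 ≤ ((l + 1) * q).choose (l + 1) := by
        rw [show (l + 1) * q = l * q + q by ring, Nat.add_choose_eq]
        have hmem : ((l, 1) : ℕ × ℕ) ∈ antidiagonal (l + 1) := by
          exact Finset.HasAntidiagonal.mem_antidiagonal.mpr rfl
        exact Finset.single_le_sum (f := fun ij : ℕ × ℕ => (l * q).choose ij.1 * q.choose ij.2)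
          (fun i _ => Nat.zero_le _) hmem
      calc q ^ (l + 1) = q ^ l * q := pow_succ _ _
        _ ≤ (l * q).choose l * q := Nat.mul_le_mul_right _ ih
        _ = (l * q).choose l * q.choose 1 := by rw [Nat.choose_one_right]
        _ ≤ _ := h

theorem low_D (q : ℕ) (ls : List ℕ) : q ^ ls.sum ≤ D ls (ls.map (fun l => l * q)) := by
  induction ls with
  | nil => simp [D]
  | cons l ls ih =>
      rw [List.map_cons, List.sum_cons, D, pow_add]
      calc q ^ l * q ^ ls.sum ≤ (l * q).choose l * D ls (ls.map (fun l => l * q)) :=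
            Nat.mul_le_mul (low_choose q l) ih
        _ ≤ _ := Nat.le_add_right _ _

theorem LOW : LOWStmt := by
  intro ls hne hpos
  have hS : 1 ≤ ls.sum := by
    cases ls with
    | nil => exact absurd rfl hne
    | cons l ls =>
        rw [List.sum_cons]
        have := hpos l (by simp)
        omega
  have hSr : (0 : ℝ) < (ls.sum : ℝ) := by exact_mod_cast hS
  refine ⟨(((2 * (ls.sum : ℝ)) ^ ls.sum))⁻¹, by positivity, ?_⟩
  intro n hn
  set q : ℕ := n / ls.sum with hq
  have hq1 : 1 ≤ q := by
    rw [hq]
    exact (Nat.one_le_div_iff (by omega)).mpr hn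
  have hqle : ls.sum * q ≤ n := by
    rw [hq]
    exact Nat.mul_div_le n ls.sum
  have hlt : n < ls.sum * (q + 1) := by
    rw [hq]
    exact Nat.lt_mul_div_succ n (by omega)
  have h2 : n ≤ 2 * ls.sum * q := by
    have : ls.sum * (q + 1) ≤ 2 * ls.sum * q := by
      have : ls.sum ≤ ls.sum * q := Nat.le_mul_of_pos_right _ hq1
      calc ls.sum * (q + 1) = ls.sum * q + ls.sum := by ring
        _ ≤ ls.sum * q + ls.sum * q := by omega
        _ = 2 * ls.sum * q := by ring
    omega
  have key : ∃ ns : List ℕ, Pos ns ∧ ns.sum = n ∧ q ^ ls.sum ≤ D ls ns := by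
    cases ls with
    | nil => exact absurd rfl hne
    | cons l ls =>
        refine ⟨(l * q + (n - (l :: ls).sum * q)) :: ls.map (fun l => l * q), ?_, ?_, ?_⟩
        · intro x hx
          rw [List.mem_cons] at hx
          rcases hx with rfl | hx
          · have h1 : 1 ≤ l * q := Nat.mul_pos (hpos l (by simp)) hq1
            omega
          · rw [List.mem_map] at hx
            obtain ⟨a, ha, rfl⟩ := hx
            exact Nat.mul_pos (hpos a (by simp [ha])) hq1
        · rw [List.sum_cons, List.sum_map_mul_right, List.map_id']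
          rw [List.sum_cons] at hqle ⊢
          have : (l + ls.sum) * q = l * q + ls.sum * q := by ring
          omega
        · rw [D, List.sum_cons, pow_add]
          calc q ^ l * q ^ ls.sum
              ≤ (l * q + (n - (l :: ls).sum * q)).choose l * D ls (ls.map (fun l => l * q)) := by
                refine Nat.mul_le_mul ?_ (low_D q ls)
                exact (low_choose q l).trans (Nat.choose_le_choose l (Nat.le_add_right _ _))
            _ ≤ _ := by
                rw [List.sum_cons]
                exact Nat.le_add_right _ _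
  obtain ⟨ns, hP, hsum, hD⟩ := key
  refine ⟨ns, hP, hsum, ?_⟩
  have hDr : ((q : ℝ)) ^ ls.sum ≤ (D ls ns : ℝ) := by exact_mod_cast hD
  have h2r : (n : ℝ) ≤ 2 * (ls.sum : ℝ) * (q : ℝ) := by exact_mod_cast h2
  have h3 : (n : ℝ) ^ ls.sum ≤ (2 * (ls.sum : ℝ)) ^ ls.sum * (q : ℝ) ^ ls.sum := by
    rw [← mul_pow]
    exact pow_le_pow_left₀ (Nat.cast_nonneg _) h2r _
  have hpp : (0 : ℝ) < (2 * (ls.sum : ℝ)) ^ ls.sum := by positivity
  rw [inv_mul_le_iff₀ hpp]
  exact h3.trans (mul_le_mul_of_nonneg_left hDr hpp.le)

end Pool.LAY
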