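import Pool.Agent.H97.LAY.Stmts

/-!
# Row LSZ of the board `lay`: layer sizes
-/

set_option autoImplicit false

namespace Pool.LAY

open Finset

theorem LSZ : LSZStmt := by
  classical
  intro n k b hb
  constructor
  · intro j
    obtain ⟨i, hi⟩ := hb j
    have : 0 < (Finset.univ.filter (fun i => b i = j)).card := by
      rw [Finset.card_pos]
      exact ⟨i, by simp [hi]⟩
    exact this
  · rw [List.sum_ofFn]
    have h1 : (univ : Finset (Fin n)).card = ∑ v, (univ.filter (fun i => b i = v)).card :=
      Finset.card_eq_sum_card_fiberwise (fun i _ => Finset.mem_univ (b i))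
    rw [Finset.card_univ, Fintype.card_fin] at h1
    exact h1.symm

end Pool.LAY
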