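import Pool.Agent.H97.LAY.Stmts4

set_option autoImplicit false

namespace Pool.LAY

open Finset

theorem MTY (hP : POWStmt) : MTYStmt := by
  intro L M
  cases L with
  | nil =>
    intro Y T _ _
    cases M <;> cases Y <;> simp [D]
  | cons l L =>
    induction M with
    | nil =>
      intro Y T _ _
      simp
    | cons m M ih =>
      intro Y T hl hT
      rw [List.sum_cons] at hT
      have hl1 : 1 ≤ l := hl l (by simp)
      have hL : ∀ l' ∈ L, 1 ≤ l' := fun l' h => hl l' (List.mem_cons_of_mem _ h)
      have h1 := ih Y T hl (by omega)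
      have e1 : D (l :: L) (m :: M ++ Y) = m.choose l * D L (M ++ Y) + D (l :: L) (M ++ Y) := rfl
      have h2 : D L (M ++ Y) ≤ T ^ L.sum := by
        refine le_trans (hP L (M ++ Y) hL) ?_
        rw [List.sum_append]
        exact Nat.pow_le_pow_left (by omega) _
      have h3 : m.choose l ≤ m * T ^ (l - 1) := by
        refine le_trans (Nat.choose_le_pow m l) ?_
        obtain ⟨j, rfl⟩ : ∃ j, l = j + 1 := ⟨l - 1, by omega⟩
        rw [pow_succ, mul_comm, Nat.add_sub_cancel]
        exact Nat.mul_le_mul_left _ (Nat.pow_le_pow_left (by omega) _)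
      have h4 : m.choose l * D L (M ++ Y) ≤ m * T ^ ((l :: L).sum - 1) := by
        refine le_trans (Nat.mul_le_mul h3 h2) ?_
        rw [mul_assoc, ← pow_add, List.sum_cons]
        have : l - 1 + L.sum = l + L.sum - 1 := by omega
        rw [this]
      have h5 : m * T ^ ((l :: L).sum - 1) ≤ (l :: L).length * (m * T ^ ((l :: L).sum - 1)) := by
        rw [List.length_cons]
        exact Nat.le_mul_of_pos_left _ (Nat.succ_pos _)
      rw [e1, List.sum_cons (a := m)]
      calc m.choose l * D L (M ++ Y) + D (l :: L) (M ++ Y)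
          ≤ (l :: L).length * (m * T ^ ((l :: L).sum - 1)) +
            (D (l :: L) Y + (l :: L).length * (M.sum * T ^ ((l :: L).sum - 1))) :=
            Nat.add_le_add (le_trans h4 h5) h1
        _ = D (l :: L) Y + (l :: L).length * ((m + M.sum) * T ^ ((l :: L).sum - 1)) := by ring

end Pool.LAY
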