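import Pool.Agent.H97.LAY.Stmts

/-!
# Board `lay` (MP_609328_co): row POS (helper45)
-/

set_option autoImplicit false

namespace Pool.LAY

open Finset

namespace POSaux

lemma gain_term (as bs pre post : List ℕ) (z s t : ℕ) :
    D as pre * D bs post * dl z s t ≤ gain (as ++ z :: bs) pre post s t := by
  have hlen : as.length ∈ range (as ++ z :: bs).length := by simp
  have h := Finset.single_le_sum (f := fun i => D ((as ++ z :: bs).take i) pre *
    D ((as ++ z :: bs).drop (i + 1)) post * dl ((as ++ z :: bs).getD i 0) s t)
    (fun i _ => Nat.zero_le _) hlen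
  have e1 : (as ++ z :: bs).take as.length = as := List.take_left
  have e2 : (as ++ z :: bs).drop (as.length + 1) = bs := by simp
  have e3 : (as ++ z :: bs).getD as.length 0 = z := by simp
  simp only [e1, e2, e3] at h
  exact h

lemma D_nil (xs : List ℕ) : D [] xs = 1 := by
  cases xs <;> rfl

/-- either the whole of `ls` has a positive count in `pre`, or there is a first entry at which the
count becomes zero -/
lemma split_pos (pre : List ℕ) : ∀ (ls as : List ℕ), 0 < D as pre →
    0 < D (as ++ ls) pre ∨ ∃ cs l bs, ls = cs ++ l :: bs ∧ 0 < D (as ++ cs) pre ∧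
      D (as ++ cs ++ [l]) pre = 0 := by
  intro ls
  induction ls with
  | nil => intro as h; left; simpa using h
  | cons l ls ih =>
    intro as h
    by_cases h0 : D (as ++ [l]) pre = 0
    · right
      exact ⟨[], l, ls, by simp, by simpa using h, by simpa using h0⟩
    · rcases ih (as ++ [l]) (Nat.pos_of_ne_zero h0) with h1 | ⟨cs, m, bs, h1, h2, h3⟩
      · left; simpa using h1
      · right
        refine ⟨l :: cs, m, bs, by rw [h1]; simp, by simpa using h2, by simpa using h3⟩

end POSaux

open POSaux

theorem POS (hS : SUBStmt) (hD : DLTStmt) : POSStmt := by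
  intro ls pre post s t T δ hG hDi hδ hT hs ht hls
  obtain ⟨hne, hpos, hfirst, hlast, hmid⟩ := hG
  have hTr : (0 : ℝ) < T := by exact_mod_cast hT
  have subl : ∀ (as bs xs : List ℕ), 0 < D (as ++ bs) xs → 0 < D as xs := by
    intro as bs xs h
    exact Nat.pos_of_mul_pos_right (lt_of_lt_of_le h (hS as bs xs))
  have subr : ∀ (as bs xs : List ℕ), 0 < D (as ++ bs) xs → 0 < D bs xs := by
    intro as bs xs h
    exact Nat.pos_of_mul_pos_left (lt_of_lt_of_le h (hS as bs xs))
  have fin : ∀ (as bs : List ℕ) (z : ℕ), ls = as ++ z :: bs → 2 ≤ z → 0 < D as pre →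
      0 < D bs post → 0 < gain ls pre post s t := by
    intro as bs z h hz h1 h2
    have h3 : 0 < dl z s t := (hD z s t hz).2.2 hs ht (hls z (by rw [h]; simp))
    have h4 := gain_term as bs pre post z s t
    rw [h]
    exact lt_of_lt_of_le (Nat.mul_pos (Nat.mul_pos h1 h2) h3) h4
  rcases split_pos pre ls [] (by rw [D_nil]; exact Nat.one_pos) with h | ⟨as, l, bs, h1, h2, h3⟩
  · rw [List.nil_append] at h
    rcases List.eq_nil_or_concat ls with hnil | ⟨as, z, hz⟩
    · exact absurd hnil hne
    · rw [List.concat_eq_append] at hz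
      refine fin as [] z hz (hlast as z hz) ?_ (by rw [D_nil]; exact Nat.one_pos)
      rw [hz] at h
      exact subl as [z] pre h
  · rw [List.nil_append] at h2 h3
    have h4 : 0 < D (l :: bs) post := by
      rcases hDi as l bs h1 with h5 | h5
      · exfalso
        rw [h3] at h5
        have h6 : 0 < δ * (T : ℝ) ^ (as.sum + l) := by positivity
        rw [Nat.cast_zero] at h5
        linarith
      · have h6 : 0 < δ * (T : ℝ) ^ (l + bs.sum) := by positivity
        exact_mod_cast lt_of_lt_of_le h6 h5
    have h5 : 0 < D bs post := subr [l] bs post (by simpa using h4)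
    have hl1 : 1 ≤ l := hpos l (by rw [h1]; simp)
    rcases Nat.lt_or_ge 1 l with hl | hl
    · exact fin as bs l h1 hl h2 h5
    · have hl' : l = 1 := by omega
      subst hl'
      rcases List.eq_nil_or_concat as with hnil | ⟨as', z, hz⟩
      · rw [hnil, List.nil_append] at h1
        have := hfirst 1 bs h1
        omega
      · rw [List.concat_eq_append] at hz
        rcases bs with _ | ⟨y, bs'⟩
        · have := hlast as 1 h1
          omega
        · have h6 : ls = as' ++ z :: 1 :: y :: bs' := by rw [h1, hz]; simp
          obtain ⟨_, hz2⟩ := hmid as' z y bs' h6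
          refine fin as' (1 :: y :: bs') z h6 hz2 ?_ h4
          rw [hz] at h2
          exact subl as' [z] pre h2

end Pool.LAY
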