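import Pool.Agent.H97.LAY.Stmts4
import Pool.Agent.H97.LAY.POS

/-!
# Board `lay` (MP_609328_co): row PO2 (helper64)

The proof of POS (row by helper45) under the hypothesis `Good2`.
-/

set_option autoImplicit false

namespace Pool.LAY

open Finset POSaux

theorem PO2 (hS : SUBStmt) (hD : DLTStmt) : PO2Stmt := by
  intro ls pre post s t T δ hG hDi hδ hT hs ht hls
  obtain ⟨hne, hpos, hfirst, hlast, hmid⟩ := hG
  have hTr : (0 : ℝ) < T := by exact_mod_cast hT
  have subl : ∀ (as bs xs : List ℕ), 0 < D (as ++ bs) xs → 0 < D as xs := by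
    intro as bs xs h
    exact Nat.pos_of_mul_pos_right (lt_of_lt_of_le h (hS as bs xs))
  have subr : ∀ (as bs xs : List ℕ), 0 < D (as ++ bs) xs → 0 < D bs xs := by
    intro as bs xs h
    exact Nat.pos_of_mul_pos_left (lt_of_lt_of_le h (hS as bs xs))
  have fin : ∀ (as bs : List ℕ) (z : ℕ), ls = as ++ z :: bs → 2 ≤ z → 0 < D as pre →
      0 < D bs post → 0 < gain ls pre post s t := by
    intro as bs z h hz h1 h2
    have h3 : 0 < dl z s t := (hD z s t hz).2.2 hs ht (hls z (by rw [h]; simp))
    have h4 := gain_term as bs pre post z s t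
    rw [h]
    exact lt_of_lt_of_le (Nat.mul_pos (Nat.mul_pos h1 h2) h3) h4
  rcases split_pos pre ls [] (by rw [POSaux.D_nil]; exact Nat.one_pos) with
    h | ⟨as, l, bs, h1, h2, h3⟩
  · rw [List.nil_append] at h
    rcases List.eq_nil_or_concat ls with hnil | ⟨as, z, hz⟩
    · exact absurd hnil hne
    · rw [List.concat_eq_append] at hz
      refine fin as [] z hz (hlast as z hz) ?_ (by rw [POSaux.D_nil]; exact Nat.one_pos)
      rw [hz] at h
      exact subl as [z] pre h
  · rw [List.nil_append] at h2 h3
    have h4 : 0 < D (l :: bs) post := by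
      rcases hDi as l bs h1 with h5 | h5
      · exfalso
        rw [h3] at h5
        have h6 : 0 < δ * (T : ℝ) ^ (as.sum + l) := by positivity
        rw [Nat.cast_zero] at h5
        linarith
      · have h6 : 0 < δ * (T : ℝ) ^ (l + bs.sum) := by positivity
        exact_mod_cast lt_of_lt_of_le h6 h5
    have h5 : 0 < D bs post := subr [l] bs post (by simpa using h4)
    have hl1 : 1 ≤ l := hpos l (by rw [h1]; simp)
    rcases Nat.lt_or_ge 1 l with hl | hl
    · exact fin as bs l h1 hl h2 h5
    · have hl' : l = 1 := by omega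
      subst hl'
      rcases List.eq_nil_or_concat as with hnil | ⟨as', z, hz⟩
      · rw [hnil, List.nil_append] at h1
        have := hfirst 1 bs h1
        omega
      · rw [List.concat_eq_append] at hz
        rcases bs with _ | ⟨y, bs'⟩
        · have := hlast as 1 h1
          omega
        · have h6 : ls = as' ++ z :: 1 :: y :: bs' := by rw [h1, hz]; simp
          refine fin as' (1 :: y :: bs') z h6 (hmid as' z y bs' h6).1 ?_ h4
          rw [hz] at h2
          exact subl as' [z] pre h2

end Pool.LAY
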