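import Pool.Agent.H97.LAY.Stmts4

set_option autoImplicit false

namespace Pool.LAY

open Finset

theorem PV2 (hAPP : APPStmt) (hSUB : SUBStmt) (hPOW : POWStmt) (hMTY : MTYStmt) : PV2Stmt := by
  intro as bs X M Y l m T has hbs hl hm hT
  -- bounds
  have hDX : ∀ c : List ℕ, (∀ a ∈ c, 1 ≤ a) → D c X ≤ T ^ c.sum := fun c hc =>
    (hPOW c X hc).trans (Nat.pow_le_pow_left (by omega) _)
  have hDY : ∀ c : List ℕ, (∀ a ∈ c, 1 ≤ a) → D c Y ≤ T ^ c.sum := fun c hc =>
    (hPOW c Y hc).trans (Nat.pow_le_pow_left (by omega) _)
  have hDMY : ∀ c : List ℕ, (∀ a ∈ c, 1 ≤ a) → D c (M ++ Y) ≤ T ^ c.sum := fun c hc =>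
    (hPOW c (M ++ Y) hc).trans (Nat.pow_le_pow_left (by rw [List.sum_append]; omega) _)
  set K := as.length + bs.length + 3 with hK
  set E := D (as ++ [l, m]) X * T ^ bs.sum + T ^ as.sum * D (l :: m :: bs) Y +
      K * (M.sum * T ^ (as.sum + l + m + bs.sum - 1)) with hE
  have hlen : (as ++ l :: m :: bs).length + 1 = K := by
    simp [hK]; omega
  rw [hAPP, hlen]
  have hterm : ∀ i ∈ range K, D ((as ++ l :: m :: bs).take i) X *
      D ((as ++ l :: m :: bs).drop i) (M ++ Y) ≤
      (if i = as.length + 1 then D (as ++ [l]) X * D (m :: bs) Y else 0) + E := by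
    intro i hi
    rcases Nat.lt_trichotomy i (as.length + 1) with h | h | h
    · -- i ≤ as.length
      have hi' : i ≤ as.length := by omega
      rw [if_neg (by omega), zero_add]
      have ht : (as ++ l :: m :: bs).take i = as.take i := List.take_append_of_le_length hi'
      have hd : (as ++ l :: m :: bs).drop i = as.drop i ++ l :: m :: bs :=
        List.drop_append_of_le_length hi'
      rw [ht, hd]
      have hsum : (as.take i).sum + (as.drop i).sum = as.sum := List.sum_take_add_sum_drop as i
      have hp1 : ∀ a ∈ as.take i, 1 ≤ a := fun a ha => has a (List.mem_of_mem_take ha)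
      have hp2 : ∀ a ∈ as.drop i, 1 ≤ a := fun a ha => has a (List.mem_of_mem_drop ha)
      have hp3 : ∀ a ∈ as.drop i ++ l :: m :: bs, 1 ≤ a := by
        intro a ha
        simp only [List.mem_append, List.mem_cons] at ha
        rcases ha with ha | ha | ha | ha
        · exact hp2 a ha
        · omega
        · omega
        · exact hbs a ha
      have h1 := hDX _ hp1
      have h2 := hMTY (as.drop i ++ l :: m :: bs) M Y T hp3 (by omega)
      have h3 : D (as.drop i ++ l :: m :: bs) Y ≤ T ^ (as.drop i).sum * D (l :: m :: bs) Y :=
        (hSUB _ _ _).trans (Nat.mul_le_mul_right _ (hDY _ hp2))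
      have hL : (as.drop i ++ l :: m :: bs).length ≤ K := by
        simp only [List.length_append, List.length_drop, List.length_cons, hK]; omega
      have hS : (as.drop i ++ l :: m :: bs).sum - 1 = (as.drop i).sum + (l + m + bs.sum - 1) := by
        simp only [List.sum_append, List.sum_cons]; omega
      rw [hS] at h2
      calc D (as.take i) X * D (as.drop i ++ l :: m :: bs) (M ++ Y)
          ≤ T ^ (as.take i).sum * (T ^ (as.drop i).sum * D (l :: m :: bs) Y +
              K * (M.sum * T ^ ((as.drop i).sum + (l + m + bs.sum - 1)))) := by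
            apply Nat.mul_le_mul h1
            refine h2.trans (Nat.add_le_add h3 (Nat.mul_le_mul_right _ hL))
        _ = T ^ as.sum * D (l :: m :: bs) Y +
              K * (M.sum * T ^ (as.sum + l + m + bs.sum - 1)) := by
            rw [Nat.mul_add, ← Nat.mul_assoc, ← pow_add, hsum]
            congr 1
            have : as.sum + l + m + bs.sum - 1 =
                (as.take i).sum + ((as.drop i).sum + (l + m + bs.sum - 1)) := by omega
            rw [this, pow_add T (as.take i).sum]
            ring
        _ ≤ E := by rw [hE]; omega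
    · -- i = as.length + 1
      subst h
      rw [if_pos rfl]
      have ht : (as ++ l :: m :: bs).take (as.length + 1) = as ++ [l] := by
        have : as ++ l :: m :: bs = (as ++ [l]) ++ (m :: bs) := by simp
        rw [this]
        have h2 : as.length + 1 = (as ++ [l]).length := by simp
        rw [h2, List.take_left]
      have hd : (as ++ l :: m :: bs).drop (as.length + 1) = m :: bs := by
        have : as ++ l :: m :: bs = (as ++ [l]) ++ (m :: bs) := by simp
        rw [this]
        have h2 : as.length + 1 = (as ++ [l]).length := by simp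
        rw [h2, List.drop_left]
      rw [ht, hd]
      have hp1 : ∀ a ∈ as ++ [l], 1 ≤ a := by
        intro a ha
        simp only [List.mem_append, List.mem_singleton] at ha
        rcases ha with ha | ha
        · exact has a ha
        · omega
      have hp3 : ∀ a ∈ m :: bs, 1 ≤ a := by
        intro a ha
        simp only [List.mem_cons] at ha
        rcases ha with ha | ha
        · omega
        · exact hbs a ha
      have h1 := hDX _ hp1
      have h2 := hMTY (m :: bs) M Y T hp3 (by omega)
      have hL : (m :: bs).length ≤ K := by simp only [List.length_cons, hK]; omega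
      have hS : (m :: bs).sum - 1 = m + bs.sum - 1 := by simp
      rw [hS] at h2
      have hA : (as ++ [l]).sum = as.sum + l := by simp
      rw [hA] at h1
      calc D (as ++ [l]) X * D (m :: bs) (M ++ Y)
          ≤ D (as ++ [l]) X * (D (m :: bs) Y + K * (M.sum * T ^ (m + bs.sum - 1))) := by
            apply Nat.mul_le_mul_left
            exact h2.trans (Nat.add_le_add_left (Nat.mul_le_mul_right _ hL) _)
        _ = D (as ++ [l]) X * D (m :: bs) Y +
              D (as ++ [l]) X * (K * (M.sum * T ^ (m + bs.sum - 1))) := by ring
        _ ≤ D (as ++ [l]) X * D (m :: bs) Y +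
              T ^ (as.sum + l) * (K * (M.sum * T ^ (m + bs.sum - 1))) := by
            apply Nat.add_le_add_left
            exact Nat.mul_le_mul_right _ h1
        _ = D (as ++ [l]) X * D (m :: bs) Y +
              K * (M.sum * T ^ (as.sum + l + m + bs.sum - 1)) := by
            congr 1
            have : as.sum + l + m + bs.sum - 1 = (as.sum + l) + (m + bs.sum - 1) := by omega
            rw [this, pow_add T (as.sum + l)]
            ring
        _ ≤ D (as ++ [l]) X * D (m :: bs) Y + E := by rw [hE]; omega
    · -- i ≥ as.length + 2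
      rw [if_neg (by omega), zero_add]
      obtain ⟨j, rfl⟩ : ∃ j, i = (as ++ [l, m]).length + j :=
        ⟨i - (as ++ [l, m]).length, by simp; omega⟩
      have hsplit : as ++ l :: m :: bs = (as ++ [l, m]) ++ bs := by simp
      have ht : (as ++ l :: m :: bs).take ((as ++ [l, m]).length + j) =
          (as ++ [l, m]) ++ bs.take j := by
        rw [hsplit, List.take_append, List.take_of_length_le (by omega)]
        congr 2
        omega
      have hd : (as ++ l :: m :: bs).drop ((as ++ [l, m]).length + j) = bs.drop j := by
        rw [hsplit, List.drop_append]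
        simp
      rw [ht, hd]
      have hsum : (bs.take j).sum + (bs.drop j).sum = bs.sum := List.sum_take_add_sum_drop bs j
      have h1 : D ((as ++ [l, m]) ++ bs.take j) X ≤ D (as ++ [l, m]) X * T ^ (bs.take j).sum :=
        (hSUB _ _ _).trans (Nat.mul_le_mul_left _
          (hDX _ (fun a ha => hbs a (List.mem_of_mem_take ha))))
      have h2 := hDMY (bs.drop j) (fun a ha => hbs a (List.mem_of_mem_drop ha))
      calc D ((as ++ [l, m]) ++ bs.take j) X * D (bs.drop j) (M ++ Y)
          ≤ (D (as ++ [l, m]) X * T ^ (bs.take j).sum) * T ^ (bs.drop j).sum :=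
            Nat.mul_le_mul h1 h2
        _ = D (as ++ [l, m]) X * T ^ bs.sum := by rw [Nat.mul_assoc, ← pow_add, hsum]
        _ ≤ E := by rw [hE, Nat.add_assoc]; exact Nat.le_add_right _ _
  calc ∑ i ∈ range K, D ((as ++ l :: m :: bs).take i) X *
        D ((as ++ l :: m :: bs).drop i) (M ++ Y)
      ≤ ∑ i ∈ range K, ((if i = as.length + 1 then D (as ++ [l]) X * D (m :: bs) Y else 0) + E) :=
        Finset.sum_le_sum hterm
    _ = D (as ++ [l]) X * D (m :: bs) Y + K * E := by
        rw [Finset.sum_add_distrib, Finset.sum_ite_eq', if_pos (by rw [Finset.mem_range]; omega),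
          Finset.sum_const, Finset.card_range, smul_eq_mul]

end Pool.LAY
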