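import Pool.Agent.H97.LAY.Stmts4

/-!
# Board `lay`, row REV
-/

set_option autoImplicit false

namespace Pool.LAY

open Finset

private theorem rev_nil_left (xs : List ℕ) : D [] xs = 1 := by cases xs <;> rfl

private theorem rev_nil_right (ls : List ℕ) (h : ls ≠ []) : D ls [] = 0 := by
  cases ls with
  | nil => exact absurd rfl h
  | cons l ls => rfl

/-- the recursion at the end of the lists -/
theorem D_snoc (bs : List ℕ) (l : ℕ) (xs : List ℕ) (x : ℕ) :
    D (bs ++ [l]) (xs ++ [x]) = D bs xs * x.choose l + D (bs ++ [l]) xs := by
  induction xs generalizing bs with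
  | nil =>
    cases bs with
    | nil =>
      have e : D [l] [x] = x.choose l * D [] [] + D [l] [] := rfl
      simp only [List.nil_append]
      rw [e, rev_nil_left, rev_nil_right [l] (by simp)]
      ring
    | cons b bs =>
      have e : D (b :: (bs ++ [l])) [x] = x.choose b * D (bs ++ [l]) [] + D (b :: (bs ++ [l])) [] :=
        rfl
      simp only [List.nil_append, List.cons_append]
      rw [e, rev_nil_right (bs ++ [l]) (by simp), rev_nil_right (b :: (bs ++ [l])) (by simp),
        rev_nil_right (b :: bs) (by simp)]
      ring
  | cons y ys ih =>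
    cases bs with
    | nil =>
      have e1 : D [l] (y :: (ys ++ [x])) = y.choose l * D [] (ys ++ [x]) + D [l] (ys ++ [x]) := rfl
      have e2 : D [l] (y :: ys) = y.choose l * D [] ys + D [l] ys := rfl
      have h := ih []
      simp only [List.nil_append, List.cons_append] at h ⊢
      rw [e1, e2, h]
      simp only [rev_nil_left]
      ring
    | cons b bs =>
      have e1 : D (b :: (bs ++ [l])) (y :: (ys ++ [x])) =
          y.choose b * D (bs ++ [l]) (ys ++ [x]) + D (b :: (bs ++ [l])) (ys ++ [x]) := rfl
      have e2 : D (b :: (bs ++ [l])) (y :: ys) =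
          y.choose b * D (bs ++ [l]) ys + D (b :: (bs ++ [l])) ys := rfl
      have e3 : D (b :: bs) (y :: ys) = y.choose b * D bs ys + D (b :: bs) ys := rfl
      have h1 := ih bs
      have h2 := ih (b :: bs)
      simp only [List.cons_append] at h2 ⊢
      rw [e1, e2, e3, h1, h2]
      ring

theorem REV : REVStmt := by
  intro ls xs
  induction xs generalizing ls with
  | nil =>
    cases ls with
    | nil => rfl
    | cons l ls =>
      rw [List.reverse_nil, rev_nil_right _ (by simp), rev_nil_right _ (by simp)]
  | cons x xs ih =>
    cases ls with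
    | nil => rw [List.reverse_nil, rev_nil_left, rev_nil_left]
    | cons l ls =>
      have e : D (l :: ls) (x :: xs) = x.choose l * D ls xs + D (l :: ls) xs := rfl
      have h1 := ih ls
      have h2 := ih (l :: ls)
      simp only [List.reverse_cons] at h2 ⊢
      rw [D_snoc, h1, h2, e]
      ring

end Pool.LAY
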