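import Pool.Agent.H97.LAY.Stmts

set_option autoImplicit false

namespace Pool.LAY

private theorem rank_exists (n : ℕ) (p : Fin n → ℕ) (hp : Function.Injective p) :
    ∃ e : Fin n ≃ Fin n, ∀ x y, p x < p y ↔ e x < e y := by
  have hm : Monotone (p ∘ Tuple.sort p) := Tuple.monotone_sort p
  have hs : StrictMono (p ∘ Tuple.sort p) :=
    hm.strictMono_of_injective (hp.comp (Tuple.sort p).injective)
  refine ⟨(Tuple.sort p).symm, fun x y => ?_⟩
  have h := hs.lt_iff_lt (a := (Tuple.sort p).symm x) (b := (Tuple.sort p).symm y)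
  simpa using h

theorem RLB : RLBStmt := by
  intro n p q hp hq
  obtain ⟨e, he⟩ := rank_exists n p hp
  obtain ⟨f, hf⟩ := rank_exists n q hq
  refine ⟨e, e.symm.trans f, he, fun x y => ?_⟩
  simpa using hf x y

end Pool.LAY
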