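import Mathlib
import Pool.Agent.H97.LAY.Defs
import Pool.Agent.H97.LAY.Stmts

set_option autoImplicit false

namespace Pool.LAY

theorem RLC : RLCStmt := by
  intro n k ℓ p q e π h1 h2
  apply Nat.card_congr
  refine Equiv.subtypeEquiv (Equiv.arrowCongr e (Equiv.refl _)) ?_
  intro f
  have h3 : ∀ x y : Fin n, p x < p y ↔ ((e x : Fin n) : ℕ) < ((e y : Fin n) : ℕ) := fun x y => h1 x y
  have h4 : ∀ x y : Fin n, q x < q y ↔ ((π (e x) : Fin n) : ℕ) < ((π (e y) : Fin n) : ℕ) :=
    fun x y => h2 x y
  have hval : ∀ x, (Equiv.arrowCongr e (Equiv.refl (Option (Fin k)))) f x = f (e.symm x) := fun x => rfl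
  unfold Lab
  constructor
  · rintro ⟨g1, g2⟩
    refine ⟨?_, ?_⟩
    · intro j
      rw [← g1 j]
      apply Nat.card_congr
      refine (Equiv.subtypeEquiv e ?_).symm
      intro x
      rw [hval, e.symm_apply_apply]
    · intro x y i j hxy hi hj
      rw [hval] at hi hj
      have e1 := e.apply_symm_apply x
      have e2 := e.apply_symm_apply y
      have := g2 (e.symm x) (e.symm y) i j ((h3 _ _).mpr (by rw [e1, e2]; exact hxy)) hi hj
      rw [h4, h4, e1, e2] at this
      exact this
  · rintro ⟨g1, g2⟩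
    refine ⟨?_, ?_⟩
    · intro j
      rw [← g1 j]
      apply Nat.card_congr
      refine Equiv.subtypeEquiv e ?_
      intro x
      rw [hval, e.symm_apply_apply]
    · intro x y i j hxy hi hj
      have := g2 (e x) (e y) i j ((h3 _ _).mp hxy) (by rw [hval, e.symm_apply_apply]; exact hi)
        (by rw [hval, e.symm_apply_apply]; exact hj)
      rw [← h4, ← h4] at this
      exact this

end Pool.LAY
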