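import Pool.Agent.H97.LAY.Stmts4

/-!
# Row ST2 of the board `lay`: the merging argument with the stronger dichotomies
-/

set_option autoImplicit false

namespace Pool.LAY

open Finset

theorem dich2_mono {δ δ' : ℝ} {T : ℕ} {ls pre post : List ℕ} (h : δ ≤ δ')
    (hd : Dich2 δ' T ls pre post) : Dich2 δ T ls pre post := by
  intro as x y bs hls
  obtain ⟨h1, h2⟩ := hd as x y bs hls
  have hm : ∀ e : ℕ, δ * (T : ℝ) ^ e ≤ δ' * (T : ℝ) ^ e := fun e =>
    mul_le_mul_of_nonneg_right h (by positivity)
  exact ⟨h1.imp (fun h3 => (hm _).trans h3) (fun h3 => (hm _).trans h3),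
    h2.imp (fun h3 => (hm _).trans h3) (fun h3 => (hm _).trans h3)⟩

theorem ST2 (h1 : LOWStmt) (h2 : DCHStmt) (h3 : DO2Stmt) (h4 : PO2Stmt) (h5 : MRGStmt)
    (h6 : DC2Stmt) : ST2Stmt := by
  intro ls hG
  obtain ⟨hne, hpos, hfst, -, -⟩ := id hG
  -- the sum is at least two
  have hlen0 : 0 < ls.length := List.length_pos_iff.2 hne
  have hsum2 : 2 ≤ ls.sum := by
    obtain ⟨l, bs, rfl⟩ := List.exists_cons_of_ne_nil hne
    have := hfst l bs rfl
    rw [List.sum_cons]
    omega
  have hle : ∀ l ∈ ls, l ≤ ls.sum := fun l hl => List.single_le_sum (fun _ _ => Nat.zero_le _) l hl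
  obtain ⟨c, hc, hlow⟩ := h1 ls hne hpos
  obtain ⟨δ2, ε5, hδ2, hε5, T0, hdc⟩ := h6 ls hG c hc
  obtain ⟨δ, hδ⟩ : ∃ δ : ℝ, δ = min (c / 4) δ2 := ⟨_, rfl⟩
  have δ0 : 0 < δ := by rw [hδ]; exact lt_min (by positivity) hδ2
  have δ1 : δ ≤ c / 4 := hδ ▸ min_le_left _ _
  have δ2' : δ ≤ δ2 := hδ ▸ min_le_right _ _
  have len0 : (0 : ℝ) < ls.length := by exact_mod_cast hlen0
  obtain ⟨ε, hε⟩ : ∃ ε : ℝ, ε = min 1 (min (c / 4) (min (δ / (2 * ls.length)) ε5)) := ⟨_, rfl⟩
  have ε0 : 0 < ε := by
    rw [hε]
    exact lt_min one_pos (lt_min (by positivity) (lt_min (by positivity) hε5))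
  have ε1 : ε ≤ 1 := hε ▸ min_le_left _ _
  have ε2 : ε ≤ c / 4 := hε ▸ (min_le_right _ _).trans (min_le_left _ _)
  have ε3 : ε ≤ δ / (2 * ls.length) :=
    hε ▸ (min_le_right _ _).trans ((min_le_right _ _).trans (min_le_left _ _))
  have ε6 : ε ≤ ε5 :=
    hε ▸ (min_le_right _ _).trans ((min_le_right _ _).trans (min_le_right _ _))
  have ε4 : (ls.length : ℝ) * ε ≤ δ / 2 := by
    rw [le_div_iff₀ (by positivity)] at ε3
    linarith
  refine ⟨ε, ε0, T0, ?_⟩
  intro ns hopt hns hT0' pre ys post hdec hyl
  by_contra hcon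
  push Not at hcon
  obtain ⟨hPos, hbest⟩ := hopt
  have hT0 : 0 < ns.sum := by omega
  obtain ⟨n', hn'1, hn'2, hn'3⟩ := hlow ns.sum hns
  have hcT : c * (ns.sum : ℝ) ^ ls.sum ≤ (D ls ns : ℝ) := by
    refine hn'3.trans ?_
    exact_mod_cast hbest n' hn'1 hn'2
  have hysum : ns.sum = pre.sum + ys.sum + post.sum := by
    rw [hdec, List.sum_append, List.sum_append]
  have hypos : ∀ y ∈ ys, 1 ≤ y := fun y hy => hPos y (by
    rw [hdec]
    simp [hy])
  have hprepos : ∀ y ∈ pre, 1 ≤ y := fun y hy => hPos y (by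
    rw [hdec]
    simp [hy])
  have hpostpos : ∀ y ∈ post, 1 ≤ y := fun y hy => hPos y (by
    rw [hdec]
    simp [hy])
  -- one step
  have step : ∀ j : ℕ, 1 ≤ j → ∀ hj : j < ys.length,
      D ls (pre ++ (ys.take j).sum :: (ys.drop j ++ post)) = D ls ns →
      Dich δ ns.sum ls pre (ys.drop (j + 1) ++ post) ∧
      gain ls pre (ys.drop (j + 1) ++ post) (ys.take j).sum ys[j] = 0 ∧
      D ls (pre ++ (ys.take (j + 1)).sum :: (ys.drop (j + 1) ++ post)) = D ls ns := by
    intro j hj1 hj hD
    obtain ⟨s, hs⟩ : ∃ s : ℕ, s = (ys.take j).sum := ⟨_, rfl⟩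
    obtain ⟨t, ht⟩ : ∃ t : ℕ, t = ys[j] := ⟨_, rfl⟩
    obtain ⟨po, hpo⟩ : ∃ po : List ℕ, po = ys.drop (j + 1) ++ post := ⟨_, rfl⟩
    have hst : (ys.take (j + 1)).sum = s + t := by
      rw [List.sum_take_succ _ _ hj, hs, ht]
    have hdr : ys.drop j ++ post = t :: po := by
      rw [List.drop_eq_getElem_cons hj, hpo, ht]
      rfl
    rw [hdr, ← hs] at hD
    rw [hst, ← hpo, ← hs, ← ht]
    have hyy : ys.sum = s + t + (ys.drop (j + 1)).sum := by
      rw [← hst, ← List.sum_append, List.take_append_drop]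
    have hpos' : po.sum = (ys.drop (j + 1)).sum + post.sum := by
      rw [hpo, List.sum_append]
    have hsumT : pre.sum + s + t + po.sum = ns.sum := by omega
    have hlist : (pre ++ [s, t] ++ po).sum = ns.sum := by
      rw [List.sum_append, List.sum_append, List.sum_cons, List.sum_cons, List.sum_nil]
      omega
    have happ : pre ++ [s, t] ++ po = pre ++ s :: t :: po := by simp
    have hstT : ((s + t : ℕ) : ℝ) ≤ ε * (ns.sum : ℝ) := by
      refine le_trans ?_ hcon
      exact_mod_cast (by omega : s + t ≤ ys.sum)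
    have hstT' : (s : ℝ) + (t : ℝ) ≤ ε * (ns.sum : ℝ) := by
      have := hstT
      rw [Nat.cast_add] at this
      exact this
    have s0 : (0 : ℝ) ≤ s := Nat.cast_nonneg _
    have t0 : (0 : ℝ) ≤ t := Nat.cast_nonneg _
    have hdich : Dich δ ns.sum ls pre po := by
      have h := h2 ls pre po s t c δ ε hpos (by rw [hlist]; exact hT0) ε0.le ε1 (by
        linarith) (by rw [hlist]; exact hstT) (by
        rw [hlist, happ, hD]
        exact hcT)
      rw [hlist] at h
      exact h
    have hs1 : 1 ≤ s := by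
      have h6 : (ys.take j).length ≤ (ys.take j).sum :=
        List.length_le_sum_of_one_le _ fun y hy => hypos y (List.mem_of_mem_take hy)
      rw [List.length_take, ← hs] at h6
      omega
    have ht1 : 1 ≤ t := by
      rw [ht]
      exact hypos _ (List.getElem_mem hj)
    have hdich2 : Dich2 δ ns.sum ls pre po := by
      refine dich2_mono δ2' (hdc pre po s t ns.sum ⟨?_, ?_⟩ hlist hT0' ?_ ?_)
      · intro x hx
        rw [happ, List.mem_append, List.mem_cons, List.mem_cons, hpo, List.mem_append] at hx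
        rcases hx with hx | hx | hx | hx | hx
        · exact hprepos x hx
        · omega
        · omega
        · exact hypos x (List.mem_of_mem_drop hx)
        · exact hpostpos x hx
      · intro ns' hns' hsum'
        rw [happ, hD]
        exact hbest ns' hns' (by rw [hsum', hlist])
      · refine hstT.trans ?_
        exact mul_le_mul_of_nonneg_right ε6 (Nat.cast_nonneg _)
      · rw [happ, hD]
        exact hcT
    have hdom := h3 ls pre po s t ns.sum δ ε hG hdich hdich2 δ0.le hT0 hsumT.le (by linarith)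
      (by linarith)
    have g0 : (0 : ℝ) ≤ (gain ls pre po s t : ℝ) := Nat.cast_nonneg _
    have hloss : (loss ls pre po s t : ℝ) ≤ (gain ls pre po s t : ℝ) / 2 := by
      have h6 : (ls.length : ℝ) * ε * (gain ls pre po s t : ℝ) ≤
          δ / 2 * (gain ls pre po s t : ℝ) := mul_le_mul_of_nonneg_right ε4 g0
      have h7 : δ * (loss ls pre po s t : ℝ) ≤ δ * ((gain ls pre po s t : ℝ) / 2) := by
        refine (hdom.trans h6).trans (le_of_eq ?_)
        ring
      exact le_of_mul_le_mul_left h7 δ0
    have hmrg := h5 ls pre po s t hpos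
    have hnew : D ls (pre ++ (s + t) :: po) ≤ D ls ns := by
      apply hbest
      · intro x hx
        rw [List.mem_append, List.mem_cons, hpo, List.mem_append] at hx
        rcases hx with hx | hx | hx | hx
        · exact hprepos x hx
        · have : 1 ≤ t := by
            rw [ht]
            exact hypos _ (List.getElem_mem hj)
          omega
        · exact hypos x (List.mem_of_mem_drop hx)
        · exact hpostpos x hx
      · rw [List.sum_append, List.sum_cons]
        omega
    rw [hD] at hmrg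
    have hmrgR : (D ls (pre ++ (s + t) :: po) : ℝ) + (loss ls pre po s t : ℝ) =
        (D ls ns : ℝ) + (gain ls pre po s t : ℝ) := by exact_mod_cast hmrg
    have hnewR : (D ls (pre ++ (s + t) :: po) : ℝ) ≤ (D ls ns : ℝ) := by exact_mod_cast hnew
    have hgain : gain ls pre po s t = 0 := by
      have : (gain ls pre po s t : ℝ) ≤ 0 := by linarith
      have h8 : (gain ls pre po s t : ℝ) = 0 := le_antisymm this g0
      exact_mod_cast h8
    refine ⟨hdich, hgain, ?_⟩
    have hl0 : loss ls pre po s t = 0 := by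
      rw [hgain] at hloss
      have h8 : (loss ls pre po s t : ℝ) ≤ 0 := by
        refine hloss.trans ?_
        norm_num
      have h9 : (loss ls pre po s t : ℝ) = 0 := le_antisymm h8 (Nat.cast_nonneg _)
      exact_mod_cast h9
    rw [hgain, hl0] at hmrg
    exact hmrg
  -- all steps
  have hylen : 2 ≤ ys.length := by omega
  have all : ∀ j : ℕ, 1 ≤ j → j ≤ ys.length →
      D ls (pre ++ (ys.take j).sum :: (ys.drop j ++ post)) = D ls ns := by
    intro j hj
    induction j, hj using Nat.le_induction with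
    | base =>
      intro hj'
      have h0 : 0 < ys.length := by omega
      have hy1 : ys = ys[0] :: ys.drop 1 := by
        have := List.drop_eq_getElem_cons h0
        rwa [List.drop_zero] at this
      have e1 : (ys.take 1).sum = ys[0] := by
        rw [List.sum_take_succ _ _ h0]
        simp
      rw [e1, hdec]
      congr 1
      rw [List.append_assoc, ← List.cons_append, ← hy1]
    | succ j hj ih =>
      intro hj'
      exact (step j hj (by omega) (ih (by omega))).2.2
  have hj : ys.length - 1 < ys.length := by omega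
  obtain ⟨hd, hg, -⟩ := step (ys.length - 1) (by omega) hj (all _ (by omega) (by omega))
  have htk : (ys.take (ys.length - 1)).sum + ys[ys.length - 1] = ys.sum := by
    rw [← List.sum_take_succ _ _ hj, show ys.length - 1 + 1 = ys.length by omega, List.take_length]
  have hsy : ls.sum ≤ ys.sum := by
    rw [← hyl]
    exact List.length_le_sum_of_one_le ys hypos
  have hs1 : 1 ≤ (ys.take (ys.length - 1)).sum := by
    have h6 : (ys.take (ys.length - 1)).length ≤ (ys.take (ys.length - 1)).sum :=
      List.length_le_sum_of_one_le _ fun y hy => hypos y (List.mem_of_mem_take hy)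
    rw [List.length_take] at h6
    omega
  have ht1 : 1 ≤ ys[ys.length - 1] := hypos _ (List.getElem_mem hj)
  have := h4 ls pre _ _ _ ns.sum δ hG hd δ0 hT0 hs1 ht1 (fun l hl => by
    rw [htk]
    exact (hle l hl).trans hsy)
  omega

end Pool.LAY
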