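import Pool.Agent.H97.LAY.Stmts

/-!
# Board `lay` (MP_609328_co): row SUB
-/

set_option autoImplicit false

namespace Pool.LAY

theorem SUB_nil (xs : List ℕ) : D [] xs = 1 := by cases xs <;> rfl

theorem SUB_mono (bs : List ℕ) (x : ℕ) (xs : List ℕ) : D bs xs ≤ D bs (x :: xs) := by
  cases bs with
  | nil => rw [SUB_nil, SUB_nil]
  | cons l ls =>
    have e : D (l :: ls) (x :: xs) = x.choose l * D ls xs + D (l :: ls) xs := rfl
    rw [e]
    exact Nat.le_add_left _ _

theorem SUB : SUBStmt := by
  intro as bs xs
  induction xs generalizing as with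
  | nil =>
    cases as with
    | nil => rw [SUB_nil, one_mul, List.nil_append]
    | cons a as =>
      have e : D (a :: as ++ bs) [] = 0 := rfl
      rw [e]
      exact Nat.zero_le _
  | cons x xs ih =>
    cases as with
    | nil => rw [SUB_nil, one_mul, List.nil_append]
    | cons a as =>
      have e1 : D (a :: as ++ bs) (x :: xs) =
          x.choose a * D (as ++ bs) xs + D (a :: as ++ bs) xs := rfl
      have e2 : D (a :: as) (x :: xs) = x.choose a * D as xs + D (a :: as) xs := rfl
      rw [e1, e2]
      calc x.choose a * D (as ++ bs) xs + D (a :: as ++ bs) xs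
          ≤ x.choose a * (D as xs * D bs xs) + D (a :: as) xs * D bs xs :=
            Nat.add_le_add (Nat.mul_le_mul_left _ (ih as)) (ih (a :: as))
        _ = (x.choose a * D as xs + D (a :: as) xs) * D bs xs := by ring
        _ ≤ (x.choose a * D as xs + D (a :: as) xs) * D bs (x :: xs) :=
            Nat.mul_le_mul_left _ (SUB_mono bs x xs)

end Pool.LAY
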