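import Pool.Agent.H97.LAY.Stmts

/-!
# Row SYF: a layered optimal permutation exists
-/

set_option autoImplicit false

namespace Pool.LAY

open Finset

theorem SYF44.count {α β : Type} [Fintype α] [DecidableEq α] [DecidableEq β] (g : α → β) (u : α) :
    (univ.filter (fun z : α × α => g z.1 = g z.2)).card + 1 =
      ((univ.filter (fun z : α × α => g z.1 = g z.2)).filter
        (fun z => z.1 ≠ u ∧ z.2 ≠ u)).card +
      2 * (univ.filter (fun y => g y = g u)).card := by
  have h1 := card_filter_add_card_filter_not (s := univ.filter (fun z : α × α => g z.1 = g z.2))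
    (fun z : α × α => z.1 ≠ u ∧ z.2 ≠ u)
  have h2 : (univ.filter (fun z : α × α => g z.1 = g z.2)).filter
      (fun z => ¬ (z.1 ≠ u ∧ z.2 ≠ u)) =
      (({u} : Finset α) ×ˢ univ.filter (fun y => g y = g u)) ∪
        ((univ.filter (fun y => g y = g u)) ×ˢ ({u} : Finset α)) := by
    ext ⟨x, y⟩
    simp only [mem_filter, mem_univ, true_and, mem_union, mem_product, mem_singleton]
    constructor
    · rintro ⟨h3, h4⟩
      by_cases hx : x = u
      · left
        rw [hx] at h3
        exact ⟨hx, h3.symm⟩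
      · right
        have hy : y = u := by
          by_contra hy
          exact h4 ⟨hx, hy⟩
        rw [hy] at h3
        exact ⟨h3, hy⟩
    · rintro (⟨h3, h4⟩ | ⟨h3, h4⟩)
      · rw [h3]
        exact ⟨h4.symm, fun h => h.1 rfl⟩
      · rw [h4]
        exact ⟨h3, fun h => h.2 rfl⟩
  have h3 := card_union_add_card_inter (({u} : Finset α) ×ˢ univ.filter (fun y => g y = g u))
    ((univ.filter (fun y => g y = g u)) ×ˢ ({u} : Finset α))
  have h4 : (({u} : Finset α) ×ˢ univ.filter (fun y => g y = g u)) ∩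
      ((univ.filter (fun y => g y = g u)) ×ˢ ({u} : Finset α)) = {(u, u)} := by
    ext ⟨x, y⟩
    simp only [mem_inter, mem_filter, mem_univ, true_and, mem_product, mem_singleton,
      Prod.mk.injEq]
    constructor
    · rintro ⟨h3, h4⟩
      exact ⟨h3.1, h4.2⟩
    · rintro ⟨h3, h4⟩
      rw [h3, h4]
      simp
  rw [h4, card_singleton, card_product, card_product, card_singleton] at h3
  rw [h2] at h1
  omega

theorem SYF44.grow {α β : Type} [Fintype α] [DecidableEq α] [DecidableEq β] (g g' : α → β)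
    (u v : α) (h1 : ∀ x y, x ≠ u → y ≠ u → g x = g y → g' x = g' y)
    (h2 : ∀ x, x ≠ u → g x = g v → g' x = g' u) (h3 : g u ≠ g v)
    (h4 : (univ.filter (fun y => g y = g u)).card ≤ (univ.filter (fun y => g y = g v)).card) :
    (univ.filter (fun z : α × α => g z.1 = g z.2)).card <
      (univ.filter (fun z : α × α => g' z.1 = g' z.2)).card := by
  have c1 := SYF44.count g u
  have c2 := SYF44.count g' u
  have c3 : ((univ.filter (fun z : α × α => g z.1 = g z.2)).filter
      (fun z => z.1 ≠ u ∧ z.2 ≠ u)).card ≤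
      ((univ.filter (fun z : α × α => g' z.1 = g' z.2)).filter
      (fun z => z.1 ≠ u ∧ z.2 ≠ u)).card := by
    refine card_le_card ?_
    intro z hz
    rw [mem_filter, mem_filter] at hz ⊢
    exact ⟨⟨mem_univ _, h1 _ _ hz.2.1 hz.2.2 hz.1.2⟩, hz.2⟩
  have c4 : (univ.filter (fun y => g y = g v)).card + 1 ≤
      (univ.filter (fun y => g' y = g' u)).card := by
    rw [← card_insert_of_notMem (a := u) (s := univ.filter (fun y => g y = g v))
      (by rw [mem_filter]; exact fun h => h3 h.2)]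
    refine card_le_card ?_
    intro x hx
    rw [mem_filter]
    refine ⟨mem_univ _, ?_⟩
    rcases mem_insert.1 hx with h | h
    · rw [h]
    · have h5 := (mem_filter.1 h).2
      refine h2 x ?_ h5
      intro h6
      rw [h6] at h5
      exact h3 h5
  omega

open Classical in
/-- closed neighbourhood in the inversion graph -/
noncomputable def SYF44.nb {n : ℕ} (p q : Fin n → ℕ) (x : Fin n) : Finset (Fin n) :=
  univ.filter (fun z => z = x ∨ Inv p q x z)

theorem SYF44.mem_nb {n : ℕ} (p q : Fin n → ℕ) (x z : Fin n) :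
    z ∈ SYF44.nb p q x ↔ z = x ∨ Inv p q x z := by
  classical
  simp [SYF44.nb]

/-- the number of pairs with the same closed neighbourhood -/
noncomputable def SYF44.W {n : ℕ} (p q : Fin n → ℕ) : ℕ :=
  (univ.filter (fun z : Fin n × Fin n => SYF44.nb p q z.1 = SYF44.nb p q z.2)).card

theorem SYF44.clp_inj {n : ℕ} (p : Fin n → ℕ) (hp : Function.Injective p) (u v : Fin n) :
    Function.Injective (clp p u v) := by
  intro x y h
  unfold clp at h
  split_ifs at h with h1 h2 h2
  · rw [h1, h2]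
  · omega
  · omega
  · exact hp (by omega)

theorem SYF44.clq_inj {n : ℕ} (q : Fin n → ℕ) (hq : Function.Injective q) (u v : Fin n) :
    Function.Injective (clq q u v) := by
  intro x y h
  unfold clq at h
  split_ifs at h with h1 h2 h2
  · rw [h1, h2]
  · omega
  · omega
  · exact hq (by omega)

theorem SYF44.inv_symm {n : ℕ} (p q : Fin n → ℕ) (x y : Fin n) : Inv p q x y ↔ Inv p q y x := by
  unfold Inv
  exact or_comm

theorem SYF44.inv_irrefl {n : ℕ} (p q : Fin n → ℕ) (x : Fin n) : ¬ Inv p q x x := by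
  unfold Inv
  omega

/-- inversions after cloning -/
theorem SYF44.inv_cl {n : ℕ} (p q : Fin n → ℕ) (hp : Function.Injective p)
    (hq : Function.Injective q) (u v : Fin n) (huv : u ≠ v) :
    (∀ x y, x ≠ u → y ≠ u → (Inv (clp p u v) (clq q u v) x y ↔ Inv p q x y)) ∧
    (∀ x, x ≠ u → x ≠ v → (Inv (clp p u v) (clq q u v) u x ↔ Inv p q v x)) ∧
    Inv (clp p u v) (clq q u v) u v := by
  refine ⟨?_, ?_, ?_⟩
  · intro x y hx hy
    unfold Inv clp clq
    rw [if_neg hx, if_neg hy, if_neg hx, if_neg hy]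
    omega
  · intro x hx hxv
    unfold Inv clp clq
    rw [if_neg hx, if_neg hx, if_pos rfl, if_pos rfl]
    have h1 : p x ≠ p v := fun h => hxv (hp h)
    have h2 : q x ≠ q v := fun h => hxv (hq h)
    omega
  · unfold Inv clp clq
    rw [if_neg huv.symm, if_neg huv.symm, if_pos rfl, if_pos rfl]
    omega

theorem SYF44.nb_cl {n : ℕ} (p q : Fin n → ℕ) (hp : Function.Injective p)
    (hq : Function.Injective q) (u v : Fin n) (huv : u ≠ v) (hI : Inv p q u v) :
    (∀ x z, x ≠ u → (z ∈ SYF44.nb (clp p u v) (clq q u v) x ↔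
      (z ≠ u ∧ z ∈ SYF44.nb p q x) ∨ (z = u ∧ v ∈ SYF44.nb p q x))) ∧
    SYF44.nb (clp p u v) (clq q u v) u = SYF44.nb p q v ∧
    SYF44.nb (clp p u v) (clq q u v) v = SYF44.nb p q v := by
  obtain ⟨i1, i2, i3⟩ := SYF44.inv_cl p q hp hq u v huv
  have hI' : Inv p q v u := (SYF44.inv_symm p q u v).1 hI
  have key : ∀ x z, x ≠ u → (z ∈ SYF44.nb (clp p u v) (clq q u v) x ↔
      (z ≠ u ∧ z ∈ SYF44.nb p q x) ∨ (z = u ∧ v ∈ SYF44.nb p q x)) := by
    intro x z hx
    rw [SYF44.mem_nb, SYF44.mem_nb, SYF44.mem_nb]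
    by_cases hz : z = u
    · rw [hz]
      have e1 : (u = x) = False := eq_false (Ne.symm hx)
      rw [e1, false_or]
      simp only [ne_eq, not_true_eq_false, false_and, false_or, true_and]
      by_cases hxv : x = v
      · rw [hxv]
        refine ⟨fun _ => Or.inl rfl, fun _ => ?_⟩
        exact (SYF44.inv_symm _ _ _ _).1 i3
      · rw [SYF44.inv_symm, i2 x hx hxv, SYF44.inv_symm]
        exact ⟨fun h => Or.inr h, fun h => h.resolve_left (fun h => hxv h.symm)⟩
    · rw [i1 x z hx hz]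
      simp [hz]
  refine ⟨key, ?_, ?_⟩
  · ext z
    rw [SYF44.mem_nb, SYF44.mem_nb]
    by_cases hz : z = u
    · rw [hz]
      exact ⟨fun _ => Or.inr hI', fun _ => Or.inl rfl⟩
    · by_cases hzv : z = v
      · rw [hzv]
        exact ⟨fun _ => Or.inl rfl, fun _ => Or.inr i3⟩
      · rw [i2 z hz hzv]
        simp [hz, hzv]
  · ext z
    rw [key v z huv.symm]
    by_cases hz : z = u
    · rw [hz, SYF44.mem_nb, SYF44.mem_nb]
      simp [hI']
    · simp [hz]

theorem SYF44.W_lt {n : ℕ} (p q : Fin n → ℕ) (hp : Function.Injective p)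
    (hq : Function.Injective q) (u v : Fin n) (huv : u ≠ v) (hI : Inv p q u v)
    (hne : SYF44.nb p q u ≠ SYF44.nb p q v)
    (hle : (univ.filter (fun y => SYF44.nb p q y = SYF44.nb p q u)).card ≤
      (univ.filter (fun y => SYF44.nb p q y = SYF44.nb p q v)).card) :
    SYF44.W p q < SYF44.W (clp p u v) (clq q u v) := by
  obtain ⟨k1, k2, k3⟩ := SYF44.nb_cl p q hp hq u v huv hI
  unfold SYF44.W
  have h1 : ∀ x y, x ≠ u → y ≠ u → SYF44.nb p q x = SYF44.nb p q y →
      SYF44.nb (clp p u v) (clq q u v) x = SYF44.nb (clp p u v) (clq q u v) y := by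
    intro x y hx hy h
    ext z
    rw [k1 x z hx, k1 y z hy, h]
  refine SYF44.grow _ _ u v h1 ?_ hne hle
  intro x hx h
  rw [k2, ← k3]
  exact h1 x v hx huv.symm h

/-- **SYF.** -/
theorem SYF (hLBO : LBOStmt) (hRLB : RLBStmt) (hRLC : RLCStmt) (hZYK : ZYKStmt) (hTRL : TRLStmt) :
    SYFStmt := by
  intro s n k σ b hb hsn
  obtain ⟨π0, hπ0⟩ : ∃ π0 : Equiv.Perm (Fin n), ∀ π, occ σ π ≤ occ σ π0 :=
    Finite.exists_max (fun π : Equiv.Perm (Fin n) => occ σ π)
  obtain ⟨N, hN⟩ : ∃ N : (Fin n → ℕ) → (Fin n → ℕ) → ℕ, N = fun p q =>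
    Nat.card {f : Fin n → Option (Fin k) // Lab (layerSize b) p q f} := ⟨_, rfl⟩
  have hocc : ∀ π : Equiv.Perm (Fin n),
      occ σ π = N (fun x : Fin n => (x : ℕ)) (fun x : Fin n => (π x : ℕ)) := by
    intro π
    rw [hN]
    exact hLBO s n k σ b π hb
  have hperm : ∀ p q : Fin n → ℕ, Function.Injective p → Function.Injective q →
      ∃ (e : Fin n ≃ Fin n) (π : Equiv.Perm (Fin n)), (∀ x y, p x < p y ↔ e x < e y) ∧
      (∀ x y, q x < q y ↔ π (e x) < π (e y)) ∧ N p q = occ σ π := by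
    intro p q hp hq
    obtain ⟨e, π, h1, h2⟩ := hRLB n p q hp hq
    refine ⟨e, π, h1, h2, ?_⟩
    rw [hocc, hN]
    exact hRLC n k (layerSize b) p q e π h1 h2
  have hle : ∀ p q : Fin n → ℕ, Function.Injective p → Function.Injective q →
      N p q ≤ occ σ π0 := by
    intro p q hp hq
    obtain ⟨e, π, -, -, h⟩ := hperm p q hp hq
    rw [h]
    exact hπ0 π
  -- the extremal pair
  obtain ⟨Z, hZ⟩ : ∃ Z : Set ℕ, Z = {w | ∃ p q : Fin n → ℕ, Function.Injective p ∧
    Function.Injective q ∧ N p q = occ σ π0 ∧ SYF44.W p q = w} := ⟨_, rfl⟩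
  have hZn : Z.Nonempty := by
    rw [hZ]
    refine ⟨_, fun x : Fin n => (x : ℕ), fun x : Fin n => (π0 x : ℕ), Fin.val_injective,
      fun x y h => π0.injective (Fin.val_injective h), (hocc π0).symm, rfl⟩
  have hZb : BddAbove Z := by
    refine ⟨Fintype.card (Fin n × Fin n), ?_⟩
    rintro w hw
    rw [hZ] at hw
    obtain ⟨p, q, -, -, -, h⟩ := hw
    rw [← h]
    exact card_le_univ _
  have hmem := Nat.sSup_mem hZn hZb
  rw [hZ] at hmem
  obtain ⟨p, q, hp, hq, hpq, hW⟩ := hmem
  rw [← hZ] at hW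
  have hmax : ∀ p' q' : Fin n → ℕ, Function.Injective p' → Function.Injective q' →
      N p' q' = occ σ π0 → SYF44.W p' q' ≤ SYF44.W p q := by
    intro p' q' h1 h2 h3
    rw [hW]
    refine le_csSup hZb ?_
    rw [hZ]
    exact ⟨p', q', h1, h2, h3, rfl⟩
  -- all inverted pairs have the same neighbourhood
  have hcl : ∀ u v : Fin n, u ≠ v → Inv p q u v → N (clp p u v) (clq q u v) = occ σ π0 := by
    intro u v huv hI
    have h1 := hZYK n k (layerSize b) p q u v hp hq huv hI
    have h2 := hle _ _ (SYF44.clp_inj p hp u v) (SYF44.clq_inj q hq u v)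
    have h3 := hle _ _ (SYF44.clp_inj p hp v u) (SYF44.clq_inj q hq v u)
    rw [hN] at h2 h3 hpq ⊢
    simp only at h2 h3 hpq ⊢
    omega
  have hnb : ∀ u v : Fin n, Inv p q u v → SYF44.nb p q u = SYF44.nb p q v := by
    intro u v hI
    by_contra hne
    have huv : u ≠ v := fun h => hne (by rw [h])
    rcases le_total (univ.filter (fun y => SYF44.nb p q y = SYF44.nb p q u)).card
      (univ.filter (fun y => SYF44.nb p q y = SYF44.nb p q v)).card with h | h
    · have h1 := SYF44.W_lt p q hp hq u v huv hI hne h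
      have h2 := hmax _ _ (SYF44.clp_inj p hp u v) (SYF44.clq_inj q hq u v) (hcl u v huv hI)
      omega
    · have hI' := (SYF44.inv_symm p q u v).1 hI
      have h1 := SYF44.W_lt p q hp hq v u huv.symm hI' (Ne.symm hne) h
      have h2 := hmax _ _ (SYF44.clp_inj p hp v u) (SYF44.clq_inj q hq v u)
        (hcl v u huv.symm hI')
      omega
  have htr : ∀ x y z : Fin n, Inv p q x y → Inv p q y z → x ≠ z → Inv p q x z := by
    intro x y z h1 h2 h3
    have h4 : z ∈ SYF44.nb p q x := by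
      rw [hnb x y h1, hnb y z h2, SYF44.mem_nb]
      exact Or.inl rfl
    rw [SYF44.mem_nb] at h4
    exact h4.resolve_left (Ne.symm h3)
  obtain ⟨e, π, h1, h2, h3⟩ := hperm p q hp hq
  have hinv : ∀ x y, Inv (fun x : Fin n => (x : ℕ)) (fun x : Fin n => (π x : ℕ)) (e x) (e y) ↔
      Inv p q x y := by
    intro x y
    unfold Inv
    rw [h1, h1, h2, h2]
    rfl
  refine ⟨π, ⟨hsn, ?_⟩, hTRL n π ?_⟩
  · intro π'
    unfold density
    refine div_le_div_of_nonneg_right ?_ (Nat.cast_nonneg _)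
    rw [← h3, hpq]
    exact_mod_cast hπ0 π'
  · intro x y z hxy hyz hxz
    obtain ⟨x, rfl⟩ := e.surjective x
    obtain ⟨y, rfl⟩ := e.surjective y
    obtain ⟨z, rfl⟩ := e.surjective z
    rw [hinv] at hxy hyz ⊢
    exact htr x y z hxy hyz (fun h => hxz (by rw [h]))

end Pool.LAY
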