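import Pool.Agent.H97.LAY.Stmts

set_option autoImplicit false

namespace Pool.LAY

open Finset

theorem TRL : TRLStmt := by
  classical
  intro n π htr
  set I : Fin n → Fin n → Prop :=
    Inv (fun x : Fin n => (x : ℕ)) (fun x : Fin n => (π x : ℕ)) with hI
  have hIs : ∀ x y, I x y → I y x := by
    intro x y h
    rcases h with h | h
    · exact Or.inr h
    · exact Or.inl h
  have hInv : ∀ x y : Fin n, x < y → (I x y ↔ π y < π x) := by
    intro x y hxy
    constructor
    · intro h
      rcases h with h | h
      · exact h.2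
      · exact absurd h.1 (by simpa using hxy.le)
    · intro h
      exact Or.inl ⟨hxy, h⟩
  set R : Fin n → Fin n → Prop := fun x y => x = y ∨ I x y with hR
  have hRr : ∀ x, R x x := fun x => Or.inl rfl
  have hRs : ∀ x y, R x y → R y x := by
    intro x y h
    rcases h with h | h
    · exact Or.inl h.symm
    · exact Or.inr (hIs _ _ h)
  have hRt : ∀ x y z, R x y → R y z → R x z := by
    intro x y z h1 h2
    rcases h1 with rfl | h1
    · exact h2
    · rcases h2 with rfl | h2
      · exact Or.inr h1
      · by_cases hxz : x = z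
        · exact Or.inl hxz
        · exact Or.inr (htr x y z h1 h2 hxz)
  have hne : ∀ i : Fin n, (univ.filter (fun j => R j i)).Nonempty := fun i =>
    ⟨i, by simp [hRr i]⟩
  set m : Fin n → Fin n := fun i => (univ.filter (fun j => R j i)).min' (hne i) with hm
  have hmR : ∀ i, R (m i) i := by
    intro i
    have := Finset.min'_mem _ (hne i)
    simpa using (Finset.mem_filter.mp this).2
  have hmle : ∀ i j, R j i → m i ≤ j := by
    intro i j h
    exact Finset.min'_le _ _ (by simp [h])
  have hmeq : ∀ i j, R i j → m i = m j := by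
    intro i j h
    refine le_antisymm ?_ ?_
    · exact hmle i _ (hRt _ _ _ (hmR j) (hRs _ _ h))
    · exact hmle j _ (hRt _ _ _ (hmR i) h)
  have hReq : ∀ i j, m i = m j → R i j := by
    intro i j h
    have h1 := hRs _ _ (hmR i)
    rw [h] at h1
    exact hRt _ _ _ h1 (hmR j)
  have hmono : ∀ j i : Fin n, j ≤ i → m j ≤ m i := by
    intro j i hji
    by_contra hcon
    push Not at hcon
    have hji' : j < i := by
      rcases lt_or_eq_of_le hji with h | h
      · exact h
      · rw [h] at hcon; exact absurd hcon (lt_irrefl _)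
    have hmj : m j ≤ j := hmle j j (hRr j)
    have hpj : m i < j := lt_of_lt_of_le hcon hmj
    have hpi : m i < i := lt_trans hpj hji'
    have h1 : π i < π (m i) := by
      rcases hmR i with h | h
      · exact absurd h hpi.ne
      · exact (hInv _ _ hpi).mp h
    have h2 : ¬ π i < π j := by
      intro h
      have h3 : R j i := Or.inr ((hInv _ _ hji').mpr h)
      rw [hmeq _ _ h3] at hcon
      exact absurd hcon (lt_irrefl _)
    have h3 : π j < π (m i) := lt_of_le_of_lt (not_lt.mp h2) h1
    have h4 : R (m i) j := Or.inr ((hInv _ _ hpj).mpr h3)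
    exact absurd (hmle j _ h4) (not_le.mpr hcon)
  set M : Finset (Fin n) := univ.image m with hM
  have hmM : ∀ i, m i ∈ M := fun i => Finset.mem_image_of_mem m (Finset.mem_univ i)
  set e := M.orderIsoOfFin rfl with he
  refine ⟨M.card, fun i => e.symm ⟨m i, hmM i⟩, ?_, ?_, ?_, ?_⟩
  · intro c
    obtain ⟨i, _, hi⟩ := Finset.mem_image.mp (e c).2
    refine ⟨i, ?_⟩
    have : (⟨m i, hmM i⟩ : M) = e c := Subtype.ext hi
    simp only [this, OrderIso.symm_apply_apply]
  · intro i j hij
    exact e.symm.monotone (hmono i j hij)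
  · intro i j hij hb
    have h1 : (⟨m i, hmM i⟩ : M) = ⟨m j, hmM j⟩ := e.symm.injective hb
    have h2 : m i = m j := congrArg Subtype.val h1
    rcases hReq i j h2 with h | h
    · exact absurd h hij.ne
    · exact (hInv _ _ hij).mp h
  · intro i j hb
    have h1 : (⟨m i, hmM i⟩ : M) < ⟨m j, hmM j⟩ := e.symm.lt_iff_lt.mp hb
    have h2 : m i < m j := h1
    have hij : i < j := by
      by_contra hcon
      exact absurd (hmono j i (not_lt.mp hcon)) (not_le.mpr h2)
    rcases lt_trichotomy (π i) (π j) with h | h | h
    · exact h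
    · exact absurd (π.injective h) hij.ne
    · have h3 : R i j := Or.inr ((hInv _ _ hij).mpr h)
      rw [hmeq _ _ h3] at h2
      exact absurd h2 (lt_irrefl _)

end Pool.LAY
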