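import Pool.Agent.H97.LAY.Stmts

/-!
# Row ZYK: symmetrisation inequality
-/

set_option autoImplicit false

namespace Pool.LAY

open Finset

/-- the representative of `x` (the clone `u` is represented by `v`) -/
def ZYK44.rep {n : ℕ} (u v x : Fin n) : Fin n := if x = u then v else x

theorem ZYK44.valid {n k : ℕ} (p q : Fin n → ℕ) (hp : Function.Injective p) (u v : Fin n)
    (f g : Fin n → Option (Fin k))
    (hf : ∀ (x y : Fin n) (i j : Fin k), p x < p y → f x = some i → f y = some j →
      (i = j ∧ q y < q x) ∨ (i < j ∧ q x < q y))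
    (hg : ∀ x i, g x = some i → f (ZYK44.rep u v x) = some i) :
    ∀ (x y : Fin n) (i j : Fin k), clp p u v x < clp p u v y → g x = some i → g y = some j →
      (i = j ∧ clq q u v y < clq q u v x) ∨ (i < j ∧ clq q u v x < clq q u v y) := by
  intro x y i j hxy hx hy
  have h1 := hg x i hx
  have h2 := hg y j hy
  unfold clp at hxy
  unfold clq
  unfold ZYK44.rep at h1 h2
  by_cases hxu : x = u <;> by_cases hyu : y = u
  · rw [if_pos hxu, if_pos hyu] at hxy
    omega
  · rw [if_pos hxu, if_neg hyu] at hxy
    rw [if_pos hxu] at h1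
    rw [if_neg hyu] at h2
    rw [if_pos hxu, if_neg hyu]
    have h3 : p v < p y := by omega
    rcases hf v y i j h3 h1 h2 with h | h
    · left
      exact ⟨h.1, by omega⟩
    · right
      exact ⟨h.1, by omega⟩
  · rw [if_neg hxu, if_pos hyu] at hxy
    rw [if_neg hxu] at h1
    rw [if_pos hyu] at h2
    rw [if_neg hxu, if_pos hyu]
    by_cases hxv : x = v
    · rw [hxv] at h1 ⊢
      rw [h1] at h2
      left
      exact ⟨Option.some.inj h2, by omega⟩
    · have h3 : p x < p v := by
        have h4 : p x ≠ p v := fun h => hxv (hp h)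
        omega
      rcases hf x v i j h3 h1 h2 with h | h
      · left
        exact ⟨h.1, by omega⟩
      · right
        exact ⟨h.1, by omega⟩
  · rw [if_neg hxu, if_neg hyu] at hxy
    rw [if_neg hxu] at h1
    rw [if_neg hyu] at h2
    rw [if_neg hxu, if_neg hyu]
    have h3 : p x < p y := by omega
    rcases hf x y i j h3 h1 h2 with h | h
    · left
      exact ⟨h.1, by omega⟩
    · right
      exact ⟨h.1, by omega⟩

theorem ZYK44.same {n k : ℕ} (p q : Fin n → ℕ) (u v : Fin n)
    (hI : Inv p q u v) (f : Fin n → Option (Fin k))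
    (hf : ∀ (x y : Fin n) (i j : Fin k), p x < p y → f x = some i → f y = some j →
      (i = j ∧ q y < q x) ∨ (i < j ∧ q x < q y)) (hu : f u ≠ none) (hv : f v ≠ none) :
    f u = f v := by
  obtain ⟨i, hi⟩ := Option.ne_none_iff_exists'.1 hu
  obtain ⟨j, hj⟩ := Option.ne_none_iff_exists'.1 hv
  rw [hi, hj]
  rcases hI with h | h
  · rcases hf u v i j h.1 hi hj with h' | h'
    · rw [h'.1]
    · omega
  · rcases hf v u j i h.1 hj hi with h' | h'
    · rw [h'.1]
    · omega

theorem ZYK44.count {α : Type} (G : Finset α) (A B : α → Prop) [DecidablePred A]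
    [DecidablePred B] : G.card = (G.filter (fun x => A x)).card +
      ((G.filter (fun x => ¬ A x ∧ B x)).card + (G.filter (fun x => ¬ A x ∧ ¬ B x)).card) := by
  rw [← filter_filter, ← filter_filter, card_filter_add_card_filter_not,
    card_filter_add_card_filter_not]

open Classical in
theorem ZYK44.half {n k : ℕ} (ℓ : Fin k → ℕ) (p q : Fin n → ℕ) (u v : Fin n)
    (hp : Function.Injective p) (huv : u ≠ v) (hI : Inv p q u v) :
    ((univ.filter (fun f : Fin n → Option (Fin k) => Lab ℓ p q f)).filter
        (fun f => f u = none)).card +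
      (((univ.filter (fun f : Fin n → Option (Fin k) => Lab ℓ p q f)).filter
        (fun f => ¬ f v = none ∧ f u = none)).card +
      ((univ.filter (fun f : Fin n → Option (Fin k) => Lab ℓ p q f)).filter
        (fun f => ¬ f u = none ∧ ¬ f v = none)).card) ≤
    (univ.filter (fun f : Fin n → Option (Fin k) => Lab ℓ (clp p u v) (clq q u v) f)).card := by
  set F := univ.filter (fun f : Fin n → Option (Fin k) => Lab ℓ p q f) with hF
  set F' := univ.filter (fun f : Fin n → Option (Fin k) => Lab ℓ (clp p u v) (clq q u v) f)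
    with hF'
  have e1 := ZYK44.count F' (fun f => f u = none) (fun f => f v = none)
  have hmem : ∀ f, f ∈ F ↔ Lab ℓ p q f := fun f => by rw [hF, mem_filter]; simp
  have hmem' : ∀ f, f ∈ F' ↔ Lab ℓ (clp p u v) (clq q u v) f := fun f => by
    rw [hF', mem_filter]; simp
  rw [e1]
  refine Nat.add_le_add (card_le_card ?_) (Nat.add_le_add ?_ (card_le_card ?_))
  · intro f hf
    rw [mem_filter, hmem] at hf
    rw [mem_filter, hmem']
    refine ⟨⟨hf.1.1, ZYK44.valid p q hp u v f f hf.1.2 ?_⟩, hf.2⟩
    intro x i hx
    unfold ZYK44.rep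
    rw [if_neg]
    · exact hx
    · intro h
      rw [h, hf.2] at hx
      exact absurd hx (by simp)
  · refine card_le_card_of_injOn (fun f => f ∘ Equiv.swap u v) ?_ ?_
    · intro f hf
      rw [mem_coe, mem_filter, hmem] at hf
      obtain ⟨⟨h1, h2⟩, h4, h3⟩ := hf
      rw [mem_coe, mem_filter, hmem']
      refine ⟨⟨?_, ZYK44.valid p q hp u v f _ h2 ?_⟩, ?_, ?_⟩
      · intro j
        rw [← h1 j]
        refine Nat.card_congr ((Equiv.swap u v).subtypeEquiv ?_)
        intro x
        rfl
      · intro x i hx
        unfold ZYK44.rep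
        simp only [Function.comp] at hx
        split_ifs with h
        · rw [h, Equiv.swap_apply_left] at hx
          exact hx
        · by_cases hxv : x = v
          · rw [hxv, Equiv.swap_apply_right, h3] at hx
            exact absurd hx (by simp)
          · rwa [Equiv.swap_apply_of_ne_of_ne h hxv] at hx
      · simp only [Function.comp, Equiv.swap_apply_left]
        exact h4
      · simp only [Function.comp, Equiv.swap_apply_right]
        exact h3
    · intro f _ g _ hfg
      have h : (fun f : Fin n → Option (Fin k) => f ∘ Equiv.swap u v) f =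
        (fun f : Fin n → Option (Fin k) => f ∘ Equiv.swap u v) g := hfg
      simp only at h
      funext x
      have := congrFun h (Equiv.swap u v x)
      simpa using this
  · intro f hf
    rw [mem_filter, hmem] at hf
    obtain ⟨⟨h1, h2⟩, h3, h4⟩ := hf
    rw [mem_filter, hmem']
    refine ⟨⟨h1, ZYK44.valid p q hp u v f f h2 ?_⟩, h3, h4⟩
    intro x i hx
    unfold ZYK44.rep
    split_ifs with h
    · rw [← ZYK44.same p q u v hI f h2 h3 h4, ← h]
      exact hx
    · exact hx

open Classical in
theorem ZYK44.card {n k : ℕ} (ℓ : Fin k → ℕ) (p q : Fin n → ℕ) :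
    Nat.card {f : Fin n → Option (Fin k) // Lab ℓ p q f} =
      (univ.filter (fun f : Fin n → Option (Fin k) => Lab ℓ p q f)).card := by
  rw [Nat.card_eq_fintype_card, Fintype.card_subtype]

open Classical in
/-- **ZYK.** -/
theorem ZYK : ZYKStmt := by
  intro n k ℓ p q u v hp hq huv hI
  have hI' : Inv p q v u := by
    rcases hI with h | h
    · exact Or.inr h
    · exact Or.inl h
  rw [ZYK44.card, ZYK44.card, ZYK44.card]
  have a1 := ZYK44.half ℓ p q u v hp huv hI
  have a2 := ZYK44.half ℓ p q v u hp (Ne.symm huv) hI'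
  have b1 := ZYK44.count (univ.filter (fun f : Fin n → Option (Fin k) => Lab ℓ p q f))
    (fun f => f u = none) (fun f => f v = none)
  have b2 := ZYK44.count (univ.filter (fun f : Fin n → Option (Fin k) => Lab ℓ p q f))
    (fun f => f v = none) (fun f => f u = none)
  omega

end Pool.LAY
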