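import Pool.Agent.H97.LAY.H2G
import Pool.Agent.H97.LAY.COU
import Pool.Agent.H97.LAY.EXI
import Pool.Agent.H97.LAY.LSZ
import Pool.Agent.H97.LAY.SYF
import Pool.Agent.H97.LAY.LBO
import Pool.Agent.H97.LAY.RLB
import Pool.Agent.H97.LAY.RLC
import Pool.Agent.H97.LAY.ZYK
import Pool.Agent.H97.LAY.TRL
import Pool.Agent.H97.LAY.CV2
import Pool.Agent.H97.LAY.FN3
import Pool.Agent.H97.LAY.ST2
import Pool.Agent.H97.LAY.LOW
import Pool.Agent.H65.LAY.LEN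
import Pool.Agent.H14.LAY.DCH
import Pool.Agent.H17.LAY.PIV
import Pool.Agent.H17.LAY.MRG
import Pool.Agent.H97.LAY.APP
import Pool.Agent.H97.LAY.POW
import Pool.Agent.H97.LAY.SUB
import Pool.Agent.H97.LAY.DLT
import Pool.Agent.H97.LAY.DM1
import Pool.Agent.H97.LAY.DM2
import Pool.Agent.H97.LAY.D3G
import Pool.Agent.H97.LAY.D4G
import Pool.Agent.H97.LAY.DM5
import Pool.Agent.H97.LAY.DM6
import Pool.Agent.H97.LAY.CXZ
import Pool.Agent.H97.LAY.DO2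
import Pool.Agent.H97.LAY.PO2
import Pool.Agent.H97.LAY.KPL
import Pool.Agent.H97.LAY.KPM
import Pool.Agent.H97.LAY.REV
import Pool.Agent.H14.LAY.DC2
import Pool.Agent.H97.LAY.PV2
import Pool.Agent.H97.LAY.MTY
import Pool.Agent.H97.LAY.FUP
import Pool.Agent.H97.LAY.LB3
import Pool.Agent.H65.LAY.DPR
import Pool.Agent.H65.LAY.CHL

set_option autoImplicit false

namespace Pool.LAY

theorem SYF' : SYFStmt := SYF LBO RLB RLC ZYK TRL
theorem MRG' : MRGStmt := MRG APP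
theorem PIV' : PIVStmt := PIV POW SUB
theorem DCH' : DCHStmt := DCH PIV'
theorem CXZ' : CXZStmt := CXZ DLT
theorem DM1' : DM1Stmt := DM1 POW DLT
theorem DM2' : DM2Stmt := DM2 POW DLT
theorem D3G' : D3GStmt := D3G SUB POW CXZ'
theorem D4G' : D4GStmt := D4G SUB POW CXZ'
theorem DM5' : DM5Stmt := DM5 SUB POW CXZ'
theorem DM6' : DM6Stmt := DM6 SUB POW CXZ'
theorem DO2' : DO2Stmt := DO2 DM1' DM2' D3G' D4G' DM5' DM6' SUB POW
theorem PO2' : PO2Stmt := PO2 SUB DLT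
theorem PV2' : PV2Stmt := PV2 APP SUB POW (MTY POW)
theorem KPL' : KPLStmt := KPL PV2' FUP (LB3 APP) DPR CHL SUB POW
theorem KPM' : KPMStmt := KPM KPL' REV
theorem DC2' : DC2Stmt := DC2 KPL' KPM'
theorem ST2' : ST2Stmt := ST2 LOW DCH' DO2' PO2' MRG' DC2'
theorem FN3' : FN3Stmt := FN3 ST2' LEN

theorem H1' {s k : ℕ} (σ : Equiv.Perm (Fin s)) (b : Fin s → Fin k)
    (hb : IsLayering σ b) (hk : 0 < k)
    (h2 : ∀ j : Fin k, ((j : ℕ) = 0 ∨ (j : ℕ) + 1 = k) → 2 ≤ layerSize b j)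
    (h3 : ∀ i j l : Fin k, (i : ℕ) + 1 = j → (j : ℕ) + 1 = l → layerSize b j = 1 →
      2 ≤ layerSize b i ∧ 2 ≤ layerSize b l ∧
      (layerSize b i < layerSize b l →
        ∃ m : Fin k, (l : ℕ) + 1 = m ∧ 2 ≤ layerSize b m ∧ layerSize b m ≤ layerSize b i) ∧
      (layerSize b l < layerSize b i →
        ∃ m : Fin k, (m : ℕ) + 1 = i ∧ 2 ≤ layerSize b m ∧ layerSize b m ≤ layerSize b l)) :
    (∃ K : ℕ, ∀ (n : ℕ) (π : Equiv.Perm (Fin n)), Optimal σ π → ∀ j : ℕ, HasLayers π j → j ≤ K) ∧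
      ¬ CondII σ :=
  H1G FN3' COU EXI LSZ SYF' CV2 σ b hb hk h2 h3

end Pool.LAY
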