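import Pool.Agent.H97.LAY.Stmts

set_option autoImplicit false

namespace Pool.LAY

open Finset

theorem exi_cast (hEXI : EXIStmt) (ns : List ℕ) (hns : Pos ns) (n : ℕ) (hn : ns.sum = n) :
    ∃ (π : Equiv.Perm (Fin n)) (b : Fin n → Fin ns.length),
      IsLayering π b ∧ List.ofFn (layerSize b) = ns := by
  subst hn
  exact hEXI ns hns

theorem pos_ofFn (hLSZ : LSZStmt) {n k : ℕ} (b : Fin n → Fin k) (hb : Function.Surjective b) :
    Pos (List.ofFn (layerSize b)) := by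
  intro x hx
  rw [List.mem_ofFn] at hx
  obtain ⟨j, rfl⟩ := hx
  exact (hLSZ n k b hb).1 j

/-- occurrences are compared like densities -/
theorem occ_le_of_density {s n : ℕ} (σ : Equiv.Perm (Fin s)) (π π' : Equiv.Perm (Fin n))
    (hs : s ≤ n) (h : density σ π' ≤ density σ π) : occ σ π' ≤ occ σ π := by
  unfold density at h
  have hpos : (0 : ℝ) < (n.choose s : ℝ) := by exact_mod_cast Nat.choose_pos hs
  have h2 := (div_le_div_iff_of_pos_right hpos).1 h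
  exact_mod_cast h2

theorem optL_of_optimal (hCOU : COUStmt) (hEXI : EXIStmt) (hLSZ : LSZStmt)
    {s n k j : ℕ} (σ : Equiv.Perm (Fin s)) (b : Fin s → Fin k) (hb : IsLayering σ b)
    (π : Equiv.Perm (Fin n)) (c : Fin n → Fin j) (hc : IsLayering π c) (ho : Optimal σ π) :
    OptL (List.ofFn (layerSize b)) (List.ofFn (layerSize c)) := by
  refine ⟨pos_ofFn hLSZ c hc.1, ?_⟩
  intro ns' hpos hsum
  have hn : ns'.sum = n := by rw [hsum]; exact (hLSZ n j c hc.1).2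
  obtain ⟨π', b', hb', hsz⟩ := exi_cast hEXI ns' hpos n hn
  have h1 := hCOU s n k j σ b π c hb hc
  have h2 := hCOU s n k ns'.length σ b π' b' hb hb'
  rw [hsz] at h2
  rw [← h1, ← h2]
  exact occ_le_of_density σ π π' ho.1 (ho.2 π')

/-- H1 -/
theorem H1F (hFN1 : FN1Stmt) (hCOU : COUStmt) (hEXI : EXIStmt) (hLSZ : LSZStmt) (hSYF : SYFStmt)
    (hCV1 : CV1Stmt) {s k : ℕ} (σ : Equiv.Perm (Fin s)) (b : Fin s → Fin k)
    (hb : IsLayering σ b) (hk : 0 < k)
    (h2 : ∀ j : Fin k, ((j : ℕ) = 0 ∨ (j : ℕ) + 1 = k) → 2 ≤ layerSize b j)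
    (h3 : ∀ i j l : Fin k, (i : ℕ) + 1 = j → (j : ℕ) + 1 = l → layerSize b j = 1 →
      layerSize b i = layerSize b l ∧ 2 ≤ layerSize b i) :
    (∃ K : ℕ, ∀ (n : ℕ) (π : Equiv.Perm (Fin n)), Optimal σ π → ∀ j : ℕ, HasLayers π j → j ≤ K) ∧
      ¬ CondII σ := by
  have hG : Good (List.ofFn (layerSize b)) :=
    hCV1 k (layerSize b) hk (hLSZ s k b hb.1).1 h2 h3
  obtain ⟨K, hK⟩ := hFN1 _ hG
  have main : ∀ (n : ℕ) (π : Equiv.Perm (Fin n)), Optimal σ π → ∀ j : ℕ, HasLayers π j → j ≤ K := by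
    intro n π ho j hj
    obtain ⟨c, hc⟩ := hj
    have := hK _ (optL_of_optimal hCOU hEXI hLSZ σ b hb π c hc ho)
      (by rw [(hLSZ s k b hb.1).2, (hLSZ n j c hc.1).2]; exact ho.1)
    simpa using this
  refine ⟨⟨K, main⟩, ?_⟩
  intro hII
  obtain ⟨n, hn, hall⟩ := hII (K + 1)
  obtain ⟨π, ho, j, hj⟩ := hSYF s n k σ b hb hn
  have h4 := hall π ho j hj
  have h5 := main n π ho j hj
  omega

/-- H2 -/
theorem H2F (hFN2 : FN2Stmt) (hCOU : COUStmt) (hEXI : EXIStmt) (hLSZ : LSZStmt)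
    {s k : ℕ} (σ : Equiv.Perm (Fin s)) (b : Fin s → Fin k) (hb : IsLayering σ b)
    (i0 i1 : Fin k) (hi0 : (i0 : ℕ) = 0) (hi1 : (i1 : ℕ) = 1) (hk : 3 ≤ k)
    (h0 : 3 ≤ layerSize b i0) (h1 : layerSize b i1 = 1) (h2 : s ≤ 2 * layerSize b i0) (m : ℕ) :
    {n : ℕ | ∃ π : Equiv.Perm (Fin n), Optimal σ π ∧ ∃ j ≤ m, HasLayers π j}.Finite := by
  obtain ⟨k, rfl⟩ : ∃ k', k = k' + 3 := ⟨k - 3, by omega⟩
  have hi0' : i0 = 0 := Fin.ext (by simpa using hi0)
  have hi1' : i1 = 1 := Fin.ext (by simpa using hi1)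
  subst hi0' hi1'
  set ls := List.ofFn (layerSize b) with hls
  have hform : ls = layerSize b 0 :: 1 :: layerSize b 2 ::
      List.ofFn (fun i : Fin k => layerSize b i.succ.succ.succ) := by
    rw [hls, List.ofFn_succ, List.ofFn_succ, List.ofFn_succ]
    simp only [Fin.succ_zero_eq_one, Fin.succ_one_eq_two, h1]
  have hpos := (hLSZ s (k + 3) b hb.1).1
  have hsum := (hLSZ s (k + 3) b hb.1).2
  rw [← hls, hform] at hsum
  simp only [List.sum_cons] at hsum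
  obtain ⟨n0, hn0⟩ := hFN2 (layerSize b 0) (layerSize b 2)
    (List.ofFn (fun i : Fin k => layerSize b i.succ.succ.succ)) h0 (hpos 2) (by
      intro l hl
      rw [List.mem_ofFn] at hl
      obtain ⟨j, rfl⟩ := hl
      exact hpos _) (by omega) m
  apply Set.Finite.subset (Set.finite_lt_nat n0)
  rintro n ⟨π, ho, j, hj, c, hc⟩
  simp only [Set.mem_setOf_eq]
  by_contra hlt
  push Not at hlt
  obtain ⟨ns', hp', hs', hD⟩ := hn0 (List.ofFn (layerSize c))
    (by rw [(hLSZ n j c hc.1).2]; exact hlt) (by simpa using hj)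
  have hopt := (optL_of_optimal hCOU hEXI hLSZ σ b hb π c hc ho).2 ns' hp' hs'
  rw [← hls, hform] at hopt
  omega

end Pool.LAY
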