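import Pool.Agent.H97.LAY.Stmts2

/-!
# Third batch of statements of the board `lay` (the case `(3,1,1,...)`)
-/

set_option autoImplicit false

namespace Pool.LAY

open Finset

/-- row XE1. As EX3: compare `x0 :: x1 :: tl` with `x0 :: (x1 - e) :: tl`, `0 < e < x1`: with
`V = Q (1::b::bs) tl`, `T1 = Q (b::bs) tl`, `R = Q ls tl`, `P = x0^a (x1 T1 + V) + x1^a V + R`:
`x0^a ((x1-e) T1 + V) + (x1-e)^a V + R ≤ P (1-e)^N` (IMH); divide by `e`, let `e → 0`. -/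
def XE1Stmt : Prop := ∀ (a b : ℕ) (bs : List ℕ) (x0 x1 : ℝ) (tl : List ℝ), 1 ≤ a → 1 ≤ b →
  (∀ l ∈ bs, 1 ≤ l) → IsMax (a :: 1 :: b :: bs) (x0 :: x1 :: tl) → 0 < x1 →
  ((a + (1 + (b + bs.sum)) : ℕ) : ℝ) * Q (a :: 1 :: b :: bs) (x0 :: x1 :: tl) ≤
    x0 ^ a * Q (b :: bs) tl + (a : ℝ) * (x1 ^ (a - 1) * Q (1 :: b :: bs) tl)

/-- row NU3. Put `r = N x`, `ε = (1-x)^N ≤ exp (-r)`. `r ≥ 5/2`: otherwise, with `X = 5/(2N)`,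
convexity gives `3 (1 - (1-x)^N) ≥ (x/X) 3 (1 - (1-X)^N) > N x`, because
`3 (1-X)^N ≤ 3 exp (-5/2) < 1/2`. So `ε ≤ exp(-5/2) < 0.0821`, `r ≥ 3 (1 - 0.0821) > 2.753`, and
`(9/23 - 0.0821) * 2.753^3 > 6.4`. -/
def NU3Stmt : Prop := ∀ (N : ℕ) (x : ℝ), 4 ≤ N → 0 < x → x < 1 →
  3 * (1 - (1 - x) ^ N) ≤ (N : ℝ) * x → 5 < (9 / 23 - (1 - x) ^ N) * ((N : ℝ) * x) ^ 3

/-- row CO3 (as CO2, but with XE1 in place of one estimate). `N = ls.sum`. If `bs = []`: COR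
(`5 ≤ 6`); also if `N ≤ 6`. Otherwise `N ≥ 7`, `bs = d :: bs'`. Let `xs` be a maximiser; drop its
zero entries: `xs = x0 :: x1 :: tl`, all positive, `P > 0`. EX3: `N x0 ≤ 3`. SWP: `3 x1 ≤ x0`.
CUT for `x1 :: tl` and `c = (7/2) / N` (`N (1-x0) ≥ N - 3 ≥ 4`); `pre = []` is impossible
(`N x1 ≤ 1`), so `pre = x1 :: pre'`, `tl = pre' ++ y :: post`. REG (`b = 1`) and W11
(`(x1::pre').sum ≤ (7/2)/N`), `U = Q bs tl`, `V = Q (1::1::bs) tl`, `ε = (1-x0)^N`, `ξ = N x1`: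
`(9/23 - ε) P ≤ x0^3 (1/2) (49/4) / N^2 * U`. EX1: `x0^3 U ≤ 3 x1 V`. XE1 (times `x1`):
`ξ P ≤ x0^3 x1 T1 + 3 x1^3 V`, and `P ≥ x0^3 (x1 T1 + V) + x1^3 V`, so
`x0^3 V ≤ (1 - ξ) P + 2 x1^3 V ≤ (1-ξ) P + (2/27) x0^3 V` (`3 x1 ≤ x0`), i.e.
`25 x0^3 V ≤ 27 (1-ξ) P`. Hence, multiplying by `(N x0)^3`:
`(9/23 - ε) (N x0)^3 P ≤ (1/2) (49/4) * 3 ξ * x0^3 V ≤ (49/8) * 3 * (27/25) * ξ (1-ξ) P ≤ 4.97 P`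
(`ξ (1-ξ) ≤ 1/4`). EX2 with `R = Q ls (x1::tl) ≤ P (1-x0)^N` (IMH): `3 (1-ε) ≤ N x0`. NU3. -/
def CO3Stmt : Prop := ∀ (bs : List ℕ), (∀ l ∈ bs, 1 ≤ l) → ∀ xs : List ℝ, ¬ IsMax (3 :: 1 :: 1 :: bs) xs

end Pool.LAY
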