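import Pool.Agent.H97.LAY.Stmts4
import Pool.Agent.H97.LAY.Stmts3
import Pool.Agent.H97.LAY.H1F

/-!
# Assembly of the two theorems of the board `lay` (with the rows as hypotheses)
-/

set_option autoImplicit false

namespace Pool.LAY

open Finset

/-! ## the first theorem, unequal neighbours -/

theorem H1G (hFN3 : FN3Stmt) (hCOU : COUStmt) (hEXI : EXIStmt) (hLSZ : LSZStmt) (hSYF : SYFStmt)
    (hCV2 : CV2Stmt) {s k : ℕ} (σ : Equiv.Perm (Fin s)) (b : Fin s → Fin k)
    (hb : IsLayering σ b) (hk : 0 < k)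
    (h2 : ∀ j : Fin k, ((j : ℕ) = 0 ∨ (j : ℕ) + 1 = k) → 2 ≤ layerSize b j)
    (h3 : ∀ i j l : Fin k, (i : ℕ) + 1 = j → (j : ℕ) + 1 = l → layerSize b j = 1 →
      2 ≤ layerSize b i ∧ 2 ≤ layerSize b l ∧
      (layerSize b i < layerSize b l →
        ∃ m : Fin k, (l : ℕ) + 1 = m ∧ 2 ≤ layerSize b m ∧ layerSize b m ≤ layerSize b i) ∧
      (layerSize b l < layerSize b i →
        ∃ m : Fin k, (m : ℕ) + 1 = i ∧ 2 ≤ layerSize b m ∧ layerSize b m ≤ layerSize b l)) :
    (∃ K : ℕ, ∀ (n : ℕ) (π : Equiv.Perm (Fin n)), Optimal σ π → ∀ j : ℕ, HasLayers π j → j ≤ K) ∧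
      ¬ CondII σ := by
  have hG : Good2 (List.ofFn (layerSize b)) :=
    hCV2 k (layerSize b) hk (hLSZ s k b hb.1).1 h2 h3
  obtain ⟨K, hK⟩ := hFN3 _ hG
  have main : ∀ (n : ℕ) (π : Equiv.Perm (Fin n)), Optimal σ π → ∀ j : ℕ, HasLayers π j → j ≤ K := by
    intro n π ho j hj
    obtain ⟨c, hc⟩ := hj
    have := hK _ (optL_of_optimal hCOU hEXI hLSZ σ b hb π c hc ho)
      (by rw [(hLSZ s k b hb.1).2, (hLSZ n j c hc.1).2]; exact ho.1)
    simpa using this
  refine ⟨⟨K, main⟩, ?_⟩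
  intro hII
  obtain ⟨n, hn, hall⟩ := hII (K + 1)
  obtain ⟨π, ho, j, hj⟩ := hSYF s n k σ b hb hn
  have h4 := hall π ho j hj
  have h5 := main n π ho j hj
  omega

/-! ## reversal of `Q` -/

theorem Q_nil (xs : List ℝ) : Q [] xs = 1 := by cases xs <;> rfl

theorem Q_rev (hQAP : QAPStmt) : ∀ (xs : List ℝ) (ls : List ℕ), Q ls.reverse xs.reverse = Q ls xs
  | [], [] => by simp
  | [], l :: ls => by
      have h1 : Q (l :: ls) [] = 0 := rfl
      rw [h1]
      rcases hl : (l :: ls).reverse with _ | ⟨c, cs⟩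
      · simp at hl
      · simp [Q]
  | x :: xs, [] => by simp [Q_nil]
  | x :: xs, l :: ls => by
      have ih1 := Q_rev hQAP xs ls
      have ih2 := Q_rev hQAP xs (l :: ls)
      have hrec : Q (l :: ls) (x :: xs) = x ^ l * Q ls xs + Q (l :: ls) xs := rfl
      rw [hrec, List.reverse_cons, List.reverse_cons, hQAP]
      -- only the last two terms of the sum are nonzero
      have hlen : (ls.reverse ++ [l]).length = ls.length + 1 := by simp
      rw [hlen, Finset.sum_range_succ, Finset.sum_range_succ]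
      have hz : ∑ i ∈ range ls.length, Q ((ls.reverse ++ [l]).take i) xs.reverse *
          Q ((ls.reverse ++ [l]).drop i) [x] = 0 := by
        apply Finset.sum_eq_zero
        intro i hi
        rw [Finset.mem_range] at hi
        have h2 : 2 ≤ ((ls.reverse ++ [l]).drop i).length := by
          rw [List.length_drop, hlen]; omega
        rcases hd : (ls.reverse ++ [l]).drop i with _ | ⟨c, cs⟩
        · rw [hd] at h2; simp at h2
        · rcases cs with _ | ⟨d, ds⟩
          · rw [hd] at h2; simp at h2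
          · simp [Q]
      have hd1 : (ls.reverse ++ [l]).drop ls.length = [l] := by
        have : (ls.reverse).length = ls.length := by simp
        rw [← this, List.drop_left]
      have ht1 : (ls.reverse ++ [l]).take ls.length = ls.reverse := by
        have : (ls.reverse).length = ls.length := by simp
        rw [← this, List.take_left]
      have hd2 : (ls.reverse ++ [l]).drop (ls.length + 1) = [] := by
        apply List.drop_eq_nil_of_le; rw [hlen]
      have ht2 : (ls.reverse ++ [l]).take (ls.length + 1) = ls.reverse ++ [l] := by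
        apply List.take_of_length_le; rw [hlen]
      rw [hz, hd1, ht1, hd2, ht2, ih1, Q_nil]
      have h3 : Q (ls.reverse ++ [l]) xs.reverse = Q (l :: ls) xs := by
        rw [← List.reverse_cons]; exact ih2
      rw [h3]
      simp [Q]
      ring

theorem isMax_rev (hQAP : QAPStmt) {ls : List ℕ} {xs : List ℝ} (h : IsMax ls xs) :
    IsMax ls.reverse xs.reverse := by
  obtain ⟨h1, h2, h3⟩ := h
  refine ⟨fun x hx => h1 x (by simpa using hx), by simpa using h2, fun ys hy hs => ?_⟩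
  have h4 := h3 ys.reverse (fun x hx => hy x (by simpa using hx)) (by simpa using hs)
  rw [Q_rev hQAP]
  have h5 := Q_rev hQAP ys.reverse ls
  rw [List.reverse_reverse] at h5
  rw [h5]
  exact h4

/-! ## the second theorem -/

theorem no_max (hCOR : CORStmt) (hCO2 : CO2Stmt) (hCO3 : CO3Stmt) (a b : ℕ) (bs : List ℕ)
    (hb : 1 ≤ b) (hbs : ∀ l ∈ bs, 1 ≤ l)
    (h : b + 2 ≤ a ∨ (3 ≤ a ∧ a + 1 + b + bs.sum ≤ 2 * a)) (xs : List ℝ) :
    ¬ IsMax (a :: 1 :: b :: bs) xs := by
  rcases h with h | ⟨h1, h2⟩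
  · rcases Nat.lt_or_ge a 4 with h4 | h4
    · have ha : a = 3 := by omega
      have hb1 : b = 1 := by omega
      subst ha hb1
      exact hCO3 bs hbs xs
    · exact hCO2 a b bs h4 hb h hbs xs
  · exact hCOR a b bs h1 hb hbs h2 xs

/-- if the limit problem has no finite maximiser, (i) fails for every `m` -/
theorem H2U (hFNG : FNGStmt) (hCOU : COUStmt) (hEXI : EXIStmt) (hLSZ : LSZStmt)
    {s k : ℕ} (σ : Equiv.Perm (Fin s)) (b : Fin s → Fin k) (hb : IsLayering σ b) (hk : 0 < k)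
    (hno : ∀ xs : List ℝ, ¬ IsMax (List.ofFn (layerSize b)) xs) (m : ℕ) :
    {n : ℕ | ∃ π : Equiv.Perm (Fin n), Optimal σ π ∧ ∃ j ≤ m, HasLayers π j}.Finite := by
  set ls := List.ofFn (layerSize b) with hls
  have hne : ls ≠ [] := by
    intro h0
    have : ls.length = 0 := by rw [h0]; rfl
    rw [hls, List.length_ofFn] at this
    omega
  have hpos : ∀ l ∈ ls, 1 ≤ l := pos_ofFn hLSZ b hb.1
  obtain ⟨n0, hn0⟩ := hFNG ls hne hpos hno m
  apply Set.Finite.subset (Set.finite_lt_nat n0)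
  rintro n ⟨π, ho, j, hj, c, hc⟩
  show n < n0
  by_contra hlt
  push Not at hlt
  obtain ⟨ns', hp', hs', hD⟩ := hn0 (List.ofFn (layerSize c))
    (by rw [(hLSZ n j c hc.1).2]; exact hlt) (by simpa using hj)
  have hopt := (optL_of_optimal hCOU hEXI hLSZ σ b hb π c hc ho).2 ns' hp' hs'
  rw [← hls] at hopt
  omega

theorem ofFn_three {k : ℕ} (f : Fin (k + 3) → ℕ) :
    List.ofFn f = f 0 :: f 1 :: f 2 :: List.ofFn (fun i : Fin k => f i.succ.succ.succ) := by
  rw [List.ofFn_succ, List.ofFn_succ, List.ofFn_succ]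
  rfl

/-- reversed list of a function -/
theorem ofFn_rev {k : ℕ} (f : Fin k → ℕ) :
    (List.ofFn f).reverse = List.ofFn (fun i : Fin k => f (Fin.rev i)) := by
  apply List.ext_getElem
  · simp
  · intro i h1 h2
    rw [List.getElem_reverse]
    simp only [List.getElem_ofFn, List.length_ofFn]
    congr 1
    apply Fin.ext
    rw [Fin.val_rev]
    show k - 1 - i = k - (i + 1)
    omega

theorem H2G (hFNG : FNGStmt) (hCOU : COUStmt) (hEXI : EXIStmt) (hLSZ : LSZStmt)
    (hCOR : CORStmt) (hCO2 : CO2Stmt) (hCO3 : CO3Stmt) (hQAP : QAPStmt)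
    {s k : ℕ} (σ : Equiv.Perm (Fin s)) (b : Fin s → Fin k) (hb : IsLayering σ b)
    (h : ∃ i0 i1 i2 : Fin k, layerSize b i1 = 1 ∧
      (((i0 : ℕ) = 0 ∧ (i1 : ℕ) = 1 ∧ (i2 : ℕ) = 2) ∨
        ((i0 : ℕ) + 1 = k ∧ (i1 : ℕ) + 2 = k ∧ (i2 : ℕ) + 3 = k)) ∧
      (layerSize b i2 + 2 ≤ layerSize b i0 ∨ (3 ≤ layerSize b i0 ∧ s ≤ 2 * layerSize b i0)))
    (m : ℕ) :
    {n : ℕ | ∃ π : Equiv.Perm (Fin n), Optimal σ π ∧ ∃ j ≤ m, HasLayers π j}.Finite := by
  obtain ⟨i0, i1, i2, h1, hpos, hsz⟩ := h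
  have hk : 0 < k := lt_of_le_of_lt (Nat.zero_le _) i0.2
  have hp := (hLSZ s k b hb.1).1
  have hsum := (hLSZ s k b hb.1).2
  refine H2U hFNG hCOU hEXI hLSZ σ b hb hk ?_ m
  intro xs hxs
  rcases hpos with ⟨e0, e1, e2⟩ | ⟨e0, e1, e2⟩
  · obtain ⟨k, rfl⟩ : ∃ k', k = k' + 3 := ⟨k - 3, by have := i2.2; omega⟩
    have f0 : i0 = 0 := Fin.ext (by simpa using e0)
    have f1 : i1 = 1 := Fin.ext (by simpa using e1)
    have f2 : i2 = 2 := Fin.ext (by rw [e2]; rfl)
    subst f0 f1 f2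
    rw [ofFn_three, h1] at hxs
    rw [ofFn_three, h1] at hsum
    simp only [List.sum_cons] at hsum
    refine no_max hCOR hCO2 hCO3 _ _ _ (hp 2) ?_ ?_ xs hxs
    · intro l hl
      rw [List.mem_ofFn] at hl
      obtain ⟨j, rfl⟩ := hl
      exact hp _
    · rcases hsz with h | ⟨h, h'⟩
      · exact Or.inl h
      · exact Or.inr ⟨h, by omega⟩
  · have hxs' := isMax_rev hQAP hxs
    have hsum' : (List.ofFn (layerSize b)).reverse.sum = s := by
      rw [List.sum_reverse]; exact hsum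
    rw [ofFn_rev] at hxs' hsum'
    obtain ⟨k, rfl⟩ : ∃ k', k = k' + 3 := ⟨k - 3, by have := i2.2; omega⟩
    have f0 : Fin.rev (0 : Fin (k + 3)) = i0 := Fin.ext (by
      rw [Fin.val_rev]; simp; omega)
    have f1 : Fin.rev (1 : Fin (k + 3)) = i1 := Fin.ext (by
      rw [Fin.val_rev]; simp; omega)
    have f2 : Fin.rev (2 : Fin (k + 3)) = i2 := Fin.ext (by
      rw [Fin.val_rev]
      have : ((2 : Fin (k + 3)) : ℕ) = 2 := rfl
      omega)
    rw [ofFn_three, f0, f1, f2, h1] at hxs'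
    rw [ofFn_three, f0, f1, f2, h1] at hsum'
    simp only [List.sum_cons] at hsum'
    refine no_max hCOR hCO2 hCO3 _ _ _ (hp i2) ?_ ?_ _ hxs'
    · intro l hl
      rw [List.mem_ofFn] at hl
      obtain ⟨j, rfl⟩ := hl
      exact hp _
    · rcases hsz with h | ⟨h, h'⟩
      · exact Or.inl h
      · exact Or.inr ⟨h, by omega⟩

end Pool.LAY
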