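import Pool.Agent.H97.LAY.Stmts5
import Pool.Agent.H97.LAY.H2G

/-!
# Assembly of the third theorem of the board `lay` (with the rows as hypotheses)
-/

set_option autoImplicit false

namespace Pool.LAY

open Finset

/-- CO5 for a list, with the index of the entry 1 -/
theorem no_max5 (hCO5 : CO5Stmt) (L : List ℕ) (hL : ∀ l ∈ L, 1 ≤ l) (q : ℕ) (hq : 1 ≤ q)
    (hq2 : q + 1 < L.length) (h1 : L[q]'(by omega) = 1)
    (h : ∀ (i : ℕ) (hi : i < q),
      q * 2 ^ (2 * L[q + 1]'hq2 + 6) ≤ 2 ^ (L[i]'(by omega))) (xs : List ℝ) :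
    ¬ IsMax L xs := by
  have hq1 : q < L.length := by omega
  have hdec : L.take q ++ 1 :: L[q + 1] :: L.drop (q + 2) = L := by
    have e1 : L.drop q = L[q] :: L.drop (q + 1) := List.drop_eq_getElem_cons hq1
    have e2 : L.drop (q + 1) = L[q + 1] :: L.drop (q + 1 + 1) := List.drop_eq_getElem_cons hq2
    calc L.take q ++ 1 :: L[q + 1] :: L.drop (q + 2)
        = L.take q ++ L.drop q := by rw [e1, e2, h1]
      _ = L := List.take_append_drop q L
  -- the smallest of the first `q` entries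
  obtain ⟨i0, hi0, hmin⟩ : ∃ i0 : ℕ, ∃ hi0 : i0 < q, ∀ (i : ℕ) (hi : i < q),
      L[i0]'(by omega) ≤ L[i]'(by omega) := by
    obtain ⟨i0, hi0, hmin⟩ := Finset.exists_min_image (range q) (fun i => L.getD i 0)
      ⟨0, mem_range.2 (by omega)⟩
    refine ⟨i0, mem_range.1 hi0, fun i hi => ?_⟩
    have h2 := hmin i (mem_range.2 hi)
    have e1 : L.getD i0 0 = L[i0]'(by have := mem_range.1 hi0; omega) := by
      have : i0 < L.length := by have := mem_range.1 hi0; omega
      simp [List.getD, this]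
    have e2 : L.getD i 0 = L[i]'(by omega) := by
      have : i < L.length := by omega
      simp [List.getD, this]
    rw [e1, e2] at h2
    exact h2
  have hlen : (L.take q).length = q := by rw [List.length_take]; omega
  have hne : L.take q ≠ [] := by
    intro h0
    rw [h0] at hlen
    simp at hlen
    omega
  have key := hCO5 (L.take q) (L.drop (q + 2)) (L[q + 1]) (L[i0]'(by omega)) hne
    (hL _ (List.getElem_mem hq2)) (by
      intro a ha
      obtain ⟨i, hi, rfl⟩ := List.mem_iff_getElem.1 ha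
      rw [List.getElem_take]
      exact hmin i (by omega))
    (fun l hl => hL l (List.mem_of_mem_drop hl)) (by rw [hlen]; exact h i0 hi0) xs
  rw [hdec] at key
  exact key

theorem H3G (hFNG : FNGStmt) (hCOU : COUStmt) (hEXI : EXIStmt) (hLSZ : LSZStmt)
    (hCO5 : CO5Stmt) (hQAP : QAPStmt)
    {s k : ℕ} (σ : Equiv.Perm (Fin s)) (b : Fin s → Fin k) (hb : IsLayering σ b)
    (h : ∃ q r : Fin k, layerSize b q = 1 ∧
      ((1 ≤ (q : ℕ) ∧ (r : ℕ) = q + 1 ∧
          ∀ i : Fin k, i < q → (q : ℕ) * 2 ^ (2 * layerSize b r + 6) ≤ 2 ^ layerSize b i) ∨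
        ((q : ℕ) + 2 ≤ k ∧ (r : ℕ) + 1 = q ∧
          ∀ i : Fin k, q < i → (k - 1 - q) * 2 ^ (2 * layerSize b r + 6) ≤ 2 ^ layerSize b i)))
    (m : ℕ) :
    {n : ℕ | ∃ π : Equiv.Perm (Fin n), Optimal σ π ∧ ∃ j ≤ m, HasLayers π j}.Finite := by
  obtain ⟨q, r, h1, hcase⟩ := h
  have hk : 0 < k := lt_of_le_of_lt (Nat.zero_le _) q.2
  have hp := (hLSZ s k b hb.1).1
  have hL : ∀ l ∈ List.ofFn (layerSize b), 1 ≤ l := by
    intro l hl
    rw [List.mem_ofFn] at hl
    obtain ⟨j, rfl⟩ := hl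
    exact hp _
  refine H2U hFNG hCOU hEXI hLSZ σ b hb hk ?_ m
  intro xs hxs
  rcases hcase with ⟨hq, hr, hall⟩ | ⟨hq, hr, hall⟩
  · have hr2 : (q : ℕ) + 1 < (List.ofFn (layerSize b)).length := by
      rw [List.length_ofFn, ← hr]; exact r.2
    refine no_max5 hCO5 _ hL q hq hr2 ?_ ?_ xs hxs
    · rw [List.getElem_ofFn]; exact h1
    · intro i hi
      rw [List.getElem_ofFn, List.getElem_ofFn]
      have e1 : (⟨(q : ℕ) + 1, by rw [List.length_ofFn] at hr2; exact hr2⟩ : Fin k) = r :=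
        Fin.ext hr.symm
      rw [e1]
      exact hall ⟨i, by omega⟩ (by rw [Fin.lt_def]; exact hi)
  · have hxs' := isMax_rev hQAP hxs
    rw [ofFn_rev] at hxs'
    have hlen : (List.ofFn (fun i : Fin k => layerSize b (Fin.rev i))).length = k :=
      List.length_ofFn
    refine no_max5 hCO5 _ ?_ (k - 1 - q) (by omega) (by rw [hlen]; omega) ?_ ?_ _ hxs'
    · intro l hl
      rw [List.mem_ofFn] at hl
      obtain ⟨j, rfl⟩ := hl
      exact hp _
    · rw [List.getElem_ofFn]
      have e1 : Fin.rev (⟨k - 1 - q, by omega⟩ : Fin k) = q := Fin.ext (by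
        rw [Fin.val_rev]
        show k - (k - 1 - q + 1) = q
        omega)
      rw [e1]; exact h1
    · intro i hi
      rw [List.getElem_ofFn, List.getElem_ofFn]
      have e1 : Fin.rev (⟨k - 1 - q + 1, by omega⟩ : Fin k) = r := Fin.ext (by
        rw [Fin.val_rev]
        show k - (k - 1 - q + 1 + 1) = r
        omega)
      rw [e1]
      refine hall _ ?_
      rw [Fin.lt_def, Fin.val_rev]
      show (q : ℕ) < k - (i + 1)
      omega

end Pool.LAY
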