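import Pool.Agent.H97.LAY.Stmts5

/-!
# Row NU5 of the board `lay`
-/

set_option autoImplicit false

namespace Pool.LAY

open Finset

namespace NU5H

theorem exp_two_le : Real.exp 1 ^ 2 ≤ 8 := by
  have h1 := Real.exp_one_lt_d9
  have h0 := Real.exp_pos 1
  nlinarith

theorem T_step (A : ℕ) (hA : 6 ≤ A) :
    (((A + 1 : ℕ) : ℝ)) * (4 * Real.exp 1 / ((A + 1 : ℕ) : ℝ)) ^ (A + 1) ≤
      (A : ℝ) * (4 * Real.exp 1 / A) ^ A := by
  have hA6 : (6 : ℝ) ≤ A := by exact_mod_cast hA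
  have hA0 : (0 : ℝ) < A := by linarith
  have hE0 := Real.exp_pos 1
  have hE3 : Real.exp 1 ≤ 3 := by
    have := Real.exp_one_lt_d9
    linarith
  have hB : 2 * (A : ℝ) ^ A ≤ ((A : ℝ) + 1) ^ A := by
    have h1 := one_add_mul_le_pow (a := (1 / (A : ℝ))) (by
      have : (0 : ℝ) < 1 / A := by positivity
      linarith) A
    have h2 : (A : ℝ) * (1 / A) = 1 := by field_simp
    rw [h2] at h1
    have h3 : ((A : ℝ) + 1) = A * (1 + 1 / A) := by field_simp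
    rw [h3, mul_pow]
    have h4 : (0 : ℝ) ≤ (A : ℝ) ^ A := by positivity
    nlinarith
  have e1 : (((A + 1 : ℕ) : ℝ)) * (4 * Real.exp 1 / ((A + 1 : ℕ) : ℝ)) ^ (A + 1) =
      (4 * Real.exp 1) ^ (A + 1) / ((A : ℝ) + 1) ^ A := by
    push_cast
    rw [div_pow, pow_succ ((A : ℝ) + 1)]
    field_simp
  rw [e1]
  have h5 : (4 * Real.exp 1) ^ (A + 1) / ((A : ℝ) + 1) ^ A ≤
      (4 * Real.exp 1) ^ (A + 1) / (2 * (A : ℝ) ^ A) := by
    apply div_le_div_of_nonneg_left (by positivity) (by positivity) hB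
  refine h5.trans ?_
  have e2 : (4 * Real.exp 1) ^ (A + 1) / (2 * (A : ℝ) ^ A) =
      (2 * Real.exp 1) * (4 * Real.exp 1 / A) ^ A := by
    rw [div_pow, pow_succ]
    field_simp
    ring
  rw [e2]
  apply mul_le_mul_of_nonneg_right _ (by positivity)
  linarith

theorem T_le (b j : ℕ) :
    (((2 * b + 6 + j : ℕ) : ℝ)) * (4 * Real.exp 1 / ((2 * b + 6 + j : ℕ) : ℝ)) ^ (2 * b + 6 + j) ≤
      ((2 * b + 6 : ℕ) : ℝ) * (4 * Real.exp 1 / ((2 * b + 6 : ℕ) : ℝ)) ^ (2 * b + 6) := by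
  induction j with
  | zero => exact le_rfl
  | succ j ih => exact (T_step (2 * b + 6 + j) (by omega)).trans ih

theorem xi_pow (m : ℕ) (ξ : ℝ) (hm : 2 ≤ m) (h0 : 0 < ξ) (h2 : ξ < 2) :
    ξ ^ m * Real.exp (-ξ) ≤ 2 ^ m * Real.exp (-2) := by
  have hm2 : (2 : ℝ) ≤ m := by exact_mod_cast hm
  have h1 : ξ / 2 ≤ Real.exp (ξ / 2 - 1) := by
    have := Real.add_one_le_exp (ξ / 2 - 1)
    linarith
  have h3 : (ξ / 2) ^ m ≤ Real.exp (m * (ξ / 2 - 1)) := by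
    rw [Real.exp_nat_mul]
    exact pow_le_pow_left₀ (by positivity) h1 m
  have h4 : Real.exp (m * (ξ / 2 - 1)) ≤ Real.exp (ξ - 2) := by
    apply Real.exp_le_exp.2
    nlinarith
  have h5 : ξ ^ m = 2 ^ m * (ξ / 2) ^ m := by
    rw [← mul_pow]
    congr 1
    ring
  rw [h5, mul_assoc]
  apply mul_le_mul_of_nonneg_left _ (by positivity)
  calc (ξ / 2) ^ m * Real.exp (-ξ) ≤ Real.exp (ξ - 2) * Real.exp (-ξ) :=
        mul_le_mul_of_nonneg_right (h3.trans h4) (Real.exp_pos _).le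
    _ = Real.exp (-2) := by
      rw [← Real.exp_add]
      congr 1
      ring

/-- the value at `A = 2 b + 6` -/
theorem T_val (b : ℕ) :
    ((2 * b + 6 : ℕ) : ℝ) * (4 * Real.exp 1 / ((2 * b + 6 : ℕ) : ℝ)) ^ (2 * b + 6) *
      Real.exp (-2) ≤ 2 ^ (3 * b + 7) * (4 ^ (b + 3) / ((b : ℝ) + 3) ^ (2 * b + 5)) := by
  have hb0 : (0 : ℝ) ≤ b := Nat.cast_nonneg b
  have hE0 := Real.exp_pos 1
  have h1 : Real.exp 1 ^ (2 * b + 6) * Real.exp (-2) = (Real.exp 1 ^ 2) ^ (b + 2) := by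
    rw [← Real.exp_nat_mul, ← Real.exp_add, ← Real.exp_nat_mul, ← Real.exp_nat_mul]
    congr 1
    push_cast
    ring
  have h2 : (Real.exp 1 ^ 2) ^ (b + 2) ≤ 8 ^ (b + 2) :=
    pow_le_pow_left₀ (by positivity) exp_two_le _
  have e1 : ((2 * b + 6 : ℕ) : ℝ) * (4 * Real.exp 1 / ((2 * b + 6 : ℕ) : ℝ)) ^ (2 * b + 6) *
      Real.exp (-2) = (4 ^ (2 * b + 6) / ((2 : ℝ) ^ (2 * b + 5) * ((b : ℝ) + 3) ^ (2 * b + 5))) *
        (Real.exp 1 ^ (2 * b + 6) * Real.exp (-2)) := by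
    have e3 : ((2 * b + 6 : ℕ) : ℝ) = 2 * ((b : ℝ) + 3) := by push_cast; ring
    rw [e3, div_pow, mul_pow, pow_succ (2 * ((b : ℝ) + 3)) (2 * b + 5), mul_pow 2]
    field_simp
  rw [e1, h1]
  calc (4 ^ (2 * b + 6) / ((2 : ℝ) ^ (2 * b + 5) * ((b : ℝ) + 3) ^ (2 * b + 5))) *
        (Real.exp 1 ^ 2) ^ (b + 2)
      ≤ (4 ^ (2 * b + 6) / ((2 : ℝ) ^ (2 * b + 5) * ((b : ℝ) + 3) ^ (2 * b + 5))) *
        8 ^ (b + 2) := mul_le_mul_of_nonneg_left h2 (by positivity)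
    _ = 2 ^ (3 * b + 7) * (4 ^ (b + 3) / ((b : ℝ) + 3) ^ (2 * b + 5)) := by
      have e4 : (4 : ℝ) ^ (2 * b + 6) = 2 ^ (4 * b + 12) := by
        rw [show (4 : ℝ) = 2 ^ 2 by norm_num, ← pow_mul]; congr 1; ring
      have e5 : (8 : ℝ) ^ (b + 2) = 2 ^ (3 * b + 6) := by
        rw [show (8 : ℝ) = 2 ^ 3 by norm_num, ← pow_mul, mul_add]
      have e6 : (4 : ℝ) ^ (b + 3) = 2 ^ (2 * b + 6) := by
        rw [show (4 : ℝ) = 2 ^ 2 by norm_num, ← pow_mul, mul_add]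
      rw [e4, e5, e6]
      have e7 : (2 : ℝ) ^ (4 * b + 12) * 2 ^ (3 * b + 6) =
          2 ^ (2 * b + 5) * (2 ^ (3 * b + 7) * 2 ^ (2 * b + 6)) := by
        rw [← pow_add, ← pow_add, ← pow_add]; congr 1; ring
      rw [div_mul_eq_mul_div, e7]
      field_simp

theorem last (b : ℕ) (ε : ℝ) (hb : 1 ≤ b) (hε : ε ≤ 1 / 2 ^ (2 * b + 7)) :
    kap b * ((b : ℝ) + 5 / 2) ^ (b + 1) * (4 ^ (b + 3) / ((b : ℝ) + 3) ^ (2 * b + 5)) <
      9 / (4 * (b : ℝ) + 19) - ε := by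
  rcases hb.eq_or_lt with h | h
  · subst h
    have : kap 1 = 1 / 2 := by simp [kap]
    rw [this]
    norm_num at hε ⊢
    linarith
  · have hb2 : (2 : ℝ) ≤ b := by exact_mod_cast h
    have hk : kap b ≤ 1 := by
      unfold kap
      rw [if_neg (by omega), div_le_one (by positivity)]
      linarith
    have hk0 : 0 ≤ kap b := by
      unfold kap
      rw [if_neg (by omega)]
      positivity
    have h1 : ((b : ℝ) + 5 / 2) ^ (b + 1) ≤ ((b : ℝ) + 3) ^ (b + 1) :=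
      pow_le_pow_left₀ (by positivity) (by linarith) _
    have h2 : (5 : ℝ) ^ (b + 3) ≤ ((b : ℝ) + 3) ^ (b + 3) :=
      pow_le_pow_left₀ (by norm_num) (by linarith) _
    have h3 : kap b * ((b : ℝ) + 5 / 2) ^ (b + 1) *
        (4 ^ (b + 3) / ((b : ℝ) + 3) ^ (2 * b + 5)) ≤ 1 / (b + 3) := by
      calc kap b * ((b : ℝ) + 5 / 2) ^ (b + 1) * (4 ^ (b + 3) / ((b : ℝ) + 3) ^ (2 * b + 5))
          ≤ 1 * ((b : ℝ) + 3) ^ (b + 1) * (4 ^ (b + 3) / ((b : ℝ) + 3) ^ (2 * b + 5)) := by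
            apply mul_le_mul_of_nonneg_right _ (by positivity)
            exact mul_le_mul hk h1 (by positivity) (by norm_num)
        _ = (4 ^ (b + 3) / ((b : ℝ) + 3) ^ (b + 3)) * (1 / (b + 3)) := by
            have : 2 * b + 5 = (b + 1) + ((b + 3) + 1) := by ring
            rw [this, pow_add ((b : ℝ) + 3) (b + 1), pow_succ ((b : ℝ) + 3) (b + 3)]
            field_simp
        _ ≤ 1 * (1 / (b + 3)) := by
            apply mul_le_mul_of_nonneg_right _ (by positivity)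
            rw [div_le_one (by positivity)]
            exact le_trans (pow_le_pow_left₀ (by norm_num) (by norm_num) _) h2
        _ = 1 / (b + 3) := one_mul _
    have h4 : (1 : ℝ) / 2 ^ (2 * b + 7) ≤ 1 / 10 * (1 / (b + 3)) := by
      have h5 : (10 : ℝ) * (b + 3) ≤ 2 ^ (2 * b + 7) := by
        have h6 : b + 1 ≤ 2 ^ b := Nat.lt_two_pow_self
        have h7 : ((b : ℝ) + 1) ≤ 2 ^ b := by exact_mod_cast h6
        have h8 : (2 : ℝ) ^ (2 * b + 7) = 128 * (2 ^ b * 2 ^ b) := by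
          rw [← pow_add, show (128 : ℝ) = 2 ^ 7 by norm_num, ← pow_add]; congr 1; ring
        rw [h8]
        nlinarith
      rw [div_le_iff₀ (by positivity)]
      have h9 : (1 : ℝ) / 10 * (1 / (b + 3)) * (10 * (b + 3)) = 1 := by field_simp
      have h10 : (0 : ℝ) ≤ 1 / 10 * (1 / (b + 3)) := by positivity
      calc (1 : ℝ) = 1 / 10 * (1 / (b + 3)) * (10 * (b + 3)) := h9.symm
        _ ≤ 1 / 10 * (1 / (b + 3)) * 2 ^ (2 * b + 7) := mul_le_mul_of_nonneg_left h5 h10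
    have h11 : (11 : ℝ) / 10 * (1 / (b + 3)) < 9 / (4 * b + 19) := by
      rw [lt_div_iff₀ (by positivity), mul_comm, ← mul_assoc, mul_one_div, div_lt_iff₀ (by positivity)]
      linarith
    linarith

end NU5H

open NU5H

theorem NU5 : NU5Stmt := by
  intro A b p ξ ε hb hp hpA hξ hξ2 hε hε2
  have hA : 2 * b + 6 ≤ A := by
    by_contra hc
    push Not at hc
    have h1 : 2 ^ A < 2 ^ (2 * b + 6) := Nat.pow_lt_pow_right (by norm_num) hc
    have h2 := Nat.mul_le_mul_right (2 ^ (2 * b + 6)) hp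
    omega
  obtain ⟨j, rfl⟩ : ∃ j, A = 2 * b + 6 + j := ⟨A - (2 * b + 6), by omega⟩
  have hp2 : p ≤ 2 ^ j := by
    rw [pow_add 2 (2 * b + 6) j, mul_comm] at hpA
    exact Nat.le_of_mul_le_mul_left hpA (by positivity)
  have hp3 : (p : ℝ) ≤ 2 ^ j := by exact_mod_cast hp2
  have hp0 : (0 : ℝ) < p := by exact_mod_cast hp
  set A' : ℝ := ((2 * b + 6 + j : ℕ) : ℝ) with hA'
  have hA0 : (0 : ℝ) < A' := by
    rw [hA']
    have : 0 < 2 * b + 6 + j := by omega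
    exact_mod_cast this
  have hE0 := Real.exp_pos 1
  have hε3 : ε ≤ 1 / 2 ^ (2 * b + 7) := by
    refine hε2.trans ?_
    have e1 : (2 : ℝ) ^ (2 * b + 6 + j + 1) = 2 ^ j * 2 ^ (2 * b + 7) := by
      rw [← pow_add]; congr 1; ring
    rw [e1, div_le_div_iff₀ (by positivity) (by positivity), one_mul]
    exact mul_le_mul_of_nonneg_right hp3 (by positivity)
  have hlast := last b ε hb hε3
  have hx := xi_pow (b + 5 + j) ξ (by omega) hξ hξ2
  have hC : (p : ℝ) * (A' * (Real.exp 1 / A') ^ (2 * b + 6 + j) * (2 ^ (b + 5 + j) * Real.exp (-2)))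
      ≤ 4 ^ (b + 3) / ((b : ℝ) + 3) ^ (2 * b + 5) := by
    have e1 : (2 : ℝ) ^ j * (A' * (Real.exp 1 / A') ^ (2 * b + 6 + j) *
        (2 ^ (b + 5 + j) * Real.exp (-2))) * 2 ^ (3 * b + 7) =
        A' * (4 * Real.exp 1 / A') ^ (2 * b + 6 + j) * Real.exp (-2) := by
      have e2 : (4 * Real.exp 1 / A') ^ (2 * b + 6 + j) =
          (2 ^ j * 2 ^ (b + 5 + j) * 2 ^ (3 * b + 7)) * (Real.exp 1 / A') ^ (2 * b + 6 + j) := by
        have e3 : (4 * Real.exp 1 / A') = 4 * (Real.exp 1 / A') := by ring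
        rw [e3, mul_pow]
        congr 1
        rw [← pow_add, ← pow_add, show (4 : ℝ) = 2 ^ 2 by norm_num, ← pow_mul]
        congr 1
        ring
      rw [e2]
      ring
    have h1 : A' * (4 * Real.exp 1 / A') ^ (2 * b + 6 + j) * Real.exp (-2) ≤
        2 ^ (3 * b + 7) * (4 ^ (b + 3) / ((b : ℝ) + 3) ^ (2 * b + 5)) :=
      (mul_le_mul_of_nonneg_right (T_le b j) (Real.exp_pos _).le).trans (T_val b)
    have h2 : (p : ℝ) * (A' * (Real.exp 1 / A') ^ (2 * b + 6 + j) *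
        (2 ^ (b + 5 + j) * Real.exp (-2))) ≤ (2 : ℝ) ^ j * (A' * (Real.exp 1 / A') ^ (2 * b + 6 + j) *
        (2 ^ (b + 5 + j) * Real.exp (-2))) :=
      mul_le_mul_of_nonneg_right hp3 (by positivity)
    refine h2.trans ?_
    have h3 : (0 : ℝ) < 2 ^ (3 * b + 7) := by positivity
    refine le_of_mul_le_mul_right ?_ h3
    rw [e1]
    refine h1.trans (le_of_eq ?_)
    ring
  have hk0 : 0 ≤ kap b := by
    unfold kap
    split_ifs <;> positivity
  have hν : (0 : ℝ) ≤ ((b : ℝ) + 5 / 2) ^ (b + 1) := by positivity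
  have e5 : (p : ℝ) * (A' * (Real.exp 1 * ξ / A') ^ (2 * b + 6 + j) * Real.exp (-ξ)) =
      (p : ℝ) * (A' * (Real.exp 1 / A') ^ (2 * b + 6 + j) *
        (ξ ^ (b + 5 + j) * Real.exp (-ξ))) * ξ ^ (b + 1) := by
    have e6 : (Real.exp 1 * ξ / A') ^ (2 * b + 6 + j) =
        (Real.exp 1 / A') ^ (2 * b + 6 + j) * (ξ ^ (b + 5 + j) * ξ ^ (b + 1)) := by
      rw [← pow_add, show b + 5 + j + (b + 1) = 2 * b + 6 + j by ring, ← mul_pow]
      congr 1
      ring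
    rw [e6]
    ring
  rw [e5, ← mul_assoc]
  apply mul_lt_mul_of_pos_right _ (by positivity)
  refine lt_of_le_of_lt ?_ hlast
  apply mul_le_mul_of_nonneg_left _ (mul_nonneg hk0 hν)
  refine le_trans ?_ hC
  apply mul_le_mul_of_nonneg_left _ hp0.le
  apply mul_le_mul_of_nonneg_left hx (by positivity)

end Pool.LAY
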