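import Pool.Agent.H97.LAY.Stmts2

/-!
# Board `lay` (MP_609328_co): row NU2 (helper45)
-/

set_option autoImplicit false

namespace Pool.LAY

open Finset

namespace NU2aux

lemma exp_half_le : Real.exp (1 / 2) ≤ 33 / 20 := by
  have h1 : Real.exp (1 / 2) ^ 2 = Real.exp 1 := by
    rw [← Real.exp_nat_mul]; norm_num
  have h2 := Real.exp_one_lt_d9
  have h3 : Real.exp (1 / 2) ^ 2 ≤ (33 / 20 : ℝ) ^ 2 := by
    rw [h1]; norm_num; linarith
  exact le_of_sq_le_sq h3 (by norm_num)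

lemma exp_seven_half : (33 : ℝ) ≤ Real.exp (7 / 2) := by
  have h1 : Real.exp (7 / 2) ^ 2 = Real.exp 1 ^ 7 := by
    rw [← Real.exp_nat_mul, ← Real.exp_nat_mul]; norm_num
  have h2 : (2.718 : ℝ) ≤ Real.exp 1 := by
    have := Real.exp_one_gt_d9; linarith
  have h3 : (33 : ℝ) ^ 2 ≤ Real.exp (7 / 2) ^ 2 := by
    rw [h1]
    calc (33 : ℝ) ^ 2 ≤ (2.718 : ℝ) ^ 7 := by norm_num
      _ ≤ Real.exp 1 ^ 7 := by gcongr
  exact le_of_sq_le_sq h3 (Real.exp_pos _).le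

lemma exp_nine_half : (85 : ℝ) ≤ Real.exp (9 / 2) := by
  have h1 : Real.exp (9 / 2) ^ 2 = Real.exp 1 ^ 9 := by
    rw [← Real.exp_nat_mul, ← Real.exp_nat_mul]; norm_num
  have h2 : (2.718 : ℝ) ≤ Real.exp 1 := by
    have := Real.exp_one_gt_d9; linarith
  have h3 : (85 : ℝ) ^ 2 ≤ Real.exp (9 / 2) ^ 2 := by
    rw [h1]
    calc (85 : ℝ) ^ 2 ≤ (2.718 : ℝ) ^ 9 := by norm_num
      _ ≤ Real.exp 1 ^ 9 := by gcongr
  exact le_of_sq_le_sq h3 (Real.exp_pos _).le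

/-- `exp t > 2 t + 1` for `t > 2` -/
lemma exp_gt (t : ℝ) (ht : 2 < t) : 2 * t + 1 < Real.exp t := by
  have h := Real.quadratic_le_exp_of_nonneg (by linarith : (0 : ℝ) ≤ t)
  nlinarith

lemma pow_le_exp (N : ℕ) (x : ℝ) (hx1 : x ≤ 1) : (1 - x) ^ N ≤ Real.exp (-((N : ℝ) * x)) := by
  have h1 : 1 - x ≤ Real.exp (-x) := by
    have := Real.add_one_le_exp (-x); linarith
  calc (1 - x) ^ N ≤ Real.exp (-x) ^ N := pow_le_pow_left₀ (by linarith) h1 N
    _ = Real.exp (-((N : ℝ) * x)) := by rw [← Real.exp_nat_mul]; ring_nf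

/-- step (1) -/
lemma step1 (a N : ℕ) (x : ℝ) (ha : 4 ≤ a) (hN : a + 1 ≤ N) (hx0 : 0 < x) (hx1 : x < 1)
    (h : (a : ℝ) * (1 - (1 - x) ^ N) ≤ (N : ℝ) * x) : (a : ℝ) - 1 / 2 ≤ (N : ℝ) * x := by
  by_contra hcon
  push Not at hcon
  have haR : (4 : ℝ) ≤ a := by exact_mod_cast ha
  have hNR : (a : ℝ) + 1 ≤ N := by exact_mod_cast hN
  have hNpos : (0 : ℝ) < N := by linarith
  set X : ℝ := ((a : ℝ) - 1 / 2) / N with hX
  have hXpos : 0 < X := by
    rw [hX]; apply div_pos <;> linarith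
  have hX1 : X < 1 := by
    rw [hX, div_lt_one hNpos]; linarith
  have hNX : (N : ℝ) * X = (a : ℝ) - 1 / 2 := by
    rw [hX]; field_simp
  have hxX : x < X := by
    rw [hX, lt_div_iff₀ hNpos]; linarith
  set l : ℝ := x / X with hl
  have hl0 : 0 < l := div_pos hx0 hXpos
  have hl1 : l < 1 := by rw [hl, div_lt_one hXpos]; exact hxX
  have hlX : l * X = x := by rw [hl]; field_simp
  have hmem1 : (1 : ℝ) ∈ Set.Ici (0 : ℝ) := by
    simp only [Set.mem_Ici]; norm_num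
  have hmem2 : 1 - X ∈ Set.Ici (0 : ℝ) := by
    simp only [Set.mem_Ici]; linarith
  have hl2 : 0 ≤ 1 - l := by linarith
  have hconv := (convexOn_pow (𝕜 := ℝ) N).2 hmem1 hmem2 hl2 hl0.le (by ring)
  simp only [smul_eq_mul, mul_one, one_pow] at hconv
  have e1 : 1 - l + l * (1 - X) = 1 - x := by rw [← hlX]; ring
  rw [e1] at hconv
  have h2 : l * ((a : ℝ) * (1 - (1 - X) ^ N)) ≤ l * ((a : ℝ) - 1 / 2) := by
    calc l * ((a : ℝ) * (1 - (1 - X) ^ N)) = (a : ℝ) * (l - l * (1 - X) ^ N) := by ring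
      _ ≤ (a : ℝ) * (1 - (1 - x) ^ N) := by
          apply mul_le_mul_of_nonneg_left _ (by linarith)
          linarith
      _ ≤ (N : ℝ) * x := h
      _ = l * ((a : ℝ) - 1 / 2) := by rw [← hNX, ← hlX]; ring
  have h3 : (a : ℝ) * (1 - (1 - X) ^ N) ≤ (a : ℝ) - 1 / 2 := le_of_mul_le_mul_left h2 hl0
  have h4 : (1 - X) ^ N ≤ Real.exp (-((a : ℝ) - 1 / 2)) := by
    have := pow_le_exp N X hX1.le
    rwa [hNX] at this
  have h5 : (1 : ℝ) / 2 ≤ (a : ℝ) * Real.exp (-((a : ℝ) - 1 / 2)) := by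
    have : (a : ℝ) * (1 - X) ^ N ≤ (a : ℝ) * Real.exp (-((a : ℝ) - 1 / 2)) :=
      mul_le_mul_of_nonneg_left h4 (by linarith)
    nlinarith
  have h6 := exp_gt ((a : ℝ) - 1 / 2) (by linarith)
  have h7 : (1 : ℝ) / 2 * Real.exp ((a : ℝ) - 1 / 2) ≤ a := by
    have h8 := mul_le_mul_of_nonneg_right h5 (Real.exp_pos ((a : ℝ) - 1 / 2)).le
    rwa [mul_assoc (a : ℝ), ← Real.exp_add, neg_add_cancel, Real.exp_zero, mul_one] at h8
  linarith

end NU2aux

open NU2aux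

theorem NU2 : NU2Stmt := by
  intro a b N x hb hab ha hN hx0 hx1 h hcon
  have haR : (4 : ℝ) ≤ a := by exact_mod_cast ha
  have hbR : (1 : ℝ) ≤ b := by exact_mod_cast hb
  have habR : (b : ℝ) + 2 ≤ a := by exact_mod_cast hab
  have hr := step1 a N x ha hN hx0 hx1 h
  set r : ℝ := (N : ℝ) * x with hrdef
  set ε : ℝ := (1 - x) ^ N with hε
  have hε0 : 0 ≤ ε := by rw [hε]; exact pow_nonneg (by linarith) N
  have hεe : ε ≤ Real.exp (-((a : ℝ) - 1 / 2)) := by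
    refine (pow_le_exp N x hx1.le).trans ?_
    rw [Real.exp_le_exp]
    linarith
  -- `ε ≤ 1 / E` whenever `E ≤ exp (a - 1/2)`
  have hεE : ∀ E : ℝ, 0 < E → E ≤ Real.exp ((a : ℝ) - 1 / 2) → ε * E ≤ 1 := by
    intro E hE hE2
    have h1 : ε * E ≤ Real.exp (-((a : ℝ) - 1 / 2)) * Real.exp ((a : ℝ) - 1 / 2) :=
      mul_le_mul hεe hE2 hE.le (Real.exp_pos _).le
    rwa [← Real.exp_add, neg_add_cancel, Real.exp_zero] at h1
  have hε33 : ε ≤ 1 / 33 := by
    have h1 : (33 : ℝ) ≤ Real.exp ((a : ℝ) - 1 / 2) :=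
      exp_seven_half.trans (Real.exp_le_exp.mpr (by linarith))
    have h2 := hεE 33 (by norm_num) h1
    linarith
  have hr2 : (a : ℝ) * (1 - ε) ≤ r := h
  have hr0 : 0 ≤ r := by linarith
  have hap : (1 : ℝ) ≤ (a : ℝ) ^ (a - b - 2) := one_le_pow₀ (by linarith)
  rcases Nat.lt_or_ge b 2 with hb2 | hb2
  · -- b = 1
    have hb1 : b = 1 := by omega
    subst hb1
    have h1 : kap 1 = 1 / 2 := by simp [kap]
    rw [h1] at hcon
    have h2 : (4 : ℝ) ≤ (a : ℝ) ^ (a - 1 - 2) := by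
      calc (4 : ℝ) ≤ a := haR
        _ = (a : ℝ) ^ 1 := by rw [pow_one]
        _ ≤ (a : ℝ) ^ (a - 1 - 2) := pow_le_pow_right₀ (by linarith) (by omega)
    have h3 : (49 / 4 : ℝ) ≤ r ^ (1 + 1) := by
      have : (7 / 2 : ℝ) ≤ r := by linarith
      calc (49 / 4 : ℝ) = (7 / 2) ^ 2 := by norm_num
        _ ≤ r ^ 2 := by gcongr
    have h4 : (49 : ℝ) ≤ (a : ℝ) ^ (a - 1 - 2) * r ^ (1 + 1) := by
      calc (49 : ℝ) = 4 * (49 / 4) := by norm_num
        _ ≤ _ := mul_le_mul h2 h3 (by norm_num) (by linarith)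
    have h5 : (9 / 23 - 1 / 33 : ℝ) ≤ 9 / (4 * ((1 : ℕ) : ℝ) + 19) - ε := by
      have : (9 : ℝ) / (4 * ((1 : ℕ) : ℝ) + 19) = 9 / 23 := by norm_num
      rw [this]; linarith
    have h6 : (9 / 23 - 1 / 33 : ℝ) * 49 ≤
        (9 / (4 * ((1 : ℕ) : ℝ) + 19) - ε) * ((a : ℝ) ^ (a - 1 - 2) * r ^ (1 + 1)) :=
      mul_le_mul h5 h4 (by norm_num) (by linarith)
    have h7 := h6.trans hcon
    norm_num at h7
  · rcases Nat.lt_or_ge b 3 with hb3 | hb3
    · -- b = 2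
      have hb1 : b = 2 := by omega
      subst hb1
      have h1 : kap 2 = 1 / 6 := by simp [kap]; norm_num
      rw [h1] at hcon
      have h3 : (128 / 33 : ℝ) ≤ r := by
        have : (4 : ℝ) * (1 - 1 / 33) ≤ (a : ℝ) * (1 - ε) :=
          mul_le_mul haR (by linarith) (by norm_num) (by linarith)
        linarith
      have h4 : (128 / 33 : ℝ) ^ 3 ≤ (a : ℝ) ^ (a - 2 - 2) * r ^ (2 + 1) := by
        calc (128 / 33 : ℝ) ^ 3 = 1 * (128 / 33 : ℝ) ^ 3 := by ring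
          _ ≤ (a : ℝ) ^ (a - 2 - 2) * r ^ 3 :=
            mul_le_mul hap (by gcongr) (by positivity) (by linarith)
      have h5 : (1 / 3 - 1 / 33 : ℝ) ≤ 9 / (4 * ((2 : ℕ) : ℝ) + 19) - ε := by
        have : (9 : ℝ) / (4 * ((2 : ℕ) : ℝ) + 19) = 1 / 3 := by norm_num
        rw [this]; linarith
      have h6 : (1 / 3 - 1 / 33 : ℝ) * (128 / 33 : ℝ) ^ 3 ≤
          (9 / (4 * ((2 : ℕ) : ℝ) + 19) - ε) * ((a : ℝ) ^ (a - 2 - 2) * r ^ (2 + 1)) :=
        mul_le_mul h5 h4 (by positivity) (by linarith)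
      have h7 := h6.trans hcon
      norm_num at h7
    · -- b ≥ 3
      have hb3R : (3 : ℝ) ≤ b := by exact_mod_cast hb3
      have h1 : kap b = 1 / (2 * ((b : ℝ) + 1)) := by
        simp only [kap]; rw [if_neg (by omega)]
      rw [h1] at hcon
      have hεb : ((b : ℝ) + 1) * ε ≤ 1 / 20 := by
        have h2 : 20 * ((b : ℝ) + 1) ≤ Real.exp ((a : ℝ) - 1 / 2) := by
          have h3 : Real.exp ((b : ℝ) + 3 / 2) ≤ Real.exp ((a : ℝ) - 1 / 2) :=
            Real.exp_le_exp.mpr (by linarith)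
          have h4 : Real.exp ((b : ℝ) + 3 / 2) = Real.exp (9 / 2) * Real.exp ((b : ℝ) - 3) := by
            rw [← Real.exp_add]; ring_nf
          have h5 : (b : ℝ) - 3 + 1 ≤ Real.exp ((b : ℝ) - 3) := Real.add_one_le_exp _
          have h6 : (85 : ℝ) * ((b : ℝ) - 3 + 1) ≤ Real.exp (9 / 2) * Real.exp ((b : ℝ) - 3) :=
            mul_le_mul exp_nine_half h5 (by linarith) (Real.exp_pos _).le
          linarith
        have h7 := hεE (20 * ((b : ℝ) + 1)) (by linarith) h2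
        linarith
      have hεb2 : ε ≤ 1 := by linarith
      -- lower bound for `r ^ (b+1)`
      have hrb : ((b : ℝ) + 2) ^ (b + 1) * (19 / 20) ≤ r ^ (b + 1) := by
        have h2 : ((b : ℝ) + 2) * (1 - ε) ≤ r :=
          (mul_le_mul_of_nonneg_right habR (by linarith)).trans hr2
        have h3 : 1 + ((b + 1 : ℕ) : ℝ) * (-ε) ≤ (1 + -ε) ^ (b + 1) :=
          one_add_mul_le_pow (by linarith) (b + 1)
        have h4 : (19 / 20 : ℝ) ≤ (1 - ε) ^ (b + 1) := by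
          have h5 : (1 + -ε) = 1 - ε := by ring
          rw [h5] at h3
          push_cast at h3
          linarith
        calc ((b : ℝ) + 2) ^ (b + 1) * (19 / 20)
            ≤ ((b : ℝ) + 2) ^ (b + 1) * (1 - ε) ^ (b + 1) :=
              mul_le_mul_of_nonneg_left h4 (by positivity)
          _ = (((b : ℝ) + 2) * (1 - ε)) ^ (b + 1) := by rw [mul_pow]
          _ ≤ r ^ (b + 1) := pow_le_pow_left₀ (mul_nonneg (by linarith) (by linarith)) h2 _
      -- upper bound for `(b + 5/2) ^ (b+1)`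
      have hbb : ((b : ℝ) + 5 / 2) ^ (b + 1) ≤ ((b : ℝ) + 2) ^ (b + 1) * (33 / 20) := by
        have h2 : (b : ℝ) + 5 / 2 = ((b : ℝ) + 2) * (1 + 1 / (2 * ((b : ℝ) + 2))) := by
          field_simp; ring
        have h3 : 1 + 1 / (2 * ((b : ℝ) + 2)) ≤ Real.exp (1 / (2 * ((b : ℝ) + 2))) := by
          have := Real.add_one_le_exp (1 / (2 * ((b : ℝ) + 2))); linarith
        have h4 : (1 + 1 / (2 * ((b : ℝ) + 2))) ^ (b + 1) ≤ 33 / 20 := by
          calc (1 + 1 / (2 * ((b : ℝ) + 2))) ^ (b + 1)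
              ≤ Real.exp (1 / (2 * ((b : ℝ) + 2))) ^ (b + 1) :=
                pow_le_pow_left₀ (by positivity) h3 _
            _ = Real.exp (((b + 1 : ℕ) : ℝ) * (1 / (2 * ((b : ℝ) + 2)))) := by
                rw [← Real.exp_nat_mul]
            _ ≤ Real.exp (1 / 2) := by
                rw [Real.exp_le_exp]
                push_cast
                rw [mul_one_div, div_le_div_iff₀ (by linarith) (by norm_num)]
                linarith
            _ ≤ 33 / 20 := exp_half_le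
        rw [h2, mul_pow]
        exact mul_le_mul_of_nonneg_left h4 (by positivity)
      have hP : (0 : ℝ) < ((b : ℝ) + 2) ^ (b + 1) := by positivity
      -- `2 (b+1) (ρ - ε) ≥ 72/31 - 1/10`
      have hρ : (72 / 31 : ℝ) ≤ 2 * ((b : ℝ) + 1) * (9 / (4 * (b : ℝ) + 19)) := by
        rw [mul_div_assoc', div_le_div_iff₀ (by norm_num) (by linarith)]
        linarith
      have hρ2 : (72 / 31 - 1 / 10 : ℝ) ≤ 2 * ((b : ℝ) + 1) * (9 / (4 * (b : ℝ) + 19) - ε) := by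
        have : 2 * ((b : ℝ) + 1) * (9 / (4 * (b : ℝ) + 19) - ε) =
          2 * ((b : ℝ) + 1) * (9 / (4 * (b : ℝ) + 19)) - 2 * (((b : ℝ) + 1) * ε) := by ring
        rw [this]; linarith
      have hlow : (72 / 31 - 1 / 10 : ℝ) * (((b : ℝ) + 2) ^ (b + 1) * (19 / 20)) ≤
          2 * ((b : ℝ) + 1) * ((9 / (4 * (b : ℝ) + 19) - ε) *
            ((a : ℝ) ^ (a - b - 2) * r ^ (b + 1))) := by
        have h2 : ((b : ℝ) + 2) ^ (b + 1) * (19 / 20) ≤ (a : ℝ) ^ (a - b - 2) * r ^ (b + 1) := by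
          calc ((b : ℝ) + 2) ^ (b + 1) * (19 / 20) ≤ r ^ (b + 1) := hrb
            _ = 1 * r ^ (b + 1) := by ring
            _ ≤ (a : ℝ) ^ (a - b - 2) * r ^ (b + 1) :=
              mul_le_mul_of_nonneg_right hap (pow_nonneg hr0 _)
        calc (72 / 31 - 1 / 10 : ℝ) * (((b : ℝ) + 2) ^ (b + 1) * (19 / 20))
            ≤ (2 * ((b : ℝ) + 1) * (9 / (4 * (b : ℝ) + 19) - ε)) *
              ((a : ℝ) ^ (a - b - 2) * r ^ (b + 1)) :=
              mul_le_mul hρ2 h2 (by positivity) (by linarith)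
          _ = _ := by ring
      have hup : 2 * ((b : ℝ) + 1) * ((9 / (4 * (b : ℝ) + 19) - ε) *
            ((a : ℝ) ^ (a - b - 2) * r ^ (b + 1))) ≤ ((b : ℝ) + 5 / 2) ^ (b + 1) := by
        have h2 := mul_le_mul_of_nonneg_left hcon (by linarith : (0 : ℝ) ≤ 2 * ((b : ℝ) + 1))
        refine h2.trans (le_of_eq ?_)
        field_simp
      have hfin := hlow.trans (hup.trans hbb)
      nlinarith

end Pool.LAY
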