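import Pool.Agent.H97.LAY.Stmts5
import Pool.Agent.H97.LAY.NU2

/-!
# Board `lay` (MP_609328_co): row NUA (helper31)
-/

set_option autoImplicit false

namespace Pool.LAY

open Finset NU2aux

theorem NUA : NUAStmt := by
  intro A N x hA hN hx0 hx1 h
  have hs := step1 A N x hA hN hx0 hx1 h
  have h1 := pow_le_exp N x hx1.le
  have h2 : (2 : ℝ) ^ (A + 1) ≤ Real.exp ((A : ℝ) - 1 / 2) := by
    obtain ⟨k, rfl⟩ := Nat.exists_eq_add_of_le hA
    have e1 : (((4 + k : ℕ) : ℝ)) - 1 / 2 = 7 / 2 + (k : ℝ) := by push_cast; ring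
    have e2 : (2 : ℝ) ^ (4 + k + 1) = 32 * 2 ^ k := by ring
    rw [e1, e2, Real.exp_add]
    have h3 := exp_seven_half
    have h4 : (2 : ℝ) ^ k ≤ Real.exp (k : ℝ) := by
      have h5 : Real.exp (k : ℝ) = Real.exp 1 ^ k := by
        rw [← Real.exp_nat_mul, mul_one]
      rw [h5]
      apply pow_le_pow_left₀ (by norm_num)
      have := Real.add_one_le_exp (1 : ℝ)
      linarith
    exact mul_le_mul (by linarith) h4 (by positivity) (Real.exp_pos _).le
  have h3 : Real.exp (-((N : ℝ) * x)) ≤ Real.exp (-((A : ℝ) - 1 / 2)) :=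
    Real.exp_le_exp.mpr (by linarith)
  refine (h1.trans h3).trans ?_
  have h5 : Real.exp (-((A : ℝ) - 1 / 2)) = 1 / Real.exp ((A : ℝ) - 1 / 2) := by
    rw [Real.exp_neg]; exact inv_eq_one_div _
  rw [h5]
  exact one_div_le_one_div_of_le (by positivity) h2

end Pool.LAY
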