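import Pool.Agent.H97.LAY.Stmts5

/-!
# Board `lay` (MP_609328_co): row RG3 (helper2, after row REG)
-/

set_option autoImplicit false

namespace Pool.LAY

open Finset

theorem RG3 (h1 : MOMStmt) (h2 : PZYStmt) (h3 : QAPStmt) (h4 : QHOStmt) (h5 : IMHStmt)
    (h6 : QNNStmt) : RG3Stmt := by
  intro cs b pre mid post v y hb hcs hlen hM hN
  set ls : List ℕ := cs ++ [1, b] with hls
  set R : List ℝ := v :: (mid ++ [y]) with hR
  have hRp : R ++ post = v :: (mid ++ y :: post) := by simp [hR]
  have hlspos : ∀ l ∈ ls, 1 ≤ l := by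
    intro l hl
    simp only [hls, List.mem_append, List.mem_cons, List.not_mem_nil, or_false] at hl
    rcases hl with hl | rfl | rfl
    · exact hcs l hl
    · exact le_refl _
    · exact hb
  have hne : ls ≠ [] := by simp [hls]
  rw [← hRp] at hM ⊢
  obtain ⟨hnn, hsum, hmax⟩ := hM
  have hnpre : NN pre := fun z hz => hnn z (by simp [hz])
  have hnR : NN R := fun z hz => hnn z (by simp [hz])
  have hnpost : NN post := fun z hz => hnn z (by simp [hz])
  set m : ℝ := R.sum with hm
  have hmeq : v + mid.sum + y = m := by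
    rw [hm, hR]; simp [List.sum_append]; ring
  have hm0 : 0 ≤ m := List.sum_nonneg hnR
  have hposts : 0 ≤ post.sum := List.sum_nonneg hnpost
  have hpres : 0 ≤ pre.sum := List.sum_nonneg hnpre
  have hsum' : pre.sum + (m + post.sum) = 1 := by
    have := hsum
    rw [List.sum_append, List.sum_append] at this
    exact this
  have hm1 : m ≤ 1 := by linarith
  set P : ℝ := Q ls (pre ++ (R ++ post)) with hP
  set N : ℕ := ls.sum with hNdef
  -- the family
  set α : (Σ _ : ℕ, ℕ) → ℝ := fun x => Q (ls.take x.1) pre *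
    (Q ((ls.drop x.1).take x.2) R * Q ((ls.drop x.1).drop x.2) post) with hα
  set c : (Σ _ : ℕ, ℕ) → ℕ := fun x => ((ls.drop x.1).take x.2).sum with hc
  set s : Finset (Σ _ : ℕ, ℕ) :=
    (range (ls.length + 1)).sigma (fun i => range ((ls.drop i).length + 1)) with hs
  have hα0 : ∀ x : (Σ _ : ℕ, ℕ), 0 ≤ α x := by
    intro x
    exact mul_nonneg (h6 _ _ hnpre).1 (mul_nonneg (h6 _ _ hnR).1 (h6 _ _ hnpost).1)
  have hcalc : ∀ t : ℝ, ∑ x ∈ s, α x * t ^ c x =
      Q ls (pre ++ (R.map (fun x => t * x) ++ post)) := by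
    intro t
    rw [hs, Finset.sum_sigma, h3 ls pre (R.map (fun x => t * x) ++ post)]
    refine Finset.sum_congr rfl fun i _ => ?_
    rw [h3 (ls.drop i) (R.map (fun x => t * x)) post, Finset.mul_sum]
    refine Finset.sum_congr rfl fun j _ => ?_
    rw [h4 t ((ls.drop i).take j) R]
    simp only [hα, hc]
    ring
  have hmap1 : R.map (fun x => (1 : ℝ) * x) = R := by simp
  have hαsum : ∑ x ∈ s, α x = P := by
    have h8 := hcalc 1
    rw [hmap1] at h8
    simp only [one_pow, mul_one] at h8
    rw [h8]
  have hle : ∀ t : ℝ, 0 ≤ t → ∑ x ∈ s, α x * t ^ c x ≤ P * (1 - m + t * m) ^ N := by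
    intro t ht
    rw [hcalc t]
    have hnt : NN (pre ++ (R.map (fun x => t * x) ++ post)) := by
      intro z hz
      rcases List.mem_append.1 hz with hz | hz
      · exact hnpre z hz
      · rcases List.mem_append.1 hz with hz | hz
        · obtain ⟨w, hw, rfl⟩ := List.mem_map.1 hz
          exact mul_nonneg ht (hnR w hw)
        · exact hnpost z hz
    have h8 := h5 ls (pre ++ (R ++ post)) (pre ++ (R.map (fun x => t * x) ++ post)) hne
      hlspos ⟨hnn, hsum, hmax⟩ hnt
    have h9 : (pre ++ (R.map (fun x => t * x) ++ post)).sum = 1 - m + t * m := by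
      rw [List.sum_append, List.sum_append]
      have h10 : (R.map (fun x => t * x)).sum = t * R.sum := by
        have := List.sum_map_mul_left R (fun x => x) t
        simpa using this
      rw [h10, ← hm]
      linarith
    rw [h9] at h8
    exact h8
  obtain ⟨e1, e2⟩ := h1 (Σ _ : ℕ, ℕ) s α c N m P (fun x _ => hα0 x) hαsum hm0 hm1 hle
  have hN' : (b : ℝ) + 5 / 2 ≤ (N : ℝ) * m := by
    rw [← hmeq]
    exact hN
  have e3 := h2 (Σ _ : ℕ, ℕ) s α c N b m P (fun x _ => hα0 x) hαsum hm0 hm1 e1 e2 hN'
  -- the terms `i = cs.length`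
  have htake : ls.take cs.length = cs := by rw [hls]; exact List.take_left
  have hdrop : ls.drop cs.length = [1, b] := by rw [hls]; exact List.drop_left
  have e4 : Q cs pre * Q [1, b] (R ++ post) ≤
      ∑ x ∈ s, (if b + 1 < c x then 0 else α x) := by
    rw [hs, Finset.sum_sigma]
    have hmem : cs.length ∈ range (ls.length + 1) := by
      rw [mem_range, hls, List.length_append]
      omega
    refine le_trans ?_ (Finset.single_le_sum
      (f := fun i => ∑ j ∈ range ((ls.drop i).length + 1), (if b + 1 < c ⟨i, j⟩ then 0 else α ⟨i, j⟩))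
      (fun i _ => Finset.sum_nonneg fun j _ => ?_) hmem)
    · show Q cs pre * Q [1, b] (R ++ post) ≤
        ∑ j ∈ range ((ls.drop cs.length).length + 1),
          (if b + 1 < c ⟨cs.length, j⟩ then 0 else α ⟨cs.length, j⟩)
      rw [h3 [1, b] R post, Finset.mul_sum, hdrop]
      refine Finset.sum_le_sum fun j _ => ?_
      have hcj : ¬ (b + 1 < c ⟨cs.length, j⟩) := by
        have h10 : c ⟨cs.length, j⟩ = (([1, b] : List ℕ).take j).sum := by
          show ((ls.drop cs.length).take j).sum = _
          rw [hdrop]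
        rw [h10]
        rcases j with _ | _ | j
        · simp
        · simp
        · simp only [List.take_succ_cons, List.take_nil, List.sum_cons, List.sum_nil]
          omega
      rw [if_neg hcj]
      show _ ≤ Q (ls.take cs.length) pre *
        (Q ((ls.drop cs.length).take j) R * Q ((ls.drop cs.length).drop j) post)
      rw [htake, hdrop]
    · split_ifs
      · exact le_rfl
      · exact hα0 _
  have e5 : ∑ x ∈ s.filter (fun x => b + 1 < c x), α x +
      ∑ x ∈ s, (if b + 1 < c x then 0 else α x) = P := by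
    rw [Finset.sum_filter, ← Finset.sum_add_distrib, ← hαsum]
    refine Finset.sum_congr rfl fun x _ => ?_
    split_ifs <;> simp
  linarith

end Pool.LAY
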