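import Pool.Agent.H97.LAY.Stmts5

/-!
# Board `lay` (MP_609328_co): row SB1 (helper2)
-/

set_option autoImplicit false

namespace Pool.LAY

open Finset

theorem SB1 (h1 : QSBStmt) : SB1Stmt := by
  intro as bs x zs has hx hz
  obtain ⟨a, as', rfl⟩ := List.exists_cons_of_ne_nil has
  have e1 : Q ((a :: as') ++ bs) (x :: zs) =
      x ^ a * Q (as' ++ bs) zs + Q ((a :: as') ++ bs) zs := rfl
  have e2 : Q (a :: as') (x :: zs) = x ^ a * Q as' zs + Q (a :: as') zs := rfl
  have h3 := h1 as' bs zs hz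
  have h4 := h1 (a :: as') bs zs hz
  have h5 := mul_le_mul_of_nonneg_left h3 (pow_nonneg hx a)
  rw [e1, e2]
  calc x ^ a * Q (as' ++ bs) zs + Q ((a :: as') ++ bs) zs
      ≤ x ^ a * (Q as' zs * Q bs zs) + Q (a :: as') zs * Q bs zs := add_le_add h5 h4
    _ = (x ^ a * Q as' zs + Q (a :: as') zs) * Q bs zs := by ring

end Pool.LAY
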