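import Pool.Agent.H97.LAY.FinU
import Pool.Agent.H97.LAY.H3G
import Pool.Agent.H97.LAY.CO5
import Pool.Agent.H97.LAY.EPS
import Pool.Agent.H1.LAY.XI2
import Pool.Agent.H65.LAY.ERA
import Pool.Agent.H99.LAY.UNU
import Pool.Agent.H14.LAY.SCA
import Pool.Agent.H3.LAY.EXS
import Pool.Agent.H63.LAY.MON
import Pool.Agent.H97.LAY.NU5
import Pool.Agent.H97.LAY.RG2
import Pool.Agent.H97.LAY.RG3
import Pool.Agent.H97.LAY.SB1
import Pool.Agent.H97.LAY.CHF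
import Pool.Agent.H97.LAY.EXG
import Pool.Agent.H97.LAY.NUA

set_option autoImplicit false

namespace Pool.LAY

theorem UNU' : UNUStmt := UNU QAP ERA IMH' QNN
theorem EXG' : EXGStmt := EXG SCA IMH'
theorem EPS' : EPSStmt := EPS UNU' EXG' NUA
theorem XI2' : XI2Stmt := XI2 QAP IMH' QNN
theorem CHF' : CHFStmt := CHF IMH' QAP QNN
theorem RG2' : RG2Stmt := RG2 MOM PZY GUB' QAP QHO IMH' QNN
theorem RG3' : RG3Stmt := RG3 MOM PZY QAP QHO IMH' QNN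
theorem CO5' : CO5Stmt :=
  CO5 EPS' XI2' (SB1 QSB') (K12 W11) CUT RG2' RG3' (EXS QNN) CHF' MON NU5 QNN QZR

theorem H3' {s k : ℕ} (σ : Equiv.Perm (Fin s)) (b : Fin s → Fin k) (hb : IsLayering σ b)
    (h : ∃ q r : Fin k, layerSize b q = 1 ∧
      ((1 ≤ (q : ℕ) ∧ (r : ℕ) = q + 1 ∧
          ∀ i : Fin k, i < q → (q : ℕ) * 2 ^ (2 * layerSize b r + 6) ≤ 2 ^ layerSize b i) ∨
        ((q : ℕ) + 2 ≤ k ∧ (r : ℕ) + 1 = q ∧
          ∀ i : Fin k, q < i → (k - 1 - q) * 2 ^ (2 * layerSize b r + 6) ≤ 2 ^ layerSize b i)))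
    (m : ℕ) :
    {n : ℕ | ∃ π : Equiv.Perm (Fin n), Optimal σ π ∧ ∃ j ≤ m, HasLayers π j}.Finite :=
  H3G FNG' COU EXI LSZ CO5' QAP σ b hb h m

end Pool.LAY
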