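import Pool.Agent.H97.LAY.Stmts2

/-!
# Board `lay`, row GUB
-/

set_option autoImplicit false

namespace Pool.LAY

open Finset

theorem GUB (h1 : SB2Stmt) (h2 : QAPStmt) (h3 : QNNStmt) : GUBStmt := by
  intro b d bs x y pre post hx hy hpre hpost
  have hxp : NN (x :: pre) := by
    intro z hz
    rcases List.mem_cons.1 hz with rfl | hz
    · exact hx
    · exact hpre z hz
  have hA : 0 ≤ Q [1, b] (x :: pre) := (h3 _ _ hxp).1
  have hterm : ∀ j ∈ range (bs.length + 1),
      Q (1 :: b :: d :: bs.take j) (x :: pre ++ [y]) * Q (bs.drop j) post ≤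
        Q [1, b] (x :: pre) * (Q (d :: bs.take j) (pre ++ [y]) * Q (bs.drop j) post) := by
    intro j _
    have h4 := h1 [1, b] (bs.take j) d x y pre (by simp) hx hy hpre
    have h5 : ([1, b] ++ d :: bs.take j : List ℕ) = 1 :: b :: d :: bs.take j := rfl
    rw [h5] at h4
    have h6 : 0 ≤ Q (bs.drop j) post := (h3 _ _ hpost).1
    refine (mul_le_mul_of_nonneg_right h4 h6).trans (le_of_eq ?_)
    ring
  refine (Finset.sum_le_sum hterm).trans ?_
  rw [← Finset.mul_sum]
  refine mul_le_mul_of_nonneg_left ?_ hA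
  have h7 := h2 (d :: bs) (pre ++ [y]) post
  have h8 : (pre ++ [y]) ++ post = pre ++ y :: post := by simp
  rw [h8] at h7
  rw [h7, List.length_cons, Finset.sum_range_succ' _ (bs.length + 1)]
  have h9 : 0 ≤ Q ((d :: bs).take 0) (pre ++ [y]) * Q ((d :: bs).drop 0) post := by
    have h10 : 0 ≤ Q (d :: bs) post := (h3 _ _ hpost).1
    have h11 : Q ((d :: bs).take 0) (pre ++ [y]) = 1 := by simp [Q]
    rw [h11, List.drop_zero, one_mul]
    exact h10
  have h12 : ∀ j : ℕ, Q ((d :: bs).take (j + 1)) (pre ++ [y]) * Q ((d :: bs).drop (j + 1)) post =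
      Q (d :: bs.take j) (pre ++ [y]) * Q (bs.drop j) post := by
    intro j
    rw [List.take_succ_cons, List.drop_succ_cons]
  simp only [h12]
  linarith

end Pool.LAY
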