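import Pool.Agent.H97.LAY.Stmts

set_option autoImplicit false

namespace Pool.LAY

theorem IMH (hQ : QHOStmt) : IMHStmt := by
  intro ls xs ys hne hls hmax hys
  have hpos : 1 ≤ ls.sum := by
    cases ls with
    | nil => exact absurd rfl hne
    | cons l ls =>
      have := hls l (by simp)
      simp only [List.sum_cons]
      omega
  rcases eq_or_lt_of_le (List.sum_nonneg hys) with h0 | h0
  · have hz : ∀ y ∈ ys, y = 0 := by
      intro y hy
      have h1 := List.single_le_sum hys y hy
      exact le_antisymm (by linarith) (hys y hy)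
    have hmap : ys.map (fun x => (0 : ℝ) * x) = ys := by
      conv_rhs => rw [← List.map_id ys]
      refine List.map_congr_left (fun y hy => ?_)
      simp [hz y hy]
    have h1 := hQ 0 ls ys
    rw [hmap, zero_pow (by omega), zero_mul] at h1
    rw [← h0, zero_pow (by omega), mul_zero, h1]
  · set S := ys.sum with hS
    have hmap : (ys.map (fun x => S⁻¹ * x)).map (fun x => S * x) = ys := by
      rw [List.map_map]
      conv_rhs => rw [← List.map_id ys]
      refine List.map_congr_left (fun y _ => ?_)
      simp only [Function.comp, id]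
      field_simp
    have h1 : Q ls ys = S ^ ls.sum * Q ls (ys.map (fun x => S⁻¹ * x)) := by
      have h2 := hQ S ls (ys.map (fun x => S⁻¹ * x))
      rw [hmap] at h2
      exact h2
    have h3 : Q ls (ys.map (fun x => S⁻¹ * x)) ≤ Q ls xs := by
      refine hmax.2.2 _ ?_ ?_
      · intro y hy
        obtain ⟨x, hx, rfl⟩ := List.mem_map.mp hy
        exact mul_nonneg (inv_nonneg.mpr h0.le) (hys x hx)
      · have h4 : (ys.map (fun x => S⁻¹ * x)).sum = S⁻¹ * ys.sum := by
          have := List.sum_map_mul_left ys (fun x => x) S⁻¹
          simpa using this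
        rw [h4, ← hS, inv_mul_cancel₀ h0.ne']
    rw [h1, mul_comm]
    exact mul_le_mul_of_nonneg_right h3 (pow_nonneg h0.le _)

end Pool.LAY
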