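import Pool.Agent.H97.LAY.Stmts2

/-!
# Row MOM of board `lay`
-/

set_option autoImplicit false

namespace Pool.LAY

open Finset Filter Topology

theorem mom_cast (n : ℕ) : (n : ℝ) * ((n - 1 : ℕ) : ℝ) = (n : ℝ) * ((n : ℝ) - 1) := by
  rcases Nat.eq_zero_or_pos n with rfl | hn
  · simp
  · rw [Nat.cast_sub hn, Nat.cast_one]

theorem MOM : MOMStmt := by
  intro ι s α c N m P _ hP _ _ hf
  set f : ℝ → ℝ := fun t => P * (1 - m + t * m) ^ N - ∑ i ∈ s, α i * t ^ c i with hfdef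
  set g : ℝ → ℝ := fun t => P * ((N : ℝ) * (1 - m + t * m) ^ (N - 1) * m) -
    ∑ i ∈ s, α i * ((c i : ℝ) * t ^ (c i - 1)) with hgdef
  have hlin : ∀ t : ℝ, HasDerivAt (fun t : ℝ => 1 - m + t * m) m t := by
    intro t
    simpa using ((hasDerivAt_id t).mul_const m).const_add (1 - m)
  have h1 : ∀ t, HasDerivAt f (g t) t := by
    intro t
    refine HasDerivAt.fun_sub (((hlin t).fun_pow N).const_mul P) ?_
    exact HasDerivAt.fun_sum fun i _ => (hasDerivAt_pow (c i) t).const_mul (α i)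
  have h2 : HasDerivAt g (P * ((N : ℝ) * (((N - 1 : ℕ) : ℝ) * (1 - m + 1 * m) ^ (N - 1 - 1) * m) * m) -
      ∑ i ∈ s, α i * ((c i : ℝ) * (((c i - 1 : ℕ) : ℝ) * (1 : ℝ) ^ (c i - 1 - 1)))) 1 := by
    refine HasDerivAt.fun_sub ((((hlin 1).fun_pow (N - 1)).const_mul (N : ℝ)).mul_const m |>.const_mul P) ?_
    exact HasDerivAt.fun_sum fun i _ =>
      ((hasDerivAt_pow (c i - 1) (1 : ℝ)).const_mul (c i : ℝ)).const_mul (α i)
  have hf1 : f 1 = 0 := by
    simp [hfdef, hP]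
  have hpos : ∀ t : ℝ, 0 ≤ t → 0 ≤ f t := fun t ht => sub_nonneg.2 (hf t ht)
  have hmin : IsLocalMin f 1 := by
    filter_upwards [lt_mem_nhds (show (0 : ℝ) < 1 by norm_num)] with t ht
    rw [hf1]
    exact hpos t ht.le
  have hg1 : g 1 = 0 := hmin.hasDerivAt_eq_zero (h1 1)
  have hdf : deriv f = g := by
    funext t
    exact (h1 t).deriv
  have hdd : 0 ≤ deriv (deriv f) 1 := by
    by_contra hneg
    push Not at hneg
    have hmax : IsLocalMax f 1 :=
      isLocalMax_of_deriv_deriv_neg hneg (by rw [hdf, hg1]) (h1 1).continuousAt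
    have heq : f =ᶠ[𝓝 1] fun _ => f 1 := by
      filter_upwards [hmin, hmax] with t h3 h4
      exact le_antisymm h4 h3
    have h5 : deriv f =ᶠ[𝓝 1] fun _ => 0 := by
      have := heq.deriv
      simpa using this
    have h6 : deriv (deriv f) 1 = 0 := by
      rw [h5.deriv_eq]
      simp
    rw [h6] at hneg
    exact lt_irrefl _ hneg
  rw [hdf, h2.deriv] at hdd
  constructor
  · have : g 1 = P * ((N : ℝ) * m) - ∑ i ∈ s, α i * (c i : ℝ) := by
      simp [hgdef]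
    rw [this] at hg1
    linarith
  · have e1 : ∑ i ∈ s, α i * ((c i : ℝ) * (((c i - 1 : ℕ) : ℝ) * (1 : ℝ) ^ (c i - 1 - 1))) =
        ∑ i ∈ s, α i * ((c i : ℝ) * ((c i : ℝ) - 1)) := by
      refine Finset.sum_congr rfl fun i _ => ?_
      rw [one_pow, mul_one, mom_cast]
    have e2 : P * ((N : ℝ) * (((N - 1 : ℕ) : ℝ) * (1 - m + 1 * m) ^ (N - 1 - 1) * m) * m) =
        (N : ℝ) * ((N : ℝ) - 1) * m ^ 2 * P := by
      rw [← mom_cast]
      rw [show (1 - m + 1 * m : ℝ) = 1 by ring, one_pow]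
      ring
    rw [e1, e2] at hdd
    linarith

end Pool.LAY
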