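import Pool.Agent.H97.LAY.Stmts3

/-!
# Row NU3 of the board `lay`
-/

set_option autoImplicit false

namespace Pool.LAY

open Finset

theorem exp_neg_five_half_lt : Real.exp (-(5 / 2)) < 0.0821 := by
  have h1 := Real.exp_one_gt_d9
  have h2 : Real.exp (-(5 / 2)) ^ 2 = (Real.exp 1 ^ 5)⁻¹ := by
    rw [← Real.exp_nat_mul, ← Real.exp_nat_mul, ← Real.exp_neg]
    norm_num
  have h3 : (148.4 : ℝ) < Real.exp 1 ^ 5 := by
    have h4 : (2.7182818283 : ℝ) ^ 5 < Real.exp 1 ^ 5 :=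
      pow_lt_pow_left₀ h1 (by norm_num) (by norm_num)
    refine lt_trans ?_ h4
    norm_num
  have h5 : (Real.exp 1 ^ 5)⁻¹ < (148.4 : ℝ)⁻¹ := by
    apply inv_strictAnti₀ (by norm_num) h3
  have h6 : Real.exp (-(5 / 2)) ^ 2 < 0.0821 ^ 2 := by
    rw [h2]
    refine lt_trans h5 ?_
    norm_num
  exact lt_of_pow_lt_pow_left₀ 2 (by norm_num) h6

theorem NU3 : NU3Stmt := by
  intro N x hN hx hx1 h
  have hN4 : (4 : ℝ) ≤ N := by exact_mod_cast hN
  have hNpos : (0 : ℝ) < N := by linarith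
  have hexp : ∀ t : ℝ, t ≤ 1 → (1 - t) ^ N ≤ Real.exp (-(N * t)) := by
    intro t ht
    have h1 : 1 - t ≤ Real.exp (-t) := Real.one_sub_le_exp_neg t
    calc (1 - t) ^ N ≤ Real.exp (-t) ^ N := pow_le_pow_left₀ (by linarith) h1 N
      _ = Real.exp (-(N * t)) := by
        rw [← Real.exp_nat_mul]
        congr 1
        ring
  have he := exp_neg_five_half_lt
  have hr : 5 / 2 ≤ (N : ℝ) * x := by
    by_contra hcon
    rw [not_le] at hcon
    obtain ⟨X, hX⟩ : ∃ X : ℝ, X = 5 / 2 / N := ⟨_, rfl⟩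
    have hNX : (N : ℝ) * X = 5 / 2 := by
      rw [hX]
      field_simp
    have hXpos : 0 < X := by
      rw [hX]
      positivity
    have hX1 : X ≤ 1 := by nlinarith
    have hxX : x < X := by
      by_contra hc
      rw [not_lt] at hc
      nlinarith
    obtain ⟨l, hl⟩ : ∃ l : ℝ, l = x / X := ⟨_, rfl⟩
    have hlX : l * X = x := by
      rw [hl]
      field_simp
    have hl0 : 0 < l := by
      rw [hl]
      positivity
    have hl1 : l < 1 := by
      rw [hl, div_lt_one hXpos]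
      exact hxX
    have hconv := (convexOn_pow N : ConvexOn ℝ (Set.Ici 0) fun y : ℝ => y ^ N)
    have h1 := hconv.2 (show (1 : ℝ) ∈ Set.Ici 0 by simp)
      (show 1 - X ∈ Set.Ici (0 : ℝ) by
        simp only [Set.mem_Ici]
        linarith) (show 0 ≤ 1 - l by linarith) hl0.le (by ring)
    simp only [smul_eq_mul, one_pow, mul_one] at h1
    have h2 : 1 - l + l * (1 - X) = 1 - x := by
      rw [← hlX]
      ring
    rw [h2] at h1
    have h3 := hexp X hX1
    rw [hNX] at h3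
    have h4 : (1 - X) ^ N < 1 / 6 := by
      refine lt_of_le_of_lt h3 (lt_trans he (by norm_num))
    have h5 : (N : ℝ) * x = l * (5 / 2) := by
      rw [← hlX, ← hNX]
      ring
    rw [h5] at h
    nlinarith
  have hε : (1 - x) ^ N < 0.0821 := by
    refine lt_of_le_of_lt (hexp x hx1.le) (lt_of_le_of_lt ?_ he)
    apply Real.exp_le_exp.2
    linarith
  have hr2 : 2.7537 ≤ (N : ℝ) * x := by
    refine le_trans ?_ h
    nlinarith
  have h3 : (2.7537 : ℝ) ^ 3 ≤ ((N : ℝ) * x) ^ 3 := pow_le_pow_left₀ (by norm_num) hr2 3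
  have h4 : (0.3 : ℝ) ≤ 9 / 23 - (1 - x) ^ N := by
    have : (0.0821 : ℝ) + 0.3 ≤ 9 / 23 := by norm_num
    linarith
  calc (5 : ℝ) < 0.3 * 2.7537 ^ 3 := by norm_num
    _ ≤ (9 / 23 - (1 - x) ^ N) * ((N : ℝ) * x) ^ 3 := by
      apply mul_le_mul h4 h3 (by positivity) (by linarith)

end Pool.LAY
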