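import Pool.Agent.H97.LAY.Stmts

set_option autoImplicit false

namespace Pool.LAY

open Finset

theorem NUM_key (a : ℕ) (ha : 3 ≤ a) : 8 * (a : ℝ) * (13 / 25 : ℝ) ^ (a + 2) < 1 := by
  induction a, ha using Nat.le_induction with
  | base => norm_num
  | succ n hn ih =>
    have h3 : (3 : ℝ) ≤ n := by exact_mod_cast hn
    have hp : (0 : ℝ) < (13 / 25 : ℝ) ^ (n + 2) := by positivity
    have e : (13 / 25 : ℝ) ^ (n + 1 + 2) = (13 / 25 : ℝ) ^ (n + 2) * (13 / 25) := by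
      rw [show n + 1 + 2 = (n + 2) + 1 by ring, pow_succ]
    rw [e]
    push_cast
    nlinarith [mul_nonneg (sub_nonneg.2 h3) hp.le]

theorem NUM : NUMStmt := by
  intro a N x ha haN hN hx0 hx1 h hc
  obtain ⟨s, rfl⟩ : ∃ s : ℝ, x = 1 - s := ⟨1 - x, by ring⟩
  have hs0 : 0 < s := by linarith
  have hs1 : s < 1 := by linarith
  have e1 : (1 : ℝ) - (1 - s) = s := by ring
  rw [e1] at h hc
  have ha3 : (3 : ℝ) ≤ a := by exact_mod_cast ha
  have ha0 : (0 : ℝ) < a := by linarith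
  have hN2 : (N : ℝ) ≤ 2 * a := by exact_mod_cast hN
  -- s^N ≥ 2 s - 1
  have h1 : 1 - s ^ N ≤ 2 * (1 - s) := by
    have h2 : (a : ℝ) * (1 - s ^ N) ≤ a * (2 * (1 - s)) := by
      calc (a : ℝ) * (1 - s ^ N) ≤ N * (1 - s) := h
        _ ≤ 2 * a * (1 - s) := by
          apply mul_le_mul_of_nonneg_right hN2 (by linarith)
        _ = a * (2 * (1 - s)) := by ring
    exact le_of_mul_le_mul_left h2 ha0
  -- s < 13/25
  have h3 : s ^ N ≤ s ^ 5 := pow_le_pow_of_le_one hs0.le hs1.le (by omega)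
  have h4 : s < 13 / 25 := by
    by_contra hge
    push Not at hge
    have q2 : (13 / 25 : ℝ) ^ 2 ≤ s ^ 2 := pow_le_pow_left₀ (by norm_num) hge 2
    have q3 : (13 / 25 : ℝ) ^ 3 ≤ s ^ 3 := pow_le_pow_left₀ (by norm_num) hge 3
    have q4 : (13 / 25 : ℝ) ^ 4 ≤ s ^ 4 := pow_le_pow_left₀ (by norm_num) hge 4
    have q5 : (1 - s) * (1 + s + s ^ 2 + s ^ 3 + s ^ 4) ≤ (1 - s) * 2 := by
      have : (1 - s) * (1 + s + s ^ 2 + s ^ 3 + s ^ 4) = 1 - s ^ 5 := by ring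
      rw [this]; linarith
    have q6 : 1 + s + s ^ 2 + s ^ 3 + s ^ 4 ≤ 2 := le_of_mul_le_mul_left q5 (by linarith)
    norm_num at q2 q3 q4
    linarith
  -- Bernoulli
  have hb : (1 : ℝ) + a * (((1 - s) / s) - 1) ≤ (1 + (((1 - s) / s) - 1)) ^ a := by
    apply one_add_mul_le_pow
    have : (0 : ℝ) ≤ (1 - s) / s := div_nonneg (by linarith) hs0.le
    linarith
  have hb2 : (1 + (((1 - s) / s) - 1)) ^ a ≤ 3 / 4 := by
    have : 1 + (((1 - s) / s) - 1) = (1 - s) / s := by ring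
    rw [this, div_pow, div_le_iff₀ (by positivity)]
    exact hc
  have hb3 : (1 : ℝ) / 4 ≤ a * (1 - (1 - s) / s) := by nlinarith
  have hb4 : s / 4 ≤ a * (2 * s - 1) := by
    have : s * ((1 : ℝ) / 4) ≤ s * (a * (1 - (1 - s) / s)) := mul_le_mul_of_nonneg_left hb3 hs0.le
    have e2 : s * (a * (1 - (1 - s) / s)) = a * (2 * s - 1) := by
      field_simp
      ring
    rw [e2] at this
    linarith
  have hb5 : (0 : ℝ) < 2 * s - 1 := by
    by_contra hneg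
    push Not at hneg
    have : (a : ℝ) * (2 * s - 1) ≤ 0 := mul_nonpos_of_nonneg_of_nonpos ha0.le hneg
    linarith
  have hb6 : (1 : ℝ) ≤ 8 * a * (2 * s - 1) := by nlinarith
  have h5 : s ^ N ≤ s ^ (a + 2) := pow_le_pow_of_le_one hs0.le hs1.le haN
  have h6 : s ^ (a + 2) ≤ (13 / 25 : ℝ) ^ (a + 2) := pow_le_pow_left₀ hs0.le h4.le _
  have h7 : 2 * s - 1 ≤ (13 / 25 : ℝ) ^ (a + 2) := by linarith
  have h8 : 8 * (a : ℝ) * (2 * s - 1) ≤ 8 * a * (13 / 25 : ℝ) ^ (a + 2) :=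
    mul_le_mul_of_nonneg_left h7 (by positivity)
  have h9 := NUM_key a ha
  linarith

end Pool.LAY
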