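import Pool.Agent.H97.LAY.Stmts2

/-!
# Row PZY (Cantelli)
-/

set_option autoImplicit false

namespace Pool.LAY

open Finset

theorem PZY : PZYStmt := by
  classical
  intro ι s α c N b m P hα hP hm0 hm1 h1 h2 hμ
  set μ : ℝ := (N : ℝ) * m with hμd
  set δ : ℝ := μ - ((b : ℝ) + 1) with hδ
  have hb0 : (0 : ℝ) ≤ b := Nat.cast_nonneg b
  have hN0 : (0 : ℝ) ≤ N := Nat.cast_nonneg N
  have hδ1 : 3 / 2 ≤ δ := by rw [hδ]; linarith only [hμ]
  have hμ0 : 0 < μ := by linarith only [hμ, hb0]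
  have hP0 : 0 ≤ P := by rw [← hP]; exact sum_nonneg hα
  have hD : 0 < δ ^ 2 + μ := by positivity
  -- second moment
  have hsq : ∑ i ∈ s, α i * (μ - (c i : ℝ)) ^ 2 ≤ μ * P := by
    have e1 : ∑ i ∈ s, α i * (μ - (c i : ℝ)) ^ 2 =
        ∑ i ∈ s, α i * ((c i : ℝ) * ((c i : ℝ) - 1)) + (1 - 2 * μ) * ∑ i ∈ s, α i * (c i : ℝ) +
          μ ^ 2 * ∑ i ∈ s, α i := by
      rw [mul_sum, mul_sum, ← sum_add_distrib, ← sum_add_distrib]
      refine sum_congr rfl fun i _ => ?_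
      ring
    rw [e1, h1, hP]
    have e2 : (N : ℝ) * ((N : ℝ) - 1) * m ^ 2 * P = μ ^ 2 * P - (N : ℝ) * m ^ 2 * P := by
      rw [hμd]; ring
    have e3 : 0 ≤ (N : ℝ) * m ^ 2 * P := by positivity
    rw [e2] at h2
    have e4 : (1 - 2 * μ) * (μ * P) = μ * P - 2 * (μ ^ 2 * P) := by ring
    rw [e4]
    linarith only [h2, e3]
  have hlin : ∑ i ∈ s, α i * (μ - (c i : ℝ)) = 0 := by
    have e1 : ∑ i ∈ s, α i * (μ - (c i : ℝ)) =
        μ * ∑ i ∈ s, α i - ∑ i ∈ s, α i * (c i : ℝ) := by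
      rw [mul_sum, ← sum_sub_distrib]
      refine sum_congr rfl fun i _ => ?_
      ring
    rw [e1, h1, hP]
    ring
  -- Cantelli
  set A : ℝ := ∑ i ∈ s.filter (fun i => ¬ b + 1 < c i), α i with hA
  have hA1 : (δ ^ 2 + μ) ^ 2 * A ≤ (δ ^ 2 + μ) * (μ * P) := by
    have e1 : (δ ^ 2 + μ) ^ 2 * A ≤
        ∑ i ∈ s, α i * (δ * (μ - (c i : ℝ)) + μ) ^ 2 := by
      rw [hA, sum_filter, mul_sum]
      refine sum_le_sum fun i hi => ?_
      have hai := hα i hi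
      by_cases hc : b + 1 < c i
      swap
      · rw [if_pos hc]
        have hc' : (c i : ℝ) ≤ (b : ℝ) + 1 := by
          have : c i ≤ b + 1 := not_lt.1 hc
          exact_mod_cast this
        have h3 : δ ^ 2 + μ ≤ δ * (μ - (c i : ℝ)) + μ := by
          have : δ ≤ μ - (c i : ℝ) := by rw [hδ]; linarith only [hc']
          have h4 : δ * δ ≤ δ * (μ - (c i : ℝ)) :=
            mul_le_mul_of_nonneg_left this (by linarith only [hδ1])
          linarith only [h4, sq δ]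
        have h5 : (δ ^ 2 + μ) ^ 2 ≤ (δ * (μ - (c i : ℝ)) + μ) ^ 2 :=
          pow_le_pow_left₀ hD.le h3 2
        rw [mul_comm]
        exact mul_le_mul_of_nonneg_left h5 hai
      · rw [if_neg (not_not.2 hc), mul_zero]
        exact mul_nonneg hai (sq_nonneg _)
    have e2 : ∑ i ∈ s, α i * (δ * (μ - (c i : ℝ)) + μ) ^ 2 =
        δ ^ 2 * ∑ i ∈ s, α i * (μ - (c i : ℝ)) ^ 2 + 2 * δ * μ * ∑ i ∈ s, α i * (μ - (c i : ℝ)) +
          μ ^ 2 * ∑ i ∈ s, α i := by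
      rw [mul_sum, mul_sum, mul_sum, ← sum_add_distrib, ← sum_add_distrib]
      refine sum_congr rfl fun i _ => ?_
      ring
    rw [e2, hlin, hP] at e1
    have e3 : δ ^ 2 * ∑ i ∈ s, α i * (μ - (c i : ℝ)) ^ 2 ≤ δ ^ 2 * (μ * P) :=
      mul_le_mul_of_nonneg_left hsq (sq_nonneg _)
    have e4 : (δ ^ 2 + μ) * (μ * P) = δ ^ 2 * (μ * P) + μ ^ 2 * P := by ring
    rw [e4]
    linarith only [e1, e3]
  have hA2 : (δ ^ 2 + μ) * A ≤ μ * P := by
    have : (δ ^ 2 + μ) * ((δ ^ 2 + μ) * A) ≤ (δ ^ 2 + μ) * (μ * P) := by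
      have e5 : (δ ^ 2 + μ) * ((δ ^ 2 + μ) * A) = (δ ^ 2 + μ) ^ 2 * A := by ring
      rw [e5]
      exact hA1
    exact le_of_mul_le_mul_left this hD
  set B : ℝ := ∑ i ∈ s.filter (fun i => b + 1 < c i), α i with hB
  have hAB : B + A = P := by
    rw [hA, hB, ← hP]
    exact sum_filter_add_sum_filter_not s _ _
  have hB1 : δ ^ 2 * P ≤ (δ ^ 2 + μ) * B := by
    have : B = P - A := by linarith only [hAB]
    rw [this]
    have e6 : (δ ^ 2 + μ) * (P - A) = δ ^ 2 * P + μ * P - (δ ^ 2 + μ) * A := by ring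
    rw [e6]
    linarith only [hA2]
  have hnum : 9 * (δ ^ 2 + μ) ≤ (4 * (b : ℝ) + 19) * δ ^ 2 := by
    have hμe : μ = δ + (b : ℝ) + 1 := by rw [hδ]; ring
    rw [hμe]
    have hx : 0 ≤ δ - 3 / 2 := by linarith only [hδ1]
    nlinarith [mul_nonneg hx hb0, mul_nonneg (mul_nonneg hx hx) hb0, mul_nonneg hx hx]
  have h19 : (0 : ℝ) < 4 * (b : ℝ) + 19 := by linarith only [hb0]
  have hfin : (δ ^ 2 + μ) * (9 / (4 * (b : ℝ) + 19) * P) ≤ (δ ^ 2 + μ) * B := by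
    refine le_trans ?_ hB1
    have e7 : (δ ^ 2 + μ) * (9 / (4 * (b : ℝ) + 19) * P) =
        (9 * (δ ^ 2 + μ)) * P / (4 * (b : ℝ) + 19) := by ring
    rw [e7, div_le_iff₀ h19]
    have e8 := mul_le_mul_of_nonneg_right hnum hP0
    linarith only [e8]
  exact le_of_mul_le_mul_left hfin hD

end Pool.LAY
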