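import Mathlib
import Pool.Agent.H97.LAY.Stmts

set_option autoImplicit false

namespace Pool.LAY

theorem QHO : QHOStmt := by
  intro c ls xs
  induction xs generalizing ls with
  | nil =>
    cases ls with
    | nil => simp [Q]
    | cons l ls => simp [Q]
  | cons x xs ih =>
    cases ls with
    | nil => simp [Q]
    | cons l ls =>
      simp only [List.map_cons, Q, List.sum_cons]
      rw [ih ls]
      have h := ih (l :: ls)
      simp only [List.sum_cons] at h
      rw [h]
      ring

end Pool.LAY
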