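import Pool.Agent.H97.LAY.Stmts

set_option autoImplicit false

namespace Pool.LAY

open Finset

theorem QSB (h1 : QNNStmt) : QSBStmt := by
  intro as bs xs
  induction xs generalizing as bs with
  | nil =>
    intro _
    cases as with
    | nil => simp [Q]
    | cons a as => simp [Q]
  | cons x xs ih =>
    intro hx
    cases as with
    | nil => simp [Q]
    | cons a as =>
      have hx0 : 0 ≤ x := hx x (by simp)
      have hxs : NN xs := fun y hy => hx y (List.mem_cons_of_mem _ hy)
      have i1 := ih as bs hxs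
      have i2 := ih (a :: as) bs hxs
      have hm : Q bs xs ≤ Q bs (x :: xs) := (h1 bs xs hxs).2 x hx0
      have h0 : 0 ≤ Q (a :: as) (x :: xs) := (h1 (a :: as) (x :: xs) hx).1
      have hp : 0 ≤ x ^ a := pow_nonneg hx0 a
      have e1 : Q (a :: as) (x :: xs) = x ^ a * Q as xs + Q (a :: as) xs := by simp [Q]
      have e2 : Q (a :: as ++ bs) (x :: xs) = x ^ a * Q (as ++ bs) xs + Q (a :: as ++ bs) xs := by
        simp [Q]
      calc Q (a :: as ++ bs) (x :: xs) = x ^ a * Q (as ++ bs) xs + Q (a :: as ++ bs) xs := e2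
        _ ≤ x ^ a * (Q as xs * Q bs xs) + Q (a :: as) xs * Q bs xs :=
            add_le_add (mul_le_mul_of_nonneg_left i1 hp) i2
        _ = Q (a :: as) (x :: xs) * Q bs xs := by rw [e1]; ring
        _ ≤ Q (a :: as) (x :: xs) * Q bs (x :: xs) := mul_le_mul_of_nonneg_left hm h0

end Pool.LAY
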