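import Mathlib
import Pool.Agent.H97.LAY.Defs
import Pool.Agent.H97.LAY.Stmts

set_option autoImplicit false

namespace Pool.LAY

lemma QZR_aux : ∀ (xs : List ℝ) (ls : List ℕ), (∀ l ∈ ls, 1 ≤ l) →
    Q ls xs = Q ls (xs.filter (fun x => x ≠ 0)) := by
  intro xs
  induction xs with
  | nil =>
    intro ls _
    rfl
  | cons x xs ih =>
    intro ls hls
    cases ls with
    | nil => 
      cases hxs : (List.filter (fun x => decide (x ≠ 0)) (x :: xs)) <;> rfl
    | cons l ls =>
      by_cases hx : x = 0
      · subst hx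
        have h1 : 1 ≤ l := hls l (by simp)
        rw [List.filter_cons_of_neg (by simp)]
        rw [← ih (l :: ls) hls]
        show (0:ℝ) ^ l * Q ls xs + Q (l :: ls) xs = Q (l :: ls) xs
        rw [zero_pow (by omega), zero_mul, zero_add]
      · rw [List.filter_cons_of_pos (by simpa using hx)]
        show x ^ l * Q ls xs + Q (l :: ls) xs = x ^ l * Q ls _ + Q (l :: ls) _
        rw [ih ls (fun m hm => hls m (by simp [hm])), ih (l :: ls) hls]

theorem QZR : QZRStmt := by
  intro ls xs ys hls
  rw [QZR_aux (xs ++ 0 :: ys) ls hls, QZR_aux (xs ++ ys) ls hls, List.filter_append, List.filter_append,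
    List.filter_cons_of_neg (by simp)]

end Pool.LAY
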