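import Pool.Agent.H97.LAY.Stmts2

/-!
# Board `lay`, row REG
-/

set_option autoImplicit false

namespace Pool.LAY

open Finset

theorem REG (h1 : MOMStmt) (h2 : PZYStmt) (h3 : GUBStmt) (h4 : QAPStmt) (h5 : QHOStmt)
    (h6 : IMHStmt) (h7 : QNNStmt) : REGStmt := by
  intro a b d bs x0 x1 y pre post ha hb hd hbs hM hN
  set ls' : List ℕ := 1 :: b :: d :: bs with hls'
  set R : List ℝ := x1 :: (pre ++ [y]) with hR
  have hRp : R ++ post = x1 :: (pre ++ y :: post) := by simp [hR]
  have hlspos : ∀ l ∈ a :: ls', 1 ≤ l := by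
    intro l hl
    simp only [hls', List.mem_cons] at hl
    rcases hl with rfl | rfl | rfl | rfl | hl
    · exact ha
    · exact le_refl _
    · exact hb
    · exact hd
    · exact hbs l hl
  have hne : a :: ls' ≠ [] := by simp
  have hsumN : (a :: ls').sum = a + (1 + (b + (d + bs.sum))) := by simp [hls']
  rw [← hRp] at hM ⊢
  obtain ⟨hnn, hsum, hmax⟩ := hM
  have hx0 : 0 ≤ x0 := hnn x0 (by simp)
  have hnR : NN R := fun z hz => hnn z (by simp [hz])
  have hnpost : NN post := fun z hz => hnn z (by simp [hz])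
  have hnRp : NN (R ++ post) := fun z hz => hnn z (by simp only [List.mem_cons]; exact Or.inr hz)
  have hx1 : 0 ≤ x1 := hnR x1 (by simp [hR])
  have hy : 0 ≤ y := hnR y (by simp [hR])
  have hnpre : NN pre := fun z hz => hnR z (by simp [hR, hz])
  set m : ℝ := R.sum with hm
  have hmeq : x1 + pre.sum + y = m := by
    rw [hm, hR]; simp [List.sum_append]; ring
  have hm0 : 0 ≤ m := List.sum_nonneg hnR
  have hposts : 0 ≤ post.sum := List.sum_nonneg hnpost
  have hsum' : x0 + (m + post.sum) = 1 := by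
    have := hsum
    rw [List.sum_cons, List.sum_append] at this
    exact this
  have hm1 : m ≤ 1 := by linarith
  set P : ℝ := Q (a :: ls') (x0 :: (R ++ post)) with hP
  set N : ℕ := (a :: ls').sum with hNdef
  have hPeq : P = x0 ^ a * Q ls' (R ++ post) + Q (a :: ls') (R ++ post) := rfl
  -- the family
  set α : ℕ ⊕ ℕ → ℝ := Sum.elim
    (fun i => x0 ^ a * (Q (ls'.take i) R * Q (ls'.drop i) post))
    (fun i => Q ((a :: ls').take i) R * Q ((a :: ls').drop i) post) with hα
  set c : ℕ ⊕ ℕ → ℕ := Sum.elim (fun i => (ls'.take i).sum) (fun i => ((a :: ls').take i).sum)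
    with hc
  set s : Finset (ℕ ⊕ ℕ) :=
    (range (ls'.length + 1)).disjSum (range ((a :: ls').length + 1)) with hs
  have hα0 : ∀ i ∈ s, 0 ≤ α i := by
    intro i _
    rcases i with i | i
    · exact mul_nonneg (pow_nonneg hx0 _) (mul_nonneg (h7 _ _ hnR).1 (h7 _ _ hnpost).1)
    · exact mul_nonneg (h7 _ _ hnR).1 (h7 _ _ hnpost).1
  have hcalc : ∀ t : ℝ, ∑ i ∈ s, α i * t ^ c i =
      x0 ^ a * Q ls' (R.map (fun x => t * x) ++ post) +
        Q (a :: ls') (R.map (fun x => t * x) ++ post) := by
    intro t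
    rw [hs, Finset.sum_disjSum, h4 ls' (R.map (fun x => t * x)) post,
      h4 (a :: ls') (R.map (fun x => t * x)) post, Finset.mul_sum]
    congr 1
    · refine Finset.sum_congr rfl fun i _ => ?_
      rw [h5 t (ls'.take i) R]
      simp only [hα, hc, Sum.elim_inl]
      ring
    · refine Finset.sum_congr rfl fun i _ => ?_
      rw [h5 t ((a :: ls').take i) R]
      simp only [hα, hc, Sum.elim_inr]
      ring
  have hmap1 : R.map (fun x => (1 : ℝ) * x) = R := by simp
  have hαsum : ∑ i ∈ s, α i = P := by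
    have h8 := hcalc 1
    rw [hmap1] at h8
    simp only [one_pow, mul_one] at h8
    rw [h8, hPeq]
  have hle : ∀ t : ℝ, 0 ≤ t → ∑ i ∈ s, α i * t ^ c i ≤ P * (1 - m + t * m) ^ N := by
    intro t ht
    rw [hcalc t]
    have hnt : NN (x0 :: (R.map (fun x => t * x) ++ post)) := by
      intro z hz
      rcases List.mem_cons.1 hz with rfl | hz
      · exact hx0
      · rcases List.mem_append.1 hz with hz | hz
        · obtain ⟨w, hw, rfl⟩ := List.mem_map.1 hz
          exact mul_nonneg ht (hnR w hw)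
        · exact hnpost z hz
    have h8 := h6 (a :: ls') (x0 :: (R ++ post)) (x0 :: (R.map (fun x => t * x) ++ post)) hne
      hlspos ⟨hnn, hsum, hmax⟩ hnt
    have h9 : (x0 :: (R.map (fun x => t * x) ++ post)).sum = 1 - m + t * m := by
      rw [List.sum_cons, List.sum_append]
      have h10 : (R.map (fun x => t * x)).sum = t * R.sum := by
        have := List.sum_map_mul_left R (fun x => x) t
        simpa using this
      rw [h10, ← hm]
      linarith
    rw [h9] at h8
    exact h8
  obtain ⟨e1, e2⟩ := h1 (ℕ ⊕ ℕ) s α c N m P hα0 hαsum hm0 hm1 hle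
  have hN' : (b : ℝ) + 5 / 2 ≤ (N : ℝ) * m := by
    rw [hsumN, ← hmeq]
    exact hN
  have e3 := h2 (ℕ ⊕ ℕ) s α c N b m P hα0 hαsum hm0 hm1 e1 e2 hN'
  rw [Finset.sum_filter, hs, Finset.sum_disjSum] at e3
  -- second sum
  have e4 : ∑ i ∈ range ((a :: ls').length + 1), (if b + 1 < c (Sum.inr i) then α (Sum.inr i) else 0)
      ≤ P * (1 - x0) ^ N := by
    have h8 : ∑ i ∈ range ((a :: ls').length + 1),
        (if b + 1 < c (Sum.inr i) then α (Sum.inr i) else 0) ≤
        ∑ i ∈ range ((a :: ls').length + 1), α (Sum.inr i) := by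
      refine Finset.sum_le_sum fun i hi => ?_
      split_ifs with h
      · exact le_refl _
      · exact mul_nonneg (h7 _ _ hnR).1 (h7 _ _ hnpost).1
    refine h8.trans ?_
    have h9 : ∑ i ∈ range ((a :: ls').length + 1), α (Sum.inr i) = Q (a :: ls') (R ++ post) :=
      (h4 (a :: ls') R post).symm
    rw [h9]
    have h10 := h6 (a :: ls') (x0 :: (R ++ post)) (R ++ post) hne hlspos ⟨hnn, hsum, hmax⟩ hnRp
    have h11 : (R ++ post).sum = 1 - x0 := by
      rw [List.sum_append, ← hm]; linarith
    rw [h11] at h10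
    exact h10
  -- first sum
  have e5 : ∑ i ∈ range (ls'.length + 1), (if b + 1 < c (Sum.inl i) then α (Sum.inl i) else 0)
      ≤ x0 ^ a * (Q [1, b] (x1 :: pre) * Q (d :: bs) (pre ++ y :: post)) := by
    have hlen : ls'.length + 1 = bs.length + 1 + 1 + 1 + 1 := by simp [hls']
    rw [hlen, Finset.sum_range_succ', Finset.sum_range_succ', Finset.sum_range_succ']
    have c0 : ¬ (b + 1 < c (Sum.inl 0)) := by simp [hc]
    have c1 : ¬ (b + 1 < c (Sum.inl (0 + 1))) := by
      simp only [hc, hls', Sum.elim_inl, List.take_succ_cons, List.take_zero, List.sum_cons,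
        List.sum_nil]
      omega
    have c2 : ¬ (b + 1 < c (Sum.inl (0 + 1 + 1))) := by
      simp only [hc, hls', Sum.elim_inl, List.take_succ_cons, List.take_zero, List.sum_cons,
        List.sum_nil]
      omega
    rw [if_neg c0, if_neg c1, if_neg c2]
    simp only [add_zero]
    have h8 := h3 b d bs x1 y pre post hx1 hy hnpre hnpost
    have h9 := mul_le_mul_of_nonneg_left h8 (pow_nonneg hx0 a)
    refine le_trans ?_ h9
    rw [Finset.mul_sum]
    refine Finset.sum_le_sum fun j _ => ?_
    have h10 : α (Sum.inl (j + 1 + 1 + 1)) =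
        x0 ^ a * (Q (1 :: b :: d :: bs.take j) (x1 :: pre ++ [y]) * Q (bs.drop j) post) := by
      simp only [hα, hls', Sum.elim_inl, List.take_succ_cons, List.drop_succ_cons, hR,
        List.cons_append]
    split_ifs with h
    · rw [h10]
    · refine mul_nonneg (pow_nonneg hx0 _) (mul_nonneg (h7 _ _ ?_).1 (h7 _ _ hnpost).1)
      exact hnR
  have e6 := e3.trans (add_le_add e5 e4)
  rw [← hsumN]
  have e7 : (9 / (4 * (b : ℝ) + 19) - (1 - x0) ^ N) * P =
      9 / (4 * (b : ℝ) + 19) * P - P * (1 - x0) ^ N := by ring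
  rw [e7]
  linarith

end Pool.LAY
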