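import Pool.Agent.H97.LAY.Stmts2

set_option autoImplicit false

namespace Pool.LAY

private theorem nn_app (zs : List ℝ) (y : ℝ) (hz : NN zs) (hy : 0 ≤ y) : NN (zs ++ [y]) := by
  intro t ht
  rcases List.mem_append.1 ht with h | h
  · exact hz t h
  · rw [List.mem_singleton.1 h]; exact hy

private theorem auxA (h1 : QNNStmt) (d : ℕ) (cs : List ℕ) (y : ℝ) (hy : 0 ≤ y) :
    ∀ (zs : List ℝ) (as : List ℕ), NN zs →
      Q (as ++ d :: cs) (zs ++ [y]) ≤ Q as zs * Q (d :: cs) (zs ++ [y]) := by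
  intro zs
  induction zs with
  | nil =>
    intro as _
    cases as with
    | nil => simp [Q]
    | cons a as' =>
      have : Q (as' ++ d :: cs) [] = 0 := by
        cases as' <;> simp [Q]
      simp [Q, this]
  | cons z zs ih =>
    intro as hz
    have hz0 : 0 ≤ z := hz z (by simp)
    have hz' : NN zs := fun t ht => hz t (by simp [ht])
    have hN := nn_app zs y hz' hy
    cases as with
    | nil => simp [Q]
    | cons a as' =>
      have e1 := ih as' hz'
      have e2 := ih (a :: as') hz'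
      have e3 := (h1 (d :: cs) (zs ++ [y]) hN).2 z hz0
      have e4 : 0 ≤ Q (a :: as') (z :: zs) := (h1 (a :: as') (z :: zs) hz).1
      have hL : Q (a :: as' ++ d :: cs) (z :: zs ++ [y])
          = z ^ a * Q (as' ++ d :: cs) (zs ++ [y]) + Q (a :: as' ++ d :: cs) (zs ++ [y]) := by
        simp [Q]
      have hR : Q (a :: as') (z :: zs) = z ^ a * Q as' zs + Q (a :: as') zs := by simp [Q]
      have hza : 0 ≤ z ^ a := pow_nonneg hz0 a
      calc Q (a :: as' ++ d :: cs) (z :: zs ++ [y])
          = z ^ a * Q (as' ++ d :: cs) (zs ++ [y]) + Q (a :: as' ++ d :: cs) (zs ++ [y]) := hL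
        _ ≤ z ^ a * (Q as' zs * Q (d :: cs) (zs ++ [y])) +
            Q (a :: as') zs * Q (d :: cs) (zs ++ [y]) :=
            add_le_add (mul_le_mul_of_nonneg_left e1 hza) e2
        _ = Q (a :: as') (z :: zs) * Q (d :: cs) (zs ++ [y]) := by rw [hR]; ring
        _ ≤ Q (a :: as') (z :: zs) * Q (d :: cs) (z :: zs ++ [y]) :=
            mul_le_mul_of_nonneg_left e3 e4

theorem SB2 (h1 : QNNStmt) : SB2Stmt := by
  intro as cs d x y zs has hx hy hz
  cases as with
  | nil => exact absurd rfl has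
  | cons a as' =>
    have e1 := auxA h1 d cs y hy zs as' hz
    have e2 := auxA h1 d cs y hy zs (a :: as') hz
    have hL : Q (a :: as' ++ d :: cs) (x :: zs ++ [y])
        = x ^ a * Q (as' ++ d :: cs) (zs ++ [y]) + Q (a :: as' ++ d :: cs) (zs ++ [y]) := by
      simp [Q]
    have hR : Q (a :: as') (x :: zs) = x ^ a * Q as' zs + Q (a :: as') zs := by simp [Q]
    have hxa : 0 ≤ x ^ a := pow_nonneg hx a
    calc Q (a :: as' ++ d :: cs) (x :: zs ++ [y])
        = x ^ a * Q (as' ++ d :: cs) (zs ++ [y]) + Q (a :: as' ++ d :: cs) (zs ++ [y]) := hL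
      _ ≤ x ^ a * (Q as' zs * Q (d :: cs) (zs ++ [y])) +
          Q (a :: as') zs * Q (d :: cs) (zs ++ [y]) :=
          add_le_add (mul_le_mul_of_nonneg_left e1 hxa) e2
      _ = Q (a :: as') (x :: zs) * Q (d :: cs) (zs ++ [y]) := by rw [hR]; ring

end Pool.LAY
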