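import Pool.Agent.H97.LAY.Stmts

set_option autoImplicit false

namespace Pool.LAY

theorem Q_one_eq_sum (ys : List ℝ) : Q [1] ys = ys.sum := by
  induction ys with
  | nil => simp [Q]
  | cons y ys ih =>
    show y ^ 1 * Q [] ys + Q [1] ys = (y :: ys).sum
    rw [ih]
    simp [Q]

theorem W11 : W11Stmt := by
  intro ys
  induction ys with
  | nil =>
    intro _
    simp [Q]
  | cons y ys ih =>
    intro hn
    have hn' : NN ys := fun x hx => hn x (List.mem_cons_of_mem _ hx)
    have hy : 0 ≤ y := hn y List.mem_cons_self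
    have h := ih hn'
    have e : Q [1, 1] (y :: ys) = y ^ 1 * Q [1] ys + Q [1, 1] ys := rfl
    rw [e, Q_one_eq_sum, List.sum_cons]
    nlinarith [sq_nonneg y]

end Pool.LAY
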