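import Pool.Agent.H97.LAY.Stmts3

set_option autoImplicit false

namespace Pool.LAY

open Finset

theorem XE1_pow_sub_pow_le_aux (x f : ℝ) (a : ℕ) (hf : 0 ≤ f) (hfx : f ≤ x) :
    x ^ a - f ^ a ≤ (a : ℝ) * x ^ (a - 1) * (x - f) := by
  rw [← geom_sum₂_mul]
  apply mul_le_mul_of_nonneg_right _ (by linarith)
  calc ∑ i ∈ range a, x ^ i * f ^ (a - 1 - i)
      ≤ ∑ i ∈ range a, x ^ (a - 1) := by
        apply Finset.sum_le_sum
        intro i hi
        have hi' : i < a := Finset.mem_range.mp hi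
        calc x ^ i * f ^ (a - 1 - i) ≤ x ^ i * x ^ (a - 1 - i) := by
              apply mul_le_mul_of_nonneg_left _ (pow_nonneg (by linarith) _)
              exact pow_le_pow_left₀ hf hfx _
          _ = x ^ (a - 1) := by
              rw [← pow_add]; congr 1; omega
    _ = (a : ℝ) * x ^ (a - 1) := by simp

theorem XE1_le_pow_sub_pow_aux (x f : ℝ) (a : ℕ) (hf : 0 ≤ f) (hfx : f ≤ x) :
    (a : ℝ) * f ^ (a - 1) * (x - f) ≤ x ^ a - f ^ a := by
  rw [← geom_sum₂_mul]
  apply mul_le_mul_of_nonneg_right _ (by linarith)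
  calc (a : ℝ) * f ^ (a - 1) = ∑ i ∈ range a, f ^ (a - 1) := by simp
    _ ≤ ∑ i ∈ range a, x ^ i * f ^ (a - 1 - i) := by
        apply Finset.sum_le_sum
        intro i hi
        have hi' : i < a := Finset.mem_range.mp hi
        calc f ^ (a - 1) = f ^ i * f ^ (a - 1 - i) := by
              rw [← pow_add]; congr 1; omega
          _ ≤ x ^ i * f ^ (a - 1 - i) := by
              apply mul_le_mul_of_nonneg_right _ (pow_nonneg hf _)
              exact pow_le_pow_left₀ hf hfx _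

theorem XE1 (h0 : IMHStmt) (h1 : QNNStmt) : XE1Stmt := by
  intro a b bs x0 x1 tl ha hb hbs hmax hx1
  have hmax' := hmax
  obtain ⟨hnn, hsum, -⟩ := hmax
  have hx0 : 0 ≤ x0 := hnn x0 (by simp)
  have htl : NN tl := fun y hy => hnn y (by simp [hy])
  have htls : 0 ≤ tl.sum := List.sum_nonneg htl
  set N : ℕ := a + (1 + (b + bs.sum)) with hN
  set P : ℝ := Q (a :: 1 :: b :: bs) (x0 :: x1 :: tl) with hP
  have hPnn : 0 ≤ P := (h1 _ _ hnn).1
  set T1 : ℝ := Q (b :: bs) tl with hT1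
  have hT1nn : 0 ≤ T1 := (h1 _ _ htl).1
  set V : ℝ := Q (1 :: b :: bs) tl with hV
  have hVnn : 0 ≤ V := (h1 _ _ htl).1
  set R : ℝ := Q (a :: 1 :: b :: bs) tl with hR
  have hQ : ∀ y : ℝ, Q (a :: 1 :: b :: bs) (x0 :: y :: tl)
      = x0 ^ a * (y * T1 + V) + (y ^ a * V + R) := by
    intro y
    have e1 : Q (a :: 1 :: b :: bs) (x0 :: y :: tl)
        = x0 ^ a * Q (1 :: b :: bs) (y :: tl) + Q (a :: 1 :: b :: bs) (y :: tl) := rfl
    have e2 : Q (1 :: b :: bs) (y :: tl) = y ^ 1 * T1 + V := rfl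
    have e3 : Q (a :: 1 :: b :: bs) (y :: tl) = y ^ a * V + R := rfl
    rw [e1, e2, e3, pow_one]
  have hPeq : P = x0 ^ a * (x1 * T1 + V) + (x1 ^ a * V + R) := hQ x1
  have hpos : ∀ l ∈ a :: 1 :: b :: bs, 1 ≤ l := by
    intro l hl
    simp only [List.mem_cons] at hl
    rcases hl with h | h | h | h
    · rw [h]; exact ha
    · rw [h]
    · rw [h]; exact hb
    · exact hbs l h
  have key : ∀ e : ℝ, 0 < e → e < x1 →
      (N : ℝ) * (1 - e) ^ (N - 1) * P ≤ x0 ^ a * T1 + (a : ℝ) * (x1 ^ (a - 1) * V) := by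
    intro e he hex
    have hnn' : NN (x0 :: (x1 - e) :: tl) := by
      intro y hy
      simp only [List.mem_cons] at hy
      rcases hy with h | h | h
      · rw [h]; exact hx0
      · rw [h]; linarith
      · exact htl y h
    have h2 := h0 (a :: 1 :: b :: bs) (x0 :: x1 :: tl) (x0 :: (x1 - e) :: tl) (by simp) hpos
      hmax' hnn'
    have hs1 : x0 + (x1 + tl.sum) = 1 := by simpa using hsum
    have hs : (x0 :: (x1 - e) :: tl).sum = 1 - e := by
      simp only [List.sum_cons]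
      linarith
    have hsl : (a :: 1 :: b :: bs).sum = N := by
      simp only [List.sum_cons]
      rfl
    have he1 : e ≤ 1 := by linarith
    rw [hs, hsl, hQ (x1 - e), ← hP] at h2
    have h3 := XE1_pow_sub_pow_le_aux x1 (x1 - e) a (by linarith) (by linarith)
    have h4 := XE1_le_pow_sub_pow_aux 1 (1 - e) N (by linarith) (by linarith)
    have h3' := mul_le_mul_of_nonneg_right h3 hVnn
    have h4' := mul_le_mul_of_nonneg_right h4 hPnn
    rw [one_pow] at h4'
    have h5 : ((N : ℝ) * (1 - e) ^ (N - 1) * P) * e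
        ≤ (x0 ^ a * T1 + (a : ℝ) * (x1 ^ (a - 1) * V)) * e := by
      have e1 : (a : ℝ) * x1 ^ (a - 1) * (x1 - (x1 - e)) * V =
        ((a : ℝ) * (x1 ^ (a - 1) * V)) * e := by ring
      have e2 : (N : ℝ) * (1 - e) ^ (N - 1) * (1 - (1 - e)) * P =
        ((N : ℝ) * (1 - e) ^ (N - 1) * P) * e := by ring
      rw [e1] at h3'
      rw [e2] at h4'
      have e4 : (x0 ^ a * T1 + (a : ℝ) * (x1 ^ (a - 1) * V)) * e
          = x0 ^ a * (e * T1) + ((a : ℝ) * (x1 ^ (a - 1) * V)) * e := by ring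
      have e5 : x0 ^ a * ((x1 - e) * T1 + V) = x0 ^ a * (x1 * T1 + V) - x0 ^ a * (e * T1) := by
        ring
      have e6 : (1 - (1 - e) ^ N) * P = P - P * (1 - e) ^ N := by ring
      have e7 : (x1 ^ a - (x1 - e) ^ a) * V = x1 ^ a * V - (x1 - e) ^ a * V := by ring
      rw [e6] at h4'
      rw [e7] at h3'
      rw [e5] at h2
      rw [e4]
      linarith
    exact le_of_mul_le_mul_right h5 he
  have hcont : Filter.Tendsto (fun e : ℝ => (N : ℝ) * (1 - e) ^ (N - 1) * P)
      (nhdsWithin 0 (Set.Ioi 0)) (nhds ((N : ℝ) * P)) := by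
    have hc : Continuous (fun e : ℝ => (N : ℝ) * (1 - e) ^ (N - 1) * P) := by fun_prop
    have := hc.tendsto 0
    simp only [sub_zero, one_pow, mul_one] at this
    exact this.mono_left nhdsWithin_le_nhds
  have hev : ∀ᶠ e : ℝ in nhdsWithin 0 (Set.Ioi 0), e < x1 :=
    (eventually_lt_nhds hx1).filter_mono nhdsWithin_le_nhds
  refine le_of_tendsto hcont ?_
  filter_upwards [hev, self_mem_nhdsWithin] with e he1 he2
  exact key e he2 he1

end Pool.LAY
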