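import Pool.Agent.H97.LAY.H2G
import Pool.Agent.H97.LAY.FNG
import Pool.Agent.H97.LAY.CPT
import Pool.Agent.H97.LAY.QZR
import Pool.Agent.H97.LAY.DQU
import Pool.Agent.H97.LAY.DQL
import Pool.Agent.H97.LAY.QHO
import Pool.Agent.H97.LAY.QNN
import Pool.Agent.H97.LAY.QSB
import Pool.Agent.H97.LAY.COU
import Pool.Agent.H97.LAY.EXI
import Pool.Agent.H97.LAY.LSZ
import Pool.Agent.H97.LAY.COR
import Pool.Agent.H97.LAY.EX1
import Pool.Agent.H97.LAY.EX2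
import Pool.Agent.H97.LAY.EX3
import Pool.Agent.H97.LAY.XE1
import Pool.Agent.H97.LAY.IMH
import Pool.Agent.H97.LAY.ALG
import Pool.Agent.H97.LAY.AMG
import Pool.Agent.H14.LAY.W12
import Pool.Agent.H97.LAY.W11
import Pool.Agent.H97.LAY.BIN
import Pool.Agent.H97.LAY.NUM
import Pool.Agent.H97.LAY.NU2
import Pool.Agent.H97.LAY.NU3
import Pool.Agent.H97.LAY.CO2
import Pool.Agent.H97.LAY.CO3
import Pool.Agent.H97.LAY.CUT
import Pool.Agent.H65.LAY.K12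
import Pool.Agent.H65.LAY.SWP
import Pool.Agent.H97.LAY.REG
import Pool.Agent.H97.LAY.MOM
import Pool.Agent.H97.LAY.PZY
import Pool.Agent.H97.LAY.GUB
import Pool.Agent.H97.LAY.SB2
import Pool.Agent.H14.LAY.QAP

set_option autoImplicit false

namespace Pool.LAY

theorem QSB' : QSBStmt := QSB QNN
theorem IMH' : IMHStmt := IMH QHO
theorem EX1' : EX1Stmt := EX1 QNN
theorem EX2' : EX2Stmt := EX2 IMH' QNN
theorem EX3' : EX3Stmt := EX3 IMH' QNN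
theorem XE1' : XE1Stmt := XE1 IMH' QNN
theorem W12' : W12Stmt := W12 AMG
theorem ALG' : ALGStmt := ALG W12' W11 BIN QNN
theorem COR' : CORStmt := COR EX1' EX2' IMH' ALG' NUM QSB' QZR QNN
theorem FNG' : FNGStmt := FNG (CPT QZR) DQU (DQL QHO QNN) QHO
theorem GUB' : GUBStmt := GUB (SB2 QNN) QAP QNN
theorem REG' : REGStmt := REG MOM PZY GUB' QAP QHO IMH' QNN
theorem SWP' : SWPStmt := SWP IMH' QNN QSB'
theorem CO2' : CO2Stmt :=
  CO2 COR' QZR EX1' EX2' EX3' SWP' (K12 W11) CUT REG' NU2 IMH' QNN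
theorem CO3' : CO3Stmt :=
  CO3 COR' QZR EX1' EX2' EX3' SWP' W11 CUT REG' NU3 XE1' IMH' QNN

theorem H2' {s k : ℕ} (σ : Equiv.Perm (Fin s)) (b : Fin s → Fin k) (hb : IsLayering σ b)
    (h : ∃ i0 i1 i2 : Fin k, layerSize b i1 = 1 ∧
      (((i0 : ℕ) = 0 ∧ (i1 : ℕ) = 1 ∧ (i2 : ℕ) = 2) ∨
        ((i0 : ℕ) + 1 = k ∧ (i1 : ℕ) + 2 = k ∧ (i2 : ℕ) + 3 = k)) ∧
      (layerSize b i2 + 2 ≤ layerSize b i0 ∨ (3 ≤ layerSize b i0 ∧ s ≤ 2 * layerSize b i0)))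
    (m : ℕ) :
    {n : ℕ | ∃ π : Equiv.Perm (Fin n), Optimal σ π ∧ ∃ j ≤ m, HasLayers π j}.Finite :=
  H2G FNG' COU EXI LSZ COR' CO2' CO3' QAP σ b hb h m

end Pool.LAY
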