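import Pool.Agent.H97.LAY.Stmts

set_option autoImplicit false

namespace Pool.LAY

open Finset

theorem NN_sum_nonneg (xs : List ℝ) (h : NN xs) : 0 ≤ xs.sum := List.sum_nonneg h

theorem QPW : QPWStmt := by
  intro ls xs
  induction xs generalizing ls with
  | nil =>
    intro hl _
    cases ls with
    | nil => simp [Q]
    | cons l ls => 
      simp only [Q, List.sum_nil]
      positivity
  | cons x xs ih =>
    intro hl hx
    cases ls with
    | nil => simp [Q]
    | cons l ls =>
      have hx0 : 0 ≤ x := hx x (by simp)
      have hxs : NN xs := fun y hy => hx y (List.mem_cons_of_mem _ hy)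
      have hS : 0 ≤ xs.sum := NN_sum_nonneg xs hxs
      have hl1 : 1 ≤ l := hl l (by simp)
      have i1 := ih ls (fun l' hl' => hl l' (List.mem_cons_of_mem _ hl')) hxs
      have i2 := ih (l :: ls) hl hxs
      simp only [Q, List.sum_cons] at i2 ⊢
      calc x ^ l * Q ls xs + Q (l :: ls) xs
          ≤ x ^ l * xs.sum ^ ls.sum + xs.sum ^ (l + ls.sum) := by
            have : x ^ l * Q ls xs ≤ x ^ l * xs.sum ^ ls.sum :=
              mul_le_mul_of_nonneg_left i1 (by positivity)
            linarith
        _ = (x ^ l + xs.sum ^ l) * xs.sum ^ ls.sum := by rw [pow_add]; ring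
        _ ≤ (x + xs.sum) ^ l * (x + xs.sum) ^ ls.sum := by
            apply mul_le_mul
            · exact pow_add_pow_le hx0 hS (by omega)
            · exact pow_le_pow_left₀ hS (by linarith) _
            · positivity
            · positivity
        _ = (x + xs.sum) ^ (l + ls.sum) := by rw [pow_add]

end Pool.LAY
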