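import Pool.Agent.H97.LAY.Stmts

/-!
# Second batch of statements of the board `lay`

Row `XXX` is the statement `XXXStmt`; the file `Pool/Agent/H97/LAY/XXX.lean` proves
`theorem Pool.LAY.XXX (h1 : YYYStmt) ... : XXXStmt` (`YYY` the rows in the column `needs`; fewer
hypotheses are fine).
-/

set_option autoImplicit false

namespace Pool.LAY

open Finset

/-- the constant in row K12 -/
noncomputable def kap (b : ℕ) : ℝ := if b = 1 then 1 / 2 else 1 / (2 * ((b : ℝ) + 1))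

/-- row QAP. As APP (`H97/LAY/APP.lean`). -/
def QAPStmt : Prop := ∀ (ls : List ℕ) (xs ys : List ℝ),
  Q ls (xs ++ ys) = ∑ i ∈ range (ls.length + 1), Q (ls.take i) xs * Q (ls.drop i) ys

/-- row MOM. `f t = P * (1 - m + t * m) ^ N - Σ α i * t ^ c i` is `≥ 0` for `t ≥ 0` and `f 1 = 0`.
So `f' 1 = 0` and `f'' 1 ≥ 0`. -/
def MOMStmt : Prop := ∀ (ι : Type) (s : Finset ι) (α : ι → ℝ) (c : ι → ℕ) (N : ℕ) (m P : ℝ),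
  (∀ i ∈ s, 0 ≤ α i) → (∑ i ∈ s, α i = P) → 0 ≤ m → m ≤ 1 →
  (∀ t : ℝ, 0 ≤ t → ∑ i ∈ s, α i * t ^ c i ≤ P * (1 - m + t * m) ^ N) →
  ∑ i ∈ s, α i * (c i : ℝ) = (N : ℝ) * m * P ∧
  ∑ i ∈ s, α i * ((c i : ℝ) * ((c i : ℝ) - 1)) ≤ (N : ℝ) * ((N : ℝ) - 1) * m ^ 2 * P

/-- row PZY (one-sided Chebyshev / Cantelli). Put `μ = N m ≥ b + 5/2`, `θ = b + 1`,
`τ = μ / (μ - θ)`. The two moment hypotheses give `Σ α (μ - c)^2 ≤ μ P` (and `Σ α (μ - c) = 0`), so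
`Σ_{c ≤ θ} α * (μ - θ + τ)^2 ≤ Σ α (μ - c + τ)^2 ≤ (μ + τ^2) P`, i.e.
`Σ_{c ≤ θ} α ≤ μ / (μ + (μ-θ)^2) P`; so `Σ_{c > θ} α ≥ (μ-θ)^2 / (μ + (μ-θ)^2) P`, and this is
increasing in `μ`: at `μ = b + 5/2` it is `(9/4) / (b + 5/2 + 9/4) = 9 / (4 b + 19)`. -/
def PZYStmt : Prop := ∀ (ι : Type) (s : Finset ι) (α : ι → ℝ) (c : ι → ℕ) (N b : ℕ) (m P : ℝ),
  (∀ i ∈ s, 0 ≤ α i) → (∑ i ∈ s, α i = P) → 0 ≤ m → m ≤ 1 →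
  ∑ i ∈ s, α i * (c i : ℝ) = (N : ℝ) * m * P →
  ∑ i ∈ s, α i * ((c i : ℝ) * ((c i : ℝ) - 1)) ≤ (N : ℝ) * ((N : ℝ) - 1) * m ^ 2 * P →
  (b : ℝ) + 5 / 2 ≤ (N : ℝ) * m →
  9 / (4 * (b : ℝ) + 19) * P ≤ ∑ i ∈ s.filter (fun i => b + 1 < c i), α i

/-- row EX3. Compare with `(x0 - e) :: tl`, `0 < e < x0`: with `M = Q ls tl`, `R = Q (a :: ls) tl`,
`P = x0^a M + R`: `(x0-e)^a M + R ≤ P (1-e)^N` (IMH); divide by `e`, let `e → 0`: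
`N P ≤ a x0^(a-1) M`; multiply by `x0` and use `x0^a M ≤ P`. (`P > 0`: compare with a list of
`ls.length + 1` equal entries, as in COR.) -/
def EX3Stmt : Prop := ∀ (a : ℕ) (ls : List ℕ) (x0 : ℝ) (tl : List ℝ), 1 ≤ a →
  (∀ l ∈ ls, 1 ≤ l) → IsMax (a :: ls) (x0 :: tl) → 0 < Q (a :: ls) (x0 :: tl) →
  ((a + ls.sum : ℕ) : ℝ) * x0 ≤ (a : ℝ)

/-- row SWP. `ls = a :: 1 :: b :: bs`, `V = Q (1::b::bs) tl`, `T1 = Q (b::bs) tl`, `R = Q ls tl`: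
`P = Q ls (x0::x1::tl) = x0^a (x1 T1 + V) + x1^a V + R`. `T1 > 0`: otherwise `V = 0` (QSB), `P = R`,
`R ≤ P (1 - x0 - x1)^N < P` (IMH). Exchange `x0` and `x1`: `x0^a x1 T1 ≥ x1^a x0 T1`, so `x1 ≤ x0`.
Compare with `(x0+e) :: (x1-e) :: tl`, divide by `e`, `e → 0`:
`a x0^(a-1) (x1 T1 + V) ≤ x0^a T1 + a x1^(a-1) V`, i.e.
`x0^(a-1) T1 (x0 - a x1) ≥ a V (x0^(a-1) - x1^(a-1)) ≥ 0`. -/
def SWPStmt : Prop := ∀ (a b : ℕ) (bs : List ℕ) (x0 x1 : ℝ) (tl : List ℝ), 2 ≤ a → 1 ≤ b →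
  (∀ l ∈ bs, 1 ≤ l) → IsMax (a :: 1 :: b :: bs) (x0 :: x1 :: tl) →
  0 < Q (a :: 1 :: b :: bs) (x0 :: x1 :: tl) → 0 < x0 → 0 < x1 →
  (a : ℝ) * x1 ≤ x0

/-- row K12. `b = 1`: W11. `b ≥ 2`: by induction on `ys`, for all `z ≥ 0`:
`2 (b+1) (z * Q [b] ys + Q [1, b] ys) ≤ (z + ys.sum)^(b+1) - z^(b+1)`. Step `ys = y :: ys'`: the
left side is `2 (b+1) z y^b + 2 (b+1) ((z+y) Q [b] ys' + Q [1,b] ys')`, so one needs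
`2 (b+1) z y^b ≤ (z+y)^(b+1) - z^(b+1)`; the right side is at least (three terms of the binomial
formula) `y^(b+1) + (b+1) z y^b + (b(b+1)/2) z^2 y^(b-1)`, and
`y^2 + (b(b+1)/2) z^2 ≥ (b+1) z y`. -/
def K12Stmt : Prop := ∀ (b : ℕ) (ys : List ℝ), 1 ≤ b → NN ys →
  Q [1, b] ys ≤ kap b * ys.sum ^ (b + 1)

/-- row CUT. Induction on `ys`. -/
def CUTStmt : Prop := ∀ (ys : List ℝ) (c : ℝ), ys ≠ [] → NN ys → 0 ≤ c → c ≤ ys.sum →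
  ∃ (pre : List ℝ) (y : ℝ) (post : List ℝ), ys = pre ++ y :: post ∧ pre.sum ≤ c ∧ c ≤ pre.sum + y

/-- row SB2. Induction (on `zs`, all `x`, `as`, using QSB/QNN): the entries of `as` (at least one) are
not placed at the last element `y`, the entries `d :: cs` not at the first element `x`. E.g. prove
first `Q (as ++ d :: cs) (zs ++ [y]) ≤ Q as zs * Q (d :: cs) (zs ++ [y])` for `as ≠ []` (induction on
`zs`), and `Q (d :: cs) (x :: zs) ` splits. -/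
def SB2Stmt : Prop := ∀ (as cs : List ℕ) (d : ℕ) (x y : ℝ) (zs : List ℝ), as ≠ [] → 0 ≤ x → 0 ≤ y →
  NN zs → Q (as ++ d :: cs) (x :: zs ++ [y]) ≤ Q as (x :: zs) * Q (d :: cs) (zs ++ [y])

/-- row GUB. SB2 with `as = [1, b]`, `cs = bs.take j`, then QAP for
`Q (d :: bs) ((pre ++ [y]) ++ post)` (drop its `i = 0` term, which is `≥ 0`). -/
def GUBStmt : Prop := ∀ (b d : ℕ) (bs : List ℕ) (x y : ℝ) (pre post : List ℝ), 0 ≤ x → 0 ≤ y →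
  NN pre → NN post →
  ∑ j ∈ range (bs.length + 1), Q (1 :: b :: d :: bs.take j) (x :: pre ++ [y]) * Q (bs.drop j) post
    ≤ Q [1, b] (x :: pre) * Q (d :: bs) (pre ++ y :: post)

/-- row REG. Write `ls = a :: 1 :: b :: d :: bs`, `ls' = 1 :: b :: d :: bs`, `R = x1 :: pre ++ [y]`,
`m = R.sum`, `P = Q ls (x0 :: R ++ post)`, `N = ls.sum`. For `t ≥ 0` the list `x0 :: t R ++ post` has
the sum `1 - m + t m`, so (IMH, QAP, QHO)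
`Σ_j x0^a Q (ls'.take j) R Q (ls'.drop j) post t^((ls'.take j).sum)
 + Σ_j Q (ls.take j) R Q (ls.drop j) post t^((ls.take j).sum) ≤ P (1 - m + t m)^N`.
Apply MOM and PZY to this family (e.g. `ι = ℕ ⊕ ℕ`, `s = (range 5+..).disjSum (range ..)`):
`ρ P ≤` the sum of the coefficients with exponent `> b + 1`. The second sum is in total
`Q ls (R ++ post) ≤ P (1 - x0)^N` (IMH); in the first sum exponent `> b+1` means `j ≥ 3`: GUB. -/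
def REGStmt : Prop := ∀ (a b d : ℕ) (bs : List ℕ) (x0 x1 y : ℝ) (pre post : List ℝ),
  1 ≤ a → 1 ≤ b → 1 ≤ d → (∀ l ∈ bs, 1 ≤ l) →
  IsMax (a :: 1 :: b :: d :: bs) (x0 :: x1 :: (pre ++ y :: post)) →
  (b : ℝ) + 5 / 2 ≤ ((a + (1 + (b + (d + bs.sum))) : ℕ) : ℝ) * (x1 + pre.sum + y) →
  (9 / (4 * (b : ℝ) + 19) - (1 - x0) ^ (a + (1 + (b + (d + bs.sum))))) *
      Q (a :: 1 :: b :: d :: bs) (x0 :: x1 :: (pre ++ y :: post)) ≤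
    x0 ^ a * (Q [1, b] (x1 :: pre) * Q (d :: bs) (pre ++ y :: post))

/-- row NU2. Put `r = N x`, `ε = (1-x)^N`. (1) `r ≥ a - 1/2`: otherwise, with `X = (a - 1/2)/N`,
convexity of `(1 - x)^N` gives `a (1 - (1-x)^N) ≥ (x / X) a (1 - (1-X)^N) > N x`, because
`(1-X)^N ≤ exp (-(a - 1/2))` and `a exp(-(a-1/2)) < 1/2` for `a ≥ 4`. (2) So
`ε ≤ exp (-(a - 1/2)) ≤ exp(-7/2) < 0.0303` and `r ≥ a (1 - ε)`. (3) `b = 1`: the left side is at least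
`(9/23 - 0.0303) * 4 * (4 * 0.969)^2 > 21 > 6.125`. `b ≥ 2`: the left side is at least
`(ρ - ε) ((b+2)(1-ε))^(b+1)`, `ρ = 9/(4b+19)`, `ε ≤ exp(-(b + 3/2))`, and
`(b + 5/2)^(b+1) ≤ (b+2)^(b+1) * exp (1/2)`; for `b = 2`: `1.65 > 1.43`; for `b ≥ 3`:
`2 (b+1) (ρ - ε) ≥ 2.23`, `(1-ε)^(b+1) ≥ 1 - (b+1) ε ≥ 0.95`, `2.23 * 0.95 > 1.65`. -/
def NU2Stmt : Prop := ∀ (a b N : ℕ) (x : ℝ), 1 ≤ b → b + 2 ≤ a → 4 ≤ a → a + 1 ≤ N → 0 < x → x < 1 →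
  (a : ℝ) * (1 - (1 - x) ^ N) ≤ (N : ℝ) * x →
  ¬ ((9 / (4 * (b : ℝ) + 19) - (1 - x) ^ N) * ((a : ℝ) ^ (a - b - 2) * ((N : ℝ) * x) ^ (b + 1)) ≤
      kap b * ((b : ℝ) + 5 / 2) ^ (b + 1))

/-- row CO2. `N = ls.sum`. If `N ≤ 2 a`: COR. Otherwise `bs = d :: bs'` (as `a + 1 + b ≤ 2 a`). Let
`xs` be a maximiser; drop its zero entries (as in COR): `xs = x0 :: x1 :: tl`, all entries positive,
`P > 0`. EX3: `N x0 ≤ a`. SWP: `a x1 ≤ x0`. Put `ν = b + 5/2`; CUT for `x1 :: tl` and `c = ν / N`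
(`N (1 - x0) ≥ N - a ≥ a + 1 ≥ b + 3 > ν`); `pre = []` is impossible (`N x1 ≤ N x0 / a ≤ 1 < ν`), so
`pre = x1 :: pre'`, `tl = pre' ++ y :: post`. REG and K12 (`(x1 :: pre').sum ≤ ν / N`), with
`U = Q bs tl`, `V = Q (1 :: b :: bs) tl`, `ρ = 9/(4b+19)`, `ε = (1-x0)^N`:
`(ρ - ε) P ≤ x0^a κ (ν/N)^(b+1) U`. EX1: `x0^a U ≤ a x1^(a-1-b) V` (cancel `x1^b`), so with
`w = a - 1 - b ≥ 1`, `a x1 ≤ x0`: `a^w x0^(b+1) U ≤ a V` (cancel `x0^w`). And `x0^a V ≤ P`. So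
`(ρ - ε) a^(w-1) (N x0)^(b+1) ≤ κ ν^(b+1)` (multiply the first by `a^w x0^(b+1) N^(b+1)`, divide by
`a P`). EX2 with `R = Q ls (x1::tl) ≤ P (1-x0)^N` (IMH): `N x0 ≥ a (1 - (1-x0)^N)`. NU2. -/
def CO2Stmt : Prop := ∀ (a b : ℕ) (bs : List ℕ), 4 ≤ a → 1 ≤ b → b + 2 ≤ a → (∀ l ∈ bs, 1 ≤ l) →
  ∀ xs : List ℝ, ¬ IsMax (a :: 1 :: b :: bs) xs

/-- row FNG. The proof of FN2 (`H14/LAY/FN2.lean`) without COR. -/
def FNGStmt : Prop := ∀ ls : List ℕ, ls ≠ [] → (∀ l ∈ ls, 1 ≤ l) → (∀ xs : List ℝ, ¬ IsMax ls xs) →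
  ∀ m : ℕ, ∃ n0 : ℕ, ∀ ns : List ℕ, n0 ≤ ns.sum → ns.length ≤ m →
  ∃ ns' : List ℕ, Pos ns' ∧ ns'.sum = ns.sum ∧ D ls ns < D ls ns'

end Pool.LAY
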