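import Pool.Agent.H97.LAY.Stmts

/-!
# Fourth batch of statements of the board `lay` (unequal neighbours of a layer of size one)

Row `XXX` is the statement `XXXStmt`; the file `Pool/Agent/H97/LAY/XXX.lean` proves
`theorem Pool.LAY.XXX (h1 : YYYStmt) ... : XXXStmt` (`YYY` the rows in the column `needs`; fewer
hypotheses are fine).
-/

set_option autoImplicit false

namespace Pool.LAY

open Finset

/-- first and last entry at least 2; the two neighbours `x`, `y` of an entry 1 are at least 2, and if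
they are different then the entry beyond the larger one is between 2 and the smaller one -/
def Good2 (ls : List ℕ) : Prop :=
  ls ≠ [] ∧ (∀ l ∈ ls, 1 ≤ l) ∧ (∀ l bs, ls = l :: bs → 2 ≤ l) ∧ (∀ as l, ls = as ++ [l] → 2 ≤ l) ∧
  (∀ as x y bs, ls = as ++ x :: 1 :: y :: bs → 2 ≤ x ∧ 2 ≤ y ∧
    (x < y → ∃ z cs, bs = z :: cs ∧ 2 ≤ z ∧ z ≤ x) ∧
    (y < x → ∃ w cs, as = cs ++ [w] ∧ 2 ≤ w ∧ w ≤ y))

/-- the stronger dichotomies around the entries 1 -/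
def Dich2 (δ : ℝ) (T : ℕ) (ls pre post : List ℕ) : Prop :=
  ∀ as x y bs, ls = as ++ x :: 1 :: y :: bs →
    (δ * (T : ℝ) ^ (as.sum + x + 1 + y) ≤ (D (as ++ [x, 1, y]) pre : ℝ) ∨
      δ * (T : ℝ) ^ (1 + y + bs.sum) ≤ (D (1 :: y :: bs) post : ℝ)) ∧
    (δ * (T : ℝ) ^ (as.sum + x + 1) ≤ (D (as ++ [x, 1]) pre : ℝ) ∨
      δ * (T : ℝ) ^ (x + 1 + y + bs.sum) ≤ (D (x :: 1 :: y :: bs) post : ℝ))

/-- row MTY. Induction on `M`: for `L = l :: L'`,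
`D L (m :: M' ++ Y) = C(m,l) D L' (M' ++ Y) + D L (M' ++ Y) ≤ m T^(l-1) T^(L'.sum) + ...`
(POW, `C(m,l) ≤ m^l ≤ m T^(l-1)`). -/
def MTYStmt : Prop := ∀ (L M Y : List ℕ) (T : ℕ), (∀ l ∈ L, 1 ≤ l) → M.sum + Y.sum ≤ T →
  D L (M ++ Y) ≤ D L Y + L.length * (M.sum * T ^ (L.sum - 1))

/-- row PV2. `K = ls.length + 1`, `N = ls.sum`. APP: `D ls (X ++ (M ++ Y)) = Σ_i D (take i) X *
D (drop i) (M ++ Y)`. The terms `i ≥ as.length + 2`: `≤ D (as ++ [l, m]) X * T^(bs.sum)` (SUB, POW);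
the others: MTY for `D (drop i) (M ++ Y)`; `i = as.length + 1` gives `D (as ++ [l]) X * D (m::bs) Y`
and an error `≤ K M.sum T^(N-1)`; `i ≤ as.length`: `D (drop i) Y ≤ T^(..) D (l::m::bs) Y` (SUB, POW). -/
def PV2Stmt : Prop := ∀ (as bs X M Y : List ℕ) (l m T : ℕ), (∀ a ∈ as, 1 ≤ a) → (∀ b ∈ bs, 1 ≤ b) →
  1 ≤ l → 1 ≤ m → X.sum + (M.sum + Y.sum) ≤ T →
  D (as ++ l :: m :: bs) (X ++ (M ++ Y)) ≤ D (as ++ [l]) X * D (m :: bs) Y +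
    (as.length + bs.length + 3) * (D (as ++ [l, m]) X * T ^ bs.sum + T ^ as.sum * D (l :: m :: bs) Y +
      (as.length + bs.length + 3) * (M.sum * T ^ (as.sum + l + m + bs.sum - 1)))

/-- row FUP. The last entry 1 is placed in `pre1`, at `u` or in `pre2`; in the last case `x` in `pre1`,
at `u` or in `pre2`; the last possibility contributes at most
`T^(as.sum) * (Σ_{e ∈ pre2} C(e,x)) * pre2.sum ≤ T^(as.sum) * E^(x-1) * pre2.sum^2`. (APP.) -/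
def FUPStmt : Prop := ∀ (as pre1 pre2 : List ℕ) (x u T E : ℕ), (∀ a ∈ as, 1 ≤ a) → 2 ≤ x →
  pre1.sum + (u + pre2.sum) ≤ T → E ≤ T → (∀ e ∈ pre2, e ≤ E) →
  D (as ++ [x, 1]) (pre1 ++ u :: pre2) ≤ D (as ++ [x, 1]) pre1 +
    (D (as ++ [x]) pre1 * (u + pre2.sum) + D as pre1 * (u.choose x * pre2.sum)) +
    E * T ^ (as.sum + x)

/-- row LB3. APP. -/
def LB3Stmt : Prop := ∀ (as pre1 : List ℕ) (x u v w : ℕ),
  D (as ++ [x]) pre1 * (u + (v + w)) + D as pre1 * (u.choose x * (v + w) + v.choose x * w) ≤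
    D (as ++ [x, 1]) (pre1 ++ [u, v, w]) ∧
  D (as ++ [x]) pre1 * (v + w) + D as pre1 * (v.choose x * w) ≤ D (as ++ [x, 1]) (pre1 ++ [v, w])

/-- row DPR. One term of APP. -/
def DPRStmt : Prop := ∀ as bs X Y : List ℕ, D as X * D bs Y ≤ D (as ++ bs) (X ++ Y)

/-- row CHL. `p = v / 2`, `q = v - p`: `p ≥ v/3 ≥ x`, `C(p,x) ≥ (p/x)^x` (`Nat.pow_le_choose`-like). -/
def CHLStmt : Prop := ∀ x v : ℕ, 2 ≤ x → 3 * x ≤ v → ∃ p q : ℕ, p + q = v ∧ 1 ≤ p ∧ 1 ≤ q ∧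
  v ^ (x + 1) ≤ 2 * (3 * x) ^ x * (p.choose x * q)

/-- row REV. By APP `D (as ++ [l]) (xs ++ [x]) = D as xs * C(x,l) + D (as ++ [l]) xs`; induction. -/
def REVStmt : Prop := ∀ ls xs : List ℕ, D ls.reverse xs.reverse = D ls xs

/-- row KPL. Notation: `ls = as ++ x :: 1 :: y :: bs`, `N = ls.sum`, `ns = pre ++ [s,t] ++ post`,
`T = ns.sum`, `K = ls.length + 1`, `F = D (as ++ [x,1]) pre`, `G = D (y :: bs) post`. We may assume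
`c ≤ 1`. Suppose that both alternatives fail. PV2 (`l = 1`, `m = y`, `as ++ [x]` for `as`):
(0) `D ls ns ≤ F G + (2 K δ + K^2 ε) T^N`. Write `pre = pre1 ++ u :: pre2` with
`D (as++[x,1]) pre1 < γ T^(..) ≤ D (as++[x,1]) (pre1 ++ [u])` (it exists as `F ≥ (c/2) T^(..)`,
`G ≤ T^(..)`). Every `e ∈ pre2` has `γ T^(..) C(e,y) ≤ D (as++[x,1,y]) pre < δ T^(..)`; with
`δ := γ (τ/y)^y` this gives `e ≤ τ T` if `τ T ≥ y` (`C(e,y) ≥ (e/y)^y` for `e ≥ y`). Put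
`A = D (as++[x]) pre1`, `B = D as pre1`, `w = pre2.sum`, `v = u + w`. FUP:
(1) `F ≤ (γ + τ) T^(as.sum+x+1) + A v + B C(u,x) w`. As `ns` is best, `D ls ns' ≤ D ls ns` for
`ns' = pre1 ++ [u,w1,w2] ++ [s,t] ++ post` (`w1 + w2 = w`; if `u = 0` omit it: but `u ≥ 1` as entries are
positive) and `ns' = pre1 ++ [v1,v2] ++ [s,t] ++ post`, and `D ls ns' ≥ D (as++[x,1]) (..) * G` (DPR);
LB3 and CHL with `λ = 1/(2 (3x)^x)`, `η := γ + τ + 2 K δ + K^2 ε`: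
(2) if `w ≥ 3x`: `λ w^(x+1) B G ≤ η T^N`; (3) if `v ≥ 3x`: `λ v^(x+1) B G ≤ C(u,x) w B G + η T^N`;
(4) `c T^N ≤ (A v + B C(u,x) w) G + η T^N`. Let `η ≤ c/2`. From (4), `A ≤ B T^x` (SUB, POW),
`C(u,x) w ≤ T^x v`: `2 B G T^x v ≥ (c/2) T^N`; as `v ≤ T`, `B G ≤ T^(N-x-1)`: `v ≥ (c/4) T` and
`B G ≥ (c/4) T^(N-x-1)`. If `w ≥ ω T`, `ω T ≥ 3x`: (2) gives `(c/4) λ ω^(x+1) ≤ η`. So for
`η < (c/4) λ ω^(x+1)`: `w < ω T`, and (3) gives `λ (c/4)^(x+2) ≤ ω + η`. Contradiction for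
`ω := λ (c/4)^(x+2) / 2`, `η ≤ min (c/2) (min ((c/4) λ ω^(x+1) / 2) (ω/2))`, e.g.
`γ = τ = η/8`, `δ = γ (τ/y)^y / (2K)`.., `ε = η/(8 K^2)`, and `T0` large (`T0 ≥ 12 x / c`,
`3x / ω`, `y / τ`, 1). -/
def KPLStmt : Prop := ∀ (as bs : List ℕ) (x y : ℕ), (∀ l ∈ as, 1 ≤ l) → (∀ l ∈ bs, 1 ≤ l) → 2 ≤ x →
  1 ≤ y → ∀ c : ℝ, 0 < c → ∃ δ ε : ℝ, 0 < δ ∧ 0 < ε ∧ ∃ T0 : ℕ, ∀ (pre post : List ℕ) (s t T : ℕ),
  OptL (as ++ x :: 1 :: y :: bs) (pre ++ [s, t] ++ post) → (pre ++ [s, t] ++ post).sum = T →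
  T0 ≤ T → ((s + t : ℕ) : ℝ) ≤ ε * (T : ℝ) →
  c * (T : ℝ) ^ (as ++ x :: 1 :: y :: bs).sum ≤
    (D (as ++ x :: 1 :: y :: bs) (pre ++ [s, t] ++ post) : ℝ) →
  δ * (T : ℝ) ^ (as.sum + x + 1 + y) ≤ (D (as ++ [x, 1, y]) pre : ℝ) ∨
    δ * (T : ℝ) ^ (1 + y + bs.sum) ≤ (D (1 :: y :: bs) post : ℝ)

/-- row KPM. KPL for the reversed lists (REV). -/
def KPMStmt : Prop := ∀ (as bs : List ℕ) (x y : ℕ), (∀ l ∈ as, 1 ≤ l) → (∀ l ∈ bs, 1 ≤ l) → 1 ≤ x →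
  2 ≤ y → ∀ c : ℝ, 0 < c → ∃ δ ε : ℝ, 0 < δ ∧ 0 < ε ∧ ∃ T0 : ℕ, ∀ (pre post : List ℕ) (s t T : ℕ),
  OptL (as ++ x :: 1 :: y :: bs) (pre ++ [s, t] ++ post) → (pre ++ [s, t] ++ post).sum = T →
  T0 ≤ T → ((s + t : ℕ) : ℝ) ≤ ε * (T : ℝ) →
  c * (T : ℝ) ^ (as ++ x :: 1 :: y :: bs).sum ≤
    (D (as ++ x :: 1 :: y :: bs) (pre ++ [s, t] ++ post) : ℝ) →
  δ * (T : ℝ) ^ (as.sum + x + 1) ≤ (D (as ++ [x, 1]) pre : ℝ) ∨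
    δ * (T : ℝ) ^ (x + 1 + y + bs.sum) ≤ (D (x :: 1 :: y :: bs) post : ℝ)

/-- row DC2. There are finitely many ways to write `ls = as ++ x :: 1 :: y :: bs`: KPL, KPM, minimum
of the `δ`, `ε`, maximum of the `T0`. (E.g. prove for every `m`: the same for the decompositions with
`as.length < m`; induction on `m`.) -/
def DC2Stmt : Prop := ∀ ls : List ℕ, Good2 ls → ∀ c : ℝ, 0 < c → ∃ δ ε : ℝ, 0 < δ ∧ 0 < ε ∧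
  ∃ T0 : ℕ, ∀ (pre post : List ℕ) (s t T : ℕ), OptL ls (pre ++ [s, t] ++ post) →
  (pre ++ [s, t] ++ post).sum = T → T0 ≤ T → ((s + t : ℕ) : ℝ) ≤ ε * (T : ℝ) →
  c * (T : ℝ) ^ ls.sum ≤ (D ls (pre ++ [s, t] ++ post) : ℝ) → Dich2 δ T ls pre post

/-- row CXZ. `C(s,x) ≤ C(s,z) s^(x-z)`, `z t C(s,z) ≤ s dl z s t` (DLT), so
`C(s,x) t ≤ s^(x-z+1) dl z s t ≤ ε T T^(x-z) dl z s t`. The second part is the mirror image. -/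
def CXZStmt : Prop := ∀ (x z s t T : ℕ) (ε : ℝ), 2 ≤ z → z ≤ x →
  (s ≤ T → (s : ℝ) ≤ ε * T →
    ((T ^ z * (s.choose x * t) : ℕ) : ℝ) ≤ ε * ((T ^ (x + 1) * dl z s t : ℕ) : ℝ)) ∧
  (t ≤ T → (t : ℝ) ≤ ε * T →
    ((T ^ z * (s * t.choose x) : ℕ) : ℝ) ≤ ε * ((T ^ (x + 1) * dl z s t : ℕ) : ℝ))

/-- row D4G. `D as pre ≤ T^as.sum`, `D (y :: bs) post ≤ T^y D bs post` (SUB, POW), CXZ. -/
def D4GStmt : Prop := ∀ (as bs pre post : List ℕ) (x y s t T : ℕ) (δ ε : ℝ),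
  (∀ a ∈ as, 1 ≤ a) → 2 ≤ y → y ≤ x → pre.sum ≤ T → post.sum ≤ T → s ≤ T → (s : ℝ) ≤ ε * T →
  0 ≤ δ → δ * (T : ℝ) ^ (as.sum + x + 1) ≤ (D (as ++ [x, 1]) pre : ℝ) →
  δ * ((D as pre * D (y :: bs) post * (s.choose x * t.choose 1) : ℕ) : ℝ)
    ≤ ε * ((D (as ++ [x, 1]) pre * D bs post * dl y s t : ℕ) : ℝ)

/-- row DM5. `D as pre ≤ T^as.sum`, `D (y :: z :: bs) post ≤ T^(y+z) D bs post`, CXZ. -/
def DM5Stmt : Prop := ∀ (as bs pre post : List ℕ) (x y z s t T : ℕ) (δ ε : ℝ),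
  (∀ a ∈ as, 1 ≤ a) → 1 ≤ y → 2 ≤ z → z ≤ x → pre.sum ≤ T → post.sum ≤ T → s ≤ T →
  (s : ℝ) ≤ ε * T → 0 ≤ δ →
  δ * (T : ℝ) ^ (as.sum + x + 1 + y) ≤ (D (as ++ [x, 1, y]) pre : ℝ) →
  δ * ((D as pre * D (y :: z :: bs) post * (s.choose x * t.choose 1) : ℕ) : ℝ)
    ≤ ε * ((D (as ++ [x, 1, y]) pre * D bs post * dl z s t : ℕ) : ℝ)

/-- row D3G (mirror of D4G). `D (as ++ [x]) pre ≤ T^x D as pre`, `D bs post ≤ T^bs.sum`, CXZ. -/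
def D3GStmt : Prop := ∀ (as bs pre post : List ℕ) (x y s t T : ℕ) (δ ε : ℝ),
  (∀ b ∈ bs, 1 ≤ b) → 2 ≤ x → x ≤ y → pre.sum ≤ T → post.sum ≤ T → t ≤ T → (t : ℝ) ≤ ε * T →
  0 ≤ δ → δ * (T : ℝ) ^ (1 + y + bs.sum) ≤ (D (1 :: y :: bs) post : ℝ) →
  δ * ((D (as ++ [x]) pre * D bs post * (s.choose 1 * t.choose y) : ℕ) : ℝ)
    ≤ ε * ((D as pre * D (1 :: y :: bs) post * dl x s t : ℕ) : ℝ)

/-- row DM6 (mirror of DM5). `D (as ++ [w, x]) pre ≤ T^(w+x) D as pre`, `D bs post ≤ T^bs.sum`, CXZ. -/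
def DM6Stmt : Prop := ∀ (as bs pre post : List ℕ) (w x y s t T : ℕ) (δ ε : ℝ),
  (∀ b ∈ bs, 1 ≤ b) → 1 ≤ x → 2 ≤ w → w ≤ y → pre.sum ≤ T → post.sum ≤ T → t ≤ T →
  (t : ℝ) ≤ ε * T → 0 ≤ δ →
  δ * (T : ℝ) ^ (x + 1 + y + bs.sum) ≤ (D (x :: 1 :: y :: bs) post : ℝ) →
  δ * ((D (as ++ [w, x]) pre * D bs post * (s.choose 1 * t.choose y) : ℕ) : ℝ)
    ≤ ε * ((D as pre * D (x :: 1 :: y :: bs) post * dl w s t : ℕ) : ℝ)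

/-- row DO2 (as DOM). Every term `i` of `loss` is, times `δ`, at most `ε` times a term of `gain`.
Write `ls = as ++ x :: y :: bs`, `as = ls.take i`.
* `x, y ≥ 2`: `Dich` at `x`: `δ T^(as.sum+x) ≤ D (as ++ [x]) pre`: DM1, term `i+1`; or
`δ T^(x+y+bs.sum) ≤ D (x::y::bs) post ≤ T^x D (y::bs) post`: DM2, term `i`.
* `x = 1`, so `y ≥ 2`, `as = as' ++ [v]`, `v ≥ 2`: `Dich2`, second part, with `(as', v, y, bs)`: either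
`δ T^(..) ≤ D (as' ++ [v,1]) pre`: DM1, term `i+1`; or `δ T^(..) ≤ D (v::1::y::bs) post`: if `v ≤ y`
then (`≤ T^v D (1::y::bs) post`) D3G, term `i-1`; if `y < v` then `as' = cs ++ [w]`, `2 ≤ w ≤ y`: DM6,
term `i-2`.
* `y = 1`, so `x ≥ 2`, `bs = v :: bs'`, `v ≥ 2`: `Dich2`, first part, with `(as, x, v, bs')`: either
`δ T^(..) ≤ D (1::v::bs') post`: DM2, term `i`; or `δ T^(..) ≤ D (as ++ [x,1,v]) pre`: if `v ≤ x` then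
(`≤ T^v D (as ++ [x,1]) pre`) D4G, term `i+2`; if `x < v` then `bs' = z :: cs`, `2 ≤ z ≤ x`: DM5,
term `i+3`. Sum over `i`. -/
def DO2Stmt : Prop := ∀ (ls pre post : List ℕ) (s t T : ℕ) (δ ε : ℝ), Good2 ls →
  Dich δ T ls pre post → Dich2 δ T ls pre post → 0 ≤ δ → 0 < T → pre.sum + s + t + post.sum ≤ T →
  (s : ℝ) ≤ ε * T → (t : ℝ) ≤ ε * T →
  δ * (loss ls pre post s t : ℝ) ≤ (ls.length : ℝ) * ε * (gain ls pre post s t : ℝ)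

/-- row PO2. The proof of POS (only uses that of two adjacent entries one is `≥ 2`, and the first and
last are `≥ 2`). -/
def PO2Stmt : Prop := ∀ (ls pre post : List ℕ) (s t T : ℕ) (δ : ℝ), Good2 ls →
  Dich δ T ls pre post → 0 < δ → 0 < T → 1 ≤ s → 1 ≤ t → (∀ l ∈ ls, l ≤ s + t) →
  0 < gain ls pre post s t

/-- row ST2. The proof of STP (`H65/LAY/STP.lean`) with DO2, PO2 in place of DOM, POS: `c` from LOW,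
`δ2, ε2, T0` from DC2 for `c`, `δ = min (c/4) δ2`, `ε = min ... ε2`; all the lists
`pre ++ s :: t :: ...` in that proof are best and have the same sum, so DC2 gives `Dich2` (and it is
monotone in `δ`). -/
def ST2Stmt : Prop := ∀ ls : List ℕ, Good2 ls → ∃ ε : ℝ, 0 < ε ∧ ∃ T0 : ℕ, ∀ ns : List ℕ, OptL ls ns →
  ls.sum ≤ ns.sum → T0 ≤ ns.sum → ∀ pre ys post : List ℕ, ns = pre ++ ys ++ post →
  ys.length = ls.sum → ε * (ns.sum : ℝ) < (ys.sum : ℝ)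

/-- row FN3. ST2 and LEN for `ns.sum ≥ T0`; `ns.length ≤ ns.sum < T0` otherwise. -/
def FN3Stmt : Prop := ∀ ls : List ℕ, Good2 ls → ∃ K : ℕ, ∀ ns : List ℕ, OptL ls ns →
  ls.sum ≤ ns.sum → ns.length ≤ K

/-- row CV2. As CV1. -/
def CV2Stmt : Prop := ∀ (k : ℕ) (ℓ : Fin k → ℕ), 0 < k → (∀ j, 1 ≤ ℓ j) →
  (∀ j : Fin k, ((j : ℕ) = 0 ∨ (j : ℕ) + 1 = k) → 2 ≤ ℓ j) →
  (∀ i j l : Fin k, (i : ℕ) + 1 = j → (j : ℕ) + 1 = l → ℓ j = 1 → 2 ≤ ℓ i ∧ 2 ≤ ℓ l ∧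
    (ℓ i < ℓ l → ∃ m : Fin k, (l : ℕ) + 1 = m ∧ 2 ≤ ℓ m ∧ ℓ m ≤ ℓ i) ∧
    (ℓ l < ℓ i → ∃ m : Fin k, (m : ℕ) + 1 = i ∧ 2 ≤ ℓ m ∧ ℓ m ≤ ℓ l)) →
  Good2 (List.ofFn ℓ)

end Pool.LAY
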