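import Pool.Agent.H97.LAY.Stmts2

/-!
# Fifth batch of statements of the board `lay` (several large layers before a layer of size one)

Row `XXX` is the statement `XXXStmt`; the file `Pool/Agent/H97/LAY/XXX.lean` proves
`theorem Pool.LAY.XXX (h1 : YYYStmt) ... : XXXStmt` (`YYY` the rows in the column `needs`; fewer
hypotheses are fine).

Notation of the docstrings: `ls = cs ++ 1 :: b :: bs` (or `cs ++ rs`), `p = cs.length = pre.length`,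
`P = Q ls xs`, `N = ls.sum`, `w0 = Q cs pre * Q (1 :: b :: bs) (v :: tl)`.
-/

set_option autoImplicit false

namespace Pool.LAY

open Finset

/-- row ERA. Induction on `pre`: `Q (l::L) (x::pre) = x^l Q L pre + Q (l::L) pre`; the second term is
the term `i = 0`; for the first use the induction hypothesis for `L` and
`x^l Q L (pre.eraseIdx i) ≤ Q (l::L) (x :: pre.eraseIdx i)`. -/
def ERAStmt : Prop := ∀ (L : List ℕ) (pre : List ℝ), NN pre → L.length < pre.length →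
  Q L pre ≤ ∑ i ∈ range pre.length, Q L (pre.eraseIdx i)

/-- row UNU. QAP for `pre ++ post`: the terms `i > cs.length = pre.length` vanish, the term
`i = cs.length` is `Q cs pre * Q rs post`. For `j < pre.length`:
`Q (ls.take j) pre ≤ Σ_i Q (ls.take j) (pre.eraseIdx i)` (ERA), and
`Σ_j Q (ls.take j) (pre.eraseIdx i) Q (ls.drop j) post ≤ Q ls (pre.eraseIdx i ++ post)` (QAP)
`≤ P (1 - pre_i)^N` (IMH, the sum of the list is `1 - pre_i`). -/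
def UNUStmt : Prop := ∀ (cs rs : List ℕ) (pre post : List ℝ), cs ≠ [] → (∀ l ∈ cs ++ rs, 1 ≤ l) →
  pre.length = cs.length → IsMax (cs ++ rs) (pre ++ post) →
  Q (cs ++ rs) (pre ++ post) - Q cs pre * Q rs post ≤
    ∑ i ∈ range pre.length, (1 - pre.getD i 0) ^ (cs ++ rs).sum * Q (cs ++ rs) (pre ++ post)

/-- row SCA. `Q ls (pre1 ++ y :: post) = Q ls (pre1 ++ post) + Σ_j y^(ls_j) Q (ls.take j) pre1 *
Q (ls.drop (j+1)) post`; the terms with `j > pre1.length` vanish, the others have `ls_j = cs_j ≥ A`.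
(Or by induction on `pre1`.) -/
def SCAStmt : Prop := ∀ (cs rs : List ℕ) (pre1 post : List ℝ) (x s : ℝ) (A : ℕ),
  (∀ a ∈ cs, A ≤ a) → pre1.length < cs.length → NN pre1 → NN post → 0 ≤ x → 1 ≤ s →
  (Q (cs ++ rs) (pre1 ++ x :: post) - Q (cs ++ rs) (pre1 ++ post)) * s ^ A ≤
    Q (cs ++ rs) (pre1 ++ (s * x) :: post) - Q (cs ++ rs) (pre1 ++ post)

/-- row EXG. `C0 = Q ls (pre1 ++ post) ≤ P (1-x)^N` (IMH). SCA with `s = 1 + e/x`, `e > 0`, and IMH for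
the list `pre1 ++ (x+e) :: post` of sum `1 + e`: `C0 + (P - C0) (1 + e/x)^A ≤ P (1+e)^N`, so
`(1 - (1-x)^N) A e / x ≤ (1+e)^N - 1`; divide by `e`, `e → 0`. -/
def EXGStmt : Prop := ∀ (cs rs : List ℕ) (pre1 post : List ℝ) (x : ℝ) (A : ℕ),
  (∀ l ∈ cs ++ rs, 1 ≤ l) → (∀ a ∈ cs, A ≤ a) → pre1.length < cs.length →
  IsMax (cs ++ rs) (pre1 ++ x :: post) → 0 < Q (cs ++ rs) (pre1 ++ x :: post) → 0 < x →
  (A : ℝ) * (1 - (1 - x) ^ (cs ++ rs).sum) ≤ ((cs ++ rs).sum : ℝ) * x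

/-- row NUA. `N x ≥ A - 1/2`: otherwise, with `X = (A - 1/2)/N`, convexity of `(1-x)^N` gives
`A (1 - (1-x)^N) ≥ (x/X) A (1 - (1-X)^N) > N x`, because `(1-X)^N ≤ exp (-(A - 1/2))` and
`A exp (-(A-1/2)) < 1/2` (as in NU2). So `(1-x)^N ≤ exp (-(A - 1/2))`, and `exp (-7/2) ≤ 1/32`,
`exp (-1) ≤ 1/2`. -/
def NUAStmt : Prop := ∀ (A N : ℕ) (x : ℝ), 4 ≤ A → A + 1 ≤ N → 0 < x → x < 1 →
  (A : ℝ) * (1 - (1 - x) ^ N) ≤ (N : ℝ) * x → (1 - x) ^ N ≤ 1 / 2 ^ (A + 1)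

/-- row EPS. UNU, EXG and NUA for every entry of `pre` (`0 < pre_i < 1` as `v > 0`). -/
def EPSStmt : Prop := ∀ (cs rs : List ℕ) (pre tl : List ℝ) (v : ℝ) (A : ℕ), cs ≠ [] →
  (∀ l ∈ cs ++ rs, 1 ≤ l) → (∀ a ∈ cs, A ≤ a) → 4 ≤ A → A + 1 ≤ (cs ++ rs).sum →
  pre.length = cs.length → IsMax (cs ++ rs) (pre ++ v :: tl) → (∀ x ∈ pre, 0 < x) → 0 < v →
  0 < Q (cs ++ rs) (pre ++ v :: tl) →
  Q (cs ++ rs) (pre ++ v :: tl) - Q cs pre * Q rs (v :: tl) ≤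
    (cs.length : ℝ) / 2 ^ (A + 1) * Q (cs ++ rs) (pre ++ v :: tl)

/-- row XI2. Replace `v` by `v/2`: `Q ls (pre ++ (v/2) :: tl) ≤ P (1 - v/2)^N` (IMH), and it is
`≥ Q cs pre * Q (1::b::bs) ((v/2) :: tl) ≥ w0 / 2 ≥ (3/8) P` (QAP). If `N v ≥ 2` then
`(1 - v/2)^N ≤ exp (-1) < 3/8`. -/
def XI2Stmt : Prop := ∀ (cs bs : List ℕ) (b : ℕ) (pre tl : List ℝ) (v : ℝ), 1 ≤ b →
  (∀ l ∈ cs, 1 ≤ l) → (∀ l ∈ bs, 1 ≤ l) → IsMax (cs ++ 1 :: b :: bs) (pre ++ v :: tl) →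
  0 < Q (cs ++ 1 :: b :: bs) (pre ++ v :: tl) →
  Q (cs ++ 1 :: b :: bs) (pre ++ v :: tl) - Q cs pre * Q (1 :: b :: bs) (v :: tl) ≤
    1 / 4 * Q (cs ++ 1 :: b :: bs) (pre ++ v :: tl) →
  ((cs ++ 1 :: b :: bs).sum : ℝ) * v < 2

/-- row CHF (Chernoff). `ξ = N v`, `t = a / ξ`. The list `pre ++ (t v) :: tl` has the sum
`1 + v (t-1)`, so `t^a v^a Q L1 pre Q L2 tl ≤ Q ls (pre ++ (t v) :: tl) ≤ P (1 + v (t-1))^N ≤
P exp (ξ (t-1)) = P exp (a - ξ)` (IMH); multiply by `t^(-a) = (ξ/a)^a`. -/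
def CHFStmt : Prop := ∀ (L1 L2 : List ℕ) (a : ℕ) (pre tl : List ℝ) (v : ℝ), 1 ≤ a →
  (∀ l ∈ L1 ++ a :: L2, 1 ≤ l) → IsMax (L1 ++ a :: L2) (pre ++ v :: tl) → 0 < v →
  v ^ a * (Q L1 pre * Q L2 tl) ≤ Q (L1 ++ a :: L2) (pre ++ v :: tl) *
    ((Real.exp 1 * (((L1 ++ a :: L2).sum : ℝ) * v) / a) ^ a *
      Real.exp (-(((L1 ++ a :: L2).sum : ℝ) * v)))

/-- row MON. Induction on `a`: the quotient of the values at `a+1` and `a` is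
`(exp 1 * ξ / a) * (a/(a+1))^a ≤ (exp 1 * 2 / 8) / 2 < 1`. -/
def MONStmt : Prop := ∀ (A a : ℕ) (ξ : ℝ), 8 ≤ A → A ≤ a → 0 ≤ ξ → ξ ≤ 2 →
  (a : ℝ) * (Real.exp 1 * ξ / a) ^ a ≤ (A : ℝ) * (Real.exp 1 * ξ / A) ^ A

/-- row EXS. As EX1: compare with `pre ++ e :: (v - e) :: tl`, `0 < e < v`. By QAP and
`Q L pre = 0` for `L.length > p`: `P = Σ_{j ≤ p} Q (ls.take j) pre * (v^(ls_j) Q (ls.drop (j+1)) tl +
Q (ls.drop j) tl)`, with `ls_p = 1`; the new value is at least the same sum with `(v-e)^(ls_j)` for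
`v^(ls_j)`, `j < p`, and with
`e ((v-e)^b Q bs tl + Q (b::bs) tl) + (v-e) Q (b::bs) tl + Q (1::b::bs) tl` in the bracket for `j = p`.
So `Q cs pre * e (v-e)^b Q bs tl ≤ Σ_{j<p} (v^(c_j) - (v-e)^(c_j)) C_j ≤ e Σ_{j<p} c_j v^(c_j - 1) C_j`,
`C_j = Q (cs.take j) pre * Q (cs.drop (j+1) ++ 1::b::bs) tl`; divide by `e`, `e → 0`, multiply by
`v`. -/
def EXSStmt : Prop := ∀ (cs bs : List ℕ) (b : ℕ) (pre tl : List ℝ) (v : ℝ), 1 ≤ b →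
  (∀ l ∈ cs, 1 ≤ l) → (∀ l ∈ bs, 1 ≤ l) → pre.length = cs.length →
  IsMax (cs ++ 1 :: b :: bs) (pre ++ v :: tl) → 0 < v →
  Q cs pre * (v ^ (b + 1) * Q bs tl) ≤
    ∑ j ∈ range cs.length, ((cs.getD j 0 : ℕ) : ℝ) * (v ^ (cs.getD j 0) *
      (Q (cs.take j) pre * Q (cs.drop (j + 1) ++ 1 :: b :: bs) tl))

/-- row SB1. `Q (a::as ++ bs) (x::zs) = x^a Q (as ++ bs) zs + Q (a::as ++ bs) zs`, QSB. -/
def SB1Stmt : Prop := ∀ (as bs : List ℕ) (x : ℝ) (zs : List ℝ), as ≠ [] → 0 ≤ x → NN zs →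
  Q (as ++ bs) (x :: zs) ≤ Q as (x :: zs) * Q bs zs

/-- row RG2 (as REG, `H97/LAY/REG.lean`, with `pre` in place of `[x0]`). `R = v :: mid ++ [y]`,
`m = R.sum`. The list `pre ++ t R ++ post` has the sum `1 - m + t m`; by QAP (twice) and QHO its
value is `Σ_{i ≤ p} Q (ls.take i) pre * Σ_j t^(..) Q ((ls.drop i).take j) R * Q ((ls.drop i).drop j) post`
(`i > p` vanish). MOM, PZY: `ρ P ≤` the sum of the coefficients with exponent `> b + 1`. Those with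
`i < p` are in total `P - w0`; for `i = p` (`ls.drop p = 1::b::d::bs`) exponent `> b+1` means `j ≥ 3`:
GUB. -/
def RG2Stmt : Prop := ∀ (cs bs : List ℕ) (b d : ℕ) (pre mid post : List ℝ) (v y : ℝ),
  1 ≤ b → 1 ≤ d → (∀ l ∈ cs, 1 ≤ l) → (∀ l ∈ bs, 1 ≤ l) → pre.length = cs.length →
  IsMax (cs ++ 1 :: b :: d :: bs) (pre ++ v :: (mid ++ y :: post)) →
  (b : ℝ) + 5 / 2 ≤ ((cs ++ 1 :: b :: d :: bs).sum : ℝ) * (v + mid.sum + y) →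
  9 / (4 * (b : ℝ) + 19) * Q (cs ++ 1 :: b :: d :: bs) (pre ++ v :: (mid ++ y :: post)) ≤
    (Q (cs ++ 1 :: b :: d :: bs) (pre ++ v :: (mid ++ y :: post)) -
      Q cs pre * Q (1 :: b :: d :: bs) (v :: (mid ++ y :: post))) +
    Q cs pre * (Q [1, b] (v :: mid) * Q (d :: bs) (mid ++ y :: post))

/-- row RG3 (the same with `1 :: b` the end of `ls`: for `i = p` no exponent is `> b + 1`). -/
def RG3Stmt : Prop := ∀ (cs : List ℕ) (b : ℕ) (pre mid post : List ℝ) (v y : ℝ),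
  1 ≤ b → (∀ l ∈ cs, 1 ≤ l) → pre.length = cs.length →
  IsMax (cs ++ [1, b]) (pre ++ v :: (mid ++ y :: post)) →
  (b : ℝ) + 5 / 2 ≤ ((cs ++ [1, b]).sum : ℝ) * (v + mid.sum + y) →
  9 / (4 * (b : ℝ) + 19) * Q (cs ++ [1, b]) (pre ++ v :: (mid ++ y :: post)) ≤
    Q (cs ++ [1, b]) (pre ++ v :: (mid ++ y :: post)) -
      Q cs pre * Q [1, b] (v :: (mid ++ y :: post))

/-- row NU5. `A ≥ 2b + 6`. Divide by `ξ^(b+1)`; `ξ^(A-b-1) exp(-ξ) ≤ 2^(A-b-1) exp(-2)` (increasing on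
`[0,2]` as `A - b - 1 ≥ 2`) and `p ≤ 2^(A-2b-6)`: the right side is at most
`kap b * ν^(b+1) * A (4e/A)^A * 2^(-3b-7) exp(-2)`, `ν = b + 5/2`; `A (4e/A)^A` decreases for
`A ≥ 8`, so `A = 2b+6` is the worst case, `A (4e/A)^A = (2b+6) (2e/(b+3))^(2b+6)`; with
`ν^(b+1) ≤ (b+3)^(b+1)` the bound is `kap b * exp(2b+4) / ((b+3)^(b+4) 2^b)`: `b = 1`: `0.0985`,
`b = 2`: `0.008`, then it decreases by a factor `< 1/2` at each step; and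
`9/(4b+19) - ε ≥ 9/(4b+19) - 2^(-2b-7)` is `> 0.38` for `b = 1`, `> 0.33` for `b = 2`, and `≥ 8/(4b+19)`
in general. -/
def NU5Stmt : Prop := ∀ (A b p : ℕ) (ξ ε : ℝ), 1 ≤ b → 1 ≤ p → p * 2 ^ (2 * b + 6) ≤ 2 ^ A →
  0 < ξ → ξ < 2 → 0 ≤ ε → ε ≤ (p : ℝ) / 2 ^ (A + 1) →
  kap b * ((b : ℝ) + 5 / 2) ^ (b + 1) *
      ((p : ℝ) * ((A : ℝ) * (Real.exp 1 * ξ / A) ^ A * Real.exp (-ξ))) <
    (9 / (4 * (b : ℝ) + 19) - ε) * ξ ^ (b + 1)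

/-- row CO5. Let `xs` be a maximiser; drop its zero entries (as in COR/CO2). `P > 0`, so
`xs = pre ++ v :: tl`, `pre.length = cs.length = p`, all entries positive. `ε = p / 2^(A+1) ≤ 2^(-2b-7)`.
EPS: `P - w0 ≤ ε P`; XI2: `ξ = N v < 2`. Put `U = Q bs tl`, `ν = b + 5/2`, `ρ = 9/(4b+19)`.
Claim: `(ρ - ε) P ≤ Q cs pre * kap b * (ν/N)^(b+1) * U`. If `N (v + tl.sum) ≤ ν`: SB1 and K12:
`(1-ε) P ≤ w0 ≤ Q cs pre * kap b * (v + tl.sum)^(b+1) * U`. Otherwise CUT for `v :: tl` and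
`c = ν/N`: `v :: tl = pre' ++ y :: post`; `pre' = []` is impossible (`N v < 2 < ν`), so
`pre' = v :: mid`, `tl = mid ++ y :: post`. If `bs = []`: RG3 gives `ρ P ≤ ε P`, false. If
`bs = d :: bs'`: RG2 and K12 (`(v :: mid).sum ≤ ν/N`). Multiply the claim by `(N v)^(b+1) = ξ^(b+1)`;
EXS, CHF (`L1 = cs.take j`, `L2 = cs.drop (j+1) ++ 1::b::bs`), MON:
`Q cs pre * v^(b+1) * U ≤ P * p * A (exp 1 * ξ/A)^A exp(-ξ)`. Divide by `P`: contradiction to NU5. -/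
def CO5Stmt : Prop := ∀ (cs bs : List ℕ) (b A : ℕ), cs ≠ [] → 1 ≤ b → (∀ a ∈ cs, A ≤ a) →
  (∀ l ∈ bs, 1 ≤ l) → cs.length * 2 ^ (2 * b + 6) ≤ 2 ^ A →
  ∀ xs : List ℝ, ¬ IsMax (cs ++ 1 :: b :: bs) xs

end Pool.LAY
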